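import Pool.Agent.GTE.IdA

/-!
# GTE: the discriminant of the pencil on the line `n = alt (h, a, b)`
-/

set_option autoImplicit false

noncomputable section

namespace Pool.Agent.GTE

open Matrix

variable {R : Type} [Field R] [CharZero R]

omit [CharZero R] in
private theorem dot_comm (x y : Matrix (Fin 3) (Fin 3) R) : dot x y = dot y x :=
  trace_mul_comm x y

omit [CharZero R] in
private theorem kf_symm (x y z w : Matrix (Fin 3) (Fin 3) R) : kf x y z w = kf z w x y := by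
  unfold kf
  rw [dot_comm (x * y - y * x) (z * w - w * z), dot_comm z x, dot_comm w y, dot_comm z y,
    dot_comm w x]
  ring

omit [CharZero R] in
private theorem kf_neg (x y z w : Matrix (Fin 3) (Fin 3) R) : kf y x z w = -kf x y z w := by
  have h1 : y * x - x * y = -(x * y - y * x) := by abel
  have h2 : dot (-(x * y - y * x)) (z * w - w * z) = -dot (x * y - y * x) (z * w - w * z) := by
    unfold dot
    rw [neg_mul, trace_neg]
  unfold kf
  rw [h1, h2]
  ring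

omit [CharZero R] in
private theorem kf_neg' (x y z w : Matrix (Fin 3) (Fin 3) R) : kf x y w z = -kf x y z w := by
  rw [kf_symm x y w z, kf_neg z w x y, kf_symm z w x y]

omit [CharZero R] in
private theorem KM_symm (h a b : Matrix (Fin 3) (Fin 3) R) (i j : Fin 3) :
    KM h a b i j = KM h a b j i :=
  kf_symm _ _ _ _

omit [CharZero R] in
private theorem dot_bM (E : EDat R) (b : Fin 2 → R) (x : Fin 5 → R) :
    dot (sym x) (E.bM b) =
      dot (sym x) (E.fM 0) + b 0 * dot (sym x) (E.fM 1) + b 1 * dot (sym x) (E.fM 2) := by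
  simp only [dot, EDat.bM, EDat.aM, EDat.swap, EDat.fM, sym, Matrix.trace_fin_three,
    Matrix.mul_apply, Fin.sum_univ_three, Matrix.of_apply, Matrix.cons_val', Matrix.cons_val_zero,
    Matrix.cons_val_one, Matrix.cons_val_fin_one, Matrix.cons_val]
  ring

/-- the numbers `s₁`, `s₂` and the discriminant, in terms of `K` and `θ` (use `id_tri`) -/
theorem s1_eq (E : EDat R) (c b : Fin 2 → R) (m g : Fin 5 → R) (hs : E.Sol c m g) :
    6 * dv (tri (sym m) E.hM (E.aM c)) (alt E.hM (E.aM c) (E.bM b)) =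
      KM E.hM (E.aM c) (E.bM b) 1 2 * E.θ c b 2 - KM E.hM (E.aM c) (E.bM b) 2 2 * E.θ c b 1 := by
  have h := id_tri m E.h (fun k => E.e 0 k + c 0 * E.e 1 k + c 1 * E.e 2 k)
    (fun k => E.f 0 k + b 0 * E.f 1 k + b 1 * E.f 2 k)
  change 6 * dv (tri (sym m) E.hM (E.aM c)) (alt E.hM (E.aM c) (E.bM b)) =
    KM E.hM (E.aM c) (E.bM b) 0 2 * dot (sym m) E.hM +
      KM E.hM (E.aM c) (E.bM b) 1 2 * dot (sym m) (E.aM c) +
      KM E.hM (E.aM c) (E.bM b) 2 2 * dot (sym m) (E.bM b) at h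
  rw [h, dot_bM, hs.mh, hs.ma, hs.mf 0, hs.mf 1, hs.mf 2]
  simp only [EDat.θ, Matrix.cons_val_one, Matrix.cons_val_zero, Matrix.cons_val]
  ring

theorem s2_eq (E : EDat R) (c b : Fin 2 → R) (m g : Fin 5 → R) (hs : E.Sol c m g) :
    6 * dv (tri (sym g) E.hM (E.aM c)) (alt E.hM (E.aM c) (E.bM b)) =
      KM E.hM (E.aM c) (E.bM b) 2 2 * E.θ c b 0 - KM E.hM (E.aM c) (E.bM b) 0 2 * E.θ c b 2 := by
  have h := id_tri g E.h (fun k => E.e 0 k + c 0 * E.e 1 k + c 1 * E.e 2 k)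
    (fun k => E.f 0 k + b 0 * E.f 1 k + b 1 * E.f 2 k)
  change 6 * dv (tri (sym g) E.hM (E.aM c)) (alt E.hM (E.aM c) (E.bM b)) =
    KM E.hM (E.aM c) (E.bM b) 0 2 * dot (sym g) E.hM +
      KM E.hM (E.aM c) (E.bM b) 1 2 * dot (sym g) (E.aM c) +
      KM E.hM (E.aM c) (E.bM b) 2 2 * dot (sym g) (E.bM b) at h
  rw [h, dot_bM, hs.gh, hs.ga, hs.gf 0, hs.gf 1, hs.gf 2]
  simp only [EDat.θ, Matrix.cons_val_one, Matrix.cons_val_zero, Matrix.cons_val]
  ring

omit [CharZero R] in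
private theorem ids (E : EDat R) (c b : Fin 2 → R) :
    36 * aq E.hM (alt E.hM (E.aM c) (E.bM b)) =
        KM E.hM (E.aM c) (E.bM b) 1 1 * KM E.hM (E.aM c) (E.bM b) 2 2 -
          KM E.hM (E.aM c) (E.bM b) 1 2 ^ 2 ∧
      36 * aq (E.aM c) (alt E.hM (E.aM c) (E.bM b)) =
        KM E.hM (E.aM c) (E.bM b) 0 0 * KM E.hM (E.aM c) (E.bM b) 2 2 -
          KM E.hM (E.aM c) (E.bM b) 0 2 ^ 2 ∧
      18 * ap E.hM (E.aM c) (alt E.hM (E.aM c) (E.bM b)) =
        KM E.hM (E.aM c) (E.bM b) 0 2 * KM E.hM (E.aM c) (E.bM b) 1 2 -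
          KM E.hM (E.aM c) (E.bM b) 0 1 * KM E.hM (E.aM c) (E.bM b) 2 2 :=
  ⟨id_hh E.h (fun k => E.e 0 k + c 0 * E.e 1 k + c 1 * E.e 2 k)
      (fun k => E.f 0 k + b 0 * E.f 1 k + b 1 * E.f 2 k),
    id_aa E.h (fun k => E.e 0 k + c 0 * E.e 1 k + c 1 * E.e 2 k)
      (fun k => E.f 0 k + b 0 * E.f 1 k + b 1 * E.f 2 k),
    id_ha E.h (fun k => E.e 0 k + c 0 * E.e 1 k + c 1 * E.e 2 k)
      (fun k => E.f 0 k + b 0 * E.f 1 k + b 1 * E.f 2 k)⟩

theorem D0_eq (E : EDat R) (c b : Fin 2 → R) :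
    324 * D0 E.hM (E.aM c) (alt E.hM (E.aM c) (E.bM b)) =
      -(KM E.hM (E.aM c) (E.bM b) 2 2 * (KM E.hM (E.aM c) (E.bM b)).det) := by
  obtain ⟨h1, h2, h3⟩ := ids E c b
  rw [det_fin_three, KM_symm _ _ _ 1 0, KM_symm _ _ _ 2 0, KM_symm _ _ _ 2 1]
  unfold D0
  generalize aq E.hM (alt E.hM (E.aM c) (E.bM b)) = x at *
  generalize aq (E.aM c) (alt E.hM (E.aM c) (E.bM b)) = y at *
  generalize ap E.hM (E.aM c) (alt E.hM (E.aM c) (E.bM b)) = z at *
  have e : 324 * (z ^ 2 - 4 * (x * y)) = (18 * z) ^ 2 - (36 * x) * (36 * y) := by ring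
  rw [e, h1, h2, h3]
  ring

/-- the discriminant -/
theorem Dl_eq (E : EDat R) (c b : Fin 2 → R) (m g : Fin 5 → R) (hs : E.Sol c m g) :
    324 * Dl E.hM (E.aM c) (E.d c)
        (dv (tri (sym m) E.hM (E.aM c)) (alt E.hM (E.aM c) (E.bM b)))
        (dv (tri (sym g) E.hM (E.aM c)) (alt E.hM (E.aM c) (E.bM b)))
        (alt E.hM (E.aM c) (E.bM b)) =
      -(KM E.hM (E.aM c) (E.bM b) 2 2 ^ 2 * (E.DM c b).det) := by
  obtain ⟨h1, h2, h3⟩ := ids E c b
  have h4 := s1_eq E c b m g hs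
  have h5 := s2_eq E c b m g hs
  have h6 : E.d c = KM E.hM (E.aM c) (E.bM b) 2 2 + E.θ c b 2 ^ 2 := by
    have e : E.θ c b 2 = -E.ah c := rfl
    rw [e, neg_sq]
    rfl
  have h7 : ∀ i j, E.DM c b i j = KM E.hM (E.aM c) (E.bM b) i j + E.θ c b i * E.θ c b j :=
    fun i j => rfl
  rw [det_fin_three]
  simp only [h7]
  rw [KM_symm _ _ _ 1 0, KM_symm _ _ _ 2 0, KM_symm _ _ _ 2 1, h6]
  unfold Dl D0
  generalize aq E.hM (alt E.hM (E.aM c) (E.bM b)) = x at *
  generalize aq (E.aM c) (alt E.hM (E.aM c) (E.bM b)) = y at *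
  generalize ap E.hM (E.aM c) (alt E.hM (E.aM c) (E.bM b)) = z at *
  generalize dv (tri (sym m) E.hM (E.aM c)) (alt E.hM (E.aM c) (E.bM b)) = s at *
  generalize dv (tri (sym g) E.hM (E.aM c)) (alt E.hM (E.aM c) (E.bM b)) = t at *
  generalize E.θ c b 0 = t0 at *
  generalize E.θ c b 1 = t1 at *
  generalize E.θ c b 2 = t2 at *
  generalize KM E.hM (E.aM c) (E.bM b) 0 0 = k00 at *
  generalize KM E.hM (E.aM c) (E.bM b) 0 1 = k01 at *
  generalize KM E.hM (E.aM c) (E.bM b) 0 2 = k02 at *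
  generalize KM E.hM (E.aM c) (E.bM b) 1 1 = k11 at *
  generalize KM E.hM (E.aM c) (E.bM b) 1 2 = k12 at *
  generalize KM E.hM (E.aM c) (E.bM b) 2 2 = k22 at *
  have e : 324 * ((k22 + t2 ^ 2) * (z ^ 2 - 4 * (x * y)) -
      4 * (y * s ^ 2 - z * (s * t) + x * t ^ 2)) =
      (k22 + t2 ^ 2) * ((18 * z) ^ 2 - (36 * x) * (36 * y)) -
        ((36 * y) * (6 * s) ^ 2 - 2 * (18 * z) * ((6 * s) * (6 * t)) + (36 * x) * (6 * t) ^ 2) := by
    ring
  rw [e, h1, h2, h3, h4, h5]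
  ring

/-- the matrix of the exchanged datum has the same determinant -/
theorem det_swap (E : EDat R) (c b : Fin 2 → R) : (E.swap.DM b c).det = (E.DM c b).det := by
  have ht0 : E.swap.θ b c 0 = -E.θ c b 0 := by
    simp only [EDat.θ, EDat.swap, EDat.af, Matrix.cons_val_zero]
    ring
  have ht1 : E.swap.θ b c 1 = -E.θ c b 2 := by
    simp only [EDat.θ, EDat.swap, EDat.ah, Matrix.cons_val_one, Matrix.cons_val_zero,
      Matrix.cons_val]
    ring
  have ht2 : E.swap.θ b c 2 = -E.θ c b 1 := by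
    simp only [EDat.θ, EDat.swap, EDat.ah, Matrix.cons_val_one, Matrix.cons_val_zero,
      Matrix.cons_val]
    ring
  have key : E.swap.DM b c = (E.DM c b).submatrix (Equiv.swap 1 2) (Equiv.swap 1 2) := by
    have hsw : E.swap.swap.aM c = E.aM c := by
      simp [EDat.swap]
    have hh : E.swap.hM = E.hM := rfl
    have ha : E.swap.aM b = E.bM b := rfl
    have hb : E.swap.bM c = E.aM c := hsw
    have e0 : (Equiv.swap (1 : Fin 3) 2) 0 = 0 := by decide
    have e1 : (Equiv.swap (1 : Fin 3) 2) 1 = 2 := by decide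
    have e2 : (Equiv.swap (1 : Fin 3) 2) 2 = 1 := by decide
    have n1 : ∀ x y z w : Matrix (Fin 3) (Fin 3) R, kf x y z w = kf y x w z := fun x y z w => by
      rw [kf_neg y x z w, kf_neg' y x w z, neg_neg]
    ext i j
    rw [Matrix.submatrix_apply]
    simp only [EDat.DM, hh, ha, hb]
    fin_cases i <;> fin_cases j <;>
      simp only [Fin.zero_eta, Fin.mk_one, Fin.reduceFinMk, e0, e1, e2, ht0, ht1, ht2,
        Matrix.cons_val_zero, Matrix.cons_val_one, Matrix.cons_val] <;>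
      rw [n1] <;> ring
  rw [key, Matrix.det_submatrix_equiv_self]

omit [CharZero R] in
theorem swap_swap (E : EDat R) : E.swap.swap = E := by
  simp [EDat.swap]

end Pool.Agent.GTE
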