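import Pool.Agent.GTE.Pass

/-!
# GTE: the two fibrations have the same field

If the class of the isotropic vector `u` (up to `L ^ *`) generates `Ω` over `ℂ (c)`, then there is
an isotropic vector `u'` of the exchanged datum with the parameters `b` whose class generates `Ω`
over `ℂ (b)`. Proof: `Ω = ℂ (c, b, τ)`, because `u` is proportional to a column `col` with entries
in `ℂ (c, b, τ)` (`iso_eq_col`). Let `S` be the symmetric matrix which belongs to the exchanged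
datum and the point `(b, c, τ)` (`det_swap`: this is a point of the exchanged fourfold),
`n = alt (h, b, a)` and `w` a vector such that `wᵀ S w` is not 0. Take `u' = (S w, n × w)`.
If `u' = (α + β √d) v` with `v` rational over `T` and `b` in `T`, then `p × q` and `io` of `v` give
`c` and `τ` in `T` (`cr_mulL`, `io_mulL`; the vectors `alt (h, b, e i)` are independent).
-/

set_option autoImplicit false

noncomputable section

namespace Pool.Agent.GTE

open Matrix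

variable {Ω : Type} [Field Ω] [Algebra ℂ Ω]

/-- `u` generates the field over `ℂ (c)` up to multiplication by `L` -/
def GenL (c : Fin 2 → Ω) (d : Ω) (u : Fin 6 → Ω) : Prop :=
  ∀ T : IntermediateField ℂ Ω, (∀ i, c i ∈ T) →
    (∃ (v : Fin 6 → Ω) (α β : Ω), (∀ i, v i ∈ T) ∧ u = mulL d α β v) → T = ⊤

/-! ### Rationality -/

section Mem

variable {T : IntermediateField ℂ Ω}

/-- the entries of the matrix are in `T` -/
private def MT (T : IntermediateField ℂ Ω) (A : Matrix (Fin 3) (Fin 3) Ω) : Prop :=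
  ∀ i j, A i j ∈ T

/-- the entries of the vector are in `T` -/
private def VT (T : IntermediateField ℂ Ω) (v : Fin 3 → Ω) : Prop := ∀ i, v i ∈ T

private theorem ofNat_mem' (k : ℕ) : (k : Ω) ∈ T := natCast_mem T k

private theorem MT.mul {A B : Matrix (Fin 3) (Fin 3) Ω} (hA : MT T A) (hB : MT T B) :
    MT T (A * B) := fun i j => by
  rw [Matrix.mul_apply]
  exact sum_mem fun k _ => mul_mem (hA i k) (hB k j)

private theorem MT.add {A B : Matrix (Fin 3) (Fin 3) Ω} (hA : MT T A) (hB : MT T B) :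
    MT T (A + B) := fun i j => add_mem (hA i j) (hB i j)

private theorem MT.sub {A B : Matrix (Fin 3) (Fin 3) Ω} (hA : MT T A) (hB : MT T B) :
    MT T (A - B) := fun i j => sub_mem (hA i j) (hB i j)

private theorem MT.neg {A : Matrix (Fin 3) (Fin 3) Ω} (hA : MT T A) : MT T (-A) :=
  fun i j => neg_mem (hA i j)

private theorem MT.smul {A : Matrix (Fin 3) (Fin 3) Ω} {x : Ω} (hx : x ∈ T) (hA : MT T A) :
    MT T (x • A) := fun i j => mul_mem hx (hA i j)

private theorem MT.tr {A : Matrix (Fin 3) (Fin 3) Ω} (hA : MT T A) : MT T Aᵀ :=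
  fun i j => hA j i

private theorem MT.trace {A : Matrix (Fin 3) (Fin 3) Ω} (hA : MT T A) : trace A ∈ T := by
  rw [Matrix.trace_fin_three]
  exact add_mem (add_mem (hA _ _) (hA _ _)) (hA _ _)

private theorem MT.sym {v : Fin 5 → Ω} (hv : ∀ k, v k ∈ T) : MT T (sym v) := by
  intro i j
  fin_cases i <;> fin_cases j <;> first
    | exact hv _
    | exact neg_mem (add_mem (hv _) (hv _))

private theorem MT.cross {n : Fin 3 → Ω} (hn : VT T n) :
    MT T !![0, n 2, -n 1; -n 2, 0, n 0; n 1, -n 0, 0] := by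
  intro i j
  fin_cases i <;> fin_cases j <;> first
    | exact zero_mem T
    | exact hn _
    | exact neg_mem (hn _)

private theorem MT.cross' {n : Fin 3 → Ω} (hn : VT T n) :
    MT T !![0, -n 2, n 1; n 2, 0, -n 0; -n 1, n 0, 0] := by
  intro i j
  fin_cases i <;> fin_cases j <;> first
    | exact zero_mem T
    | exact hn _
    | exact neg_mem (hn _)

private theorem MT.vec {A : Matrix (Fin 3) (Fin 3) Ω} (hA : MT T A) : VT T (vec A) := by
  intro i
  fin_cases i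
  · exact hA 2 1
  · exact hA 0 2
  · exact hA 1 0

private theorem dot_mem {x y : Matrix (Fin 3) (Fin 3) Ω} (hx : MT T x) (hy : MT T y) :
    dot x y ∈ T := (hx.mul hy).trace

private theorem alt_mem {x y z : Matrix (Fin 3) (Fin 3) Ω} (hx : MT T x) (hy : MT T y)
    (hz : MT T z) : VT T (alt x y z) :=
  MT.vec ((((hx.mul hy).mul hz).add ((hy.mul hz).mul hx)).add ((hz.mul hx).mul hy) |>.sub
    ((((hy.mul hx).mul hz).add ((hx.mul hz).mul hy)).add ((hz.mul hy).mul hx)))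

private theorem tri_mem {x y z : Matrix (Fin 3) (Fin 3) Ω} (hx : MT T x) (hy : MT T y)
    (hz : MT T z) : VT T (tri x y z) :=
  MT.vec ((((hx.mul hy).mul hz).add ((hy.mul hx).mul hz)).add ((hy.mul hz).mul hx) |>.sub
    ((((hx.mul hz).mul hy).add ((hz.mul hx).mul hy)).add ((hz.mul hy).mul hx)))

private theorem kf_mem {x y z w : Matrix (Fin 3) (Fin 3) Ω} (hx : MT T x) (hy : MT T y)
    (hz : MT T z) (hw : MT T w) : kf x y z w ∈ T := by
  unfold kf
  refine add_mem (sub_mem (mul_mem ?_ (dot_mem ((hx.mul hy).sub (hy.mul hx))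
    ((hz.mul hw).sub (hw.mul hz)))) (mul_mem (dot_mem hx hz) (dot_mem hy hw)))
    (mul_mem (dot_mem hx hw) (dot_mem hy hz))
  exact neg_mem (ofNat_mem' 2)

private theorem dv_mem {u v : Fin 3 → Ω} (hu : VT T u) (hv : VT T v) : dv u v ∈ T :=
  add_mem (add_mem (mul_mem (hu _) (hv _)) (mul_mem (hu _) (hv _))) (mul_mem (hu _) (hv _))

private theorem cr_mem {u v : Fin 3 → Ω} (hu : VT T u) (hv : VT T v) : VT T (cr u v) := by
  intro i
  fin_cases i <;> exact sub_mem (mul_mem (hu _) (hv _)) (mul_mem (hu _) (hv _))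

private theorem qf_mem {x : Matrix (Fin 3) (Fin 3) Ω} {u v : Fin 3 → Ω} (hx : MT T x)
    (hu : VT T u) (hv : VT T v) : qf x u v ∈ T := by
  have h : ∀ i, x i 0 * v 0 + x i 1 * v 1 + x i 2 * v 2 ∈ T := fun i =>
    add_mem (add_mem (mul_mem (hx _ _) (hv _)) (mul_mem (hx _ _) (hv _)))
      (mul_mem (hx _ _) (hv _))
  exact add_mem (add_mem (mul_mem (hu _) (h 0)) (mul_mem (hu _) (h 1))) (mul_mem (hu _) (h 2))

private theorem two_mul_mem {x : Ω} (hx : x ∈ T) : 2 * x ∈ T := mul_mem (ofNat_mem' 2) hx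

private theorem aq_mem {x : Matrix (Fin 3) (Fin 3) Ω} {n : Fin 3 → Ω} (hx : MT T x)
    (hn : VT T n) : aq x n ∈ T := by
  have h1 : ∀ i j k l r s, x i j * x k l - x r s ^ 2 ∈ T := fun i j k l r s =>
    sub_mem (mul_mem (hx _ _) (hx _ _)) (pow_mem (hx _ _) 2)
  have h2 : ∀ i j k l r s t v, x i j * x k l - x r s * x t v ∈ T := fun i j k l r s t v =>
    sub_mem (mul_mem (hx _ _) (hx _ _)) (mul_mem (hx _ _) (hx _ _))
  have h3 : ∀ i j, n i * n j ∈ T := fun i j => mul_mem (hn i) (hn j)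
  have h4 : ∀ i, n i ^ 2 ∈ T := fun i => pow_mem (hn i) 2
  unfold aq
  exact add_mem (add_mem (add_mem (add_mem (add_mem (mul_mem (h1 ..) (h4 _))
    (mul_mem (h1 ..) (h4 _))) (mul_mem (h1 ..) (h4 _))) (mul_mem (two_mul_mem (h2 ..)) (h3 _ _)))
    (mul_mem (two_mul_mem (h2 ..)) (h3 _ _))) (mul_mem (two_mul_mem (h2 ..)) (h3 _ _))

private theorem ap_mem {x y : Matrix (Fin 3) (Fin 3) Ω} {n : Fin 3 → Ω} (hx : MT T x)
    (hy : MT T y) (hn : VT T n) : ap x y n ∈ T := by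
  have hxy : ∀ i j k l, x i j * y k l ∈ T := fun i j k l => mul_mem (hx _ _) (hy _ _)
  have hyx : ∀ i j k l, y i j * x k l ∈ T := fun i j k l => mul_mem (hy _ _) (hx _ _)
  have h3 : ∀ i j, n i * n j ∈ T := fun i j => mul_mem (hn i) (hn j)
  have h4 : ∀ i, n i ^ 2 ∈ T := fun i => pow_mem (hn i) 2
  unfold ap
  refine add_mem (add_mem (add_mem (add_mem (add_mem (mul_mem ?_ (h4 _))
    (mul_mem ?_ (h4 _))) (mul_mem ?_ (h4 _))) (mul_mem (two_mul_mem ?_) (h3 _ _)))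
    (mul_mem (two_mul_mem ?_) (h3 _ _))) (mul_mem (two_mul_mem ?_) (h3 _ _))
  · exact sub_mem (add_mem (hxy ..) (hyx ..)) (two_mul_mem (hxy ..))
  · exact sub_mem (add_mem (hxy ..) (hyx ..)) (two_mul_mem (hxy ..))
  · exact sub_mem (add_mem (hxy ..) (hyx ..)) (two_mul_mem (hxy ..))
  · exact sub_mem (sub_mem (add_mem (hxy ..) (hyx ..)) (hxy ..)) (hyx ..)
  · exact sub_mem (sub_mem (add_mem (hxy ..) (hyx ..)) (hxy ..)) (hyx ..)
  · exact sub_mem (sub_mem (add_mem (hxy ..) (hyx ..)) (hxy ..)) (hyx ..)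

private theorem D0_mem {x y : Matrix (Fin 3) (Fin 3) Ω} {n : Fin 3 → Ω} (hx : MT T x)
    (hy : MT T y) (hn : VT T n) : D0 x y n ∈ T :=
  sub_mem (pow_mem (ap_mem hx hy hn) 2) (mul_mem (ofNat_mem' 4) (mul_mem (aq_mem hx hn)
    (aq_mem hy hn)))

private theorem io_mem {x y : Matrix (Fin 3) (Fin 3) Ω} {d : Ω} {p q : Fin 3 → Ω} (hx : MT T x)
    (hy : MT T y) (hd : d ∈ T) (hp : VT T p) (hq : VT T q) : io x y d p q ∈ T :=
  mul_mem (ofNat_mem' 2) (sub_mem (mul_mem (qf_mem hy hp hq) (add_mem (qf_mem hx hp hp)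
    (mul_mem hd (qf_mem hx hq hq)))) (mul_mem (qf_mem hx hp hq) (add_mem (qf_mem hy hp hp)
    (mul_mem hd (qf_mem hy hq hq)))))

private theorem xn_mem {x : Matrix (Fin 3) (Fin 3) Ω} {n : Fin 3 → Ω} (hx : MT T x)
    (hn : VT T n) : MT T (xn x n) :=
  (((MT.cross' hn).mul hx).mul (MT.cross' hn)).neg

private theorem jm_mem {x y : Matrix (Fin 3) (Fin 3) Ω} {n : Fin 3 → Ω} (hx : MT T x)
    (hy : MT T y) (hm : VT T n) : MT T (jm x y n) :=
  have h : MT T (hn x y n) := (hx.tr.mul (MT.cross hm)).mul hy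
  h.add h.tr

private theorem SS_mem {x y : Matrix (Fin 3) (Fin 3) Ω} {n : Fin 3 → Ω} (hx : MT T x)
    (hy : MT T y) (hn : VT T n) {x₁ x₂ x₃ : Ω} (h1 : x₁ ∈ T) (h2 : x₂ ∈ T) (h3 : x₃ ∈ T) :
    MT T (SS x y n x₁ x₂ x₃) := by
  unfold SS
  refine MT.smul (neg_mem (inv_mem (D0_mem hx hy hn))) (((MT.smul ?_ (xn_mem hx hn)).add
    (MT.smul ?_ (xn_mem hy hn))).add (MT.smul ?_ (xn_mem (jm_mem hx hy hn) hn)))
  · exact sub_mem (mul_mem (two_mul_mem (aq_mem hy hn)) h1) (mul_mem (ap_mem hx hy hn) h2)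
  · exact sub_mem (mul_mem (two_mul_mem (aq_mem hx hn)) h2) (mul_mem (ap_mem hx hy hn) h1)
  · exact div_mem h3 (ofNat_mem' 2)

/-- the datum is defined over `T` -/
private structure InT (T : IntermediateField ℂ Ω) (E : EDat Ω) : Prop where
  h : ∀ i, E.h i ∈ T
  e : ∀ i k, E.e i k ∈ T
  f : ∀ i k, E.f i k ∈ T
  p : ∀ i j, E.p i j ∈ T
  r : ∀ i, E.r i ∈ T
  s : ∀ i, E.s i ∈ T

private theorem InT.swap {E : EDat Ω} (hE : InT T E) : InT T E.swap :=
  ⟨hE.h, hE.f, hE.e, fun i j => neg_mem (hE.p j i), fun i => neg_mem (hE.s i),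
    fun i => neg_mem (hE.r i)⟩

private theorem InT.map (E : EDat ℂ) : InT T (E.map (algebraMap ℂ Ω)) :=
  ⟨fun _ => T.algebraMap_mem _, fun _ _ => T.algebraMap_mem _, fun _ _ => T.algebraMap_mem _,
    fun _ _ => T.algebraMap_mem _, fun _ => T.algebraMap_mem _, fun _ => T.algebraMap_mem _⟩

private theorem InT.hM {E : EDat Ω} (hE : InT T E) : MT T E.hM := by
  refine MT.sym fun k => ?_
  fin_cases k
  · exact hE.h 0
  · exact hE.h 1
  · exact zero_mem T
  · exact zero_mem T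
  · exact zero_mem T

private theorem InT.aM {E : EDat Ω} (hE : InT T E) {c : Fin 2 → Ω} (hc : ∀ i, c i ∈ T) :
    MT T (E.aM c) :=
  MT.sym fun _ => add_mem (add_mem (hE.e _ _) (mul_mem (hc _) (hE.e _ _)))
    (mul_mem (hc _) (hE.e _ _))

private theorem InT.fM {E : EDat Ω} (hE : InT T E) (j : Fin 3) : MT T (E.fM j) :=
  MT.sym fun _ => hE.f _ _

private theorem InT.bM {E : EDat Ω} (hE : InT T E) {b : Fin 2 → Ω} (hb : ∀ i, b i ∈ T) :
    MT T (E.bM b) := hE.swap.aM hb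

private theorem InT.d {E : EDat Ω} (hE : InT T E) {c : Fin 2 → Ω} (hc : ∀ i, c i ∈ T) :
    E.d c ∈ T :=
  add_mem (kf_mem hE.hM (hE.aM hc) hE.hM (hE.aM hc))
    (pow_mem (add_mem (add_mem (hE.r _) (mul_mem (hc _) (hE.r _))) (mul_mem (hc _) (hE.r _))) 2)

private theorem InT.col {E : EDat Ω} (hE : InT T E) {c b : Fin 2 → Ω} (hc : ∀ i, c i ∈ T)
    (hb : ∀ i, b i ∈ T) {m g : Fin 5 → Ω} (hm : ∀ k, m k ∈ T) (hg : ∀ k, g k ∈ T) {τ : Ω}
    (hτ : τ ∈ T) (i : Fin 3) (k : Fin 6) : E.col c b m g τ i k ∈ T := by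
  have hh := hE.hM
  have ha := hE.aM hc
  have hn : VT T (alt E.hM (E.aM c) (E.bM b)) := alt_mem hh ha (hE.bM hb)
  have hS : MT T (SS E.hM (E.aM c) (alt E.hM (E.aM c) (E.bM b))
      (2 * dv (tri (sym m) E.hM (E.aM c)) (alt E.hM (E.aM c) (E.bM b)))
      (2 * dv (tri (sym g) E.hM (E.aM c)) (alt E.hM (E.aM c) (E.bM b)))
      (τ * kf E.hM (E.aM c) E.hM (E.aM c) / 9)) :=
    SS_mem hh ha hn (two_mul_mem (dv_mem (tri_mem (MT.sym hm) hh ha) hn))
      (two_mul_mem (dv_mem (tri_mem (MT.sym hg) hh ha) hn))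
      (div_mem (mul_mem hτ (kf_mem hh ha hh ha)) (ofNat_mem' 9))
  have hc' : VT T (cr (alt E.hM (E.aM c) (E.bM b)) (Pi.single i 1)) := by
    refine cr_mem hn fun j => ?_
    rw [Pi.single_apply]
    split_ifs
    · exact one_mem T
    · exact zero_mem T
  unfold EDat.col
  fin_cases k
  · exact hS 0 i
  · exact hS 1 i
  · exact hS 2 i
  · exact hc' 0
  · exact hc' 1
  · exact hc' 2

end Mem

/-! ### The first side -/

private theorem charZ (Ω : Type) [Field Ω] [Algebra ℂ Ω] : CharZero Ω :=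
  charZero_of_injective_algebraMap (algebraMap ℂ Ω).injective

/-- the field is generated by `c`, `b`, `τ` -/
private theorem side1 [CharZero Ω] (E : EDat Ω) (hE : ∀ T : IntermediateField ℂ Ω, InT T E)
    {c : Fin 2 → Ω} {m g : Fin 5 → Ω} (hs : E.Sol c m g)
    (hmg : ∀ T : IntermediateField ℂ Ω, (∀ i, c i ∈ T) → (∀ k, m k ∈ T) ∧ ∀ k, g k ∈ T)
    {u : Fin 6 → Ω} (hu0 : u ≠ 0) (hu : E.IsoV c m g u) (hd : ∀ f : Ω, f ^ 2 ≠ E.d c)
    (hgen : GenL c (E.d c) u) {β : Fin 3 → Ω}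
    (hβ : ∀ i, cr (lo u) (hi u) i = ∑ j, β j * alt E.hM (E.aM c) (E.fM j) i) (hβ0 : β 0 ≠ 0)
    (hK : kf E.hM (E.aM c) E.hM (E.aM c) ≠ 0)
    (hD : D0 E.hM (E.aM c) (alt E.hM (E.aM c) (E.bM ![β 1 / β 0, β 2 / β 0])) ≠ 0) :
    ∃ τ, E.IsT c ![β 1 / β 0, β 2 / β 0] τ ∧ ∀ T : IntermediateField ℂ Ω, (∀ i, c i ∈ T) →
      (∀ i, (![β 1 / β 0, β 2 / β 0] : Fin 2 → Ω) i ∈ T) → τ ∈ T → T = ⊤ := by
  refine ⟨_, pt_of_iso E hs hu hβ hβ0 hK, fun T hc hb hτ => ?_⟩
  obtain ⟨hm, hg⟩ := hmg T hc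
  obtain ⟨i, hi0⟩ : ∃ i : Fin 3, lo u i ≠ 0 ∨ hi u i ≠ 0 := by
    by_contra hcon
    push Not at hcon
    apply hu0
    funext k
    fin_cases k
    · exact (hcon 0).1
    · exact (hcon 1).1
    · exact (hcon 2).1
    · exact (hcon 0).2
    · exact (hcon 1).2
    · exact (hcon 2).2
  have hN : lo u i ^ 2 - E.d c * hi u i ^ 2 ≠ 0 := by
    intro h0
    by_cases h1 : hi u i = 0
    · rw [h1] at h0
      have h2 : lo u i = 0 := by
        have h3 : lo u i ^ 2 = 0 := by linear_combination h0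
        exact pow_eq_zero_iff (two_ne_zero) |>.1 h3
      rcases hi0 with h | h
      · exact h h2
      · exact h h1
    · apply hd (lo u i / hi u i)
      rw [div_pow, div_eq_iff (pow_ne_zero 2 h1)]
      linear_combination h0
  have hcol := iso_eq_col E hs hu hβ hβ0 hK hD i
  have hmem := (hE T).col (b := ![β 1 / β 0, β 2 / β 0]) hc hb hm hg hτ i
  generalize E.col c ![β 1 / β 0, β 2 / β 0] m g (9 * io E.hM (E.aM c) (E.d c) (lo u) (hi u) /
      (β 0 ^ 2 * kf E.hM (E.aM c) E.hM (E.aM c))) i = v at hcol hmem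
  refine hgen T hc ⟨v, β 0 * (lo u i / (lo u i ^ 2 - E.d c * hi u i ^ 2)),
    β 0 * (hi u i / (lo u i ^ 2 - E.d c * hi u i ^ 2)), hmem, ?_⟩
  have hcol' : ∀ k, β 0 * v k = mulL (E.d c) (lo u i) (-hi u i) u k := fun k =>
    congrFun hcol k
  generalize lo u i = p at *
  generalize hi u i = q at *
  generalize E.d c = d at *
  have e0 := hcol' 0
  have e1 := hcol' 1
  have e2 := hcol' 2
  have e3 := hcol' 3
  have e4 := hcol' 4
  have e5 := hcol' 5
  simp only [mulL, Matrix.cons_val_zero, Matrix.cons_val_one, Matrix.cons_val] at e0 e1 e2 e3 e4 e5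
  funext k
  fin_cases k <;> simp only [mulL, Fin.zero_eta, Fin.mk_one, Fin.reduceFinMk,
    Matrix.cons_val_zero, Matrix.cons_val_one, Matrix.cons_val] <;> field_simp
  · linear_combination (-p) * e0 - q * d * e3
  · linear_combination (-p) * e1 - q * d * e4
  · linear_combination (-p) * e2 - q * d * e5
  · linear_combination (-p) * e3 - q * e0
  · linear_combination (-p) * e4 - q * e1
  · linear_combination (-p) * e5 - q * e2

/-! ### The second side -/

/-- a symmetric matrix of rank one over `L` -/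
private theorem S0_rank {R : Type} [CommRing R] (d : R) (n w : Fin 3 → R)
    (S : Matrix (Fin 3) (Fin 3) R) (hS : Sᵀ = S)
    (hadj : ∀ i j, S.adjugate i j = -d * (n i * n j)) :
    S0 d (S *ᵥ w) (cr n w) = qf S w w • S := by
  have s10 : S 1 0 = S 0 1 := congrFun (congrFun hS 0) 1
  have s20 : S 2 0 = S 0 2 := congrFun (congrFun hS 0) 2
  have s21 : S 2 1 = S 1 2 := congrFun (congrFun hS 1) 2
  rw [Matrix.adjugate_fin_three] at hadj
  have a00 := hadj 0 0
  have a01 := hadj 0 1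
  have a02 := hadj 0 2
  have a11 := hadj 1 1
  have a12 := hadj 1 2
  have a22 := hadj 2 2
  simp [s10, s20, s21] at a00 a01 a02 a11 a12 a22
  ext i j
  fin_cases i <;> fin_cases j <;>
    simp [S0, mulVec, dotProduct, Fin.sum_univ_three, cr, qf, s10, s20, s21]
  · linear_combination (-w 1 ^ 2) * a22 - w 2 ^ 2 * a11 + 2 * w 1 * w 2 * a12
  · linear_combination w 2 ^ 2 * a01 - w 0 * w 2 * a12 - w 1 * w 2 * a02 + w 0 * w 1 * a22
  · linear_combination w 1 ^ 2 * a02 - w 1 * w 2 * a01 + w 0 * w 2 * a11 - w 0 * w 1 * a12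
  · linear_combination w 2 ^ 2 * a01 - w 0 * w 2 * a12 - w 1 * w 2 * a02 + w 0 * w 1 * a22
  · linear_combination (-w 2 ^ 2) * a00 + 2 * w 0 * w 2 * a02 - w 0 ^ 2 * a22
  · linear_combination w 1 * w 2 * a00 - w 0 * w 2 * a01 - w 0 * w 1 * a02 + w 0 ^ 2 * a12
  · linear_combination w 1 ^ 2 * a02 - w 1 * w 2 * a01 + w 0 * w 2 * a11 - w 0 * w 1 * a12
  · linear_combination w 1 * w 2 * a00 - w 0 * w 2 * a01 - w 0 * w 1 * a02 + w 0 ^ 2 * a12
  · linear_combination (-w 1 ^ 2) * a00 + 2 * w 0 * w 1 * a01 - w 0 ^ 2 * a11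

/-- the vector product -/
private theorem cr_rank {R : Type} [CommRing R] (n w : Fin 3 → R)
    (S : Matrix (Fin 3) (Fin 3) R) (hS : Sᵀ = S) (hn : S *ᵥ n = 0) (i : Fin 3) :
    cr (S *ᵥ w) (cr n w) i = qf S w w * n i := by
  have s10 : S 1 0 = S 0 1 := congrFun (congrFun hS 0) 1
  have s20 : S 2 0 = S 0 2 := congrFun (congrFun hS 0) 2
  have s21 : S 2 1 = S 1 2 := congrFun (congrFun hS 1) 2
  have n0 := congrFun hn 0
  have n1 := congrFun hn 1
  have n2 := congrFun hn 2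
  simp only [mulVec, dotProduct, Fin.sum_univ_three, Pi.zero_apply, s10, s20, s21] at n0 n1 n2
  fin_cases i <;>
    simp [mulVec, dotProduct, Fin.sum_univ_three, cr, qf, s10, s20, s21]
  · linear_combination (-w 0) * (w 0 * n0 + w 1 * n1 + w 2 * n2)
  · linear_combination (-w 1) * (w 0 * n0 + w 1 * n1 + w 2 * n2)
  · linear_combination (-w 2) * (w 0 * n0 + w 1 * n1 + w 2 * n2)

private theorem jm_smul {R : Type} [CommRing R] (h a : Matrix (Fin 3) (Fin 3) R) (x : R)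
    (n : Fin 3 → R) : jm h a (fun i => x * n i) = x • jm h a n := by
  have e : hn h a (fun i => x * n i) = x • hn h a n := by
    unfold hn
    have e1 : (!![0, x * n 2, -(x * n 1); -(x * n 2), 0, x * n 0; x * n 1, -(x * n 0), 0] :
        Matrix (Fin 3) (Fin 3) R) = x • !![0, n 2, -n 1; -n 2, 0, n 0; n 1, -n 0, 0] := by
      ext i j
      fin_cases i <;> fin_cases j <;> simp
    rw [e1, Matrix.mul_smul, Matrix.smul_mul]
  unfold jm
  rw [e, Matrix.transpose_smul, smul_add]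

private theorem exists_w {R : Type} [Field R] [CharZero R] (S : Matrix (Fin 3) (Fin 3) R)
    (hS : Sᵀ = S) (h0 : S ≠ 0) : ∃ w : Fin 3 → R, qf S w w ≠ 0 := by
  by_contra hcon
  push Not at hcon
  have s10 : S 1 0 = S 0 1 := congrFun (congrFun hS 0) 1
  have s20 : S 2 0 = S 0 2 := congrFun (congrFun hS 0) 2
  have s21 : S 2 1 = S 1 2 := congrFun (congrFun hS 1) 2
  have h1 := hcon ![1, 0, 0]
  have h2 := hcon ![0, 1, 0]
  have h3 := hcon ![0, 0, 1]
  have h4 := hcon ![1, 1, 0]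
  have h5 := hcon ![1, 0, 1]
  have h6 := hcon ![0, 1, 1]
  simp [qf, s10, s20, s21] at h1 h2 h3 h4 h5 h6
  rw [h1, h2] at h4
  rw [h1, h3] at h5
  rw [h2, h3] at h6
  have h7 : S 0 1 = 0 := by
    have : (2 : R) * S 0 1 = 0 := by linear_combination h4
    simpa using this
  have h8 : S 0 2 = 0 := by
    have : (2 : R) * S 0 2 = 0 := by linear_combination h5
    simpa using this
  have h9 : S 1 2 = 0 := by
    have : (2 : R) * S 1 2 = 0 := by linear_combination h6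
    simpa using this
  apply h0
  ext i j
  fin_cases i <;> fin_cases j <;> simp [h1, h2, h3, h7, h8, h9, s10, s20, s21]

/-- the vector `(S w, n × w)` -/
private def uw {R : Type} [CommRing R] (S : Matrix (Fin 3) (Fin 3) R) (n w : Fin 3 → R) :
    Fin 6 → R :=
  ![(S *ᵥ w) 0, (S *ᵥ w) 1, (S *ᵥ w) 2, cr n w 0, cr n w 1, cr n w 2]

private theorem lo_uw {R : Type} [CommRing R] (S : Matrix (Fin 3) (Fin 3) R) (n w : Fin 3 → R) :
    lo (uw S n w) = S *ᵥ w := by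
  funext i
  fin_cases i <;> rfl

private theorem hi_uw {R : Type} [CommRing R] (S : Matrix (Fin 3) (Fin 3) R) (n w : Fin 3 → R) :
    hi (uw S n w) = cr n w := by
  funext i
  fin_cases i <;> rfl

private theorem herm_uw {R : Type} [CommRing R] (d : R) (x : Fin 5 → R) (t n w : Fin 3 → R)
    (S : Matrix (Fin 3) (Fin 3) R) (hS : Sᵀ = S) (hn : S *ᵥ n = 0)
    (hadj : ∀ i j, S.adjugate i j = -d * (n i * n j)) (htr : trace (sym x * S) = 2 * dv t n) :
    herm d (sym x) t (uw S n w) = 0 := by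
  rw [herm_eq, lo_uw, hi_uw, ← tr_S0, S0_rank d n w S hS hadj, Matrix.mul_smul, trace_smul, htr]
  have e : dv t (cr (S *ᵥ w) (cr n w)) = qf S w w * dv t n := by
    unfold dv
    rw [cr_rank n w S hS hn 0, cr_rank n w S hS hn 1, cr_rank n w S hS hn 2]
    ring
  rw [e, smul_eq_mul]
  ring

private theorem io_uw {R : Type} [CommRing R] (d : R) (h a : Fin 5 → R) (n w : Fin 3 → R)
    (S : Matrix (Fin 3) (Fin 3) R) (hS : Sᵀ = S) (hn : S *ᵥ n = 0)
    (hadj : ∀ i j, S.adjugate i j = -d * (n i * n j)) :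
    io (sym h) (sym a) d (lo (uw S n w)) (hi (uw S n w)) =
      qf S w w ^ 2 * trace (jm (sym h) (sym a) n * S) := by
  rw [lo_uw, hi_uw, ← tr_jm_S0, S0_rank d n w S hS hadj]
  have e : cr (S *ᵥ w) (cr n w) = fun i => qf S w w * n i := funext fun i =>
    cr_rank n w S hS hn i
  rw [e, jm_smul, Matrix.mul_smul, Matrix.smul_mul, trace_smul, trace_smul, smul_eq_mul,
    smul_eq_mul]
  ring

private theorem sym_tr {R : Type} [CommRing R] (v : Fin 5 → R) : (sym v)ᵀ = sym v := by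
  ext i j
  fin_cases i <;> fin_cases j <;> rfl

private theorem coord_mem {T : IntermediateField ℂ Ω} {N : Fin 3 → Fin 3 → Ω}
    (hN : ∀ i j, N i j ∈ T) (hind : LinearIndependent Ω N) {γ r : Fin 3 → Ω} (hr : ∀ j, r j ∈ T)
    (h : ∀ j, r j = γ 0 * N 0 j + γ 1 * N 1 j + γ 2 * N 2 j) (i : Fin 3) : γ i ∈ T := by
  have hdet : (Matrix.of N).det ≠ 0 := by
    have h1 : IsUnit (Matrix.of N) := Matrix.linearIndependent_rows_iff_isUnit.1 hind
    exact ((Matrix.isUnit_iff_isUnit_det _).1 h1).ne_zero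
  have hadj : MT T (Matrix.of N).adjugate := by
    rw [Matrix.adjugate_fin_three]
    intro k l
    fin_cases k <;> fin_cases l <;> simp only [Matrix.of_apply, Fin.zero_eta, Fin.mk_one,
      Fin.reduceFinMk, Matrix.cons_val', Matrix.cons_val_zero, Matrix.cons_val_one,
      Matrix.cons_val, Matrix.cons_val_fin_one] <;> first
      | exact sub_mem (mul_mem (hN _ _) (hN _ _)) (mul_mem (hN _ _) (hN _ _))
      | exact add_mem (neg_mem (mul_mem (hN _ _) (hN _ _))) (mul_mem (hN _ _) (hN _ _))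
  have hd : (Matrix.of N).det ∈ T := by
    rw [Matrix.det_fin_three]
    simp only [Matrix.of_apply]
    have h3 : ∀ i j k l r s, N i j * N k l * N r s ∈ T := fun i j k l r s =>
      mul_mem (mul_mem (hN _ _) (hN _ _)) (hN _ _)
    exact sub_mem (add_mem (add_mem (sub_mem (sub_mem (h3 ..) (h3 ..)) (h3 ..)) (h3 ..)) (h3 ..))
      (h3 ..)
  have e1 : γ ᵥ* Matrix.of N = r := by
    funext j
    rw [h j]
    simp [Matrix.vecMul, dotProduct, Fin.sum_univ_three]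
  have e2 : (Matrix.of N).det • γ = r ᵥ* (Matrix.of N).adjugate := by
    rw [← e1, Matrix.vecMul_vecMul, Matrix.mul_adjugate, Matrix.vecMul_smul, Matrix.vecMul_one]
  have e3 : γ i = (Matrix.of N).det⁻¹ * (r ᵥ* (Matrix.of N).adjugate) i := by
    rw [← e2, Pi.smul_apply, smul_eq_mul, inv_mul_cancel_left₀ hdet]
  rw [e3]
  refine mul_mem (inv_mem hd) ?_
  simp only [Matrix.vecMul, dotProduct]
  exact sum_mem fun k _ => mul_mem (hr k) (hadj k i)

private theorem side2 [CharZero Ω] (G : EDat Ω) (hG : ∀ T : IntermediateField ℂ Ω, InT T G)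
    {b c : Fin 2 → Ω} {m g : Fin 5 → Ω} (hs : G.Sol b m g) (hd0 : G.d b ≠ 0)
    (hK : kf G.hM (G.aM b) G.hM (G.aM b) ≠ 0)
    (hD : D0 G.hM (G.aM b) (alt G.hM (G.aM b) (G.bM c)) ≠ 0)
    (hn : LinearIndependent Ω fun i : Fin 3 => alt G.hM (G.aM b) (G.fM i)) {τ : Ω}
    (hτ : G.IsT b c τ)
    (hT : ∀ T : IntermediateField ℂ Ω, (∀ i, b i ∈ T) → (∀ i, c i ∈ T) → τ ∈ T → T = ⊤) :
    ∃ u : Fin 6 → Ω, u ≠ 0 ∧ G.IsoV b m g u ∧ GenL b (G.d b) u := by
  set n := alt G.hM (G.aM b) (G.bM c) with hndef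
  set x₁ := 2 * dv (tri (sym m) G.hM (G.aM b)) n with hx₁
  set x₂ := 2 * dv (tri (sym g) G.hM (G.aM b)) n with hx₂
  set x₃ := τ * kf G.hM (G.aM b) G.hM (G.aM b) / 9 with hx₃
  obtain ⟨hS1, hS2, hS3, hS4, hS5⟩ := SS_spec ![G.h 0, G.h 1, 0, 0, 0]
    (fun k => G.e 0 k + b 0 * G.e 1 k + b 1 * G.e 2 k) n x₁ x₂ x₃ hD
  have hadj0 := SS_adj ![G.h 0, G.h 1, 0, 0, 0]
    (fun k => G.e 0 k + b 0 * G.e 1 k + b 1 * G.e 2 k) n x₁ x₂ x₃ hD
  change (SS G.hM (G.aM b) n x₁ x₂ x₃)ᵀ = SS G.hM (G.aM b) n x₁ x₂ x₃ at hS1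
  change SS G.hM (G.aM b) n x₁ x₂ x₃ *ᵥ n = 0 at hS2
  change trace (G.hM * SS G.hM (G.aM b) n x₁ x₂ x₃) = x₁ at hS3
  change trace (G.aM b * SS G.hM (G.aM b) n x₁ x₂ x₃) = x₂ at hS4
  change trace (jm G.hM (G.aM b) n * SS G.hM (G.aM b) n x₁ x₂ x₃) = x₃ at hS5
  change ∀ i j, D0 G.hM (G.aM b) n * (SS G.hM (G.aM b) n x₁ x₂ x₃).adjugate i j =
      -(aq (G.aM b) n * x₁ ^ 2 - ap G.hM (G.aM b) n * (x₁ * x₂) + aq G.hM n * x₂ ^ 2 +
        x₃ ^ 2 / 4) * (n i * n j) at hadj0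
  have hDl := Dl_eq G b c m g hs
  rw [← hndef] at hDl
  have hτ' : τ ^ 2 = -(G.DM b c).det := hτ
  have hKM : KM G.hM (G.aM b) (G.bM c) 2 2 = kf G.hM (G.aM b) G.hM (G.aM b) := rfl
  rw [hKM] at hDl
  have hkey : aq (G.aM b) n * x₁ ^ 2 - ap G.hM (G.aM b) n * (x₁ * x₂) + aq G.hM n * x₂ ^ 2 +
      x₃ ^ 2 / 4 = G.d b * D0 G.hM (G.aM b) n := by
    unfold Dl at hDl
    rw [hx₁, hx₂, hx₃]
    have h324 : (324 : Ω) ≠ 0 := by norm_num
    apply mul_left_cancel₀ h324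
    have e : ∀ k : Ω, (324 : Ω) * ((τ * k / 9) ^ 2 / 4) = k ^ 2 * τ ^ 2 := fun k => by
      field_simp
      ring
    rw [mul_add, e, hτ']
    linear_combination -hDl
  have hadj : ∀ i j, (SS G.hM (G.aM b) n x₁ x₂ x₃).adjugate i j = -G.d b * (n i * n j) := by
    intro i j
    apply mul_left_cancel₀ hD
    rw [hadj0 i j, hkey]
    ring
  generalize SS G.hM (G.aM b) n x₁ x₂ x₃ = S at hS1 hS2 hS3 hS4 hS5 hadj
  have hn0 : ∃ i, n i ≠ 0 := by
    by_contra hcon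
    push Not at hcon
    apply hD
    simp [D0, ap, aq, hcon 0, hcon 1, hcon 2]
  obtain ⟨i₀, hi₀⟩ := hn0
  have hS0 : S ≠ 0 := by
    rintro rfl
    have h1 := hadj i₀ i₀
    rw [Matrix.adjugate_zero, Matrix.zero_apply] at h1
    exact mul_ne_zero (neg_ne_zero.2 hd0) (mul_ne_zero hi₀ hi₀) h1.symm
  obtain ⟨w, hw⟩ := exists_w S hS1 hS0
  have hlo : ∀ i, lo (uw S n w) i = (S *ᵥ w) i := fun i => by rw [lo_uw]
  refine ⟨uw S n w, fun h0 => hw ?_, fun j => ?_, fun T hb hex => ?_⟩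
  · have h1 : ∀ i, (S *ᵥ w) i = 0 := fun i => by
      rw [← hlo i, h0]
      fin_cases i <;> rfl
    have h2 : qf S w w = w 0 * (S *ᵥ w) 0 + w 1 * (S *ᵥ w) 1 + w 2 * (S *ᵥ w) 2 := by
      simp [qf, mulVec, dotProduct, Fin.sum_univ_three]
    rw [h2, h1, h1, h1]
    ring
  · fin_cases j
    · exact herm_uw (G.d b) ![G.h 0, G.h 1, 0, 0, 0] _ n w S hS1 hS2 hadj hS3
    · exact herm_uw (G.d b) (fun k => G.e 0 k + b 0 * G.e 1 k + b 1 * G.e 2 k) _ n w S hS1 hS2
        hadj hS4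
  · obtain ⟨v, α, β, hv, huv⟩ := hex
    have hcr : ∀ i, qf S w w * n i = (α ^ 2 - G.d b * β ^ 2) * cr (lo v) (hi v) i := fun i => by
      rw [← cr_mulL, ← huv, lo_uw, hi_uw, cr_rank n w S hS1 hS2]
    have hio : 9 * ((α ^ 2 - G.d b * β ^ 2) ^ 2 * io G.hM (G.aM b) (G.d b) (lo v) (hi v)) =
        qf S w w ^ 2 * (τ * kf G.hM (G.aM b) G.hM (G.aM b)) := by
      have h1 := io_mulL G.hM (G.aM b) (sym_tr _) (sym_tr _) (G.d b) α β v
      rw [← huv] at h1
      have h2 := io_uw (G.d b) ![G.h 0, G.h 1, 0, 0, 0]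
        (fun k => G.e 0 k + b 0 * G.e 1 k + b 1 * G.e 2 k) n w S hS1 hS2 hadj
      change io G.hM (G.aM b) (G.d b) (lo (uw S n w)) (hi (uw S n w)) =
        qf S w w ^ 2 * trace (jm G.hM (G.aM b) n * S) at h2
      rw [hS5] at h2
      rw [← h1, h2, hx₃]
      field_simp
    generalize α ^ 2 - G.d b * β ^ 2 = ρ at hcr hio
    have hρ : ρ ≠ 0 := by
      rintro rfl
      have h1 := hcr i₀
      rw [zero_mul] at h1
      exact mul_ne_zero hw hi₀ h1
    have hh := (hG T).hM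
    have ha := (hG T).aM hb
    have hlov : VT T (lo v) := fun i => by fin_cases i <;> exact hv _
    have hhiv : VT T (hi v) := fun i => by fin_cases i <;> exact hv _
    have hκ : ∀ i : Fin 3, (![qf S w w / ρ, qf S w w / ρ * c 0, qf S w w / ρ * c 1] : Fin 3 → Ω) i
        ∈ T := by
      refine coord_mem (N := fun i => alt G.hM (G.aM b) (G.fM i))
        (fun i j => alt_mem hh ha ((hG T).fM i) j) hn (cr_mem hlov hhiv) fun j => ?_
      have h1 := hcr j
      rw [hndef, alt_b] at h1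
      simp only [Matrix.cons_val_zero, Matrix.cons_val_one, Matrix.cons_val]
      field_simp
      linear_combination -h1
    have hκ0 := hκ 0
    have hκ1 := hκ 1
    have hκ2 := hκ 2
    simp only [Matrix.cons_val_zero, Matrix.cons_val_one, Matrix.cons_val] at hκ0 hκ1 hκ2
    have hκn : qf S w w / ρ ≠ 0 := div_ne_zero hw hρ
    have hc : ∀ i, c i ∈ T := by
      intro i
      fin_cases i
      · have h1 := div_mem hκ1 hκ0
        rwa [mul_div_cancel_left₀ _ hκn] at h1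
      · have h1 := div_mem hκ2 hκ0
        rwa [mul_div_cancel_left₀ _ hκn] at h1
    refine hT T hb hc ?_
    have h2 : τ = 9 * io G.hM (G.aM b) (G.d b) (lo v) (hi v) /
        ((qf S w w / ρ) ^ 2 * kf G.hM (G.aM b) G.hM (G.aM b)) := by
      field_simp
      linear_combination -hio
    rw [h2]
    exact div_mem (mul_mem (ofNat_mem' 9) (io_mem hh ha ((hG T).d hb) hlov hhiv))
      (mul_mem (pow_mem hκ0 2) (kf_mem hh ha hh ha))

private theorem map_swap (E : EDat ℂ) :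
    E.swap.map (algebraMap ℂ Ω) = (E.map (algebraMap ℂ Ω)).swap := by
  simp [EDat.map, EDat.swap]

private theorem dot_comm' {R : Type} [CommRing R] (x y : Matrix (Fin 3) (Fin 3) R) :
    dot x y = dot y x := trace_mul_comm x y

private theorem kf_flip {R : Type} [CommRing R] (x y z w : Matrix (Fin 3) (Fin 3) R) :
    kf x y z w = kf y x w z := by
  have h1 : y * x - x * y = -(x * y - y * x) := by abel
  have h2 : w * z - z * w = -(z * w - w * z) := by abel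
  have h3 : dot (-(x * y - y * x)) (-(z * w - w * z)) = dot (x * y - y * x) (z * w - w * z) := by
    unfold dot
    rw [neg_mul_neg]
  unfold kf
  rw [h1, h2, h3]
  ring

private theorem det_KM {R : Type} [CommRing R] (h a b : Matrix (Fin 3) (Fin 3) R) :
    (KM h b a).det = (KM h a b).det := by
  have e0 : (Equiv.swap (1 : Fin 3) 2) 0 = 0 := by decide
  have e1 : (Equiv.swap (1 : Fin 3) 2) 1 = 2 := by decide
  have e2 : (Equiv.swap (1 : Fin 3) 2) 2 = 1 := by decide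
  have key : KM h b a = (KM h a b).submatrix (Equiv.swap 1 2) (Equiv.swap 1 2) := by
    ext i j
    rw [Matrix.submatrix_apply]
    fin_cases i <;> fin_cases j <;>
      simp only [KM, Matrix.cons_val_zero, Matrix.cons_val_one, Matrix.cons_val,
        Fin.zero_eta, Fin.mk_one, Fin.reduceFinMk, e0, e1, e2] <;> exact kf_flip _ _ _ _
  rw [key, Matrix.det_submatrix_equiv_self]

omit [Algebra ℂ Ω] in
private theorem D0_swap [CharZero Ω] (E : EDat Ω) (c b : Fin 2 → Ω)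
    (hD : D0 E.hM (E.aM c) (alt E.hM (E.aM c) (E.bM b)) ≠ 0)
    (hK' : kf E.hM (E.bM b) E.hM (E.bM b) ≠ 0) :
    D0 E.swap.hM (E.swap.aM b) (alt E.swap.hM (E.swap.aM b) (E.swap.bM c)) ≠ 0 := by
  intro h0
  have h1 := D0_eq E c b
  have h2 := D0_eq E.swap b c
  rw [h0, mul_zero] at h2
  have hbM : E.swap.bM c = E.aM c := by
    change E.swap.swap.aM c = E.aM c
    rw [swap_swap]
  have haM : E.swap.aM b = E.bM b := rfl
  have hhM : E.swap.hM = E.hM := rfl
  rw [hbM, haM, hhM, det_KM] at h2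
  have h3 : (KM E.hM (E.aM c) (E.bM b)).det = 0 := by
    have h4 : KM E.hM (E.bM b) (E.aM c) 2 2 * (KM E.hM (E.aM c) (E.bM b)).det = 0 := by
      rw [← neg_eq_zero]
      exact h2.symm
    rcases mul_eq_zero.1 h4 with h5 | h5
    · exact absurd h5 hK'
    · exact h5
  rw [h3, mul_zero, neg_zero] at h1
  rcases mul_eq_zero.1 h1 with h5 | h5
  · norm_num at h5
  · exact hD h5

theorem pass_field (E : EDat ℂ) {c : Fin 2 → Ω} {m g : Fin 5 → Ω}
    (hs : (E.map (algebraMap ℂ Ω)).Sol c m g)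
    (hmg : ∀ T : IntermediateField ℂ Ω, (∀ i, c i ∈ T) → (∀ k, m k ∈ T) ∧ ∀ k, g k ∈ T)
    {u : Fin 6 → Ω} (hu0 : u ≠ 0) (hu : (E.map (algebraMap ℂ Ω)).IsoV c m g u)
    (hd : ∀ f : Ω, f ^ 2 ≠ (E.map (algebraMap ℂ Ω)).d c)
    (hgen : GenL c ((E.map (algebraMap ℂ Ω)).d c) u) {β : Fin 3 → Ω}
    (hβ : ∀ i, cr (lo u) (hi u) i = ∑ j, β j *
      alt (E.map (algebraMap ℂ Ω)).hM ((E.map (algebraMap ℂ Ω)).aM c)
        ((E.map (algebraMap ℂ Ω)).fM j) i) (hβ0 : β 0 ≠ 0)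
    (hK : kf (E.map (algebraMap ℂ Ω)).hM ((E.map (algebraMap ℂ Ω)).aM c)
      (E.map (algebraMap ℂ Ω)).hM ((E.map (algebraMap ℂ Ω)).aM c) ≠ 0)
    {b : Fin 2 → Ω} (hb : b = ![β 1 / β 0, β 2 / β 0])
    (hD : D0 (E.map (algebraMap ℂ Ω)).hM ((E.map (algebraMap ℂ Ω)).aM c)
      (alt (E.map (algebraMap ℂ Ω)).hM ((E.map (algebraMap ℂ Ω)).aM c)
        ((E.map (algebraMap ℂ Ω)).bM b)) ≠ 0)
    -- the second side
    {m' g' : Fin 5 → Ω} (hs' : (E.swap.map (algebraMap ℂ Ω)).Sol b m' g')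
    (hd' : (E.swap.map (algebraMap ℂ Ω)).d b ≠ 0)
    (hK' : kf (E.map (algebraMap ℂ Ω)).hM ((E.map (algebraMap ℂ Ω)).bM b)
      (E.map (algebraMap ℂ Ω)).hM ((E.map (algebraMap ℂ Ω)).bM b) ≠ 0)
    (hn' : LinearIndependent Ω fun i : Fin 3 => alt (E.map (algebraMap ℂ Ω)).hM
      ((E.map (algebraMap ℂ Ω)).bM b) ((E.swap.map (algebraMap ℂ Ω)).fM i)) :
    ∃ u' : Fin 6 → Ω, u' ≠ 0 ∧ (E.swap.map (algebraMap ℂ Ω)).IsoV b m' g' u' ∧
      GenL b ((E.swap.map (algebraMap ℂ Ω)).d b) u' := by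
  have : CharZero Ω := charZ Ω
  subst hb
  obtain ⟨τ, hτ, hT⟩ := side1 (E.map (algebraMap ℂ Ω)) (fun _ => InT.map E) hs hmg hu0 hu hd hgen
    hβ hβ0 hK hD
  rw [map_swap] at hs' hd' hn' ⊢
  refine side2 (c := c) (τ := τ) (E.map (algebraMap ℂ Ω)).swap (fun _ => (InT.map E).swap) hs' hd'
    hK' (D0_swap _ c _ hD hK') hn' ?_ fun T hb hc hτT => hT T hc hb hτT
  unfold EDat.IsT
  rw [det_swap]
  exact hτ

end Pool.Agent.GTE
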