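import Pool.Agent.GTE.Pass
import Pool.Agent.GSX.Herm

/-!
# GTE: the pencil of a datum as a pencil of hermitian forms

`map`: the naturality of the constructions of a datum in the ring.
`EDat.pen`: the pencil with the parameters `c`, over a field `K`; `bl_pen`: its quadratic forms over
an extension `Ω` are the forms `Q`; `mulL_eq`: `mulL` is the multiplication `sm`.
-/

set_option autoImplicit false

noncomputable section

namespace Pool.Agent.GTE

open Matrix GSH GSX

section Map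

variable {R R' : Type} [CommRing R] [CommRing R'] (φ : R →+* R')

theorem sym_map (v : Fin 5 → R) : sym (fun k => φ (v k)) = (sym v).map φ := by
  ext i j
  fin_cases i <;> fin_cases j <;> simp [sym]

theorem trace_map3 (x : Matrix (Fin 3) (Fin 3) R) : trace (x.map φ) = φ (trace x) := by
  simp [Matrix.trace_fin_three]

theorem dot_map (x y : Matrix (Fin 3) (Fin 3) R) : dot (x.map φ) (y.map φ) = φ (dot x y) := by
  unfold dot
  rw [← Matrix.map_mul, trace_map3]

theorem sub_map (x y : Matrix (Fin 3) (Fin 3) R) : x.map φ - y.map φ = (x - y).map φ := by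
  ext i j
  simp

theorem add_map (x y : Matrix (Fin 3) (Fin 3) R) : x.map φ + y.map φ = (x + y).map φ := by
  ext i j
  simp

theorem vec_map (x : Matrix (Fin 3) (Fin 3) R) (i : Fin 3) : vec (x.map φ) i = φ (vec x i) := by
  fin_cases i <;> rfl

theorem alt_map (x y z : Matrix (Fin 3) (Fin 3) R) (i : Fin 3) :
    alt (x.map φ) (y.map φ) (z.map φ) i = φ (alt x y z i) := by
  unfold alt
  rw [← vec_map]
  simp only [← Matrix.map_mul, add_map, sub_map]

theorem tri_map (x y z : Matrix (Fin 3) (Fin 3) R) (i : Fin 3) :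
    tri (x.map φ) (y.map φ) (z.map φ) i = φ (tri x y z i) := by
  unfold tri
  rw [← vec_map]
  simp only [← Matrix.map_mul, add_map, sub_map]

theorem kf_map (x y z w : Matrix (Fin 3) (Fin 3) R) :
    kf (x.map φ) (y.map φ) (z.map φ) (w.map φ) = φ (kf x y z w) := by
  unfold kf
  simp only [← Matrix.map_mul, sub_map, dot_map, map_add, map_sub, map_mul, map_neg, map_ofNat]

theorem herm_map (d : R) (x : Matrix (Fin 3) (Fin 3) R) (t : Fin 3 → R) (u : Fin 6 → R) :
    herm (φ d) (x.map φ) (fun i => φ (t i)) (fun i => φ (u i)) = φ (herm d x t u) := by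
  simp only [herm, Matrix.map_apply, map_add, map_sub, map_mul, map_pow, map_ofNat]

namespace EDat

variable (E : EDat R) (c b : Fin 2 → R)

theorem hM_map : (E.map φ).hM = E.hM.map φ := by
  unfold hM
  rw [← sym_map]
  congr 1
  funext k
  fin_cases k <;> simp [EDat.map]

theorem fM_map (j : Fin 3) : (E.map φ).fM j = (E.fM j).map φ := by
  unfold fM
  rw [← sym_map]
  rfl

theorem aM_map : (E.map φ).aM (fun i => φ (c i)) = (E.aM c).map φ := by
  unfold aM
  rw [← sym_map]
  congr 1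
  funext k
  simp [EDat.map]

theorem swap_map : (E.map φ).swap = E.swap.map φ := by
  unfold swap EDat.map
  simp

theorem bM_map : (E.map φ).bM (fun i => φ (b i)) = (E.bM b).map φ := by
  unfold bM
  rw [swap_map, aM_map]

theorem ah_map : (E.map φ).ah (fun i => φ (c i)) = φ (E.ah c) := by
  simp [ah, EDat.map]

theorem af_map (j : Fin 3) : (E.map φ).af (fun i => φ (c i)) j = φ (E.af c j) := by
  simp [af, EDat.map]

theorem d_map : (E.map φ).d (fun i => φ (c i)) = φ (E.d c) := by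
  unfold d
  rw [hM_map, aM_map, ah_map, kf_map, map_add, map_pow]

variable {E c}

theorem Sol.map {m g : Fin 5 → R} (h : E.Sol c m g) :
    (E.map φ).Sol (fun i => φ (c i)) (fun k => φ (m k)) (fun k => φ (g k)) where
  mh := by rw [sym_map, hM_map, dot_map, h.mh, map_zero]
  mf := fun j => by
    rw [sym_map, fM_map, dot_map, h.mf]
    rfl
  ma := by rw [sym_map, aM_map, dot_map, h.ma, map_neg, ah_map]
  gh := by rw [sym_map, hM_map, dot_map, h.gh, ah_map]
  gf := fun j => by rw [sym_map, fM_map, dot_map, h.gf, af_map]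
  ga := by rw [sym_map, aM_map, dot_map, h.ga, map_zero]

end EDat

end Map

section Pen

variable {K : Type} [Field K]

/-- the matrices of the two hermitian forms -/
def EDat.hp (E : EDat K) (c : Fin 2 → K) (m g : Fin 5 → K) : Herm K where
  d := E.d c
  p := fun j => ![![E.hM, E.aM c] j 0 0, ![E.hM, E.aM c] j 0 1, ![E.hM, E.aM c] j 0 2,
    ![E.hM, E.aM c] j 1 1, ![E.hM, E.aM c] j 1 2, ![E.hM, E.aM c] j 2 2]
  q := fun j => ![tri (sym (![m, g] j)) E.hM (E.aM c) 2 / E.d c,
    -(tri (sym (![m, g] j)) E.hM (E.aM c) 1 / E.d c), tri (sym (![m, g] j)) E.hM (E.aM c) 0 / E.d c]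

/-- the pencil of the datum with the parameters `c` -/
def EDat.pen (E : EDat K) (c : Fin 2 → K) (m g : Fin 5 → K) : Pen K := (E.hp c m g).pen

variable {Ω : Type} [Field Ω] [Algebra K Ω]

theorem mulL_eq (H : Herm K) (α β : Ω) (u : Fin 6 → Ω) :
    mulL (algebraMap K Ω H.d) α β u = sm H.pen.S α β u := by
  funext i
  have h1 : ∀ i, (mK H.pen.S *ᵥ u) i = ![algebraMap K Ω H.d * u 3, algebraMap K Ω H.d * u 4,
      algebraMap K Ω H.d * u 5, u 0, u 1, u 2] i := by
    intro i
    fin_cases i <;>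
      simp [Herm.pen, Herm.S, mK, mulVec, dotProduct, Fin.sum_univ_six]
  rw [sm, Pi.add_apply, Pi.smul_apply, Pi.smul_apply, h1, smul_eq_mul, smul_eq_mul]
  fin_cases i <;> rfl

theorem bl_hp (H : Herm K) (j : Fin 2) (u : Fin 6 → Ω) : bl (H.pen.Q j) u u =
    algebraMap K Ω (H.p j 0) * (u 0 ^ 2 - algebraMap K Ω H.d * u 3 ^ 2) +
    algebraMap K Ω (H.p j 3) * (u 1 ^ 2 - algebraMap K Ω H.d * u 4 ^ 2) +
    algebraMap K Ω (H.p j 5) * (u 2 ^ 2 - algebraMap K Ω H.d * u 5 ^ 2) +
    2 * algebraMap K Ω (H.p j 1) * (u 0 * u 1 - algebraMap K Ω H.d * (u 3 * u 4)) +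
    2 * algebraMap K Ω (H.p j 2) * (u 0 * u 2 - algebraMap K Ω H.d * (u 3 * u 5)) +
    2 * algebraMap K Ω (H.p j 4) * (u 1 * u 2 - algebraMap K Ω H.d * (u 4 * u 5)) +
    2 * (algebraMap K Ω (H.d * H.q j 2) * (u 4 * u 2 - u 5 * u 1) +
      algebraMap K Ω (-(H.d * H.q j 1)) * (u 5 * u 0 - u 3 * u 2) +
      algebraMap K Ω (H.d * H.q j 0) * (u 3 * u 1 - u 4 * u 0)) := by
  simp only [bl, Herm.pen, Herm.E, Herm.F, mK, mulVec, dotProduct, Fin.sum_univ_six,
    Matrix.map_apply, Matrix.of_apply, Matrix.cons_val, Pi.smul_apply, smul_eq_mul, map_mul,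
    map_neg, map_zero]
  ring

/-- the forms of the pencil over an extension -/
theorem bl_pen (E : EDat K) {c : Fin 2 → K} (m g : Fin 5 → K) (hd : E.d c ≠ 0) (j : Fin 2)
    (u : Fin 6 → Ω) : bl ((E.pen c m g).Q j) u u = (E.map (algebraMap K Ω)).Q
      (fun i => algebraMap K Ω (c i)) (fun k => algebraMap K Ω (m k))
      (fun k => algebraMap K Ω (g k)) j u := by
  have h1 : ∀ t : K, E.d c * (t / E.d c) = t := fun t => by field_simp
  have h2 : ∀ t : K, -(E.d c * -(t / E.d c)) = t := fun t => by field_simp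
  have ht : ∀ (x : Fin 5 → K) (i : Fin 3), tri (sym fun k => algebraMap K Ω (x k))
      (E.map (algebraMap K Ω)).hM ((E.map (algebraMap K Ω)).aM fun i => algebraMap K Ω (c i)) i =
        algebraMap K Ω (tri (sym x) E.hM (E.aM c) i) := fun x i => by
    rw [sym_map, EDat.hM_map, EDat.aM_map, tri_map]
  have hQ : ∀ (x : Matrix (Fin 3) (Fin 3) K) (t : Fin 3 → K), herm (algebraMap K Ω (E.d c))
      (x.map (algebraMap K Ω)) (fun i => algebraMap K Ω (t i)) u =
      algebraMap K Ω (x 0 0) * (u 0 ^ 2 - algebraMap K Ω (E.d c) * u 3 ^ 2) +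
      algebraMap K Ω (x 1 1) * (u 1 ^ 2 - algebraMap K Ω (E.d c) * u 4 ^ 2) +
      algebraMap K Ω (x 2 2) * (u 2 ^ 2 - algebraMap K Ω (E.d c) * u 5 ^ 2) +
      2 * algebraMap K Ω (x 0 1) * (u 0 * u 1 - algebraMap K Ω (E.d c) * (u 3 * u 4)) +
      2 * algebraMap K Ω (x 0 2) * (u 0 * u 2 - algebraMap K Ω (E.d c) * (u 3 * u 5)) +
      2 * algebraMap K Ω (x 1 2) * (u 1 * u 2 - algebraMap K Ω (E.d c) * (u 4 * u 5)) +
      2 * (algebraMap K Ω (t 0) * (u 4 * u 2 - u 5 * u 1) +
        algebraMap K Ω (t 1) * (u 5 * u 0 - u 3 * u 2) +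
        algebraMap K Ω (t 2) * (u 3 * u 1 - u 4 * u 0)) := fun x t => rfl
  rw [EDat.pen, bl_hp, EDat.Q, EDat.d_map]
  fin_cases j
  · have e1 : (![(E.map (algebraMap K Ω)).hM, (E.map (algebraMap K Ω)).aM
        fun i => algebraMap K Ω (c i)] : Fin 2 → Matrix (Fin 3) (Fin 3) Ω) ⟨0, by norm_num⟩ =
        E.hM.map (algebraMap K Ω) := EDat.hM_map _ _
    have e2 : (tri (sym ((![fun k => algebraMap K Ω (m k), fun k => algebraMap K Ω (g k)] :
        Fin 2 → Fin 5 → Ω) ⟨0, by norm_num⟩)) (E.map (algebraMap K Ω)).hM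
        ((E.map (algebraMap K Ω)).aM fun i => algebraMap K Ω (c i))) =
        fun i => algebraMap K Ω (tri (sym m) E.hM (E.aM c) i) := funext fun i => ht m i
    rw [e1, e2, hQ]
    simp only [EDat.hp, Matrix.cons_val, h1, h2, Fin.zero_eta]
  · have e1 : (![(E.map (algebraMap K Ω)).hM, (E.map (algebraMap K Ω)).aM
        fun i => algebraMap K Ω (c i)] : Fin 2 → Matrix (Fin 3) (Fin 3) Ω) ⟨1, by norm_num⟩ =
        (E.aM c).map (algebraMap K Ω) := EDat.aM_map _ _ _
    have e2 : (tri (sym ((![fun k => algebraMap K Ω (m k), fun k => algebraMap K Ω (g k)] :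
        Fin 2 → Fin 5 → Ω) ⟨1, by norm_num⟩)) (E.map (algebraMap K Ω)).hM
        ((E.map (algebraMap K Ω)).aM fun i => algebraMap K Ω (c i))) =
        fun i => algebraMap K Ω (tri (sym g) E.hM (E.aM c) i) := funext fun i => ht g i
    rw [e1, e2, hQ]
    simp only [EDat.hp, Matrix.cons_val, h1, h2, Fin.mk_one]

end Pen

end Pool.Agent.GTE
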