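import Pool.Agent.GTE.Good
import Pool.Agent.GTE.EPen

/-!
# GTE: naturality of the conditions, and the transfer to independent parameters

`EDat.Pos`, `EDat.Good`: a datum over `ℂ` in general position. `Pos.k_ne`, `Pos.n_ne`, `Pos.d_ne`,
`Pos.r_ne`, `Pos.c_ne`, `Pos.p_ne`, `Pos.q_ne`, `Good.K_ne`: the conditions at algebraically independent parameters.
-/

set_option autoImplicit false

noncomputable section

namespace Pool.Agent.GTE

open Matrix

section Map

variable {R R' : Type} [CommRing R] [CommRing R'] (φ : R →+* R')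

theorem row_map (v : Fin 5 → R) (k : Fin 5) : row (fun i => φ (v i)) k = φ (row v k) := by
  fin_cases k <;> simp [row, map_ofNat]

theorem qf_map (x : Matrix (Fin 3) (Fin 3) R) (u v : Fin 3 → R) :
    qf (x.map φ) (fun i => φ (u i)) (fun i => φ (v i)) = φ (qf x u v) := by
  simp only [qf, Matrix.map_apply, map_add, map_mul]

theorem det_map3 (x : Matrix (Fin 3) (Fin 3) R) : (x.map φ).det = φ x.det :=
  (RingHom.map_det φ x).symm

theorem bez_map (f g : Fin 4 → R) :
    bez (fun i => φ (f i)) (fun i => φ (g i)) = (bez f g).map φ := by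
  ext i j
  fin_cases i <;> fin_cases j <;> simp [bez]

theorem cub1_map (h a : Fin 5 → R) (i : Fin 4) :
    cub1 (fun k => φ (h k)) (fun k => φ (a k)) i = φ (cub1 h a i) := by
  fin_cases i
  · change (sym fun k => φ (h k)).det = φ (sym h).det
    rw [sym_map, det_map3]
  · simp [cub1, map_ofNat]
  · simp [cub1, map_ofNat]
  · change (sym fun k => φ (a k)).det = φ (sym a).det
    rw [sym_map, det_map3]

theorem cub2_map (h a : Fin 5 → R) (t s : Fin 3 → R) (i : Fin 4) :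
    cub2 (fun k => φ (h k)) (fun k => φ (a k)) (fun k => φ (t k)) (fun k => φ (s k)) i =
      φ (cub2 h a t s i) := by
  unfold cub2
  rw [sym_map, sym_map]
  fin_cases i
  · exact qf_map φ _ _ _
  · simp [qf_map, map_ofNat]
  · simp [qf_map, map_ofNat]
  · exact qf_map φ _ _ _

namespace EDat

variable (E : EDat R) (c : Fin 2 → R)

theorem h5_map : (E.map φ).h5 = fun k => φ (E.h5 k) := by
  funext k
  fin_cases k <;> simp [h5, EDat.map]

theorem a5_map : (E.map φ).a5 (fun i => φ (c i)) = fun k => φ (E.a5 c k) := by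
  funext k
  simp [a5, EDat.map]

theorem sysM_map : (E.map φ).sysM (fun i => φ (c i)) = (E.sysM c).map φ := by
  ext i k
  unfold sysM
  rw [h5_map, a5_map]
  fin_cases i
  · exact row_map φ E.h5 k
  · exact row_map φ (E.f 0) k
  · exact row_map φ (E.f 1) k
  · exact row_map φ (E.f 2) k
  · exact row_map φ (E.a5 c) k

theorem rhm_map : (E.map φ).rhm (fun i => φ (c i)) = φ ∘ E.rhm c := by
  unfold rhm
  rw [ah_map]
  funext i
  fin_cases i <;> simp [EDat.map]

theorem rhg_map : (E.map φ).rhg (fun i => φ (c i)) = φ ∘ E.rhg c := by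
  unfold rhg
  rw [ah_map, af_map, af_map, af_map]
  funext i
  fin_cases i <;> simp

theorem adj_map (M : Matrix (Fin 5) (Fin 5) R) : (M.map φ).adjugate = M.adjugate.map φ :=
  (RingHom.map_adjugate φ M).symm

theorem mt_map : (E.map φ).mt (fun i => φ (c i)) = fun k => φ (E.mt c k) := by
  funext k
  rw [mt, sysM_map, rhm_map, adj_map, mt, RingHom.map_mulVec]

theorem gt_map : (E.map φ).gt (fun i => φ (c i)) = fun k => φ (E.gt c k) := by
  funext k
  rw [gt, sysM_map, rhg_map, adj_map, gt, RingHom.map_mulVec]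

theorem gk_map : (E.map φ).gk (fun i => φ (c i)) = φ (E.gk c) := by
  unfold gk
  rw [hM_map, aM_map, kf_map]

theorem gn_map : (E.map φ).gn (fun i => φ (c i)) = φ (E.gn c) := by
  unfold gn
  rw [hM_map, aM_map, RingHom.map_det]
  congr 1
  ext j i
  change alt _ _ _ _ = φ _
  rw [fM_map, alt_map]
  rfl

theorem gd_map : (E.map φ).gd (fun i => φ (c i)) = φ (E.gd c) := by
  unfold gd
  rw [sysM_map, RingHom.map_det]
  rfl

theorem gr_map : (E.map φ).gr (fun i => φ (c i)) = φ (E.gr c) := by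
  have h1 : ∀ x : Fin 5 → R, tri (sym fun k => φ (x k)) (E.map φ).hM
      ((E.map φ).aM fun i => φ (c i)) = fun j => φ (tri (sym x) E.hM (E.aM c) j) := by
    intro x
    funext j
    rw [sym_map, hM_map, aM_map, tri_map]
  have h2 : ∀ (h a : Fin 5 → R), cub1 (fun k => φ (h k)) (fun k => φ (a k)) =
      fun i => φ (cub1 h a i) := fun h a => funext fun i => cub1_map φ h a i
  have h3 : ∀ (h a : Fin 5 → R) (t s : Fin 3 → R), cub2 (fun k => φ (h k)) (fun k => φ (a k))
      (fun k => φ (t k)) (fun k => φ (s k)) = fun i => φ (cub2 h a t s i) :=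
    fun h a t s => funext fun i => cub2_map φ h a t s i
  unfold gr
  rw [mt_map, gt_map, h1, h1, h5_map, a5_map, h2, h3, bez_map, det_map3]

theorem gc_map : (E.map φ).gc (fun i => φ (c i)) = φ (E.gc c) := by
  unfold gc
  rw [gt_map, sym_map, hM_map, aM_map, tri_map, sysM_map, d_map, ← RingHom.mapMatrix_apply,
    ← RingHom.map_det]
  simp only [Matrix.map_apply, map_add, map_sub, map_mul, map_pow]

theorem gp_map : (E.map φ).gp (fun i => φ (c i)) = φ (E.gp c) := by
  unfold gp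
  rw [mt_map, sym_map, hM_map, aM_map, tri_map, sysM_map, d_map, ← RingHom.mapMatrix_apply,
    ← RingHom.map_det]
  simp only [EDat.map, map_add, map_mul, map_pow]

theorem gq_map : (E.map φ).gq (fun i => φ (c i)) = φ (E.gq c) := by
  unfold gq
  rw [mt_map, sym_map, hM_map, sysM_map, ← Matrix.map_mul, ← Matrix.map_mul, trace_map3,
    det_map3, ← RingHom.mapMatrix_apply, ← RingHom.map_det]
  simp only [map_add, map_mul, map_pow, map_ofNat]

theorem gK_map (x : Fin 4 → R) : (E.map φ).gK (fun i => φ (x i)) = φ (E.gK x) := by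
  have h1 : ![φ (x 0), φ (x 1)] = fun i => φ (![x 0, x 1] i) := by
    funext i
    fin_cases i <;> rfl
  have h2 : ![φ (x 2), φ (x 3)] = fun i => φ (![x 2, x 3] i) := by
    funext i
    fin_cases i <;> rfl
  unfold gK
  rw [h1, h2, aM_map, bM_map, hM_map, RingHom.map_det]
  congr 1
  ext i j
  fin_cases i <;> fin_cases j <;> exact kf_map φ _ _ _ _

theorem gs_map : (E.map φ).gs = φ E.gs := by
  have h1 : ∀ i, sym ((E.map φ).e i) = (sym (E.e i)).map φ := fun i => sym_map φ (E.e i)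
  unfold gs
  rw [h1, h1, hM_map, kf_map, kf_map, kf_map]
  simp [EDat.map, map_ofNat]

end EDat

end Map

/-! ### The transfer -/

/-- The conditions on the pencil of `E`, at the parameters `0`. -/
structure EDat.Pos (E : EDat ℂ) : Prop where
  k : E.gk 0 ≠ 0
  n : E.gn 0 ≠ 0
  d : E.gd 0 ≠ 0
  r : E.gr 0 ≠ 0
  c : E.gc 0 ≠ 0
  p : E.gp 0 ≠ 0
  q : E.gq 0 ≠ 0
  s : E.gs ≠ 0

/-- The datum is in general position. -/
structure EDat.Good (E : EDat ℂ) : Prop where
  e : E.Pos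
  f : E.swap.Pos
  K : E.gK 0 ≠ 0

/-- A polynomial in the coefficients which does not vanish at the parameters `0` does not vanish at
algebraically independent parameters. -/
theorem trans_ne {n : ℕ} (G : ∀ (R : Type) [CommRing R], EDat R → (Fin n → R) → R)
    (hG : ∀ (R R' : Type) [CommRing R] [CommRing R'] (φ : R →+* R') (E : EDat R) (x : Fin n → R),
      G R' (E.map φ) (fun i => φ (x i)) = φ (G R E x))
    {E : EDat ℂ} (h : G ℂ E 0 ≠ 0) {Ω : Type} [Field Ω] [Algebra ℂ Ω] {x : Fin n → Ω}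
    (hx : AlgebraicIndependent ℂ x) : G Ω (E.map (algebraMap ℂ Ω)) x ≠ 0 := by
  set P : MvPolynomial (Fin n) ℂ := G _ (E.map (MvPolynomial.C : ℂ →+* MvPolynomial (Fin n) ℂ))
    MvPolynomial.X with hP
  have h1 : MvPolynomial.aeval x P = G Ω (E.map (algebraMap ℂ Ω)) x := by
    have h2 := hG _ Ω ((MvPolynomial.aeval x : MvPolynomial (Fin n) ℂ →ₐ[ℂ] Ω) :
      MvPolynomial (Fin n) ℂ →+* Ω) (E.map (MvPolynomial.C : ℂ →+* MvPolynomial (Fin n) ℂ))
      MvPolynomial.X
    have h3 : (fun i => ((MvPolynomial.aeval x : MvPolynomial (Fin n) ℂ →ₐ[ℂ] Ω) :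
        MvPolynomial (Fin n) ℂ →+* Ω) (MvPolynomial.X i)) = x :=
      funext fun i => MvPolynomial.aeval_X x i
    have h4 : (E.map (MvPolynomial.C : ℂ →+* MvPolynomial (Fin n) ℂ)).map
        ((MvPolynomial.aeval x : MvPolynomial (Fin n) ℂ →ₐ[ℂ] Ω) :
        MvPolynomial (Fin n) ℂ →+* Ω) = E.map (algebraMap ℂ Ω) := by
      simp only [EDat.map, RingHom.coe_coe, MvPolynomial.aeval_C]
    rw [h3, h4] at h2
    exact h2.symm
  have h5 : MvPolynomial.eval 0 P = G ℂ E 0 := by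
    have h2 := hG _ ℂ (MvPolynomial.eval (0 : Fin n → ℂ))
      (E.map (MvPolynomial.C : ℂ →+* MvPolynomial (Fin n) ℂ)) MvPolynomial.X
    have h3 : (fun i => (MvPolynomial.eval (0 : Fin n → ℂ)) (MvPolynomial.X i)) = 0 :=
      funext fun i => MvPolynomial.eval_X i
    have h4 : (E.map (MvPolynomial.C : ℂ →+* MvPolynomial (Fin n) ℂ)).map
        (MvPolynomial.eval (0 : Fin n → ℂ)) = E := by
      simp only [EDat.map, MvPolynomial.eval_C]
    rw [h3, h4] at h2
    exact h2.symm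
  intro h0
  rw [← h1] at h0
  have h6 : P = 0 := hx (h0.trans (map_zero _).symm)
  rw [h6, map_zero] at h5
  exact h h5.symm

section Trans

variable {E : EDat ℂ} {Ω : Type} [Field Ω] [Algebra ℂ Ω]

theorem EDat.Pos.k_ne (hE : E.Pos) {c : Fin 2 → Ω} (hc : AlgebraicIndependent ℂ c) :
    (E.map (algebraMap ℂ Ω)).gk c ≠ 0 :=
  trans_ne (fun _ _ E c => E.gk c) (fun _ _ _ _ φ E c => EDat.gk_map φ E c) hE.k hc

theorem EDat.Pos.n_ne (hE : E.Pos) {c : Fin 2 → Ω} (hc : AlgebraicIndependent ℂ c) :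
    (E.map (algebraMap ℂ Ω)).gn c ≠ 0 :=
  trans_ne (fun _ _ E c => E.gn c) (fun _ _ _ _ φ E c => EDat.gn_map φ E c) hE.n hc

theorem EDat.Pos.d_ne (hE : E.Pos) {c : Fin 2 → Ω} (hc : AlgebraicIndependent ℂ c) :
    (E.map (algebraMap ℂ Ω)).gd c ≠ 0 :=
  trans_ne (fun _ _ E c => E.gd c) (fun _ _ _ _ φ E c => EDat.gd_map φ E c) hE.d hc

theorem EDat.Pos.r_ne (hE : E.Pos) {c : Fin 2 → Ω} (hc : AlgebraicIndependent ℂ c) :
    (E.map (algebraMap ℂ Ω)).gr c ≠ 0 :=
  trans_ne (fun _ _ E c => E.gr c) (fun _ _ _ _ φ E c => EDat.gr_map φ E c) hE.r hc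

theorem EDat.Pos.c_ne (hE : E.Pos) {c : Fin 2 → Ω} (hc : AlgebraicIndependent ℂ c) :
    (E.map (algebraMap ℂ Ω)).gc c ≠ 0 :=
  trans_ne (fun _ _ E c => E.gc c) (fun _ _ _ _ φ E c => EDat.gc_map φ E c) hE.c hc

theorem EDat.Pos.p_ne (hE : E.Pos) {c : Fin 2 → Ω} (hc : AlgebraicIndependent ℂ c) :
    (E.map (algebraMap ℂ Ω)).gp c ≠ 0 :=
  trans_ne (fun _ _ E c => E.gp c) (fun _ _ _ _ φ E c => EDat.gp_map φ E c) hE.p hc

theorem EDat.Pos.q_ne (hE : E.Pos) {c : Fin 2 → Ω} (hc : AlgebraicIndependent ℂ c) :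
    (E.map (algebraMap ℂ Ω)).gq c ≠ 0 :=
  trans_ne (fun _ _ E c => E.gq c) (fun _ _ _ _ φ E c => EDat.gq_map φ E c) hE.q hc

theorem EDat.Good.K_ne (hE : E.Good) {x : Fin 4 → Ω} (hx : AlgebraicIndependent ℂ x) :
    (E.map (algebraMap ℂ Ω)).gK x ≠ 0 :=
  trans_ne (fun _ _ E x => E.gK x) (fun _ _ _ _ φ E x => EDat.gK_map φ E x) hE.K hx

/-- the solutions exist -/
theorem EDat.exists_sol {K : Type} [Field K] {E : EDat K} {c : Fin 2 → K} (hd : E.gd c ≠ 0) :
    ∃ m g : Fin 5 → K, E.Sol c m g := by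
  have hu : IsUnit (E.sysM c).det := isUnit_iff_ne_zero.2 hd
  refine ⟨(E.sysM c)⁻¹ *ᵥ E.rhm c, (E.sysM c)⁻¹ *ᵥ E.rhg c, EDat.sol_of_sys ?_ ?_⟩
  · rw [Matrix.mulVec_mulVec, Matrix.mul_nonsing_inv _ hu, Matrix.one_mulVec]
  · rw [Matrix.mulVec_mulVec, Matrix.mul_nonsing_inv _ hu, Matrix.one_mulVec]

end Trans

end Pool.Agent.GTE
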