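import Mathlib

/-!
# GTE: algebraic independence of generators

`Ω` is an extension of `ℂ` which contains four algebraically independent elements.

* `indep_four`: if `Ω` is generated over `ℂ` by the four elements `x i` and by a set of elements
  which are algebraic over `ℂ(x)`, then the `x i` are algebraically independent.
* `phi`: the embedding of `ℂ(s, t)` in `Ω` given by two algebraically independent elements.
-/

set_option autoImplicit false

noncomputable section

namespace Pool.Agent.GTE

open MvPolynomial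
open scoped IntermediateField.algebraAdjoinAdjoin

variable {Ω : Type} [Field Ω] [Algebra ℂ Ω]

theorem indep_of_alg {y : Fin 4 → Ω} (hy : AlgebraicIndependent ℂ y) (x : Fin 4 → Ω)
    (h : ∀ z : Ω, IsAlgebraic (IntermediateField.adjoin ℂ (Set.range x)) z) :
    AlgebraicIndependent ℂ x := by
  have h1 : Algebra.IsAlgebraic (IntermediateField.adjoin ℂ (Set.range x)) Ω := ⟨h⟩
  have h2 : Algebra.IsAlgebraic (Algebra.adjoin ℂ (Set.range x)) Ω :=
    (IsFractionRing.comap_isAlgebraic_iff (A := Algebra.adjoin ℂ (Set.range x))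
      (K := IntermediateField.adjoin ℂ (Set.range x)) (C := Ω)).2 h1
  have h3 : Cardinal.mk (Fin 4) ≤ Algebra.trdeg ℂ Ω := hy.cardinalMk_le_trdeg
  exact (Algebra.IsAlgebraic.isTranscendenceBasis_of_le_trdeg_of_finite ℂ x h3).1

/-- Generators are algebraically independent. -/
theorem indep_four {y : Fin 4 → Ω} (hy : AlgebraicIndependent ℂ y) (x : Fin 4 → Ω) (A : Set Ω)
    (hA : ∀ a ∈ A, IsAlgebraic (IntermediateField.adjoin ℂ (Set.range x)) a)
    (hgen : ∀ T : IntermediateField ℂ Ω, (∀ i, x i ∈ T) → (∀ a ∈ A, a ∈ T) → T = ⊤) :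
    AlgebraicIndependent ℂ x := by
  refine indep_of_alg hy x fun z => ?_
  set T₀ := IntermediateField.adjoin ℂ (Set.range x) with hT₀
  set T : IntermediateField ℂ Ω := (algebraicClosure T₀ Ω).restrictScalars ℂ with hT
  have hmem : ∀ a : Ω, a ∈ T ↔ IsAlgebraic T₀ a := fun a => by
    rw [hT, IntermediateField.mem_restrictScalars, mem_algebraicClosure_iff]
  have h1 : T = ⊤ := by
    refine hgen T (fun i => ?_) fun a ha => ?_
    · have h2 : x i ∈ T₀ := IntermediateField.subset_adjoin _ _ ⟨i, rfl⟩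
      exact (hmem _).2 (isAlgebraic_algebraMap (A := Ω) (⟨x i, h2⟩ : T₀))
    · exact (hmem _).2 (hA a ha)
  have h2 : z ∈ T := by
    rw [h1]
    trivial
  exact (hmem z).1 h2

/-- The square root of an element. -/
theorem isAlgebraic_of_sq (T : IntermediateField ℂ Ω) {a : Ω} (h : a ^ 2 ∈ T) :
    IsAlgebraic T a := by
  have h1 : IsAlgebraic T (a ^ 2) := isAlgebraic_algebraMap (A := Ω) (⟨a ^ 2, h⟩ : T)
  exact h1.of_pow (by norm_num)

/-- Two of four algebraically independent elements. -/
theorem indep_pair {x : Fin 4 → Ω} (hx : AlgebraicIndependent ℂ x) :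
    AlgebraicIndependent ℂ (![x 2, x 3] : Fin 2 → Ω) := by
  have h1 := hx.comp (![2, 3] : Fin 2 → Fin 4) (by
    intro i j h
    revert h
    revert i j
    decide)
  have h2 : (x ∘ (![2, 3] : Fin 2 → Fin 4)) = ![x 2, x 3] := by
    funext i
    fin_cases i <;> rfl
  rwa [h2] at h1

/-- The embedding of `ℂ(s, t)`. -/
def phi {b : Fin 2 → Ω} (hb : AlgebraicIndependent ℂ b) :
    FractionRing (MvPolynomial (Fin 2) ℂ) →ₐ[ℂ] Ω :=
  IsFractionRing.liftAlgHom (g := aeval b) hb

theorem phi_algebraMap {b : Fin 2 → Ω} (hb : AlgebraicIndependent ℂ b)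
    (P : MvPolynomial (Fin 2) ℂ) : phi hb (algebraMap _ _ P) = aeval b P := by
  rw [phi, IsFractionRing.liftAlgHom_apply]
  exact IsFractionRing.lift_algebraMap hb P

theorem phi_X {b : Fin 2 → Ω} (hb : AlgebraicIndependent ℂ b) (i : Fin 2) :
    phi hb (algebraMap (MvPolynomial (Fin 2) ℂ) _ (X i)) = b i := by
  rw [phi_algebraMap, aeval_X]

theorem aeval_mem {ι : Type} (T : IntermediateField ℂ Ω) {b : ι → Ω} (h : ∀ i, b i ∈ T)
    (P : MvPolynomial ι ℂ) : aeval b P ∈ T := by
  induction P using MvPolynomial.induction_on with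
  | C a =>
    rw [aeval_C]
    exact T.algebraMap_mem a
  | add p q hp hq =>
    rw [map_add]
    exact add_mem hp hq
  | mul_X p i hp =>
    rw [map_mul, aeval_X]
    exact mul_mem hp (h i)

/-- a field which contains the two elements contains the image of `ℂ(s, t)` -/
theorem phi_mem {b : Fin 2 → Ω} (hb : AlgebraicIndependent ℂ b) (T : IntermediateField ℂ Ω)
    (h : ∀ i, b i ∈ T) (k : FractionRing (MvPolynomial (Fin 2) ℂ)) : phi hb k ∈ T := by
  obtain ⟨p, q, _, rfl⟩ := IsFractionRing.div_surjective (A := MvPolynomial (Fin 2) ℂ) k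
  rw [map_div₀, phi_algebraMap, phi_algebraMap]
  exact div_mem (aeval_mem T h p) (aeval_mem T h q)

end Pool.Agent.GTE
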