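import Pool.Agent.GTE.GenX
import Pool.Agent.GSE2.Rat

/-!
# GTE: a cubic whose own quaternion algebra is split is rational

`adjoin_gen`: an element of `ℂ(s, t)` is a rational function in `s` and `t`.
-/

set_option autoImplicit false

noncomputable section

namespace Pool.Agent.GTE

open MvPolynomial Matrix GSH GSX GSQ GSF

/-- `ℂ(s, t)` is generated by `s` and `t`. -/
theorem adjoin_st : IntermediateField.adjoin ℂ (Set.range (![sK, tK] : Fin 2 → KK)) = ⊤ := by
  rw [eq_top_iff]
  intro k _
  set T := IntermediateField.adjoin ℂ (Set.range (![sK, tK] : Fin 2 → KK)) with hT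
  have hX : ∀ i : Fin 2, algebraMap (MvPolynomial (Fin 2) ℂ) KK (X i) ∈ T := by
    intro i
    refine IntermediateField.subset_adjoin _ _ ⟨i, ?_⟩
    fin_cases i <;> rfl
  have hP : ∀ P : MvPolynomial (Fin 2) ℂ, algebraMap (MvPolynomial (Fin 2) ℂ) KK P ∈ T := by
    intro P
    induction P using MvPolynomial.induction_on with
    | C a =>
      have h1 : algebraMap (MvPolynomial (Fin 2) ℂ) KK (C a) = algebraMap ℂ KK a := by
        rw [IsScalarTower.algebraMap_apply ℂ (MvPolynomial (Fin 2) ℂ) KK]
        rfl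
      rw [h1]
      exact T.algebraMap_mem a
    | add p q hp hq =>
      rw [map_add]
      exact add_mem hp hq
    | mul_X p i hp =>
      rw [map_mul]
      exact mul_mem hp (hX i)
  obtain ⟨p, q, _, rfl⟩ := IsFractionRing.div_surjective (A := MvPolynomial (Fin 2) ℂ) k
  exact div_mem (hP p) (hP q)

/-- **A cubic whose own quaternion algebra is split is rational.** -/
theorem split_X (X : Cub ℂ) (hn : X.NonDeg) (hirr : Irreducible X.F) (hS : GSE2.Split X.pen) :
    Pool.Agent.P28.Rational X.F := by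
  obtain ⟨Ω, _, _, _, _, x, hx⟩ := exists_gen hn hirr
  obtain ⟨u, hu⟩ := exists_genPt hn hirr hx
  have hd : NSq KK X.pen.d := fun f hf => not_isSquare_dX ⟨f, by
    have h1 : f ^ 2 = tK - sK ^ 2 := hf
    rw [← h1, sq]⟩
  obtain ⟨a, ha⟩ := GSE2.split_top' (k := ℂ) (Herm.isPen _) hd hS hu.zero adjoin_st hu.top
  refine PLN.ratFF X.F_hom hirr x hx.x0 hx.ker a (fun j => ?_) fun i => ?_
  · rw [hx.top]
    trivial
  · rw [ha]
    trivial

end Pool.Agent.GTE
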