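import Pool.Agent.GTE.RatD
import Pool.Agent.GTE.Field
import Pool.Agent.GTE.GoodM
import Pool.Agent.GTE.Ind
import Pool.Agent.GTE.SplitX

/-!
# GTE: four generators of the field of a zero of the pencil of a datum

`E` is a type E datum, `Ω` an extension of `ℂ(s, t) = K`, `c` a pair of generators of `K`, and `u`
is a common zero over `Ω` of the two forms of the pencil of `E` with the parameters `c`, whose class
generates `Ω` over `K`. If the quaternion algebra of the exchanged pencil is split, then `Ω` is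
generated over `ℂ` by four elements.
-/

set_option autoImplicit false

noncomputable section

namespace Pool.Agent.GTE

open Matrix GSH GSX GSQ GSF

/-! ### Extensions of `ℂ(s, t)` -/

section Gen

variable {Ω : Type} [Field Ω] [Algebra ℂ Ω] [Algebra KK Ω] [IsScalarTower ℂ KK Ω]

theorem gen_mem {c : Fin 2 → KK} (hc : IntermediateField.adjoin ℂ (Set.range c) = ⊤)
    (T : IntermediateField ℂ Ω) (h : ∀ i, algebraMap KK Ω (c i) ∈ T) (z : KK) :
    algebraMap KK Ω z ∈ T := by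
  have h1 : IntermediateField.adjoin ℂ (Set.range c) ≤
      T.comap (IsScalarTower.toAlgHom ℂ KK Ω) := by
    rw [IntermediateField.adjoin_le_iff]
    rintro _ ⟨i, rfl⟩
    exact h i
  rw [hc] at h1
  exact h1 (IntermediateField.mem_top : z ∈ (⊤ : IntermediateField ℂ KK))

/-- an intermediate field over `ℂ` which contains `K` -/
def upK (T : IntermediateField ℂ Ω) (h : ∀ z : KK, algebraMap KK Ω z ∈ T) :
    IntermediateField KK Ω := { T.toSubfield with algebraMap_mem' := h }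

omit [IsScalarTower ℂ KK Ω] in
theorem up_top {T : IntermediateField ℂ Ω} (h : ∀ z : KK, algebraMap KK Ω z ∈ T)
    (hT : upK T h = ⊤) : T = ⊤ := by
  rw [eq_top_iff]
  intro z _
  have h2 : z ∈ (⊤ : IntermediateField KK Ω) := trivial
  rw [← hT] at h2
  exact h2

end Gen

theorem restr_top {Ω : Type} [Field Ω] [Algebra ℂ Ω] [Algebra KK Ω] [IsScalarTower ℂ KK Ω]
    {T : IntermediateField KK Ω} (hT : T.restrictScalars ℂ = ⊤) : T = ⊤ := by
  rw [eq_top_iff]
  intro z _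
  have h2 : z ∈ (⊤ : IntermediateField ℂ Ω) := trivial
  rw [← hT] at h2
  exact h2

/-! ### The second side -/

/-- If the quaternion algebra is split, four elements are enough. -/
theorem second {Ω : Type} [Field Ω] [Algebra ℂ Ω] (φ : KK →ₐ[ℂ] Ω) (E : EDat KK)
    {c : Fin 2 → KK} (hc : IntermediateField.adjoin ℂ (Set.range c) = ⊤) {m g : Fin 5 → KK}
    (hd : NSq KK (E.d c)) (hS : GSE2.Split (E.pen c m g)) {u : Fin 6 → Ω}
    (hu : (E.map (φ : KK →+* Ω)).IsoV (fun i => φ (c i)) (fun k => φ (m k)) (fun k => φ (g k)) u)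
    (hgen : GenL (fun i => φ (c i)) ((E.map (φ : KK →+* Ω)).d fun i => φ (c i)) u) :
    ∃ a : Fin 4 → Ω, IntermediateField.adjoin ℂ (Set.range a) = ⊤ := by
  let _ : Algebra KK Ω := (φ : KK →+* Ω).toAlgebra
  have : IsScalarTower ℂ KK Ω := IsScalarTower.of_algebraMap_eq fun z => (φ.commutes z).symm
  have hd0 : E.d c ≠ 0 := fun h => hd 0 (by rw [h]; simp)
  refine GSE2.split_top' (k := ℂ) (u := u) (Herm.isPen _) hd hS (fun j => ?_) hc fun T hT => ?_
  · have h1 := bl_pen (Ω := Ω) E m g hd0 j u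
    exact h1.trans (hu j)
  · obtain ⟨v, α, β, hv, huv⟩ := hT
    refine restr_top (hgen _ (fun i => T.algebraMap_mem (c i)) ⟨v, α, β, hv, ?_⟩)
    rw [huv]
    have h1 : mulL (algebraMap KK Ω (E.d c)) α β v = sm (E.hp c m g).pen.S α β v :=
      mulL_eq (Ω := Ω) (E.hp c m g) α β v
    have h2 : (E.map (φ : KK →+* Ω)).d (fun i => φ (c i)) = algebraMap KK Ω (E.d c) :=
      EDat.d_map (φ : KK →+* Ω) E c
    rw [h2]
    exact h1.symm

/-! ### Membership -/

section Mem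

variable {k Ω : Type} [Field k] [Field Ω] [Algebra k Ω] {T : IntermediateField k Ω}

theorem Mm.sub {A B : Matrix (Fin 3) (Fin 3) Ω} (hA : Mm T A) (hB : Mm T B) : Mm T (A - B) :=
  fun i j => sub_mem (hA i j) (hB i j)

theorem dot_mm {x y : Matrix (Fin 3) (Fin 3) Ω} (hx : Mm T x) (hy : Mm T y) : dot x y ∈ T := by
  unfold dot
  rw [Matrix.trace_fin_three]
  exact add_mem (add_mem (hx.mul hy _ _) (hx.mul hy _ _)) (hx.mul hy _ _)

theorem kf_mm {x y z w : Matrix (Fin 3) (Fin 3) Ω} (hx : Mm T x) (hy : Mm T y) (hz : Mm T z)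
    (hw : Mm T w) : kf x y z w ∈ T := by
  unfold kf
  have h2 : (2 : Ω) ∈ T := two_memT
  refine add_mem (sub_mem (mul_mem (neg_mem h2) (dot_mm ?_ ?_)) (mul_mem (dot_mm hx hz)
    (dot_mm hy hw))) (mul_mem (dot_mm hx hw) (dot_mm hy hz))
  · exact (hx.mul hy).sub (hy.mul hx)
  · exact (hz.mul hw).sub (hw.mul hz)

theorem vec_mm {x : Matrix (Fin 3) (Fin 3) Ω} (hx : Mm T x) (i : Fin 3) : vec x i ∈ T := by
  fin_cases i
  · exact hx 2 1
  · exact hx 0 2
  · exact hx 1 0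

theorem alt_mm {x y z : Matrix (Fin 3) (Fin 3) Ω} (hx : Mm T x) (hy : Mm T y) (hz : Mm T z)
    (i : Fin 3) : alt x y z i ∈ T := by
  unfold alt
  refine vec_mm (Mm.sub (((((hx.mul hy).mul hz).add ((hy.mul hz).mul hx)).add
    ((hz.mul hx).mul hy))) ((((hy.mul hx).mul hz).add ((hx.mul hz).mul hy)).add
      ((hz.mul hy).mul hx))) i

end Mem

/-! ### The first side -/

section First

variable {Ω : Type} [Field Ω] [Algebra ℂ Ω]

theorem hM_mm (E : EDat ℂ) (T : IntermediateField ℂ Ω) : Mm T (E.map (algebraMap ℂ Ω)).hM := by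
  rw [EDat.hM_map]
  exact fun i j => T.algebraMap_mem _

theorem fM_mm (E : EDat ℂ) (T : IntermediateField ℂ Ω) (j : Fin 3) :
    Mm T ((E.map (algebraMap ℂ Ω)).fM j) := by
  rw [EDat.fM_map]
  exact fun i j => T.algebraMap_mem _

theorem aM_mm (E : EDat ℂ) {T : IntermediateField ℂ Ω} {c : Fin 2 → Ω} (hc : ∀ i, c i ∈ T) :
    Mm T ((E.map (algebraMap ℂ Ω)).aM c) := by
  refine fun i j => sym_mem (k := ℂ) (fun k => ?_) i j
  exact add_mem (add_mem (T.algebraMap_mem _) (mul_mem (hc 0) (T.algebraMap_mem _)))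
    (mul_mem (hc 1) (T.algebraMap_mem _))

theorem bM_mm (E : EDat ℂ) {T : IntermediateField ℂ Ω} {b : Fin 2 → Ω} (hb : ∀ i, b i ∈ T) :
    Mm T ((E.map (algebraMap ℂ Ω)).bM b) := by
  rw [EDat.bM, EDat.swap_map]
  exact aM_mm E.swap hb

theorem ah_mm (E : EDat ℂ) {T : IntermediateField ℂ Ω} {c : Fin 2 → Ω} (hc : ∀ i, c i ∈ T) :
    (E.map (algebraMap ℂ Ω)).ah c ∈ T :=
  add_mem (add_mem (T.algebraMap_mem _) (mul_mem (hc 0) (T.algebraMap_mem _)))
    (mul_mem (hc 1) (T.algebraMap_mem _))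

theorem af_mm (E : EDat ℂ) {T : IntermediateField ℂ Ω} {c : Fin 2 → Ω} (hc : ∀ i, c i ∈ T)
    (j : Fin 3) : (E.map (algebraMap ℂ Ω)).af c j ∈ T :=
  add_mem (add_mem (T.algebraMap_mem _) (mul_mem (hc 0) (T.algebraMap_mem _)))
    (mul_mem (hc 1) (T.algebraMap_mem _))

theorem θ_mm (E : EDat ℂ) {T : IntermediateField ℂ Ω} {c b : Fin 2 → Ω} (hc : ∀ i, c i ∈ T)
    (hb : ∀ i, b i ∈ T) (i : Fin 3) : (E.map (algebraMap ℂ Ω)).θ c b i ∈ T := by
  fin_cases i
  · exact add_mem (add_mem (af_mm E hc 0) (mul_mem (hb 0) (af_mm E hc 1)))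
      (mul_mem (hb 1) (af_mm E hc 2))
  · exact neg_mem (add_mem (add_mem (T.algebraMap_mem _) (mul_mem (hb 0) (T.algebraMap_mem _)))
      (mul_mem (hb 1) (T.algebraMap_mem _)))
  · exact neg_mem (ah_mm E hc)

theorem DM_mm (E : EDat ℂ) {T : IntermediateField ℂ Ω} {c b : Fin 2 → Ω} (hc : ∀ i, c i ∈ T)
    (hb : ∀ i, b i ∈ T) : Mm T ((E.map (algebraMap ℂ Ω)).DM c b) := by
  have h1 : ∀ i, Mm T ((![(E.map (algebraMap ℂ Ω)).aM c, (E.map (algebraMap ℂ Ω)).bM b,
      (E.map (algebraMap ℂ Ω)).hM] : Fin 3 → Matrix (Fin 3) (Fin 3) Ω) i) := by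
    intro i
    fin_cases i
    · exact aM_mm E hc
    · exact bM_mm E hb
    · exact hM_mm E T
  have h2 : ∀ i, Mm T ((![(E.map (algebraMap ℂ Ω)).bM b, (E.map (algebraMap ℂ Ω)).hM,
      (E.map (algebraMap ℂ Ω)).aM c] : Fin 3 → Matrix (Fin 3) (Fin 3) Ω) i) := by
    intro i
    fin_cases i
    · exact bM_mm E hb
    · exact hM_mm E T
    · exact aM_mm E hc
  exact fun i j => add_mem (kf_mm (h1 i) (h2 i) (h1 j) (h2 j))
    (mul_mem (θ_mm E hc hb i) (θ_mm E hc hb j))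

theorem det_mm {T : IntermediateField ℂ Ω} {A : Matrix (Fin 3) (Fin 3) Ω} (hA : Mm T A) :
    A.det ∈ T := by
  rw [Matrix.det_fin_three]
  refine sub_mem (add_mem (add_mem (sub_mem (sub_mem ?_ ?_) ?_) ?_) ?_) ?_ <;>
    exact mul_mem (mul_mem (hA _ _) (hA _ _)) (hA _ _)

end First

theorem map_map' {Ω : Type} [Field Ω] [Algebra ℂ Ω] (φ : KK →ₐ[ℂ] Ω) (E : EDat ℂ) :
    (E.map (algebraMap ℂ KK)).map (φ : KK →+* Ω) = E.map (algebraMap ℂ Ω) := by
  have h1 : ∀ z : ℂ, (φ : KK →+* Ω) (algebraMap ℂ KK z) = algebraMap ℂ Ω z := fun z =>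
    φ.commutes z
  unfold EDat.map
  simp only [h1]

section Main

/-- `n = Σ β_j n_j` -/
theorem exists_β {Ω : Type} [Field Ω] {n : Fin 3 → Fin 3 → Ω} (h : LinearIndependent Ω n) (x : Fin 3 → Ω) :
    ∃ β : Fin 3 → Ω, ∀ i, x i = ∑ j, β j * n j i := by
  let B := basisOfLinearIndependentOfCardEqFinrank h (by simp)
  refine ⟨fun j => B.repr x j, fun i => ?_⟩
  have h1 := B.sum_repr x
  have h2 := congrFun h1 i
  rw [Finset.sum_apply] at h2
  rw [← h2]
  refine Finset.sum_congr rfl fun j _ => ?_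
  rw [coe_basisOfLinearIndependentOfCardEqFinrank, Pi.smul_apply, smul_eq_mul]

variable {Ω : Type} [Field Ω] [Algebra ℂ Ω] [Algebra KK Ω] [IsScalarTower ℂ KK Ω]

/-- **Four generators.** -/
theorem four_gen (E : EDat ℂ) {c : Fin 2 → KK}
    (hc : IntermediateField.adjoin ℂ (Set.range c) = ⊤) {m g : Fin 5 → KK}
    (hs : (E.map (algebraMap ℂ KK)).Sol c m g) {m' g' : Fin 5 → KK}
    (hs' : (E.swap.map (algebraMap ℂ KK)).Sol ![sK, tK] m' g')
    (hd' : NSq KK ((E.swap.map (algebraMap ℂ KK)).d ![sK, tK]))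
    (hS' : GSE2.Split ((E.swap.map (algebraMap ℂ KK)).pen ![sK, tK] m' g'))
    (hd : NSq Ω ((E.map (algebraMap ℂ KK)).d c))
    -- the first side
    (hK : kf (E.map (algebraMap ℂ Ω)).hM
      ((E.map (algebraMap ℂ Ω)).aM fun i => algebraMap KK Ω (c i)) (E.map (algebraMap ℂ Ω)).hM
      ((E.map (algebraMap ℂ Ω)).aM fun i => algebraMap KK Ω (c i)) ≠ 0)
    (hn : LinearIndependent Ω fun j : Fin 3 => alt (E.map (algebraMap ℂ Ω)).hM
      ((E.map (algebraMap ℂ Ω)).aM fun i => algebraMap KK Ω (c i))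
      ((E.map (algebraMap ℂ Ω)).fM j))
    (hC : ∀ y z : Ω, (y ≠ 0 ∨ z ≠ 0) →
      (sym fun k => y * (E.map (algebraMap ℂ Ω)).h5 k +
        z * (E.map (algebraMap ℂ Ω)).a5 (fun i => algebraMap KK Ω (c i)) k).det = 0 →
      qf (sym fun k => y * (E.map (algebraMap ℂ Ω)).h5 k +
        z * (E.map (algebraMap ℂ Ω)).a5 (fun i => algebraMap KK Ω (c i)) k)
        (fun j => y * tri (sym fun k => algebraMap KK Ω (m k)) (E.map (algebraMap ℂ Ω)).hM
          ((E.map (algebraMap ℂ Ω)).aM fun i => algebraMap KK Ω (c i)) j +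
          z * tri (sym fun k => algebraMap KK Ω (g k)) (E.map (algebraMap ℂ Ω)).hM
          ((E.map (algebraMap ℂ Ω)).aM fun i => algebraMap KK Ω (c i)) j)
        (fun j => y * tri (sym fun k => algebraMap KK Ω (m k)) (E.map (algebraMap ℂ Ω)).hM
          ((E.map (algebraMap ℂ Ω)).aM fun i => algebraMap KK Ω (c i)) j +
          z * tri (sym fun k => algebraMap KK Ω (g k)) (E.map (algebraMap ℂ Ω)).hM
          ((E.map (algebraMap ℂ Ω)).aM fun i => algebraMap KK Ω (c i)) j) = 0 → False)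
    -- the second side
    (hgd : ∀ b : Fin 2 → Ω, AlgebraicIndependent ℂ b →
      (E.swap.map (algebraMap ℂ Ω)).d b ≠ 0 ∧
      kf (E.map (algebraMap ℂ Ω)).hM ((E.map (algebraMap ℂ Ω)).bM b)
        (E.map (algebraMap ℂ Ω)).hM ((E.map (algebraMap ℂ Ω)).bM b) ≠ 0 ∧
      LinearIndependent Ω fun i : Fin 3 => alt (E.map (algebraMap ℂ Ω)).hM
        ((E.map (algebraMap ℂ Ω)).bM b) ((E.swap.map (algebraMap ℂ Ω)).fM i))
    {y : Fin 4 → Ω} (hy : AlgebraicIndependent ℂ y) {u : Fin 6 → Ω}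
    (hu : GenPt ((E.map (algebraMap ℂ KK)).pen c m g) u) :
    ∃ a : Fin 4 → Ω, IntermediateField.adjoin ℂ (Set.range a) = ⊤ := by
  have : CharZero Ω := charZero_of_injective_algebraMap (algebraMap ℂ Ω).injective
  set φ : KK →ₐ[ℂ] Ω := IsScalarTower.toAlgHom ℂ KK Ω with hφ
  have hEm : (E.map (algebraMap ℂ KK)).map (algebraMap KK Ω) = E.map (algebraMap ℂ Ω) :=
    map_map' φ E
  set EΩ := E.map (algebraMap ℂ Ω) with hEΩ
  set cΩ : Fin 2 → Ω := fun i => algebraMap KK Ω (c i) with hcΩ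
  set mΩ : Fin 5 → Ω := fun k => algebraMap KK Ω (m k) with hmΩ
  set gΩ : Fin 5 → Ω := fun k => algebraMap KK Ω (g k) with hgΩ
  have hsΩ : EΩ.Sol cΩ mΩ gΩ := by
    have h1 := hs.map (algebraMap KK Ω)
    rwa [hEm] at h1
  have hdΩ : EΩ.d cΩ = algebraMap KK Ω ((E.map (algebraMap ℂ KK)).d c) := by
    rw [← EDat.d_map, hEm]
  have hd0 : (E.map (algebraMap ℂ KK)).d c ≠ 0 := fun h => hd.ne (by rw [h, map_zero])
  have hdn : ∀ f : Ω, f ^ 2 ≠ EΩ.d cΩ := fun f => by
    rw [hdΩ]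
    exact hd f
  have hiso : EΩ.IsoV cΩ mΩ gΩ u := by
    intro j
    have h1 := bl_pen (Ω := Ω) (E.map (algebraMap ℂ KK)) m g hd0 j u
    rw [hEm] at h1
    exact h1.symm.trans (hu.zero j)
  have hgen : GenL cΩ (EΩ.d cΩ) u := by
    intro T hT hv
    obtain ⟨v, α, β, hv, huv⟩ := hv
    refine up_top (gen_mem hc T hT) (hu.top _ ⟨v, α, β, hv, ?_⟩)
    rw [huv, hdΩ]
    exact mulL_eq (Ω := Ω) ((E.map (algebraMap ℂ KK)).hp c m g) α β v
  have hmg : ∀ T : IntermediateField ℂ Ω, (∀ i, cΩ i ∈ T) → (∀ k, mΩ k ∈ T) ∧ ∀ k, gΩ k ∈ T :=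
    fun T hT => ⟨fun k => gen_mem hc T hT (m k), fun k => gen_mem hc T hT (g k)⟩
  -- the matrices as vectors
  set hv : Fin 5 → Ω := ![EΩ.h 0, EΩ.h 1, 0, 0, 0] with hhv
  set av : Fin 5 → Ω := fun k => EΩ.e 0 k + cΩ 0 * EΩ.e 1 k + cΩ 1 * EΩ.e 2 k with hav
  have hhM : EΩ.hM = sym hv := rfl
  have haM : EΩ.aM cΩ = sym av := rfl
  set t := tri (sym mΩ) EΩ.hM (EΩ.aM cΩ) with ht
  set s := tri (sym gΩ) EΩ.hM (EΩ.aM cΩ) with hsd
  have e1 : herm (EΩ.d cΩ) (sym hv) t u = 0 := hiso 0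
  have e2 : herm (EΩ.d cΩ) (sym av) s u = 0 := hiso 1
  have hhT : ∀ (T : IntermediateField ℂ Ω) (i : Fin 5), hv i ∈ T := by
    intro T i
    fin_cases i
    · exact T.algebraMap_mem _
    · exact T.algebraMap_mem _
    · exact zero_mem T
    · exact zero_mem T
    · exact zero_mem T
  have haT : ∀ (T : IntermediateField ℂ Ω), (∀ i, cΩ i ∈ T) → ∀ i, av i ∈ T := fun T hT k =>
    add_mem (add_mem (T.algebraMap_mem _) (mul_mem (hT 0) (T.algebraMap_mem _)))
      (mul_mem (hT 1) (T.algebraMap_mem _))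
  have htri : ∀ (T : IntermediateField ℂ Ω), (∀ i, cΩ i ∈ T) → ∀ {x : Fin 5 → Ω},
      (∀ k, x k ∈ T) → ∀ i, tri (sym x) EΩ.hM (EΩ.aM cΩ) i ∈ T := by
    intro T hT x hx i
    have h1 : Mm T (sym x) := sym_mem hx
    have h2 : Mm T EΩ.hM := hM_mm E T
    have h3 : Mm T (EΩ.aM cΩ) := aM_mm E hT
    unfold tri
    exact vec_mm (Mm.sub (((((h1.mul h2).mul h3).add ((h2.mul h1).mul h3)).add
      ((h2.mul h3).mul h1))) ((((h1.mul h3).mul h2).add ((h3.mul h1).mul h2)).add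
        ((h3.mul h2).mul h1))) i
  have hml : ∀ (α β : Ω) (v : Fin 6 → Ω), ml (EΩ.d cΩ) α β v = mulL (EΩ.d cΩ) α β v :=
    fun _ _ _ => rfl
  by_cases hD : D0 (sym hv) (sym av) (cr (lo u) (hi u)) = 0
  · -- the degenerate case
    have hcP : ∀ i, cΩ i ∈ φ.fieldRange := fun i => ⟨c i, rfl⟩
    have hmP : ∀ k, mΩ k ∈ φ.fieldRange := fun k => ⟨m k, rfl⟩
    have hgP : ∀ k, gΩ k ∈ φ.fieldRange := fun k => ⟨g k, rfl⟩
    obtain ⟨z, hz⟩ := deg_gen (k := ℂ) two_ne_zero φ.fieldRange hdn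
      (hhT _) (haT _ hcP) (htri _ hcP hmP) (htri _ hcP hgP) hu.ne e1 e2 hD
      (fun T hPT hT => hgen T (fun i => hPT ⟨c i, rfl⟩) hT) hC
    refine ⟨![cΩ 0, cΩ 1, z 0, z 1], ?_⟩
    have hT : ∀ i : Fin 4, (![cΩ 0, cΩ 1, z 0, z 1] : Fin 4 → Ω) i ∈
        IntermediateField.adjoin ℂ (Set.range (![cΩ 0, cΩ 1, z 0, z 1] : Fin 4 → Ω)) :=
      fun i => IntermediateField.subset_adjoin _ _ ⟨i, rfl⟩
    refine hz _ ?_ fun j => ?_
    · rintro _ ⟨x, rfl⟩
      refine gen_mem hc _ (fun i => ?_) x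
      fin_cases i
      · exact hT 0
      · exact hT 1
    · fin_cases j
      · exact hT 2
      · exact hT 3
  · -- the coefficients
    obtain ⟨β, hβ⟩ := exists_β hn (cr (lo u) (hi u))
    have hnT : ∀ (T : IntermediateField ℂ Ω), (∀ i, cΩ i ∈ T) → ∀ j i,
        alt EΩ.hM (EΩ.aM cΩ) (EΩ.fM j) i ∈ T := fun T hT j i =>
      alt_mm (hM_mm E T) (aM_mm E hT) (fM_mm E T j) i
    have hne : ∃ k, β k ≠ 0 := by
      by_contra hcon
      push Not at hcon
      apply hD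
      have h1 : cr (lo u) (hi u) = 0 := funext fun i => by
        rw [hβ i]
        simp [hcon]
      rw [h1]
      simp [D0, ap, aq]
    -- an element `k` with `β k ≠ 0`
    have key : ∀ (k : Fin 3), β k ≠ 0 → ∀ T : IntermediateField ℂ Ω, (∀ i, cΩ i ∈ T) →
        (∀ j, β j / β k ∈ T) →
        io (sym hv) (sym av) (EΩ.d cΩ) (lo u) (hi u) / β k ^ 2 ∈ T → T = ⊤ := by
      intro k hk T hT hβT hioT
      have hn' : ∀ i, cr (lo u) (hi u) i = β k * ∑ j, β j / β k *
          alt EΩ.hM (EΩ.aM cΩ) (EΩ.fM j) i := by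
        intro i
        rw [hβ i, Finset.mul_sum]
        refine Finset.sum_congr rfl fun j _ => ?_
        field_simp
      have hD' : D0 (sym hv) (sym av)
          (fun i => ∑ j, β j / β k * alt EΩ.hM (EΩ.aM cΩ) (EΩ.fM j) i) ≠ 0 := by
        intro h0
        apply hD
        rw [funext hn', D0_smul, h0, mul_zero]
      obtain ⟨v, α, β', hv, huv⟩ := rat_D0 T hdn (hhT T) (haT T hT)
        (htri T hT (hmg T hT).1) (htri T hT (hmg T hT).2) e1 e2 hk
        (fun i => sum_mem fun j _ => mul_mem (hβT j) (hnT T hT j i)) hn' hioT hD'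
      exact hgen T hT ⟨v, α, β', hv, huv⟩
    by_cases hβ0 : β 0 = 0
    · -- the line at infinity
      obtain ⟨k, l, hk, hkl⟩ : ∃ k l : Fin 3, β k ≠ 0 ∧ ∀ j, j = 0 ∨ j = k ∨ j = l := by
        obtain ⟨k, hk⟩ := hne
        fin_cases k
        · exact absurd hβ0 hk
        · exact ⟨1, 2, hk, by decide⟩
        · exact ⟨2, 1, hk, by decide⟩
      refine ⟨![cΩ 0, cΩ 1, β l / β k,
        io (sym hv) (sym av) (EΩ.d cΩ) (lo u) (hi u) / β k ^ 2], ?_⟩
      set a : Fin 4 → Ω := ![cΩ 0, cΩ 1, β l / β k,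
        io (sym hv) (sym av) (EΩ.d cΩ) (lo u) (hi u) / β k ^ 2] with ha
      have hT : ∀ i : Fin 4, a i ∈ IntermediateField.adjoin ℂ (Set.range a) :=
        fun i => IntermediateField.subset_adjoin _ _ ⟨i, rfl⟩
      refine key k hk _ (fun i => ?_) (fun j => ?_) (hT 3)
      · fin_cases i
        · exact hT 0
        · exact hT 1
      · rcases hkl j with rfl | rfl | rfl
        · rw [hβ0, zero_div]
          exact zero_mem _
        · rw [div_self hk]
          exact one_mem _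
        · exact hT 2
    · -- the main case
      set b : Fin 2 → Ω := ![β 1 / β 0, β 2 / β 0] with hb
      set τ : Ω := 9 * io EΩ.hM (EΩ.aM cΩ) (EΩ.d cΩ) (lo u) (hi u) /
        (β 0 ^ 2 * kf EΩ.hM (EΩ.aM cΩ) EΩ.hM (EΩ.aM cΩ)) with hτd
      have hτ : EΩ.IsT cΩ b τ := pt_of_iso EΩ hsΩ hiso hβ hβ0 hK
      have hTop : ∀ T : IntermediateField ℂ Ω, (∀ i, cΩ i ∈ T) → (∀ i, b i ∈ T) → τ ∈ T →
          T = ⊤ := by
        intro T hT hbT hτT
        refine key 0 hβ0 T hT (fun j => ?_) ?_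
        · fin_cases j
          · change β 0 / β 0 ∈ T
            rw [div_self hβ0]
            exact one_mem T
          · exact hbT 0
          · exact hbT 1
        · have h1 : io (sym hv) (sym av) (EΩ.d cΩ) (lo u) (hi u) / β 0 ^ 2 =
              τ * kf EΩ.hM (EΩ.aM cΩ) EΩ.hM (EΩ.aM cΩ) / 9 := by
            rw [hτd, ← hhM, ← haM]
            field_simp
          rw [h1]
          have h9 : (9 : Ω) ∈ T := by exact_mod_cast natCast_mem T 9
          exact div_mem (mul_mem hτT (kf_mm (hM_mm E T) (aM_mm E hT) (hM_mm E T) (aM_mm E hT))) h9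
      -- independence
      have hind : AlgebraicIndependent ℂ (![cΩ 0, cΩ 1, b 0, b 1] : Fin 4 → Ω) := by
        refine indep_four hy _ {τ} ?_ ?_
        · rintro _ rfl
          apply isAlgebraic_of_sq
          have h1 : ∀ i : Fin 4, (![cΩ 0, cΩ 1, b 0, b 1] : Fin 4 → Ω) i ∈
              IntermediateField.adjoin ℂ (Set.range (![cΩ 0, cΩ 1, b 0, b 1] : Fin 4 → Ω)) :=
            fun i => IntermediateField.subset_adjoin _ _ ⟨i, rfl⟩
          have h2 : τ ^ 2 = -(EΩ.DM cΩ b).det := hτ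
          rw [h2]
          refine neg_mem (det_mm (DM_mm E (fun i => ?_) fun i => ?_))
          · fin_cases i
            · exact h1 0
            · exact h1 1
          · fin_cases i
            · exact h1 2
            · exact h1 3
        · intro T h1 h2
          refine hTop T (fun i => ?_) (fun i => ?_) (h2 τ rfl)
          · fin_cases i
            · exact h1 0
            · exact h1 1
          · fin_cases i
            · exact h1 2
            · exact h1 3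
      have hbI : AlgebraicIndependent ℂ b := by
        have h1 := indep_pair hind
        have h2 : (![(![cΩ 0, cΩ 1, b 0, b 1] : Fin 4 → Ω) 2,
            (![cΩ 0, cΩ 1, b 0, b 1] : Fin 4 → Ω) 3] : Fin 2 → Ω) = b := by
          funext i
          fin_cases i <;> rfl
        rwa [h2] at h1
      obtain ⟨hg1, hg2, hg3⟩ := hgd b hbI
      -- the embedding of `ℂ(b)`
      set ψ : KK →ₐ[ℂ] Ω := phi hbI with hψ
      have hψb : (fun i => ψ ((![sK, tK] : Fin 2 → KK) i)) = b := by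
        funext i
        fin_cases i
        · exact phi_X hbI 0
        · exact phi_X hbI 1
      have hEs : (E.swap.map (algebraMap ℂ KK)).map (ψ : KK →+* Ω) =
          E.swap.map (algebraMap ℂ Ω) := map_map' ψ E.swap
      have hsΩ' : (E.swap.map (algebraMap ℂ Ω)).Sol b (fun k => ψ (m' k)) fun k => ψ (g' k) := by
        have h1 := hs'.map (ψ : KK →+* Ω)
        rw [hEs] at h1
        have h2 : (fun i => (ψ : KK →+* Ω) ((![sK, tK] : Fin 2 → KK) i)) = b := hψb
        rw [h2] at h1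
        exact h1
      have hD' : D0 EΩ.hM (EΩ.aM cΩ) (alt EΩ.hM (EΩ.aM cΩ) (EΩ.bM b)) ≠ 0 := by
        intro h0
        apply hD
        have h1 : cr (lo u) (hi u) = fun i => β 0 * alt EΩ.hM (EΩ.aM cΩ) (EΩ.bM b) i := by
          funext i
          rw [hβ i, alt_b, Fin.sum_univ_three, hb]
          simp only [Matrix.cons_val_zero, Matrix.cons_val_one]
          field_simp
        rw [h1, D0_smul, ← hhM, ← haM, h0, mul_zero]
      obtain ⟨u', hu'0, hu', hgen'⟩ := pass_field E hsΩ hmg hu.ne hiso hdn hgen hβ hβ0 hK rfl hD'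
        hsΩ' hg1 hg2 hg3
      refine second ψ (E.swap.map (algebraMap ℂ KK)) adjoin_st hd' hS' (u := u') ?_ ?_
      · rw [hEs]
        have h2 : (fun i => ψ ((![sK, tK] : Fin 2 → KK) i)) = b := hψb
        rw [h2]
        exact hu'
      · rw [hEs]
        have h2 : (fun i => ψ ((![sK, tK] : Fin 2 → KK) i)) = b := hψb
        rw [h2]
        exact hgen'

end Main

end Pool.Agent.GTE
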