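import Pool.Agent.GSF.FinQ

/-!
# GTE: assembly for an arbitrary second pencil

`asmG`: as `GSF.asm2`, but the second pencil `H₂` over `K = ℂ(s, t)` is arbitrary, and the hypothesis
on it is: if `v` is a common zero over `Ω` of its two quadratic forms, and the class of `v` modulo
`L₂^*` generates `Ω` over `K`, then `Ω` is generated over `ℂ` by four elements.

`same_gen`: a cubic whose pencil has the same invariants as such a pencil is rational.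
-/

set_option autoImplicit false

noncomputable section

namespace Pool.Agent.GTE

open MvPolynomial Matrix GSH GSX GSQ GSF

/-- `v` is a common zero of the quadratic forms of the pencil `H₂` over `Ω`, and the class of `v`
modulo `L^*` generates `Ω` over `K`. -/
structure GenPt {K Ω : Type} [Field K] [Field Ω] [Algebra K Ω] (H₂ : Pen K) (v : Fin 6 → Ω) :
    Prop where
  ne : v ≠ 0
  zero : ∀ j, bl (H₂.Q j) v v = 0
  top : ∀ T : IntermediateField K Ω, (∃ (v' : Fin 6 → Ω) (α β : Ω), (∀ i, v' i ∈ T) ∧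
    v = sm H₂.S α β v') → T = ⊤

section

variable {Ω : Type} [Field Ω] [Algebra ℂ Ω] [Algebra KK Ω] [IsScalarTower ℂ KK Ω]

/-- The assembly, for an arbitrary second pencil. -/
theorem asmG {F : MvPolynomial (Fin 6) ℂ} {n : ℕ} (hF : F.IsHomogeneous n) (hirr : Irreducible F)
    {x : Fin 6 → Ω} (x0 : x 0 = 1)
    (hker : ∀ (G : MvPolynomial (Fin 6) ℂ) (m : ℕ), G.IsHomogeneous m →
      (aeval x G = 0 ↔ F ∣ G))
    (hgen : IntermediateField.adjoin ℂ (Set.range x) = ⊤)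
    {H : Pen KK} (hH : H.IsPen) (hHd : NSq Ω H.d) {w : I8 → Ω} (hw : w ∈ H.W Ω)
    (hw0 : pL w ≠ 0) (hnd : ND H.S (pU w)) {θ : Fin 6 → KK} (hθ : θ ≠ 0)
    (hθw : vK θ ⬝ᵥ pU w = 0)
    (hwx : ∀ T : IntermediateField KK Ω, (∃ c : Ω, c ≠ 0 ∧ ∀ i, c * w i ∈ T) → ∀ i, x i ∈ T)
    {H₂ : Pen KK} (h2S : H₂.S * H₂.S = H₂.d • 1) (h2d : NSq Ω H₂.d)
    {J : Matrix I8 I8 KK} (hJ : IsUnit J.det)
    (hJW : ∀ w ∈ H.W Ω, pU w ≠ 0 → mK J *ᵥ w ∈ H₂.W Ω)
    (hD : ∀ v : Fin 6 → Ω, GenPt H₂ v →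
      ∃ a : Fin 4 → Ω, IntermediateField.adjoin ℂ (Set.range a) = ⊤) :
    Pool.Agent.P28.Rational F := by
  obtain ⟨w', hw', hU', hv0, -, hall⟩ := Pen.two (H₂ := H₂) hJ hH hHd h2S h2d hJW hw hw0 hnd hθ hθw
  have hW := hJW w' hw' hU'
  have hgp : GenPt H₂ (pJ J w') := by
    refine ⟨hv0, fun j => hW.1 j, fun T hT => ?_⟩
    obtain ⟨v', α, β, hv', hvv⟩ := hT
    obtain ⟨e, he, hew⟩ := hall T v' α β hv' hvv
    have h1 := hwx T ⟨e, he, hew⟩
    have h2 : IntermediateField.adjoin ℂ (Set.range x) ≤ T.restrictScalars ℂ := by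
      rw [IntermediateField.adjoin_le_iff]
      rintro _ ⟨i, rfl⟩
      exact h1 i
    rw [hgen] at h2
    rw [eq_top_iff]
    exact fun z _ => h2 (IntermediateField.mem_top : z ∈ (⊤ : IntermediateField ℂ Ω))
  obtain ⟨a, ha⟩ := hD _ hgp
  refine PLN.ratFF hF hirr x x0 hker a (fun j => ?_) fun i => ?_
  · rw [hgen]
    trivial
  · rw [ha]
    trivial

end

/-- **A cubic whose pencil has the same invariants as the pencil `H₀`.** -/
theorem same_gen (X : Cub ℂ) (hn : X.NonDeg) (hirr : Irreducible X.F) (H₀ : Pen KK)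
    (hHer : IsHer H₀) (hsq : ¬ IsSquare H₀.d) (h : SameTwist X.pen H₀)
    (hD : ∀ (Ω : Type) [Field Ω] [Algebra ℂ Ω] [Algebra KK Ω] [IsScalarTower ℂ KK Ω],
      (∃ y : Fin 4 → Ω, AlgebraicIndependent ℂ y) → NSq Ω H₀.d → ∀ v : Fin 6 → Ω, GenPt H₀ v →
        ∃ a : Fin 4 → Ω, IntermediateField.adjoin ℂ (Set.range a) = ⊤) :
    Pool.Agent.P28.Rational X.F := by
  obtain ⟨Ω, _, _, _, _, x, hx⟩ := exists_gen hn hirr
  obtain ⟨w, hw, -, hL, hU, hnd, ⟨θ, hθ, hθw⟩, htop⟩ := hx.partX hn.a0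
  set H : Herm KK := (X.map (algebraMap ℂ KK)).herm sK tK with hH
  have hdX : NSq Ω H.pen.d := hx.nsq_dX hn hirr
  have hdD : NSq Ω H₀.d := hx.nsq hn hirr hsq
  have hdX0 : H.pen.d ≠ 0 := fun h0 => hdX.ne (by rw [h0, map_zero])
  have hdD0 : H₀.d ≠ 0 := fun h0 => hsq (by rw [h0]; exact IsSquare.zero)
  have hHX : IsHer H.pen := isHer_herm _
  obtain ⟨M, _, _, e, n, F₁, F₂, J, hM, he, hn0, hNm, hJ, hJW⟩ := main hHX hHer hdX0 hdD0 h
  obtain ⟨ξ, hξ, hξw⟩ := lift_herm H hM F₁ he hn0 hNm hdX hw hL hU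
  have hP1 : (F₁.pen n).IsPen := Fr.isPen hHX hdX0 hM F₁ n
  have hd1 : NSq Ω (F₁.pen n).d := hdX
  have hU1 : pU (Sum.elim ξ (pU w) : I8 → Ω) = pU w := rfl
  have hL1 : pL (Sum.elim ξ (pU w) : I8 → Ω) = ξ := rfl
  have hnd1 : ND (F₁.pen n).S (pU (Sum.elim ξ (pU w) : I8 → Ω)) := hnd
  have h2S : (F₂.pen n).S * (F₂.pen n).S = (F₂.pen n).d • 1 := hHer.sq
  refine asmG X.F_hom hirr hx.x0 hx.ker hx.top hP1 hd1 hξw (by rw [hL1]; exact hξ) hnd1 hθ
    (by rw [hU1]; exact hθw) ?_ h2S hdD hJ (hJW Ω) ?_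
  · rintro T ⟨c', hc', hT⟩ i
    have h1 := htop T c' hc' fun i => hT (Sum.inr i)
    rw [h1]
    trivial
  · rintro v ⟨hv0, hv, hvT⟩
    refine hD Ω (GSN.exists_ind X.F_hom hirr x hx.x0 hx.ker) hdD v ⟨hv0, fun j => ?_, hvT⟩
    rw [← F₂.pen_Q n j]
    exact hv j

end Pool.Agent.GTE
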