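import Mathlib

/-!
# GTE: traceless symmetric matrices, the fourfold and the two pencils of a type E datum

`F` is the space of symmetric `3 × 3` matrices of trace zero, `x · y = tr (x y)`.

A type E datum: a diagonal matrix `h` in `F`, matrices `e 0, e 1, e 2` and `f 0, f 1, f 2` in `F`, and
a bilinear form `Φ` on `⟨h, e i⟩ × ⟨h, f j⟩` with `Φ (h, h) = 0`. Put `a = e 0 + c 0 e 1 + c 1 e 2`,
`b = f 0 + b 0 f 1 + b 1 f 2`.

* `kf` is a bilinear form on `Λ² F`, `alt x y z` and `tri x a b` are vectors in `R ^ 3`.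
* The pencil of the datum with the parameters `c`: `d = kf (h ∧ a, h ∧ a) + Φ (a, h) ^ 2`, and two
  hermitian forms in `u = p + √d q`.
* The fourfold: `τ ^ 2 = - det (K + θ θᵀ)`, `K` the Gram matrix of `kf` on `a ∧ b`, `b ∧ h`, `h ∧ a`
  and `θ = (Φ (a, b), - Φ (h, b), - Φ (a, h))`. It is a double cover of `ℙ² × ℙ²`.
-/

set_option autoImplicit false

noncomputable section

namespace Pool.Agent.GTE

open Matrix

variable {R : Type} [CommRing R]

/-- The symmetric matrix of trace zero with the entries 00, 11, 01, 02, 12. -/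
def sym (v : Fin 5 → R) : Matrix (Fin 3) (Fin 3) R :=
  !![v 0, v 2, v 3; v 2, v 1, v 4; v 3, v 4, -(v 0 + v 1)]

/-- The scalar product `tr (x y)` of two traceless symmetric matrices. -/
def dot (x y : Matrix (Fin 3) (Fin 3) R) : R := trace (x * y)

/-- The vector `v` of an antisymmetric matrix `C`, with `C u = v × u`. -/
def vec (C : Matrix (Fin 3) (Fin 3) R) : Fin 3 → R := ![C 2 1, C 0 2, C 1 0]

/-- The alternating map `x y z + y z x + z x y - y x z - x z y - z y x`. -/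
def alt (x y z : Matrix (Fin 3) (Fin 3) R) : Fin 3 → R :=
  vec (x * y * z + y * z * x + z * x * y - (y * x * z + x * z * y + z * y * x))

/-- The vector of `x a b + a x b + a b x - x b a - b x a - b a x`. -/
def tri (x a b : Matrix (Fin 3) (Fin 3) R) : Fin 3 → R :=
  vec (x * a * b + a * x * b + a * b * x - (x * b * a + b * x * a + b * a * x))

/-- The form `-2 tr ([x, y] [z, w]) - (x · z) (y · w) + (x · w) (y · z)` on `Λ² F`. -/
def kf (x y z w : Matrix (Fin 3) (Fin 3) R) : R :=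
  -2 * dot (x * y - y * x) (z * w - w * z) - dot x z * dot y w + dot x w * dot y z

/-- The hermitian form `pᵀ x p - d qᵀ x q + 2 t · (q × p)` in `u = (p, q)`. -/
def herm (d : R) (x : Matrix (Fin 3) (Fin 3) R) (t : Fin 3 → R) (u : Fin 6 → R) : R :=
  x 0 0 * (u 0 ^ 2 - d * u 3 ^ 2) + x 1 1 * (u 1 ^ 2 - d * u 4 ^ 2) +
    x 2 2 * (u 2 ^ 2 - d * u 5 ^ 2) + 2 * x 0 1 * (u 0 * u 1 - d * (u 3 * u 4)) +
    2 * x 0 2 * (u 0 * u 2 - d * (u 3 * u 5)) + 2 * x 1 2 * (u 1 * u 2 - d * (u 4 * u 5)) +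
    2 * (t 0 * (u 4 * u 2 - u 5 * u 1) + t 1 * (u 5 * u 0 - u 3 * u 2) +
      t 2 * (u 3 * u 1 - u 4 * u 0))

/-- A type E datum. -/
structure EDat (R : Type) where
  /-- the first two entries of the diagonal matrix `h` -/
  h : Fin 2 → R
  /-- the matrices `e i` -/
  e : Fin 3 → Fin 5 → R
  /-- the matrices `f j` -/
  f : Fin 3 → Fin 5 → R
  /-- the numbers `Φ (e i, f j)` -/
  p : Fin 3 → Fin 3 → R
  /-- the numbers `Φ (e i, h)` -/
  r : Fin 3 → R
  /-- the numbers `Φ (h, f j)` -/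
  s : Fin 3 → R

namespace EDat

/-- The same datum over another ring. -/
def map {R R' : Type} (φ : R → R') (E : EDat R) : EDat R' :=
  ⟨fun i => φ (E.h i), fun i k => φ (E.e i k), fun j k => φ (E.f j k), fun i j => φ (E.p i j),
    fun i => φ (E.r i), fun j => φ (E.s j)⟩

/-- The datum with the roles of `e` and `f` exchanged: `Φ` becomes `-Φᵀ`. -/
def swap (E : EDat R) : EDat R :=
  ⟨E.h, E.f, E.e, fun i j => -E.p j i, fun j => -E.s j, fun i => -E.r i⟩

/-- The matrix `h`. -/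
def hM (E : EDat R) : Matrix (Fin 3) (Fin 3) R := sym ![E.h 0, E.h 1, 0, 0, 0]

/-- The matrix `f j`. -/
def fM (E : EDat R) (j : Fin 3) : Matrix (Fin 3) (Fin 3) R := sym (E.f j)

/-- The matrix `a = e 0 + c 0 e 1 + c 1 e 2`. -/
def aM (E : EDat R) (c : Fin 2 → R) : Matrix (Fin 3) (Fin 3) R :=
  sym fun k => E.e 0 k + c 0 * E.e 1 k + c 1 * E.e 2 k

/-- The number `Φ (a, h)`. -/
def ah (E : EDat R) (c : Fin 2 → R) : R := E.r 0 + c 0 * E.r 1 + c 1 * E.r 2

/-- The number `Φ (a, f j)`. -/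
def af (E : EDat R) (c : Fin 2 → R) (j : Fin 3) : R := E.p 0 j + c 0 * E.p 1 j + c 1 * E.p 2 j

/-- The vectors `m`, `g` in `F` which belong to the parameters `c`: `m · h = 0`, `m · f j = Φ (h, f j)`,
`m · a = - Φ (a, h)`, and `g · h = Φ (a, h)`, `g · f j = Φ (a, f j)`, `g · a = 0`. -/
structure Sol (E : EDat R) (c : Fin 2 → R) (m g : Fin 5 → R) : Prop where
  mh : dot (sym m) E.hM = 0
  mf : ∀ j, dot (sym m) (E.fM j) = E.s j
  ma : dot (sym m) (E.aM c) = -E.ah c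
  gh : dot (sym g) E.hM = E.ah c
  gf : ∀ j, dot (sym g) (E.fM j) = E.af c j
  ga : dot (sym g) (E.aM c) = 0

/-- The number `d = kf (h ∧ a, h ∧ a) + Φ (a, h) ^ 2`. -/
def d (E : EDat R) (c : Fin 2 → R) : R := kf E.hM (E.aM c) E.hM (E.aM c) + E.ah c ^ 2

/-- The two hermitian forms of the datum with the parameters `c`: `h + tri (m, h, a) / √d` and
`a + tri (g, h, a) / √d`. -/
def Q (E : EDat R) (c : Fin 2 → R) (m g : Fin 5 → R) (j : Fin 2) (u : Fin 6 → R) : R :=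
  herm (E.d c) (![E.hM, E.aM c] j) (tri (sym (![m, g] j)) E.hM (E.aM c)) u

/-! ### The fourfold -/

/-- The matrix `b = f 0 + b 0 f 1 + b 1 f 2`. -/
def bM (E : EDat R) (b : Fin 2 → R) : Matrix (Fin 3) (Fin 3) R := E.swap.aM b

/-- The vector `θ = (Φ (a, b), - Φ (h, b), - Φ (a, h))`. -/
def θ (E : EDat R) (c b : Fin 2 → R) : Fin 3 → R :=
  ![E.af c 0 + b 0 * E.af c 1 + b 1 * E.af c 2, -(E.s 0 + b 0 * E.s 1 + b 1 * E.s 2), -E.ah c]

/-- The matrix `K + θ θᵀ`, `K` the Gram matrix of `kf` on `a ∧ b`, `b ∧ h`, `h ∧ a`. -/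
def DM (E : EDat R) (c b : Fin 2 → R) : Matrix (Fin 3) (Fin 3) R := fun i j =>
  kf (![E.aM c, E.bM b, E.hM] i) (![E.bM b, E.hM, E.aM c] i) (![E.aM c, E.bM b, E.hM] j)
    (![E.bM b, E.hM, E.aM c] j) + E.θ c b i * E.θ c b j

/-- The fourfold: `τ ^ 2 = - det (K + θ θᵀ)`. -/
def IsT (E : EDat R) (c b : Fin 2 → R) (τ : R) : Prop := τ ^ 2 = -(E.DM c b).det

end EDat

end Pool.Agent.GTE
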