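import Pool.Agent.GTE.Vec

/-!
# GTE: isotropic vectors over the zeros of the discriminant

`h`, `a` are symmetric `3 × 3` matrices over a subfield `P` of `Ω`, `t`, `s` vectors over `P`, and
`u = (p, q)` is a common zero over `Ω` of the two hermitian forms `herm d h t`, `herm d a s`, whose
class (up to `L ^ *`, `L = P(√d)`) generates `Ω` over `P`. Put `n = p × q`.

`deg_gen`: if the discriminant `D0 h a n` vanishes (in particular if `n = 0`) then `Ω` is generated
over `P` by two elements, unless the binary cubics `det (y₀ h + y₁ a)` and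
`(y₀ h + y₁ a) (y₀ t + y₁ s, y₀ t + y₁ s)` have a common zero.

Proof. The two elements are the ratios of the coordinates of `n`. The forms `h` and `a` have a
common zero `r` on the plane orthogonal to `n`, which is rational; `u` is proportional to
`r' + (x₀ + x₁ √d) r`, and the two forms give two linear equations for `x₀`, `x₁`. If `h` and `a`
are proportional on the plane, or the linear equations are dependent, then a combination of the
two hermitian forms vanishes on the plane.
-/

set_option autoImplicit false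

noncomputable section

namespace Pool.Agent.GTE

open Matrix

section Ring

variable {R : Type} [CommRing R]

/-- the value of the combination of two symmetric forms -/
theorem qf_comb (h a : Fin 5 → R) (y z : R) (u v : Fin 3 → R) :
    qf (sym fun k => y * h k + z * a k) u v = y * qf (sym h) u v + z * qf (sym a) u v := by
  simp only [qf, sym, Matrix.of_apply, Matrix.cons_val', Matrix.cons_val_zero,
    Matrix.cons_val_one, Matrix.cons_val_fin_one, Matrix.cons_val]
  ring

theorem qf_comm (h : Fin 5 → R) (u v : Fin 3 → R) : qf (sym h) u v = qf (sym h) v u := by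
  simp only [qf, sym, Matrix.of_apply, Matrix.cons_val', Matrix.cons_val_zero,
    Matrix.cons_val_one, Matrix.cons_val_fin_one, Matrix.cons_val]
  ring

/-- the form on a combination of two vectors -/
theorem qf_lin (h : Fin 5 → R) (α β : R) (r r' : Fin 3 → R) :
    qf (sym h) (fun j => α * r j + β * r' j) (fun j => α * r j + β * r' j) =
      α ^ 2 * qf (sym h) r r + 2 * α * β * qf (sym h) r r' + β ^ 2 * qf (sym h) r' r' := by
  simp only [qf, sym, Matrix.of_apply, Matrix.cons_val', Matrix.cons_val_zero,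
    Matrix.cons_val_one, Matrix.cons_val_fin_one, Matrix.cons_val]
  ring

/-- the discriminant on the line spanned by two vectors -/
theorem D0_cr (h a : Fin 5 → R) (p q : Fin 3 → R) :
    D0 (sym h) (sym a) (cr p q) =
      (qf (sym h) p p * qf (sym a) q q - qf (sym h) q q * qf (sym a) p p) ^ 2 -
        4 * (qf (sym h) p p * qf (sym a) p q - qf (sym h) p q * qf (sym a) p p) *
          (qf (sym h) p q * qf (sym a) q q - qf (sym h) q q * qf (sym a) p q) := by
  have h1 : ap (sym h) (sym a) (cr p q) = qf (sym h) p p * qf (sym a) q q +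
      qf (sym h) q q * qf (sym a) p p - 2 * (qf (sym h) p q * qf (sym a) p q) := by
    simp only [ap, cr, qf, sym, Matrix.of_apply, Matrix.cons_val', Matrix.cons_val_zero,
      Matrix.cons_val_one, Matrix.cons_val_fin_one, Matrix.cons_val]
    ring
  have h2 : ∀ x : Fin 5 → R, aq (sym x) (cr p q) =
      qf (sym x) p p * qf (sym x) q q - qf (sym x) p q ^ 2 := by
    intro x
    simp only [aq, cr, qf, sym, Matrix.of_apply, Matrix.cons_val', Matrix.cons_val_zero,
      Matrix.cons_val_one, Matrix.cons_val_fin_one, Matrix.cons_val]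
    ring
  rw [D0, h1, h2, h2]
  ring

/-- the hermitian form in the vectors `p`, `q` -/
theorem herm_qf (d : R) (h : Fin 5 → R) (t : Fin 3 → R) (u : Fin 6 → R) :
    herm d (sym h) t u = qf (sym h) (lo u) (lo u) - d * qf (sym h) (hi u) (hi u) -
      2 * dv t (cr (lo u) (hi u)) := by
  simp only [herm, qf, dv, cr, lo, hi, sym, Matrix.of_apply, Matrix.cons_val',
    Matrix.cons_val_zero, Matrix.cons_val_one, Matrix.cons_val_fin_one, Matrix.cons_val]
  ring

/-- the determinant of a form, in terms of its Gram matrix on `r`, `r'`, `e i` -/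
theorem det_gram (h : Fin 5 → R) (r r' : Fin 3 → R) (h1 : qf (sym h) r r = 0)
    (h2 : qf (sym h) r r' = 0) (h3 : qf (sym h) r' r' = 0) (i : Fin 3) :
    (sym h).det * cr r r' i ^ 2 = 0 := by
  have key : ∀ z : Fin 3 → R, (sym h).det * dv (cr r r') z ^ 2 =
      qf (sym h) r r * (qf (sym h) r' r' * qf (sym h) z z - qf (sym h) r' z ^ 2) -
        qf (sym h) r r' * (qf (sym h) r r' * qf (sym h) z z -
          qf (sym h) r z * qf (sym h) r' z) +
        qf (sym h) r z * (qf (sym h) r r' * qf (sym h) r' z -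
          qf (sym h) r' r' * qf (sym h) r z) := by
    intro z
    simp only [Matrix.det_fin_three, dv, cr, qf, sym, Matrix.of_apply, Matrix.cons_val',
      Matrix.cons_val_zero, Matrix.cons_val_one, Matrix.cons_val_fin_one, Matrix.cons_val]
    ring
  have h4 := key (Pi.single i 1)
  rw [h1, h2, h3] at h4
  have h5 : dv (cr r r') (Pi.single i 1) = cr r r' i := by
    fin_cases i <;> simp [dv]
  rw [h5] at h4
  rw [h4]
  ring

/-- Cramer's rule for a vector of the plane spanned by `r`, `r'` -/
theorem cramer (r r' t : Fin 3 → R) (ht : dv t (cr r r') = 0) (i : Fin 3) :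
    ∃ α β : R, ∀ j, cr r r' i * t j = α * r j + β * r' j := by
  refine ⟨cr t r' i, cr r t i, fun j => ?_⟩
  simp only [dv, cr, Matrix.cons_val_zero, Matrix.cons_val_one, Matrix.cons_val] at ht
  fin_cases i <;> fin_cases j <;>
    simp only [cr, Fin.zero_eta, Fin.mk_one, Fin.reduceFinMk, Matrix.cons_val_zero,
      Matrix.cons_val_one, Matrix.cons_val]
  · linear_combination (1 : R) * ht
  · ring
  · ring
  · ring
  · linear_combination (1 : R) * ht
  · ring
  · ring
  · ring
  · linear_combination (1 : R) * ht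

end Ring

section Fld

variable {k Ω : Type} [Field k] [Field Ω] [Algebra k Ω]

/-- multiplication of `p + √d q` by `α + β √d` -/
def ml (d α β : Ω) (u : Fin 6 → Ω) : Fin 6 → Ω :=
  ![α * u 0 + β * (d * u 3), α * u 1 + β * (d * u 4), α * u 2 + β * (d * u 5),
    α * u 3 + β * u 0, α * u 4 + β * u 1, α * u 5 + β * u 2]

theorem sym_mem {T : IntermediateField k Ω} {h : Fin 5 → Ω} (hh : ∀ i, h i ∈ T) (i j : Fin 3) :
    sym h i j ∈ T := by
  fin_cases i <;> fin_cases j <;> simp only [sym, Matrix.of_apply, Matrix.cons_val',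
    Matrix.cons_val_zero, Matrix.cons_val_one, Matrix.cons_val_fin_one, Matrix.cons_val,
    Fin.zero_eta, Fin.mk_one, Fin.reduceFinMk] <;>
    first | exact hh _ | exact neg_mem (add_mem (hh _) (hh _))

theorem qf_mem {T : IntermediateField k Ω} {h : Fin 5 → Ω} (hh : ∀ i, h i ∈ T)
    {u v : Fin 3 → Ω} (hu : ∀ i, u i ∈ T) (hv : ∀ i, v i ∈ T) : qf (sym h) u v ∈ T := by
  have h1 := fun i j => sym_mem hh i j
  have h2 : ∀ i, sym h i 0 * v 0 + sym h i 1 * v 1 + sym h i 2 * v 2 ∈ T := fun i =>
    add_mem (add_mem (mul_mem (h1 _ _) (hv _)) (mul_mem (h1 _ _) (hv _)))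
      (mul_mem (h1 _ _) (hv _))
  exact add_mem (add_mem (mul_mem (hu _) (h2 _)) (mul_mem (hu _) (h2 _))) (mul_mem (hu _) (h2 _))

theorem dv_mem {T : IntermediateField k Ω} {u v : Fin 3 → Ω} (hu : ∀ i, u i ∈ T)
    (hv : ∀ i, v i ∈ T) : dv u v ∈ T :=
  add_mem (add_mem (mul_mem (hu _) (hv _)) (mul_mem (hu _) (hv _))) (mul_mem (hu _) (hv _))

theorem cr_mem {T : IntermediateField k Ω} {u v : Fin 3 → Ω} (hu : ∀ i, u i ∈ T)
    (hv : ∀ i, v i ∈ T) (i : Fin 3) : cr u v i ∈ T := by
  fin_cases i <;> exact sub_mem (mul_mem (hu _) (hv _)) (mul_mem (hu _) (hv _))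

/-- the case of a rational common zero `r` of the two forms -/
theorem key_step (two : (2 : Ω) ≠ 0) {T : IntermediateField k Ω} {d : Ω} (hd : ∀ f : Ω, f ^ 2 ≠ d)
    {h a : Fin 5 → Ω} (hh : ∀ i, h i ∈ T) (ha : ∀ i, a i ∈ T) {t s : Fin 3 → Ω}
    (ht : ∀ i, t i ∈ T) (hs : ∀ i, s i ∈ T) {r r' : Fin 3 → Ω} (hr : ∀ i, r i ∈ T)
    (hr' : ∀ i, r' i ∈ T) (h1 : qf (sym h) r r = 0) (h2 : qf (sym a) r r = 0)
    {u : Fin 6 → Ω} {p₁ p₂ q₁ q₂ : Ω} (hp : lo u = fun j => p₁ * r j + p₂ * r' j)
    (hq : hi u = fun j => q₁ * r j + q₂ * r' j) (hn : cr (lo u) (hi u) ≠ 0)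
    (e1 : herm d (sym h) t u = 0) (e2 : herm d (sym a) s u = 0) :
    (∃ (v : Fin 6 → Ω) (α β : Ω), (∀ i, v i ∈ T) ∧ u = ml d α β v) ∨
      ∃ y z : Ω, (y ≠ 0 ∨ z ≠ 0) ∧ y * qf (sym h) r r' + z * qf (sym a) r r' = 0 ∧
        y * qf (sym h) r' r' + z * qf (sym a) r' r' = 0 ∧
        y * dv t (cr r r') + z * dv s (cr r r') = 0 := by
  have hcr : ∀ i, cr (lo u) (hi u) i = (p₁ * q₂ - p₂ * q₁) * cr r r' i := by
    intro i
    rw [hp, hq]
    fin_cases i <;> simp only [cr, Matrix.cons_val_zero, Matrix.cons_val_one, Matrix.cons_val,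
      Fin.zero_eta, Fin.mk_one, Fin.reduceFinMk] <;> ring
  have hN : p₂ ^ 2 - d * q₂ ^ 2 ≠ 0 := by
    intro h0
    by_cases hq2 : q₂ = 0
    · have hp2 : p₂ = 0 := by
        rw [hq2] at h0
        exact pow_eq_zero_iff (n := 2) two_ne_zero |>.1 (by linear_combination h0)
      apply hn
      funext i
      rw [hcr, hp2, hq2]
      simp
    · apply hd (p₂ / q₂)
      field_simp
      linear_combination h0
  set N := p₂ ^ 2 - d * q₂ ^ 2 with hNd
  set x₀ := (p₁ * p₂ - d * (q₁ * q₂)) / N with hx0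
  set x₁ := (q₁ * p₂ - p₁ * q₂) / N with hx1
  have hdv : ∀ w : Fin 3 → Ω, dv w (cr (lo u) (hi u)) =
      (p₁ * q₂ - p₂ * q₁) * dv w (cr r r') := by
    intro w
    simp only [dv, hcr]
    ring
  have hx0N : x₀ * N = p₁ * p₂ - d * (q₁ * q₂) := div_mul_cancel₀ _ hN
  have hx1N : x₁ * N = q₁ * p₂ - p₁ * q₂ := div_mul_cancel₀ _ hN
  have main : ∀ (x : Fin 5 → Ω) (w : Fin 3 → Ω), qf (sym x) r r = 0 →
      herm d (sym x) w u = 0 →
      2 * x₀ * qf (sym x) r r' + qf (sym x) r' r' + 2 * x₁ * dv w (cr r r') = 0 := by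
    intro x w hx hw
    rw [herm_qf, hdv, hp, hq, qf_lin, qf_lin, hx] at hw
    have h3 : (2 * x₀ * qf (sym x) r r' + qf (sym x) r' r' + 2 * x₁ * dv w (cr r r')) * N = 0 := by
      linear_combination hw + 2 * qf (sym x) r r' * hx0N + 2 * dv w (cr r r') * hx1N
    exact (mul_eq_zero.1 h3).resolve_right hN
  have m1 := main h t h1 e1
  have m2 := main a s h2 e2
  set H₁ := qf (sym h) r r' with hH1
  set A₁ := qf (sym a) r r' with hA1
  set τ₁ := dv t (cr r r') with hτ1
  set τ₂ := dv s (cr r r') with hτ2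
  by_cases hdet : H₁ * τ₂ - A₁ * τ₁ = 0
  · right
    have key : ∀ y z : Ω, y * H₁ + z * A₁ = 0 → y * τ₁ + z * τ₂ = 0 →
        y * qf (sym h) r' r' + z * qf (sym a) r' r' = 0 := by
      intro y z h3 h4
      linear_combination y * m1 + z * m2 - 2 * x₀ * h3 - 2 * x₁ * h4
    by_cases hH0 : H₁ = 0
    · by_cases hτ0 : τ₁ = 0
      · exact ⟨1, 0, Or.inl one_ne_zero, by rw [hH0]; ring,
          key 1 0 (by rw [hH0]; ring) (by rw [hτ0]; ring), by rw [hτ0]; ring⟩
      · have h3 : -τ₂ * H₁ + τ₁ * A₁ = 0 := by linear_combination -hdet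
        exact ⟨-τ₂, τ₁, Or.inr hτ0, h3, key _ _ h3 (by ring), by ring⟩
    · have h3 : -A₁ * τ₁ + H₁ * τ₂ = 0 := by linear_combination hdet
      exact ⟨-A₁, H₁, Or.inr hH0, by ring, key _ _ (by ring) h3, h3⟩
  · left
    have hx0T : x₀ ∈ T := by
      have h3 : x₀ = (qf (sym a) r' r' * τ₁ - qf (sym h) r' r' * τ₂) /
          (2 * (H₁ * τ₂ - A₁ * τ₁)) := by
        rw [eq_div_iff (mul_ne_zero two hdet)]
        linear_combination τ₂ * m1 - τ₁ * m2
      rw [h3]
      have h4 := cr_mem hr hr'
      refine div_mem (sub_mem (mul_mem (qf_mem ha hr' hr') (dv_mem ht h4))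
        (mul_mem (qf_mem hh hr' hr') (dv_mem hs h4))) (mul_mem ?_ (sub_mem
        (mul_mem (qf_mem hh hr hr') (dv_mem hs h4)) (mul_mem (qf_mem ha hr hr') (dv_mem ht h4))))
      exact_mod_cast natCast_mem T 2
    have hx1T : x₁ ∈ T := by
      have h3 : x₁ = (qf (sym h) r' r' * A₁ - qf (sym a) r' r' * H₁) /
          (2 * (H₁ * τ₂ - A₁ * τ₁)) := by
        rw [eq_div_iff (mul_ne_zero two hdet)]
        linear_combination -A₁ * m1 + H₁ * m2
      rw [h3]
      have h4 := cr_mem hr hr'
      refine div_mem (sub_mem (mul_mem (qf_mem hh hr' hr') (qf_mem ha hr hr'))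
        (mul_mem (qf_mem ha hr' hr') (qf_mem hh hr hr'))) (mul_mem ?_ (sub_mem
        (mul_mem (qf_mem hh hr hr') (dv_mem hs h4)) (mul_mem (qf_mem ha hr hr') (dv_mem ht h4))))
      exact_mod_cast natCast_mem T 2
    refine ⟨![x₀ * r 0 + r' 0, x₀ * r 1 + r' 1, x₀ * r 2 + r' 2, x₁ * r 0, x₁ * r 1, x₁ * r 2],
      p₂, q₂, fun i => ?_, ?_⟩
    · fin_cases i
      · exact add_mem (mul_mem hx0T (hr _)) (hr' _)
      · exact add_mem (mul_mem hx0T (hr _)) (hr' _)
      · exact add_mem (mul_mem hx0T (hr _)) (hr' _)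
      · exact mul_mem hx1T (hr _)
      · exact mul_mem hx1T (hr _)
      · exact mul_mem hx1T (hr _)
    · have hlo : ∀ j, lo u j = p₁ * r j + p₂ * r' j := fun j => congrFun hp j
      have hhi : ∀ j, hi u j = q₁ * r j + q₂ * r' j := fun j => congrFun hq j
      have e3 : p₂ * x₀ + q₂ * (d * x₁) = p₁ := by
        have h3 : (p₂ * x₀ + q₂ * (d * x₁) - p₁) * N = 0 := by
          rw [hNd] at hx0N hx1N ⊢
          linear_combination p₂ * hx0N + q₂ * d * hx1N
        exact sub_eq_zero.1 ((mul_eq_zero.1 h3).resolve_right hN)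
      have e4 : p₂ * x₁ + q₂ * x₀ = q₁ := by
        have h3 : (p₂ * x₁ + q₂ * x₀ - q₁) * N = 0 := by
          rw [hNd] at hx0N hx1N ⊢
          linear_combination p₂ * hx1N + q₂ * hx0N
        exact sub_eq_zero.1 ((mul_eq_zero.1 h3).resolve_right hN)
      funext i
      fin_cases i
      · have h3 : u 0 = p₁ * r 0 + p₂ * r' 0 := hlo 0
        change u 0 = p₂ * (x₀ * r 0 + r' 0) + q₂ * (d * (x₁ * r 0))
        rw [h3]
        linear_combination -r 0 * e3
      · have h3 : u 1 = p₁ * r 1 + p₂ * r' 1 := hlo 1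
        change u 1 = p₂ * (x₀ * r 1 + r' 1) + q₂ * (d * (x₁ * r 1))
        rw [h3]
        linear_combination -r 1 * e3
      · have h3 : u 2 = p₁ * r 2 + p₂ * r' 2 := hlo 2
        change u 2 = p₂ * (x₀ * r 2 + r' 2) + q₂ * (d * (x₁ * r 2))
        rw [h3]
        linear_combination -r 2 * e3
      · have h3 : u 3 = q₁ * r 0 + q₂ * r' 0 := hhi 0
        change u 3 = p₂ * (x₁ * r 0) + q₂ * (x₀ * r 0 + r' 0)
        rw [h3]
        linear_combination -r 0 * e4
      · have h3 : u 4 = q₁ * r 1 + q₂ * r' 1 := hhi 1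
        change u 4 = p₂ * (x₁ * r 1) + q₂ * (x₀ * r 1 + r' 1)
        rw [h3]
        linear_combination -r 1 * e4
      · have h3 : u 5 = q₁ * r 2 + q₂ * r' 2 := hhi 2
        change u 5 = p₂ * (x₁ * r 2) + q₂ * (x₀ * r 2 + r' 2)
        rw [h3]
        linear_combination -r 2 * e4

/-- if a combination of the two hermitian forms vanishes on a plane, then the two binary cubics
have a common zero -/
theorem cubics_zero {h a : Fin 5 → Ω} {t s r r' : Fin 3 → Ω} (hrr : cr r r' ≠ 0) {y z : Ω}
    (h1 : y * qf (sym h) r r + z * qf (sym a) r r = 0)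
    (h2 : y * qf (sym h) r r' + z * qf (sym a) r r' = 0)
    (h3 : y * qf (sym h) r' r' + z * qf (sym a) r' r' = 0)
    (h4 : y * dv t (cr r r') + z * dv s (cr r r') = 0) :
    (sym fun k => y * h k + z * a k).det = 0 ∧
      qf (sym fun k => y * h k + z * a k) (fun j => y * t j + z * s j)
        (fun j => y * t j + z * s j) = 0 := by
  obtain ⟨i, hi⟩ := Function.ne_iff.1 hrr
  have hi' : cr r r' i ≠ 0 := hi
  rw [← qf_comb] at h1 h2 h3
  refine ⟨?_, ?_⟩
  · have h5 := det_gram _ r r' h1 h2 h3 i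
    exact (mul_eq_zero.1 h5).resolve_right (pow_ne_zero 2 hi')
  · have h6 : dv (fun j => y * t j + z * s j) (cr r r') = 0 := by
      rw [← h4]
      simp only [dv]
      ring
    obtain ⟨α, β, hαβ⟩ := cramer r r' _ h6 i
    have h7 := qf_lin (fun k => y * h k + z * a k) α β r r'
    rw [h1, h2, h3] at h7
    have h8 : (fun j => α * r j + β * r' j) =
        fun j => cr r r' i * (y * t j + z * s j) + 0 * r j := by
      funext j
      rw [← hαβ j]
      ring
    rw [h8, qf_lin] at h7
    have h9 : cr r r' i ^ 2 * qf (sym fun k => y * h k + z * a k)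
        (fun j => y * t j + z * s j) (fun j => y * t j + z * s j) = 0 := by
      linear_combination h7
    exact (mul_eq_zero.1 h9).resolve_left (pow_ne_zero 2 hi')

theorem D0_smul (h a : Fin 5 → Ω) (c : Ω) (n : Fin 3 → Ω) :
    D0 (sym h) (sym a) (fun j => c * n j) = c ^ 4 * D0 (sym h) (sym a) n := by
  simp only [D0, ap, aq]
  ring

/-- a basis of the plane orthogonal to `m`, with the same coordinates -/
theorem exists_basis (m : Fin 3 → Ω) (i : Fin 3) (hm : m i = 1) :
    ∃ w w' : Fin 3 → Ω, (∀ T : IntermediateField k Ω, (∀ j, m j ∈ T) →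
      (∀ j, w j ∈ T) ∧ ∀ j, w' j ∈ T) ∧ (∃ c : Ω, c ^ 2 = 1 ∧ ∀ j, cr w w' j = c * m j) ∧
      ∀ x : Fin 3 → Ω, dv x m = 0 → ∃ x₁ x₂ : Ω, x = fun j => x₁ * w j + x₂ * w' j := by
  fin_cases i
  · have hm' : m 0 = 1 := hm
    refine ⟨![-m 1, 1, 0], ![-m 2, 0, 1], fun T hT => ⟨fun j => ?_, fun j => ?_⟩,
      ⟨1, by ring, fun j => ?_⟩, fun x hx => ⟨x 1, x 2, ?_⟩⟩
    · fin_cases j
      · exact neg_mem (hT 1)
      · exact one_mem T
      · exact zero_mem T
    · fin_cases j
      · exact neg_mem (hT 2)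
      · exact zero_mem T
      · exact one_mem T
    · fin_cases j <;> simp [cr, hm']
    · rw [dv, hm'] at hx
      funext j
      fin_cases j
      · simp
        linear_combination hx
      · simp
      · simp
  · have hm' : m 1 = 1 := hm
    refine ⟨![1, -m 0, 0], ![0, -m 2, 1], fun T hT => ⟨fun j => ?_, fun j => ?_⟩,
      ⟨-1, by ring, fun j => ?_⟩, fun x hx => ⟨x 0, x 2, ?_⟩⟩
    · fin_cases j
      · exact one_mem T
      · exact neg_mem (hT 0)
      · exact zero_mem T
    · fin_cases j
      · exact zero_mem T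
      · exact neg_mem (hT 2)
      · exact one_mem T
    · fin_cases j <;> simp [cr, hm']
    · rw [dv, hm'] at hx
      funext j
      fin_cases j
      · simp
      · simp
        linear_combination hx
      · simp
  · have hm' : m 2 = 1 := hm
    refine ⟨![1, 0, -m 0], ![0, 1, -m 1], fun T hT => ⟨fun j => ?_, fun j => ?_⟩,
      ⟨1, by ring, fun j => ?_⟩, fun x hx => ⟨x 0, x 1, ?_⟩⟩
    · fin_cases j
      · exact one_mem T
      · exact zero_mem T
      · exact neg_mem (hT 0)
    · fin_cases j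
      · exact zero_mem T
      · exact one_mem T
      · exact neg_mem (hT 1)
    · fin_cases j <;> simp [cr, hm']
    · rw [dv, hm'] at hx
      funext j
      fin_cases j
      · simp
      · simp
      · simp
        linear_combination hx

/-- a common zero of two binary quadratic forms with resultant zero -/
theorem exists_root {A B C A' B' C' : Ω}
    (h : (A * C' - C * A') ^ 2 - 4 * (A * B' - B * A') * (B * C' - C * B') = 0) (two : (2 : Ω) ≠ 0) :
    (∃ x y : Ω, (x ≠ 0 ∨ y ≠ 0) ∧ A * x ^ 2 + 2 * B * x * y + C * y ^ 2 = 0 ∧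
      A' * x ^ 2 + 2 * B' * x * y + C' * y ^ 2 = 0 ∧ ∀ T : IntermediateField k Ω,
        A ∈ T → B ∈ T → C ∈ T → A' ∈ T → B' ∈ T → C' ∈ T → x ∈ T ∧ y ∈ T) ∨
      ∃ y z : Ω, (y ≠ 0 ∨ z ≠ 0) ∧ y * A + z * A' = 0 ∧ y * B + z * B' = 0 ∧
        y * C + z * C' = 0 := by
  have two_mem : ∀ T : IntermediateField k Ω, (2 : Ω) ∈ T := fun T => by
    exact_mod_cast natCast_mem T 2
  set α := A * B' - B * A' with hα
  set β := B * C' - C * B' with hβ
  set γ := A * C' - C * A' with hγ
  by_cases h1 : β = 0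
  · by_cases h2 : α = 0
    · right
      have h3 : γ = 0 := by
        rw [h1, h2] at h
        exact pow_eq_zero_iff (n := 2) two_ne_zero |>.1 (by linear_combination h)
      by_cases hA : A = 0
      · by_cases hB : B = 0
        · by_cases hC : C = 0
          · exact ⟨1, 0, Or.inl one_ne_zero, by rw [hA]; ring, by rw [hB]; ring,
              by rw [hC]; ring⟩
          · exact ⟨-C', C, Or.inr hC, by linear_combination -h3, by linear_combination -h1,
              by ring⟩
        · exact ⟨-B', B, Or.inr hB, by linear_combination -h2, by ring,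
            by linear_combination h1⟩
      · exact ⟨-A', A, Or.inr hA, by ring, by linear_combination h2, by linear_combination h3⟩
    · left
      refine ⟨-γ, 2 * α, Or.inr (mul_ne_zero two h2), ?_, ?_, fun T hA hB hC hA' hB' hC' => ?_⟩
      · rw [hα, hγ] at *
        linear_combination A * h
      · rw [hα, hγ] at *
        linear_combination A' * h
      · exact ⟨neg_mem (sub_mem (mul_mem hA hC') (mul_mem hC hA')),
          mul_mem (two_mem T) (sub_mem (mul_mem hA hB') (mul_mem hB hA'))⟩
  · left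
    refine ⟨2 * β, -γ, Or.inl (mul_ne_zero two h1), ?_, ?_, fun T hA hB hC hA' hB' hC' => ?_⟩
    · rw [hβ, hγ] at *
      linear_combination C * h
    · rw [hβ, hγ] at *
      linear_combination C' * h
    · exact ⟨mul_mem (two_mem T) (sub_mem (mul_mem hB hC') (mul_mem hC hB')),
        neg_mem (sub_mem (mul_mem hA hC') (mul_mem hC hA'))⟩

/-- **The theorem**: over the zeros of the discriminant two elements are enough. -/
theorem deg_gen (two : (2 : Ω) ≠ 0) (P : IntermediateField k Ω) {d : Ω} (hd : ∀ f : Ω, f ^ 2 ≠ d)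
    {h a : Fin 5 → Ω} (hh : ∀ i, h i ∈ P) (ha : ∀ i, a i ∈ P) {t s : Fin 3 → Ω}
    (ht : ∀ i, t i ∈ P) (hs : ∀ i, s i ∈ P) {u : Fin 6 → Ω} (hu : u ≠ 0)
    (e1 : herm d (sym h) t u = 0) (e2 : herm d (sym a) s u = 0)
    (hD : D0 (sym h) (sym a) (cr (lo u) (hi u)) = 0)
    (hgen : ∀ T : IntermediateField k Ω, P ≤ T →
      (∃ (v : Fin 6 → Ω) (α β : Ω), (∀ i, v i ∈ T) ∧ u = ml d α β v) → T = ⊤)
    (hC : ∀ y z : Ω, (y ≠ 0 ∨ z ≠ 0) → (sym fun k => y * h k + z * a k).det = 0 →
      qf (sym fun k => y * h k + z * a k) (fun j => y * t j + z * s j)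
        (fun j => y * t j + z * s j) = 0 → False) :
    ∃ z : Fin 2 → Ω, ∀ T : IntermediateField k Ω, P ≤ T → (∀ j, z j ∈ T) → T = ⊤ := by
  -- a vector with one coordinate 1 and the others in `T` is in `T`
  have key : ∀ (m : Fin 3 → Ω) (i : Fin 3), m i = 1 → ∀ T : IntermediateField k Ω,
      (∀ j : Fin 2, m (i.succAbove j) ∈ T) → ∀ j, m j ∈ T := by
    intro m i hm T hT j
    rcases Fin.eq_self_or_eq_succAbove i j with h1 | ⟨l, h1⟩
    · rw [h1, hm]
      exact one_mem T
    · rw [h1]
      exact hT l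
  by_cases hn : cr (lo u) (hi u) = 0
  · -- `u = (p, q)` with `p`, `q` proportional
    have hcr : ∀ i j, lo u j * hi u i = lo u i * hi u j := by
      have h0 := congrFun hn 0
      have h1 := congrFun hn 1
      have h2 := congrFun hn 2
      simp only [cr, Matrix.cons_val_zero, Matrix.cons_val_one, Matrix.cons_val,
        Pi.zero_apply] at h0 h1 h2
      intro i j
      fin_cases i <;> fin_cases j <;> simp only [Fin.zero_eta, Fin.mk_one, Fin.reduceFinMk]
      · linear_combination -h2
      · linear_combination h1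
      · linear_combination h2
      · linear_combination -h0
      · linear_combination -h1
      · linear_combination h0
    obtain ⟨i, hi0⟩ : ∃ i, lo u i ≠ 0 ∨ hi u i ≠ 0 := by
      by_contra hcon
      push Not at hcon
      apply hu
      funext j
      fin_cases j
      · exact (hcon 0).1
      · exact (hcon 1).1
      · exact (hcon 2).1
      · exact (hcon 0).2
      · exact (hcon 1).2
      · exact (hcon 2).2
    obtain ⟨r, hr1, hr⟩ : ∃ r : Fin 3 → Ω, r i = 1 ∧
        ∀ j, lo u j = lo u i * r j ∧ hi u j = hi u i * r j := by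
      by_cases h1 : hi u i = 0
      · have h2 : lo u i ≠ 0 := hi0.resolve_right (fun h => h h1)
        refine ⟨fun j => lo u j / lo u i, div_self h2, fun j => ⟨?_, ?_⟩⟩
        · rw [mul_div_cancel₀ _ h2]
        · have h3 := hcr i j
          rw [h1, mul_zero] at h3
          rw [h1, zero_mul]
          exact ((mul_eq_zero.1 h3.symm).resolve_left h2)
      · refine ⟨fun j => hi u j / hi u i, div_self h1, fun j => ⟨?_, ?_⟩⟩
        · rw [← mul_div_assoc, eq_div_iff h1]
          exact hcr i j
        · rw [mul_div_cancel₀ _ h1]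
    refine ⟨fun j => r (i.succAbove j), fun T hPT hT => ?_⟩
    have hrT := key r i hr1 T hT
    refine hgen T hPT ⟨![r 0, r 1, r 2, 0, 0, 0], lo u i, hi u i, fun j => ?_, ?_⟩
    · fin_cases j
      · exact hrT 0
      · exact hrT 1
      · exact hrT 2
      · exact zero_mem T
      · exact zero_mem T
      · exact zero_mem T
    · funext j
      fin_cases j
      · exact ((hr 0).1).trans (by simp [ml])
      · exact ((hr 1).1).trans (by simp [ml])
      · exact ((hr 2).1).trans (by simp [ml])
      · exact ((hr 0).2).trans (by simp [ml])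
      · exact ((hr 1).2).trans (by simp [ml])
      · exact ((hr 2).2).trans (by simp [ml])
  · obtain ⟨i, hi0⟩ := Function.ne_iff.1 hn
    have hi0' : cr (lo u) (hi u) i ≠ 0 := hi0
    set n := cr (lo u) (hi u) with hnd
    set m : Fin 3 → Ω := fun j => n j / n i with hm
    have hmi : m i = 1 := div_self hi0'
    have hnm : ∀ j, n j = n i * m j := fun j => by rw [hm]; field_simp
    obtain ⟨w, w', hwT, ⟨c, hc, hww⟩, hbas⟩ := exists_basis (k := k) m i hmi
    have hc0 : c ≠ 0 := fun h0 => by
      rw [h0] at hc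
      norm_num at hc
    have hmw : ∀ j, m j = c * cr w w' j := by
      intro j
      rw [hww j]
      linear_combination -(m j) * hc
    have hD' : D0 (sym h) (sym a) (cr w w') = 0 := by
      have h1 : n = fun j => (n i * c) * cr w w' j := by
        funext j
        rw [hnm j, hmw j]
        ring
      rw [h1, D0_smul] at hD
      exact (mul_eq_zero.1 hD).resolve_left (pow_ne_zero 4 (mul_ne_zero hi0' hc0))
    have hperp : ∀ x : Fin 3 → Ω, dv x n = 0 → dv x m = 0 := by
      intro x hx
      have h1 : dv x n = n i * dv x m := by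
        simp only [dv]
        rw [hnm 0, hnm 1, hnm 2]
        ring
      rw [h1] at hx
      exact (mul_eq_zero.1 hx).resolve_left hi0'
    have hlo : dv (lo u) n = 0 := by
      simp only [hnd, dv, cr, lo, hi, Matrix.cons_val_zero, Matrix.cons_val_one, Matrix.cons_val]
      ring
    have hhi : dv (hi u) n = 0 := by
      simp only [hnd, dv, cr, lo, hi, Matrix.cons_val_zero, Matrix.cons_val_one, Matrix.cons_val]
      ring
    obtain ⟨p₁, p₂, hp⟩ := hbas (lo u) (hperp _ hlo)
    obtain ⟨q₁, q₂, hq⟩ := hbas (hi u) (hperp _ hhi)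
    rw [D0_cr] at hD'
    have hD2 : (qf (sym h) w w * qf (sym a) w' w' - qf (sym h) w' w' * qf (sym a) w w) ^ 2 -
        4 * (qf (sym h) w w * qf (sym a) w w' - qf (sym h) w w' * qf (sym a) w w) *
          (qf (sym h) w w' * qf (sym a) w' w' - qf (sym h) w' w' * qf (sym a) w w') = 0 := hD'
    have hwn : cr w w' ≠ 0 := by
      intro h0
      apply hi0'
      rw [hnm i, hmw i, h0]
      simp
    rcases exists_root (k := k) hD2 two with
      ⟨x, y, hxy, hrh, hra, hxyT⟩ | ⟨y, z, hyz, hA, hB, hC'⟩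
    · -- the common zero `r`
      set r : Fin 3 → Ω := fun j => x * w j + y * w' j with hr
      have hr1 : qf (sym h) r r = 0 := by
        rw [hr, qf_lin]
        linear_combination hrh
      have hr2 : qf (sym a) r r = 0 := by
        rw [hr, qf_lin]
        linear_combination hra
      obtain ⟨r', p₁', p₂', q₁', q₂', hr'T, hp', hq'⟩ : ∃ (r' : Fin 3 → Ω) (p₁' p₂' q₁' q₂' : Ω),
          (∀ T : IntermediateField k Ω, (∀ j, m j ∈ T) → ∀ j, r' j ∈ T) ∧
            (lo u = fun j => p₁' * r j + p₂' * r' j) ∧ hi u = fun j => q₁' * r j + q₂' * r' j := by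
        by_cases hy : y = 0
        · have hx : x ≠ 0 := hxy.resolve_right fun h => h hy
          refine ⟨w', p₁ / x, p₂, q₁ / x, q₂, fun T hT => (hwT T hT).2, ?_, ?_⟩
          · rw [hp]
            funext j
            rw [hr, hy]
            field_simp
            ring
          · rw [hq]
            funext j
            rw [hr, hy]
            field_simp
            ring
        · refine ⟨w, p₂ / y, p₁ - p₂ * x / y, q₂ / y, q₁ - q₂ * x / y,
            fun T hT => (hwT T hT).1, ?_, ?_⟩
          · rw [hp]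
            funext j
            rw [hr]
            field_simp
            ring
          · rw [hq]
            funext j
            rw [hr]
            field_simp
            ring
      have hrr' : cr r r' ≠ 0 := by
        intro h0
        apply hi0'
        have h1 : ∀ j, n j = (p₁' * q₂' - p₂' * q₁') * cr r r' j := by
          intro j
          rw [hnd, hp', hq']
          fin_cases j <;> simp only [cr, Matrix.cons_val_zero, Matrix.cons_val_one,
            Matrix.cons_val, Fin.zero_eta, Fin.mk_one, Fin.reduceFinMk] <;> ring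
        rw [h1 i, h0]
        simp
      refine ⟨fun j => m (i.succAbove j), fun T hPT hT => ?_⟩
      have hmT := key m i hmi T hT
      have hhT : ∀ i, h i ∈ T := fun i => hPT (hh i)
      have haT : ∀ i, a i ∈ T := fun i => hPT (ha i)
      have hrT : ∀ j, r j ∈ T := by
        obtain ⟨h1, h2⟩ := hwT T hmT
        obtain ⟨h3, h4⟩ := hxyT T (qf_mem hhT h1 h1) (qf_mem hhT h1 h2) (qf_mem hhT h2 h2)
          (qf_mem haT h1 h1) (qf_mem haT h1 h2) (qf_mem haT h2 h2)
        exact fun j => add_mem (mul_mem h3 (h1 j)) (mul_mem h4 (h2 j))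
      rcases key_step two hd hhT haT (fun i => hPT (ht i)) (fun i => hPT (hs i)) hrT
        (hr'T T hmT) hr1 hr2 hp' hq' hn e1 e2 with ⟨v, α, β, hv, hvu⟩ | ⟨y, z, hyz, h1, h2, h3⟩
      · exact hgen T hPT ⟨v, α, β, hv, hvu⟩
      · exfalso
        obtain ⟨h4, h5⟩ := cubics_zero hrr' (h := h) (a := a) (t := t) (s := s) (y := y) (z := z)
          (by rw [hr1, hr2]; ring) h1 h2 h3
        exact hC y z hyz h4 h5
    · exfalso
      have h4 : y * dv t (cr w w') + z * dv s (cr w w') = 0 := by
        have h1 : ∀ x : Fin 3 → Ω, dv x n = (n i * c) * dv x (cr w w') := by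
          intro x
          simp only [dv]
          rw [hnm 0, hnm 1, hnm 2, hmw 0, hmw 1, hmw 2]
          ring
        rw [herm_qf, ← hnd, h1] at e1 e2
        have h2 : ∀ (x₁ x₂ : Ω), y * qf (sym h) (fun j => x₁ * w j + x₂ * w' j)
            (fun j => x₁ * w j + x₂ * w' j) + z * qf (sym a) (fun j => x₁ * w j + x₂ * w' j)
            (fun j => x₁ * w j + x₂ * w' j) = 0 := by
          intro x₁ x₂
          rw [qf_lin, qf_lin]
          linear_combination x₁ ^ 2 * hA + 2 * x₁ * x₂ * hB + x₂ ^ 2 * hC'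
        have h3 := h2 p₁ p₂
        rw [← hp] at h3
        have h5 := h2 q₁ q₂
        rw [← hq] at h5
        have h6 : 2 * (n i * c) * (y * dv t (cr w w') + z * dv s (cr w w')) = 0 := by
          linear_combination -y * e1 - z * e2 + h3 - d * h5
        exact (mul_eq_zero.1 h6).resolve_left (mul_ne_zero two (mul_ne_zero hi0' hc0))
      obtain ⟨h5, h6⟩ := cubics_zero hwn (h := h) (a := a) (t := t) (s := s) hA hB hC' h4
      exact hC y z hyz h5 h6

end Fld

end Pool.Agent.GTE
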