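import Pool.Agent.GTE.Defs
import Pool.Agent.GSK.KDefs

/-!
# GTE: the K3 surfaces of a type E datum

For a type E datum `E` let `W` be the space of all pairs `(z, x')`, `z` in `F`, `x'` in
`⟨h, e 0, e 1, e 2⟩`, with `z · h = Φ (x', h)` and `z · f j = Φ (x', f j)`. The surface `S` in `ℙ(W)`,
`z · x' = 0`, `tr (z ^ 2 x') + 3 det x' = 0`, is a K3 surface of degree six in a quadric in `ℙ⁴`, and
`x' = a - x h`, `a = e 0 + c 0 e 1 + c 1 e 2`, makes it a triple cover of the plane of the parameters
`c`. The quaternion algebra `(d, d (x'_00 x'_11 - x'_01 ^ 2) + t ^ 2)`, `t` the last entry of the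
vector `tri z h a`, over its function field is the algebra of the hermitian form
`x' + tri (z, h, a) / √d` modulo its kernel.

The second K3 surface belongs to the datum with `e` and `f` exchanged.

`SameK3 X E c`: the K3 surface of `E`, as a triple cover of the plane, and its quaternion algebra are
those of the cubic fourfold `X`. `E.Untwisted`: the quaternion algebra of `E` is split.
-/

set_option autoImplicit false

noncomputable section

namespace Pool.Agent.GTE

open Matrix MvPolynomial Pool.Agent.TK

/-- The indices of the 47 coefficients of a type E datum. -/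
abbrev EIdx : Type :=
  Fin 2 ⊕ (Fin 3 × Fin 5) ⊕ (Fin 3 × Fin 5) ⊕ (Fin 3 × Fin 3) ⊕ Fin 3 ⊕ Fin 3

/-- The 47 coefficients. -/
def EDat.coord {R : Type} (E : EDat R) : EIdx → R :=
  Sum.elim E.h (Sum.elim (fun x => E.e x.1 x.2) (Sum.elim (fun x => E.f x.1 x.2)
    (Sum.elim (fun x => E.p x.1 x.2) (Sum.elim E.r E.s))))

section

variable {M : Type} [CommRing M]

/-- The point `(z, a - x h)` lies on the surface. -/
structure EDat.Surf (E : EDat M) (c : Fin 2 → M) (x : M) (z : Fin 5 → M) : Prop where
  h : dot (sym z) E.hM = E.ah c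
  f : ∀ j, dot (sym z) (E.fM j) = E.af c j - x * E.s j
  quad : dot (sym z) (E.aM c - x • E.hM) = 0
  cubic : trace (sym z * sym z * (E.aM c - x • E.hM)) + 3 * (E.aM c - x • E.hM).det = 0

/-- The number `d (x'_00 x'_11 - x'_01 ^ 2) + t ^ 2`, `x' = a - x h`, `t` the last entry of the vector
`tri z h a`. -/
def EDat.cls (E : EDat M) (c : Fin 2 → M) (x : M) (z : Fin 5 → M) : M :=
  E.d c * ((E.aM c - x • E.hM) 0 0 * (E.aM c - x • E.hM) 1 1 -
    (E.aM c - x • E.hM) 0 1 ^ 2) + tri (sym z) E.hM (E.aM c) 2 ^ 2

end

variable {M : Type} [Field M] [Algebra K M]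

/-- The point `(z, a - x h)` of the surface over the point `c` of the plane, with coordinates in the
extension `M` of `ℂ(s, t)`, which is generated by `x`. -/
structure EDat.Gen (E : EDat ℂ) (c : Fin 2 → K) (x : M) (z : Fin 5 → M) : Prop where
  surf : (E.map (cc M)).Surf (fun i => algebraMap K M (c i)) x z
  top : IntermediateField.adjoin K {x} = ⊤

open scoped Quaternion in
/-- The cubic fourfold and the type E datum with the parameters `c` have the same K3 surface over
the plane, and isomorphic quaternion algebras over its function field. -/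
def SameK3 (X : Cub ℂ) (E : EDat ℂ) (c : Fin 2 → K) : Prop :=
  ∃ (M : Type) (_ : Field M) (_ : Algebra K M) (n n' : Fin 3 → M) (x : M) (z : Fin 5 → M),
    Module.finrank K M = 3 ∧ X.Gen n n' ∧ E.Gen c x z ∧
      Nonempty (ℍ[M, -det2 n, n 0 * n' 0] ≃ₐ[M]
        ℍ[M, (E.map (cc M)).d fun i => algebraMap K M (c i),
          (E.map (cc M)).cls (fun i => algebraMap K M (c i)) x z])

/-- The quaternion algebra `(d, cls)` over the function field of the K3 surface of the datum is
split: `cls` is a norm. -/
def EDat.Untwisted (E : EDat ℂ) : Prop :=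
  ∃ (M : Type) (_ : Field M) (_ : Algebra K M) (x : M) (z : Fin 5 → M) (y : Fin 2 → M),
    Module.finrank K M = 3 ∧ E.Gen var x z ∧
      (E.map (cc M)).cls (fun i => algebraMap K M (var i)) x z =
        y 0 ^ 2 - ((E.map (cc M)).d fun i => algebraMap K M (var i)) * y 1 ^ 2

end Pool.Agent.GTE
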