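import Pool.Agent.GTE.GoodS
import Pool.Agent.GTE.KDefs

/-!
# GTE: type E data in general position exist

`exists_Delta`: there is a nonzero polynomial `Δ` in the 47 coefficients such that every datum `E`
over `ℂ` with `Δ (E) ≠ 0` is `Good`.
-/

set_option autoImplicit false

noncomputable section

namespace Pool.Agent.GTE

open Matrix

/-! ### An example -/

/-- An example. -/
def E1 : EDat ℂ where
  h := ![1, -1]
  e := ![![1, 1, 0, 0, 0], ![0, 0, 1, 0, 0], ![0, 0, 0, 0, 0]]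
  f := ![![0, 0, 1, 0, 0], ![0, 0, 0, 1, 0], ![0, 0, 0, 0, 1]]
  p := ![![0, 0, 0], ![0, 0, 0], ![0, 0, 0]]
  r := ![0, 0, 0]
  s := ![4, 2, 0]

theorem E1_hM : E1.hM = !![1, 0, 0; 0, -1, 0; 0, 0, 0] := by
  ext i j
  fin_cases i <;> fin_cases j <;> simp [EDat.hM, E1, sym]

theorem E1_aM : E1.aM 0 = !![1, 0, 0; 0, 1, 0; 0, 0, -2] := by
  ext i j
  fin_cases i <;> fin_cases j <;> simp [EDat.aM, E1, sym]
  norm_num

theorem E1_bM : E1.bM 0 = !![0, 1, 0; 1, 0, 0; 0, 0, 0] := by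
  ext i j
  fin_cases i <;> fin_cases j <;> simp [EDat.bM, EDat.swap, EDat.aM, E1, sym]

theorem E1_f0 : E1.fM 0 = !![0, 1, 0; 1, 0, 0; 0, 0, 0] := by
  ext i j
  fin_cases i <;> fin_cases j <;> simp [EDat.fM, E1, sym]

theorem E1_f1 : E1.fM 1 = !![0, 0, 1; 0, 0, 0; 1, 0, 0] := by
  ext i j
  fin_cases i <;> fin_cases j <;> simp [EDat.fM, E1, sym]

theorem E1_f2 : E1.fM 2 = !![0, 0, 0; 0, 0, 1; 0, 1, 0] := by
  ext i j
  fin_cases i <;> fin_cases j <;> simp [EDat.fM, E1, sym]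

theorem E1_e0 : sym (E1.e 0) = !![1, 0, 0; 0, 1, 0; 0, 0, -2] := by
  ext i j
  fin_cases i <;> fin_cases j <;> simp [E1, sym]
  norm_num

theorem E1_e1 : sym (E1.e 1) = !![0, 1, 0; 1, 0, 0; 0, 0, 0] := by
  ext i j
  fin_cases i <;> fin_cases j <;> simp [E1, sym]

theorem E1_sys : E1.sysM 0 = !![1, -1, 0, 0, 0; 0, 0, 2, 0, 0; 0, 0, 0, 2, 0; 0, 0, 0, 0, 2;
    3, 3, 0, 0, 0] := by
  ext i j
  fin_cases i <;> fin_cases j <;> simp [EDat.sysM, EDat.h5, EDat.a5, row, E1] <;> norm_num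

theorem E1_d : E1.gd 0 ≠ 0 := by
  have h2 : E1.sysM 0 * !![3, 0, 0, 0, 1; -3, 0, 0, 0, 1; 0, 3, 0, 0, 0; 0, 0, 3, 0, 0;
      0, 0, 0, 3, 0] = (6 : ℂ) • 1 := by
    rw [E1_sys]
    ext i j
    fin_cases i <;> fin_cases j <;> simp [Matrix.mul_apply, Fin.sum_univ_five] <;> norm_num
  intro h0
  have h3 := congrArg Matrix.det h2
  rw [Matrix.det_mul, show (E1.sysM 0).det = 0 from h0, zero_mul, Matrix.det_smul,
    Matrix.det_one] at h3
  norm_num at h3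

theorem E1_kf0 : kf E1.hM (sym (E1.e 0)) E1.hM (sym (E1.e 0)) = -12 := by
  rw [E1_hM, E1_e0]
  simp [kf, dot, Matrix.trace_fin_three]
  norm_num

theorem E1_kf1 : kf E1.hM (sym (E1.e 1)) E1.hM (sym (E1.e 1)) = 12 := by
  rw [E1_hM, E1_e1]
  simp [kf, dot, Matrix.trace_fin_three]
  norm_num

theorem E1_kf2 : kf E1.hM (sym (E1.e 0)) E1.hM (sym (E1.e 1)) = 0 := by
  rw [E1_hM, E1_e0, E1_e1]
  simp [kf, dot, Matrix.trace_fin_three]

theorem E1_k : E1.gk 0 = -12 := by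
  unfold EDat.gk
  rw [E1_hM, E1_aM]
  simp [kf, dot, Matrix.trace_fin_three]
  norm_num

theorem E1_s : E1.gs ≠ 0 := by
  unfold EDat.gs
  rw [E1_kf0, E1_kf1, E1_kf2]
  simp [E1]

theorem E1_n : E1.gn 0 ≠ 0 := by
  have h1 : (Matrix.of fun j i => alt E1.hM (E1.aM 0) (E1.fM j) i : Matrix (Fin 3) (Fin 3) ℂ) =
      !![0, 0, 2; 0, 2, 0; 2, 0, 0] := by
    ext j i
    fin_cases j
    · change alt E1.hM (E1.aM 0) (E1.fM 0) i = _
      rw [E1_hM, E1_aM, E1_f0]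
      fin_cases i <;> simp [alt, vec] <;> norm_num
    · change alt E1.hM (E1.aM 0) (E1.fM 1) i = _
      rw [E1_hM, E1_aM, E1_f1]
      fin_cases i <;> simp [alt, vec]
    · change alt E1.hM (E1.aM 0) (E1.fM 2) i = _
      rw [E1_hM, E1_aM, E1_f2]
      fin_cases i <;> simp [alt, vec]
  unfold EDat.gn
  rw [h1]
  simp [Matrix.det_fin_three]

theorem E1_K : E1.gK 0 ≠ 0 := by
  have h0 : (![(0 : Fin 4 → ℂ) 0, (0 : Fin 4 → ℂ) 1] : Fin 2 → ℂ) = 0 := by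
    funext i
    fin_cases i <;> rfl
  have h0' : (![(0 : Fin 4 → ℂ) 2, (0 : Fin 4 → ℂ) 3] : Fin 2 → ℂ) = 0 := by
    funext i
    fin_cases i <;> rfl
  have h1 : KM E1.hM (E1.aM 0) (E1.bM 0) = !![-12, 0, 0; 0, 12, 0; 0, 0, -12] := by
    rw [E1_hM, E1_aM, E1_bM]
    ext i j
    fin_cases i <;> fin_cases j <;>
      simp [KM, kf, dot, Matrix.trace_fin_three] <;>
      norm_num
  unfold EDat.gK
  rw [h0, h0', h1]
  simp [Matrix.det_fin_three]

theorem E1_sol : E1.Sol 0 ![0, 0, 2, 1, 0] 0 := by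
  refine EDat.sol_of_sys ?_ ?_
  · rw [E1_sys]
    funext i
    fin_cases i <;> simp [Matrix.mulVec, dotProduct, Fin.sum_univ_five, EDat.rhm, EDat.ah, E1]
    norm_num
  · rw [Matrix.mulVec_zero]
    funext i
    fin_cases i <;> simp [EDat.rhg, EDat.ah, EDat.af, E1]

theorem E1_gt : E1.gt 0 = 0 := by
  rw [E1_sol.gt_eq]
  funext k
  simp

theorem E1_c : E1.gc 0 ≠ 0 := by
  have h1 : tri (sym (0 : Fin 5 → ℂ)) E1.hM (E1.aM 0) 2 = 0 := by
    have h2 : sym (0 : Fin 5 → ℂ) = 0 := by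
      ext i j
      fin_cases i <;> fin_cases j <;> simp [sym]
    rw [h2]
    simp [tri, vec]
  have h3 : E1.d 0 = -12 := by
    have h4 : E1.d 0 = E1.gk 0 + E1.ah 0 ^ 2 := rfl
    rw [h4, E1_k]
    simp [EDat.ah, E1]
  unfold EDat.gc
  rw [E1_gt, h1, h3, E1_aM]
  have h5 : (E1.sysM 0).det ≠ 0 := E1_d
  simp [h5]

theorem E1_p : E1.gp 0 ≠ 0 := by
  have h1 : tri (sym (![0, 0, 2, 1, 0] : Fin 5 → ℂ)) E1.hM (E1.aM 0) 2 = -4 := by
    rw [E1_hM, E1_aM]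
    simp [tri, vec, sym]
    norm_num
  have h3 : E1.d 0 = -12 := by
    have h4 : E1.d 0 = E1.gk 0 + E1.ah 0 ^ 2 := rfl
    rw [h4, E1_k]
    simp [EDat.ah, E1]
  unfold EDat.gp
  rw [E1_sol.mt_eq, tri_smul]
  beta_reduce
  rw [h1, h3]
  have h5 : (E1.sysM 0).det ≠ 0 := E1_d
  have h6 : (E1.sysM 0).det ^ 2 * (-12 * (E1.h 0 * E1.h 1)) + ((E1.sysM 0).det * -4) ^ 2 =
      28 * (E1.sysM 0).det ^ 2 := by
    simp [E1]
    ring
  rw [h6]
  exact mul_ne_zero (by norm_num) (pow_ne_zero _ h5)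

theorem E1_q : E1.gq 0 ≠ 0 := by
  have h1 : sym (fun k => (E1.sysM 0).det * (![0, 0, 2, 1, 0] : Fin 5 → ℂ) k) =
      (E1.sysM 0).det • !![0, 2, 1; 2, 0, 0; 1, 0, 0] := by
    ext i j
    fin_cases i <;> fin_cases j <;> simp [sym]
  unfold EDat.gq
  rw [E1_sol.mt_eq, h1, E1_hM, Matrix.smul_mul, Matrix.smul_mul, Matrix.mul_smul,
    Matrix.smul_mul, Matrix.trace_smul, Matrix.trace_smul, smul_eq_mul, smul_eq_mul]
  have h5 : (E1.sysM 0).det ≠ 0 := E1_d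
  have h6 : trace ((!![0, 2, 1; 2, 0, 0; 1, 0, 0] * !![0, 2, 1; 2, 0, 0; 1, 0, 0] *
      !![1, 0, 0; 0, -1, 0; 0, 0, 0] : Matrix (Fin 3) (Fin 3) ℂ)) = 1 := by
    simp [Matrix.trace_fin_three]
  have h7 : (!![1, 0, 0; 0, -1, 0; 0, 0, 0] : Matrix (Fin 3) (Fin 3) ℂ).det = 0 := by
    simp [Matrix.det_fin_three]
  rw [h6, h7]
  simp [h5]

theorem E1_r : E1.gr 0 ≠ 0 := by
  have h1 : tri (sym (![0, 0, 2, 1, 0] : Fin 5 → ℂ)) E1.hM (E1.aM 0) = ![0, -2, -4] := by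
    rw [E1_hM, E1_aM]
    funext i
    fin_cases i <;> simp [tri, vec, sym] <;> norm_num
  have h2 : tri (sym (0 : Fin 5 → ℂ)) E1.hM (E1.aM 0) = 0 := by
    have h3 : sym (0 : Fin 5 → ℂ) = 0 := by
      ext i j
      fin_cases i <;> fin_cases j <;> simp [sym]
    rw [h3]
    funext i
    fin_cases i <;> simp [tri, vec]
  have h4 : cub1 E1.h5 (E1.a5 0) = ![0, 2, 0, -2] := by
    have h5 : sym E1.h5 = !![1, 0, 0; 0, -1, 0; 0, 0, 0] := E1_hM
    have h6 : sym (E1.a5 0) = !![1, 0, 0; 0, 1, 0; 0, 0, -2] := E1_aM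
    unfold cub1
    rw [h5, h6]
    funext i
    fin_cases i <;> simp [EDat.h5, EDat.a5, E1, Matrix.det_fin_three]
    norm_num
  have h7 : cub2 E1.h5 (E1.a5 0) ![0, -2, -4] 0 = ![-4, -28, 0, 0] := by
    have h5 : sym E1.h5 = !![1, 0, 0; 0, -1, 0; 0, 0, 0] := E1_hM
    have h6 : sym (E1.a5 0) = !![1, 0, 0; 0, 1, 0; 0, 0, -2] := E1_aM
    unfold cub2
    rw [h5, h6]
    funext i
    fin_cases i <;> simp [qf] <;> norm_num
  have h8 := cub2_smul E1.h5 (E1.a5 0) ![0, -2, -4] 0 (E1.sysM 0).det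
  have h9 : (fun j => (E1.sysM 0).det * (0 : Fin 3 → ℂ) j) = tri (sym (E1.gt 0)) E1.hM
      (E1.aM 0) := by
    rw [E1_gt, h2]
    funext j
    simp
  unfold EDat.gr
  rw [E1_sol.mt_eq, tri_smul, h1, ← h9, h8, bez_smul, h4, h7]
  refine mul_ne_zero (pow_ne_zero _ (pow_ne_zero _ E1_d)) ?_
  simp [bez, Matrix.det_fin_three]
  norm_num

/-! ### The polynomial -/

/-- the datum with given coefficients -/
def EDat.ofCoord {R : Type} (x : EIdx → R) : EDat R where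
  h := fun i => x (Sum.inl i)
  e := fun i k => x (Sum.inr (Sum.inl (i, k)))
  f := fun j k => x (Sum.inr (Sum.inr (Sum.inl (j, k))))
  p := fun i j => x (Sum.inr (Sum.inr (Sum.inr (Sum.inl (i, j)))))
  r := fun i => x (Sum.inr (Sum.inr (Sum.inr (Sum.inr (Sum.inl i)))))
  s := fun j => x (Sum.inr (Sum.inr (Sum.inr (Sum.inr (Sum.inr j)))))

theorem EDat.ofCoord_coord {R : Type} (E : EDat R) : EDat.ofCoord E.coord = E := rfl

theorem EDat.map_ofCoord {R R' : Type} (f : R → R') (x : EIdx → R) :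
    (EDat.ofCoord x).map f = EDat.ofCoord (fun i => f (x i)) := rfl

theorem EDat.swap_swap {R : Type} [CommRing R] (E : EDat R) : E.swap.swap = E := by
  simp [EDat.swap]

/-- the universal datum -/
def UE : EDat (MvPolynomial EIdx ℂ) := EDat.ofCoord MvPolynomial.X

theorem UE_map (E : EDat ℂ) : UE.map (MvPolynomial.eval E.coord) = E := by
  unfold UE
  rw [EDat.map_ofCoord]
  have h3 : (fun i => (MvPolynomial.eval E.coord) (MvPolynomial.X i)) = E.coord :=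
    funext fun i => MvPolynomial.eval_X i
  rw [h3]
  rfl

section

variable {n : ℕ} (G : ∀ (R : Type) [CommRing R], EDat R → (Fin n → R) → R)
    (hG : ∀ (R R' : Type) [CommRing R] [CommRing R'] (φ : R →+* R') (E : EDat R) (x : Fin n → R),
      G R' (E.map φ) (fun i => φ (x i)) = φ (G R E x))

include hG in
/-- the value of a polynomial of the universal datum -/
theorem eval_U (E : EDat ℂ) : MvPolynomial.eval E.coord (G _ UE 0) = G ℂ E 0 := by
  have h1 := hG _ ℂ (MvPolynomial.eval E.coord) UE 0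
  rw [UE_map] at h1
  rw [← h1]
  congr 1

include hG in
/-- the value of a polynomial of the universal datum with `e` and `f` exchanged -/
theorem eval_Us (E : EDat ℂ) : MvPolynomial.eval E.coord (G _ UE.swap 0) = G ℂ E.swap 0 := by
  have h1 := hG _ ℂ (MvPolynomial.eval E.coord) UE.swap 0
  rw [← EDat.swap_map, UE_map] at h1
  rw [← h1]
  congr 1

include hG in
theorem U_ne (h : G ℂ E1 0 ≠ 0) : G _ UE 0 ≠ 0 := by
  intro h0
  apply h
  rw [← eval_U G hG, h0, map_zero]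

include hG in
theorem Us_ne (h : G ℂ E1 0 ≠ 0) : G _ UE.swap 0 ≠ 0 := by
  intro h0
  apply h
  have h1 := eval_Us G hG E1.swap
  rw [EDat.swap_swap, h0, map_zero] at h1
  exact h1.symm

end

/-- the factors of the polynomial -/
def GG (i : Fin 8) (R : Type) [CommRing R] (E : EDat R) (c : Fin 2 → R) : R :=
  ![E.gk c, E.gn c, E.gd c, E.gr c, E.gc c, E.gp c, E.gq c, E.gs] i

theorem GG_map (i : Fin 8) (R R' : Type) [CommRing R] [CommRing R'] (φ : R →+* R') (E : EDat R)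
    (c : Fin 2 → R) : GG i R' (E.map φ) (fun i => φ (c i)) = φ (GG i R E c) := by
  fin_cases i
  · exact EDat.gk_map φ E c
  · exact EDat.gn_map φ E c
  · exact EDat.gd_map φ E c
  · exact EDat.gr_map φ E c
  · exact EDat.gc_map φ E c
  · exact EDat.gp_map φ E c
  · exact EDat.gq_map φ E c
  · exact EDat.gs_map φ E

theorem GG_E1 (i : Fin 8) : GG i ℂ E1 0 ≠ 0 := by
  fin_cases i
  · change E1.gk 0 ≠ 0
    rw [E1_k]
    norm_num
  · exact E1_n
  · exact E1_d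
  · exact E1_r
  · exact E1_c
  · exact E1_p
  · exact E1_q
  · exact E1_s

theorem pos_GG {E : EDat ℂ} (h : ∀ i, GG i ℂ E 0 ≠ 0) : E.Pos :=
  ⟨h 0, h 1, h 2, h 3, h 4, h 5, h 6, h 7⟩

/-- **`Good` outside a hypersurface.** -/
theorem exists_Delta : ∃ Δ : MvPolynomial EIdx ℂ, Δ ≠ 0 ∧ ∀ E : EDat ℂ,
    MvPolynomial.eval E.coord Δ ≠ 0 → E.Good := by
  refine ⟨(∏ i, GG i _ UE 0) * (∏ i, GG i _ UE.swap 0) * UE.gK 0, ?_, fun E hE => ?_⟩
  · refine mul_ne_zero (mul_ne_zero (Finset.prod_ne_zero_iff.2 fun i _ => ?_)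
      (Finset.prod_ne_zero_iff.2 fun i _ => ?_)) ?_
    · exact U_ne (GG i) (GG_map i) (GG_E1 i)
    · exact Us_ne (GG i) (GG_map i) (GG_E1 i)
    · exact U_ne (fun _ _ E x => EDat.gK E x) (fun _ _ _ _ φ E x => EDat.gK_map φ E x) E1_K
  · rw [map_mul, map_mul, map_prod, map_prod] at hE
    have h1 := left_ne_zero_of_mul (left_ne_zero_of_mul hE)
    have h2 := right_ne_zero_of_mul (left_ne_zero_of_mul hE)
    have h3 := right_ne_zero_of_mul hE
    rw [Finset.prod_ne_zero_iff] at h1 h2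
    refine ⟨pos_GG fun i => ?_, pos_GG fun i => ?_, ?_⟩
    · rw [← eval_U (GG i) (GG_map i)]
      exact h1 i (Finset.mem_univ _)
    · rw [← eval_Us (GG i) (GG_map i)]
      exact h2 i (Finset.mem_univ _)
    · have h4 := eval_U (fun _ _ E x => EDat.gK E x)
        (fun _ _ _ _ φ E x => EDat.gK_map φ E x) E
      rw [← h4]
      exact h3

end Pool.Agent.GTE
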