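import Pool.Agent.GTE.SplitE
import Pool.Agent.GSK.Quat

/-!
# GTE: the K3 surface of a datum in general position and its pencil

`cub_ne_hp`: the polynomial `det (T B 0 - B 1)` is not zero, if the two cubics have no common zero.
`kap_ne_hp`: the number `κ` is not zero at a root of degree 3. `split_E`: if the number `cls` of the
point of the surface is a norm, the pencil is split. `eig_E`: the eigenvector of the pencil.
-/

set_option autoImplicit false

noncomputable section

namespace Pool.Agent.GTE.SE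

open Matrix Pool.Agent.GSH Pool.Agent.GSX Pool.Agent.GSQ Pool.Agent.GSE2
open scoped Quaternion

section Field

variable {K : Type} [Field K]

theorem bez_self (f : Fin 4 → K) : (bez f f).det = 0 := by
  have h : bez f f = 0 := by
    ext i j
    fin_cases i <;> fin_cases j <;> simp [bez] <;> ring
  rw [h, Matrix.det_zero]

theorem hp_val {E : EDat K} {c : Fin 2 → K} (m g : Fin 5 → K) (hd : E.d c ≠ 0) (T : K) :
    E.d c * GSK.dH (algebraMap K K (E.hp c m g).d) (GSK.pM (E.hp c m g) T)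
      (GSK.qM (E.hp c m g) T) = -(E.d c * cval (cub1 E.h5 (E.a5 c)) (-T) 1 +
        cval (cub2 E.h5 (E.a5 c) (tri (sym m) E.hM (E.aM c)) (tri (sym g) E.hM (E.aM c)))
          (-T) 1) := by
  have hh : E.hM = sym E.h5 := rfl
  have ha : E.aM c = sym (E.a5 c) := rfl
  rw [cub1_val, cub2_val]
  simp only [GSK.dH, GSK.pM, GSK.qM, EDat.hp, qf, Algebra.algebraMap_self, RingHom.id_apply,
    Matrix.det_fin_three, Matrix.cons_val_zero, Matrix.cons_val_one, Matrix.cons_val]
  generalize tri (sym m) E.hM (E.aM c) = t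
  generalize tri (sym g) E.hM (E.aM c) = s
  rw [hh, ha]
  generalize E.h5 = h
  generalize E.a5 c = a
  revert hd
  generalize E.d c = d
  intro hd
  simp only [sym, Matrix.of_apply, Matrix.cons_val', Matrix.cons_val_zero, Matrix.cons_val_one,
    Matrix.cons_val_fin_one, Matrix.cons_val]
  field_simp
  ring

/-- The polynomial `det (T B 0 - B 1)` is not zero. -/
theorem cub_ne_hp [CharZero K] {E : EDat K} {c : Fin 2 → K} {m g : Fin 5 → K}
    (hs : E.Sol c m g) (hd : E.d c ≠ 0) (hr : E.gr c ≠ 0) : GSK.cub (E.hp c m g) ≠ 0 := by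
  intro h0
  set f := cub1 E.h5 (E.a5 c) with hf
  set e := cub2 E.h5 (E.a5 c) (tri (sym m) E.hM (E.aM c)) (tri (sym g) E.hM (E.aM c)) with he
  have key : ∀ T : K, E.d c * cval f (-T) 1 + cval e (-T) 1 = 0 := by
    intro T
    have h1 := GSK.aeval_cub (M := K) (E.hp c m g) T
    rw [h0, map_zero] at h1
    have h2 := hp_val m g hd T
    rw [← h1, mul_zero] at h2
    rw [hf, he]
    linear_combination h2
  have k0 := key 0
  have k1 := key 1
  have k2 := key (-1)
  have k3 := key 2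
  simp only [cval] at k0 k1 k2 k3
  have h2 : (2 : K) ≠ 0 := two_ne_zero
  have h6 : (6 : K) ≠ 0 := by norm_num
  have e3 : e 3 = -(E.d c) * f 3 := by linear_combination k0
  have e1 : e 1 = -(E.d c) * f 1 := by
    refine (mul_right_inj' h2).1 ?_
    linear_combination k1 + k2 - 2 * k0
  have e0 : e 0 = -(E.d c) * f 0 := by
    refine (mul_right_inj' h6).1 ?_
    linear_combination (-1 : K) * k3 + 2 * k1 - k0 + (k1 + k2 - 2 * k0)
  have e2 : e 2 = -(E.d c) * f 2 := by
    linear_combination (-1 : K) * k1 + k0 + (e1 : e 1 = _) - (e0 : e 0 = _)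
  have he' : e = fun i => -(E.d c) * f i := by
    funext i
    fin_cases i
    · exact e0
    · exact e1
    · exact e2
    · exact e3
  apply hr
  unfold EDat.gr
  rw [hs.mt_eq, hs.gt_eq, tri_smul, tri_smul, cub2_smul, ← hf, ← he, he']
  have h3 : (fun i => (E.sysM c).det ^ 2 * (-(E.d c) * f i)) =
      fun i => ((E.sysM c).det ^ 2 * -(E.d c)) * f i := by
    funext i
    ring
  rw [h3, bez_smul, bez_self, mul_zero]

/-- The upper left minor of `B 1` is not zero. -/
theorem kap_one {E : EDat K} {c : Fin 2 → K} {m g : Fin 5 → K} (hs : E.Sol c m g)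
    (hd : E.d c ≠ 0) (hc : E.gc c ≠ 0) :
    GSK.kap (E.hp c m g).d ((E.hp c m g).p 1) ((E.hp c m g).q 1) ≠ 0 := by
  intro h0
  apply hc
  unfold EDat.gc
  rw [hs.gt_eq, tri_smul]
  simp only [GSK.kap, EDat.hp, Matrix.cons_val_zero, Matrix.cons_val_one, Matrix.cons_val] at h0
  field_simp at h0
  linear_combination (E.sysM c).det ^ 2 * h0

open Polynomial in
/-- `κ` is not 0 if its constant coefficient is not 0. -/
theorem kap_ne_one {M : Type} [Field M] [Algebra K M] {H : Herm K}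
    (hM : Module.finrank K M = 3) {μ : M} (hμ : IntermediateField.adjoin K {μ} = ⊤)
    (h : GSK.kap H.d (H.p 1) (H.q 1) ≠ 0) :
    GSK.kap (algebraMap K M H.d) (GSK.pM H μ) (GSK.qM H μ) ≠ 0 := by
  have hfin := GSQ.fin_of_three hM
  set a : K := -(H.p 0 0 * H.p 1 3 + H.p 1 0 * H.p 0 3 -
    (2 * H.p 0 1 * H.p 1 1 - 2 * H.d * H.q 0 0 * H.q 1 0)) with ha
  set P : K[X] := C (GSK.kap H.d (H.p 0) (H.q 0)) * X ^ 2 + C a * X +
    C (GSK.kap H.d (H.p 1) (H.q 1)) with hP
  have h1 : aeval μ P = GSK.kap (algebraMap K M H.d) (GSK.pM H μ) (GSK.qM H μ) := by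
    simp only [hP, ha, GSK.kap, GSK.pM, GSK.qM, map_add, map_mul, map_pow, map_neg, map_sub,
      map_ofNat, aeval_C, aeval_X]
    ring
  rw [← h1]
  intro h0
  have hP0 : P ≠ 0 := by
    intro hP0
    apply h
    have h2 : P.coeff 0 = GSK.kap H.d (H.p 1) (H.q 1) := by
      rw [hP]
      simp
    rw [← h2, hP0, coeff_zero]
  have h3 := minpoly.degree_le_of_ne_zero K μ hP0 h0
  have h4 : P.degree ≤ 2 := by
    rw [hP]
    exact degree_quadratic_le
  have h5 := GSK.deg_minpoly hM hμ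
  have h6 : (minpoly K μ).degree = 3 := by
    rw [degree_eq_natDegree (minpoly.ne_zero (Algebra.IsIntegral.isIntegral μ)), h5]
    rfl
  rw [h6] at h3
  exact absurd (h3.trans h4) (by decide)

end Field

section Main

variable {M : Type} [Field M] [Algebra TK.K M]

variable {E : EDat ℂ} {c : Fin 2 → TK.K} {x : M} {z : Fin 5 → M} {m g : Fin 5 → TK.K}

/-- the conditions over `ℂ(s, t)` -/
theorem nd (hE : E.Pos) (hc : IntermediateField.adjoin ℂ (Set.range c) = ⊤) :
    (E.map (algebraMap ℂ TK.K)).d c ≠ 0 ∧ (E.map (algebraMap ℂ TK.K)).gd c ≠ 0 ∧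
      (E.map (algebraMap ℂ TK.K)).gr c ≠ 0 ∧ (E.map (algebraMap ℂ TK.K)).gc c ≠ 0 := by
  have hi : AlgebraicIndependent ℂ c := ind_c hc
  refine ⟨fun h0 => ?_, hE.d_ne hi, hE.r_ne hi, hE.c_ne hi⟩
  exact EDat.d_nsq hE.s hc (by
    have h1 : (E.map (algebraMap ℂ TK.K)).d c = 0 := h0
    rw [show (E.map (algebraMap ℂ GSX.Sq.Kf)).d c = 0 from h1]
    exact IsSquare.zero)

/-- **The eigenvector of the pencil** which belongs to the point of the surface. -/
theorem eig_E (hE : E.Pos) (hc : IntermediateField.adjoin ℂ (Set.range c) = ⊤)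
    (hM : Module.finrank TK.K M = 3) (hG : E.Gen c x z)
    (hs : (E.map (algebraMap ℂ TK.K)).Sol c m g) :
    ∃ F : Eig ((E.map (algebraMap ℂ TK.K)).pen c m g) M, F.m = x ∧
      Nonempty (ℍ[M, (E.map (TK.cc M)).d (fun i => algebraMap TK.K M (c i)), F.c] ≃ₐ[M]
        ℍ[M, (E.map (TK.cc M)).d (fun i => algebraMap TK.K M (c i)),
          (E.map (TK.cc M)).cls (fun i => algebraMap TK.K M (c i)) x z]) := by
  obtain ⟨hd, hg, hr, hgc⟩ := nd hE hc
  obtain ⟨F, hFm, hF, u, v, huv⟩ := GSK.exists_eig ((E.map (algebraMap ℂ TK.K)).hp c m g) hd hM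
    hG.top (cub_ne_hp hs hd hr) (gen_dH hG hs hg hd) (kap_ne_one hM hG.top (kap_one hs hd hgc))
  refine ⟨F, hFm, ?_⟩
  rw [gen_kap hG hs hg hd] at huv
  have hd' : algebraMap TK.K M ((E.map (algebraMap ℂ TK.K)).d c) ≠ 0 := (map_ne_zero _).2 hd
  have hdE : (E.map (TK.cc M)).d (fun i => algebraMap TK.K M (c i)) =
      algebraMap TK.K M ((E.map (algebraMap ℂ TK.K)).d c) := by
    rw [← EDat.d_map, cc_map]
  have hdH : algebraMap TK.K M ((E.map (algebraMap ℂ TK.K)).hp c m g).d =
      algebraMap TK.K M ((E.map (algebraMap ℂ TK.K)).d c) := rfl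
  rw [hdH] at huv
  rw [hdE]
  refine GSK.Quat.norm hF (x := v) (y := u / algebraMap TK.K M ((E.map (algebraMap ℂ TK.K)).d c)) ?_
  refine huv.trans ?_
  field_simp
  ring

/-- **A pencil whose algebra is split.** -/
theorem split_E (hE : E.Pos) (hc : IntermediateField.adjoin ℂ (Set.range c) = ⊤)
    (hM : Module.finrank TK.K M = 3) (hG : E.Gen c x z)
    (hs : (E.map (algebraMap ℂ TK.K)).Sol c m g) {y : Fin 2 → M}
    (hy : (E.map (TK.cc M)).cls (fun i => algebraMap TK.K M (c i)) x z =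
      y 0 ^ 2 - (E.map (TK.cc M)).d (fun i => algebraMap TK.K M (c i)) * y 1 ^ 2) :
    Split ((E.map (algebraMap ℂ TK.K)).pen c m g) := by
  obtain ⟨hd, hg, hr, hgc⟩ := nd hE hc
  have hd' : algebraMap TK.K M ((E.map (algebraMap ℂ TK.K)).d c) ≠ 0 := (map_ne_zero _).2 hd
  have hdE : (E.map (TK.cc M)).d (fun i => algebraMap TK.K M (c i)) =
      algebraMap TK.K M ((E.map (algebraMap ℂ TK.K)).d c) := by
    rw [← EDat.d_map, cc_map]
  have hdH : algebraMap TK.K M ((E.map (algebraMap ℂ TK.K)).hp c m g).d =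
      algebraMap TK.K M ((E.map (algebraMap ℂ TK.K)).d c) := rfl
  refine herm_split ((E.map (algebraMap ℂ TK.K)).hp c m g) hd hM hG.top (cub_ne_hp hs hd hr)
    (gen_dH hG hs hg hd) (kap_ne_one hM hG.top (kap_one hs hd hgc)) (a := y 1)
    (b := y 0 / algebraMap TK.K M ((E.map (algebraMap ℂ TK.K)).d c)) ?_
  rw [gen_kap hG hs hg hd, hy, hdE, hdH]
  field_simp
  ring

end Main

end Pool.Agent.GTE.SE
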