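import Pool.Agent.GTE.AsmE
import Pool.Agent.GTE.SplitF
import Pool.Agent.GTE.Delta
import Pool.Agent.GSK.KFin

/-!
# GTE: the theorem on cubic fourfolds and type E data

`TE_final`: a cubic fourfold whose K3 surface, triple cover of the plane and quaternion algebra are
those of a type E datum, is rational, if the quaternion algebra of the exchanged datum is split.
-/

set_option autoImplicit false

noncomputable section

namespace Pool.Agent.GTE

open MvPolynomial Matrix Pool.Agent.TK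
open scoped Quaternion

theorem var_eq : (var : Fin 2 → K) = ![GSX.sK, GSX.tK] := by
  funext i
  fin_cases i <;> rfl

theorem li_of_gn {F : Type} [Field F] {E : EDat F} {c : Fin 2 → F} (h : E.gn c ≠ 0) :
    LinearIndependent F fun j : Fin 3 => alt E.hM (E.aM c) (E.fM j) :=
  Matrix.linearIndependent_rows_of_det_ne_zero (A := Matrix.of fun j i =>
    alt E.hM (E.aM c) (E.fM j) i) h

/-- the conditions at independent parameters of the second side -/
theorem side_ne {E : EDat ℂ} (hE : E.Pos) {Ω : Type} [Field Ω] [Algebra ℂ Ω] {b : Fin 2 → Ω}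
    (hb : AlgebraicIndependent ℂ b) : (E.map (algebraMap ℂ Ω)).d b ≠ 0 := by
  have h1 : (E.map (algebraMap ℂ K)).d ![GSX.sK, GSX.tK] ≠ 0 := (SE.nd hE adjoin_st).1
  have h2 := EDat.d_map (phi hb : K →+* Ω) (E.map (algebraMap ℂ K)) ![GSX.sK, GSX.tK]
  rw [map_map'] at h2
  have h3 : (fun i => (phi hb : K →+* Ω) ((![GSX.sK, GSX.tK] : Fin 2 → K) i)) = b := by
    funext i
    fin_cases i
    · exact phi_X hb 0
    · exact phi_X hb 1
  rw [h3] at h2
  rw [h2]
  exact (map_ne_zero _).2 h1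

/-- **The theorem on type E data.** -/
theorem TE_final : ∃ Δ : MvPolynomial EIdx ℂ, Δ ≠ 0 ∧
    ∀ (X : Cub ℂ) (E : EDat ℂ) (c : Fin 2 → K), X.NonDeg → Irreducible X.F →
      eval E.coord Δ ≠ 0 → IntermediateField.adjoin ℂ (Set.range c) = ⊤ →
      ∀ (M : Type) [Field M] [Algebra K M] (n n' : Fin 3 → M) (x : M) (z : Fin 5 → M),
        Module.finrank K M = 3 → X.Gen n n' → E.Gen c x z →
        Nonempty (ℍ[M, -det2 n, n 0 * n' 0] ≃ₐ[M]
          ℍ[M, (E.map (cc M)).d (fun i => algebraMap K M (c i)),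
            (E.map (cc M)).cls (fun i => algebraMap K M (c i)) x z]) →
        ∀ (M' : Type) [Field M'] [Algebra K M'] (x' : M') (z' : Fin 5 → M') (y : Fin 2 → M'),
          Module.finrank K M' = 3 → E.swap.Gen var x' z' →
          (E.swap.map (cc M')).cls (fun i => algebraMap K M' (var i)) x' z' =
            y 0 ^ 2 - (E.swap.map (cc M')).d (fun i => algebraMap K M' (var i)) * y 1 ^ 2 →
          Pool.Agent.P28.Rational X.F := by
  obtain ⟨Δ, hΔ, h⟩ := exists_Delta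
  refine ⟨Δ, hΔ, fun X E c hn hirr hD hc M _ _ n n' x z hM hg hG he M' _ _ x' z' y hM' hG' hy => ?_⟩
  have hE := h E hD
  obtain ⟨m, g, hs⟩ := EDat.exists_sol (hE.e.d_ne (ind_c hc))
  obtain ⟨m', g', hs'⟩ := EDat.exists_sol (hE.f.d_ne (ind_c adjoin_st))
  rw [var_eq] at hG' hy
  rw [← X.to_F] at hirr ⊢
  have hn' : X.to.NonDeg := ⟨hn.det, hn.a0, hn.b0⟩
  have hsq : ¬IsSquare ((E.map (algebraMap ℂ K)).d c) := EDat.d_nsq hE.e.s hc
  have hsq' : GSH.NSq K ((E.swap.map (algebraMap ℂ K)).d ![GSX.sK, GSX.tK]) := fun f hf =>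
    EDat.d_nsq hE.f.s adjoin_st ⟨f, by
      have h1 : f ^ 2 = (E.swap.map (algebraMap ℂ K)).d ![GSX.sK, GSX.tK] := hf
      rw [← sq, h1]⟩
  have hS' : GSE2.Split ((E.swap.map (algebraMap ℂ K)).pen ![GSX.sK, GSX.tK] m' g') :=
    SE.split_E hE.f adjoin_st hM' hG' hs' hy
  have hST : GSQ.SameTwist X.to.pen ((E.map (algebraMap ℂ K)).pen c m g) := by
    obtain ⟨F₁, ⟨q₁⟩⟩ := GSK.exists_eigX (X' := X.to) hn' hirr hM hg.to
    obtain ⟨F₂, -, ⟨q₂⟩⟩ := SE.eig_E hE.e hc hM hG hs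
    obtain ⟨q₀⟩ := he
    have hd : (E.map (cc M)).d (fun i => algebraMap K M (c i)) =
        algebraMap K M ((E.map (algebraMap ℂ K)).pen c m g).d := by
      rw [← SE.cc_map, EDat.d_map]
      rfl
    rw [hd] at q₀ q₂
    exact ⟨M, inferInstance, inferInstance, hM, F₁, F₂, ⟨(q₁.trans q₀).trans q₂.symm⟩⟩
  refine same_gen X.to hn' hirr ((E.map (algebraMap ℂ K)).pen c m g)
    (GSQ.isHer_herm ((E.map (algebraMap ℂ K)).hp c m g)) hsq hST ?_
  intro Ω _ _ _ _ hyy hnsq v hv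
  obtain ⟨yy, hyy⟩ := hyy
  have hcΩ : AlgebraicIndependent ℂ fun i => algebraMap K Ω (c i) :=
    (ind_c hc).map' (f := IsScalarTower.toAlgHom ℂ K Ω) (algebraMap K Ω).injective
  have hsΩ : (E.map (algebraMap ℂ Ω)).Sol (fun i => algebraMap K Ω (c i))
      (fun k => algebraMap K Ω (m k)) fun k => algebraMap K Ω (g k) := by
    have h1 := hs.map (algebraMap K Ω)
    have h2 : (E.map (algebraMap ℂ K)).map (algebraMap K Ω) = E.map (algebraMap ℂ Ω) :=
      map_map' (IsScalarTower.toAlgHom ℂ K Ω) E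
    rwa [h2] at h1
  refine four_gen E hc hs hs' hsq' hS' hnsq (hE.e.k_ne hcΩ) (li_of_gn (hE.e.n_ne hcΩ))
    (no_zero hsΩ (hE.e.r_ne hcΩ)) (fun b hb => ⟨side_ne hE.f hb, ?_, ?_⟩) hyy hv
  · have h1 := hE.f.k_ne hb
    unfold EDat.gk at h1
    unfold EDat.bM
    rw [EDat.swap_map]
    exact h1
  · have h1 := li_of_gn (hE.f.n_ne hb)
    unfold EDat.bM
    rw [EDat.swap_map]
    exact h1

/-- **The theorem on type E data.** -/
theorem TE_final' : ∃ Δ : MvPolynomial EIdx ℂ, Δ ≠ 0 ∧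
    ∀ (X : Cub ℂ) (E : EDat ℂ) (c : Fin 2 → K), X.NonDeg → Irreducible X.F →
      eval E.coord Δ ≠ 0 → IntermediateField.adjoin ℂ (Set.range c) = ⊤ →
      SameK3 X E c → E.swap.Untwisted → Pool.Agent.P28.Rational X.F := by
  obtain ⟨Δ, hΔ, h⟩ := TE_final
  refine ⟨Δ, hΔ, fun X E c hn hirr hD hc hS hU => ?_⟩
  obtain ⟨M, _, _, n, n', x, z, hM, hg, hG, he⟩ := hS
  obtain ⟨M', _, _, x', z', y, hM', hG', hy⟩ := hU
  exact h X E c hn hirr hD hc M n n' x z hM hg hG he M' x' z' y hM' hG' hy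

end Pool.Agent.GTE
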