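import Pool.Agent.GSE2.Split
import Pool.Agent.GSK.HermK
import Pool.Agent.GSK.Quat

/-!
# GTE: a pencil of hermitian forms whose quaternion algebra is split

`(d, x ^ 2 - d y ^ 2)` is a matrix algebra (`matEquiv`). So the pencil of the hermitian matrices `B 0`,
`B 1` is split (`GSE2.Split`), if `- κ` is a norm, `κ` the upper left minor of `μ B 0 - B 1`, `μ` a
root of `det (T B 0 - B 1)` in an extension of degree 3 (`herm_split`).
-/

set_option autoImplicit false

noncomputable section

namespace Pool.Agent.GTE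

open Matrix Pool.Agent.GSH Pool.Agent.GSX Pool.Agent.GSQ Pool.Agent.GSE2
open scoped Quaternion

/-- `(d, 1)` is a matrix algebra. -/
def matEquiv {M : Type} [Field M] {d : M} (hd : d ≠ 0) (h2 : (2 : M) ≠ 0) :
    ℍ[M, d, 1] ≃ₐ[M] Matrix (Fin 2) (Fin 2) M :=
  AlgEquiv.ofLinearEquiv
    { toFun := fun z => !![z.re + z.imJ, d * (z.imI - z.imK); z.imI + z.imK, z.re - z.imJ]
      invFun := fun A => ⟨(A 0 0 + A 1 1) / 2, (A 1 0 + A 0 1 / d) / 2, (A 0 0 - A 1 1) / 2,
        (A 1 0 - A 0 1 / d) / 2⟩
      map_add' := fun z w => by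
        ext i j
        fin_cases i <;> fin_cases j <;> simp <;> ring
      map_smul' := fun c z => by
        ext i j
        fin_cases i <;> fin_cases j <;> simp <;> ring
      left_inv := fun z => by
        ext
        · simp
          field_simp
          ring
        · simp
          field_simp
          ring
        · simp
          field_simp
          ring
        · simp
          field_simp
          ring
      right_inv := fun A => by
        ext i j
        fin_cases i <;> fin_cases j
        · simp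
          field_simp
          ring
        · simp
          field_simp
          ring
        · simp
          field_simp
          ring
        · simp
          field_simp
          ring }
    (by
      ext i j
      fin_cases i <;> fin_cases j <;> simp)
    (fun z w => by
      ext i j
      fin_cases i <;> fin_cases j <;> simp [Matrix.mul_apply] <;> ring)

/-- a norm gives a split algebra -/
theorem split_alg {M : Type} [Field M] {d c x y : M} (hd : d ≠ 0) (h2 : (2 : M) ≠ 0)
    (hc : c ≠ 0) (h : x ^ 2 - d * y ^ 2 = c) :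
    Nonempty (ℍ[M, d, c] ≃ₐ[M] Matrix (Fin 2) (Fin 2) M) := by
  obtain ⟨f⟩ := GSK.Quat.norm (a := d) (b := 1) (b' := c) (x := x) (y := y) hc (by
    rw [one_mul, h])
  exact ⟨f.trans (matEquiv hd h2)⟩

variable {K M : Type} [Field K] [Field M] [Algebra K M]

/-- The pencil is split if the number `c` of an eigenvector is a norm. -/
theorem split_of_norm [CharZero K] {H : Pen K} (hd : H.d ≠ 0) (hM : Module.finrank K M = 3)
    (E : Eig H M) (hc : E.c ≠ 0) {x y : M} (h : x ^ 2 - algebraMap K M H.d * y ^ 2 = E.c) :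
    Split H := by
  have : CharZero M := charZero_of_injective_algebraMap (algebraMap K M).injective
  exact ⟨M, inferInstance, inferInstance, hM, E,
    split_alg ((map_ne_zero (algebraMap K M)).2 hd) two_ne_zero hc h⟩

/-- `cub H` has the leading coefficient `det (B 0)`. -/
theorem cub_ne {H : Herm K} (h : GSK.dH H.d (H.p 0) (H.q 0) ≠ 0) : GSK.cub H ≠ 0 := by
  obtain ⟨a, b, c, habc⟩ := GSK.cub_eq H
  intro h0
  apply h
  have h1 : (GSK.cub H).coeff 3 = GSK.dH H.d (H.p 0) (H.q 0) := by
    rw [habc]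
    simp
  rw [← h1, h0, Polynomial.coeff_zero]

open Polynomial in
/-- `κ` is not 0: it is a polynomial of degree 2 in `μ`. -/
theorem kap_ne {H : Herm K} (hM : Module.finrank K M = 3) {μ : M}
    (hμ : IntermediateField.adjoin K {μ} = ⊤) (h : GSK.kap H.d (H.p 0) (H.q 0) ≠ 0) :
    GSK.kap (algebraMap K M H.d) (GSK.pM H μ) (GSK.qM H μ) ≠ 0 := by
  have hfin := GSQ.fin_of_three hM
  set a : K := -(H.p 0 0 * H.p 1 3 + H.p 1 0 * H.p 0 3 -
    (2 * H.p 0 1 * H.p 1 1 - 2 * H.d * H.q 0 0 * H.q 1 0)) with ha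
  set b : K := GSK.kap H.d (H.p 1) (H.q 1) with hb
  set P : K[X] := C (GSK.kap H.d (H.p 0) (H.q 0)) * X ^ 2 + C a * X + C b with hP
  have h1 : aeval μ P = GSK.kap (algebraMap K M H.d) (GSK.pM H μ) (GSK.qM H μ) := by
    simp only [hP, ha, hb, GSK.kap, GSK.pM, GSK.qM, map_add, map_mul, map_pow, map_neg, map_sub,
      map_ofNat, aeval_C, aeval_X]
    ring
  rw [← h1]
  intro h0
  have hP0 : P ≠ 0 := by
    intro hP0
    apply h
    have h2 : P.coeff 2 = GSK.kap H.d (H.p 0) (H.q 0) := by
      rw [hP]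
      simp
    rw [← h2, hP0, coeff_zero]
  have h3 := minpoly.degree_le_of_ne_zero K μ hP0 h0
  have h4 : P.degree ≤ 2 := by
    rw [hP]
    exact degree_quadratic_le
  have h5 := GSK.deg_minpoly hM hμ
  have h6 : (minpoly K μ).degree = 3 := by
    rw [degree_eq_natDegree (minpoly.ne_zero (Algebra.IsIntegral.isIntegral μ)), h5]
    rfl
  rw [h6] at h3
  have h7 := h3.trans h4
  exact absurd h7 (by decide)

/-- **Split pencils of hermitian forms.** -/
theorem herm_split [CharZero K] (H : Herm K) (hd : H.d ≠ 0) (hM : Module.finrank K M = 3) {μ : M}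
    (hμ : IntermediateField.adjoin K {μ} = ⊤) (hf : GSK.cub H ≠ 0)
    (h : GSK.dH (algebraMap K M H.d) (GSK.pM H μ) (GSK.qM H μ) = 0)
    (hκ : GSK.kap (algebraMap K M H.d) (GSK.pM H μ) (GSK.qM H μ) ≠ 0) {a b : M}
    (hab : a ^ 2 - algebraMap K M H.d * b ^ 2 =
      -GSK.kap (algebraMap K M H.d) (GSK.pM H μ) (GSK.qM H μ)) :
    Split H.pen := by
  obtain ⟨F, -, hF, x, y, hxy⟩ := GSK.exists_eig H hd hM hμ hf h hκ
  refine split_of_norm (H := H.pen) hd hM F hF (x := a * x + algebraMap K M H.d * (b * y))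
    (y := a * y + b * x) ?_
  have hd' : algebraMap K M H.pen.d = algebraMap K M H.d := rfl
  rw [hxy, ← hab, hd']
  ring

/-- **Split pencils of hermitian forms**, with conditions over `K` only. -/
theorem herm_split' [CharZero K] (H : Herm K) (hd : H.d ≠ 0) (hM : Module.finrank K M = 3) {μ : M}
    (hμ : IntermediateField.adjoin K {μ} = ⊤) (hf : GSK.dH H.d (H.p 0) (H.q 0) ≠ 0)
    (hκ : GSK.kap H.d (H.p 0) (H.q 0) ≠ 0)
    (h : GSK.dH (algebraMap K M H.d) (GSK.pM H μ) (GSK.qM H μ) = 0) {c a b : M}
    (hc : GSK.kap (algebraMap K M H.d) (GSK.pM H μ) (GSK.qM H μ) = algebraMap K M H.d * c)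
    (hab : c = a ^ 2 - algebraMap K M H.d * b ^ 2) :
    Split H.pen := by
  refine herm_split H hd hM hμ (cub_ne hf) h (kap_ne hM hμ hκ) (a := algebraMap K M H.d * b)
    (b := a) ?_
  rw [hc, hab]
  ring

end Pool.Agent.GTE
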