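import Pool.Agent.GTE.SplitX
import Pool.Agent.GTE.SplitN
import Pool.Agent.GSK.KFin

/-!
# GTE: cubic fourfolds whose own quaternion algebra is split

`X_final`: if the quaternion algebra `(-det n, n_00 n'_00)` over the function field of the K3 surface
of the cubic fourfold is split, the cubic fourfold is rational.
-/

set_option autoImplicit false

noncomputable section

namespace Pool.Agent.GTE

open Matrix Pool.Agent.TK Pool.Agent.GSK
open scoped Quaternion

/-- **A cubic fourfold with a split quaternion algebra is rational.** -/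
theorem X_final (X : Cub ℂ) (hn : X.NonDeg) (hirr : Irreducible X.F) (M : Type) [Field M]
    [Algebra K M] (n n' : Fin 3 → M) (y : Fin 2 → M) (hM : Module.finrank K M = 3)
    (hg : X.Gen n n') (hy : n 0 * n' 0 = y 0 ^ 2 + det2 n * y 1 ^ 2) :
    Pool.Agent.P28.Rational X.F := by
  rw [← X.to_F] at hirr ⊢
  have hn' : X.to.NonDeg := ⟨hn.det, hn.a0, hn.b0⟩
  have h := hg.to
  have : CharZero M := charZero_of_injective_algebraMap (algebraMap K M).injective
  have h1 : n' 0 ≠ 0 := h.n0'_ne hM GSX.dK_ne (c00_ne hn'.a0)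
  have h2 : n 0 ≠ 0 := h.n0_ne hM GSX.dK_ne (c00_ne hn'.a0) tK_ne two_ne_zero (hB_of hn'.b0)
  have h3 : dt n' ≠ 0 := h.dt_ne hM GSX.dK_ne (c00_ne hn'.a0)
  have h4 : dt n = dt n' := h.quad
  obtain ⟨F, ⟨q⟩⟩ := exists_eigX hn' hirr hM h
  obtain ⟨q'⟩ := split_alg (d := -dt n) (c := n 0 * n' 0) (x := y 0) (y := y 1)
    (neg_ne_zero.2 (by rw [h4]; exact h3)) two_ne_zero (mul_ne_zero h2 h1) (by
      rw [hy]
      change y 0 ^ 2 - -det2 n * y 1 ^ 2 = _
      ring)
  exact split_X X.to hn' hirr ⟨M, inferInstance, inferInstance, hM, F, ⟨q.trans q'⟩⟩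

end Pool.Agent.GTE
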