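import Pool.Agent.GSQ.Frame

/-!
# GTE: isotropic vectors of a pencil of hermitian forms in general position

`f` is a frame of eigenvectors of a pencil over a field `E` which contains `δ = √d`. For two vectors
`x`, `y` let `Dl x y = Q0(x, y) Q1(S x, y) - Q1(x, y) Q0(S x, y)`. If `x`, `y` are isotropic for both
forms and are no eigenvectors of `S` then there is an isotropic vector `w` with `Dl x w ≠ 0`,
`Dl y w ≠ 0`.
-/

set_option autoImplicit false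

noncomputable section

namespace Pool.Agent.GTE

open Matrix Polynomial
open Pool.Agent.GSQ (Frame)

variable {E : Type} [Field E] (f : Frame E)

/-- the determinant -/
def DlF (x y : Fin 6 → E) : E :=
  (x ⬝ᵥ (f.Q0 *ᵥ y)) * ((f.S *ᵥ x) ⬝ᵥ (f.Q1 *ᵥ y)) -
    (x ⬝ᵥ (f.Q1 *ᵥ y)) * ((f.S *ᵥ x) ⬝ᵥ (f.Q0 *ᵥ y))

variable (δ : E)

/-- the coordinate `a + b √d` -/
def zp (x : Fin 6 → E) (i : Fin 3) : E := f.ca x i + f.cb x i * δ

/-- the coordinate `a - b √d` -/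
def zm (x : Fin 6 → E) (i : Fin 3) : E := f.ca x i - f.cb x i * δ

/-- the products of the differences of the eigenvalues -/
def pr (i : Fin 3) : E := (f.m i - f.m (i + 1)) * (f.m i - f.m (i + 2))

variable {δ}

theorem pr_ne (i : Fin 3) : pr f i ≠ 0 := by
  have h1 : f.m i - f.m (i + 1) ≠ 0 := sub_ne_zero.2 fun h => by
    have := f.inj h
    revert this
    fin_cases i <;> decide
  have h2 : f.m i - f.m (i + 2) ≠ 0 := sub_ne_zero.2 fun h => by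
    have := f.inj h
    revert this
    fin_cases i <;> decide
  exact mul_ne_zero h1 h2

/-- the determinant in coordinates -/
theorem DlF_coord [NeZero (2 : E)] (hδ : δ ^ 2 = f.d) (x y : Fin 6 → E) :
    DlF f x y = δ / 2 * ∑ i, ∑ k, (f.m k - f.m i) * (f.c i * f.c k) *
      (zm f δ x i * zp f δ x k) * (zp f δ y i * zm f δ y k) := by
  have h2 : (2 : E) ≠ 0 := two_ne_zero
  unfold DlF
  rw [f.Q0_coord, f.Q1_coord, f.Q0_coord, f.Q1_coord]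
  simp only [f.ca_S, f.cb_S, ← hδ, Fin.sum_univ_three, zp, zm]
  field_simp
  ring

/-- the vector with given coordinates -/
def vc (p q : Fin 3 → E) : Fin 6 → E :=
  ∑ i, (((p i + q i) / 2) • f.v i + ((p i - q i) / (2 * δ)) • (f.S *ᵥ f.v i))

theorem zp_vc [NeZero (2 : E)] (hδ0 : δ ≠ 0) (p q : Fin 3 → E) (i : Fin 3) :
    zp f δ (vc f (δ := δ) p q) i = p i := by
  have h2 : (2 : E) ≠ 0 := two_ne_zero
  rw [zp, vc, f.ca_comb, f.cb_comb]
  field_simp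
  ring

theorem zm_vc [NeZero (2 : E)] (hδ0 : δ ≠ 0) (p q : Fin 3 → E) (i : Fin 3) :
    zm f δ (vc f (δ := δ) p q) i = q i := by
  have h2 : (2 : E) ≠ 0 := two_ne_zero
  rw [zm, vc, f.ca_comb, f.cb_comb]
  field_simp
  ring

theorem Q0_self [NeZero (2 : E)] (hδ : δ ^ 2 = f.d) (x : Fin 6 → E) :
    x ⬝ᵥ (f.Q0 *ᵥ x) = ∑ i, f.c i * (zp f δ x i * zm f δ x i) := by
  rw [f.Q0_coord]
  refine Finset.sum_congr rfl fun i _ => ?_
  rw [zp, zm, ← hδ]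
  ring

theorem Q1_self [NeZero (2 : E)] (hδ : δ ^ 2 = f.d) (x : Fin 6 → E) :
    x ⬝ᵥ (f.Q1 *ᵥ x) = ∑ i, f.m i * f.c i * (zp f δ x i * zm f δ x i) := by
  rw [f.Q1_coord]
  refine Finset.sum_congr rfl fun i _ => ?_
  rw [zp, zm, ← hδ]
  ring

/-- the products of the coordinates of an isotropic vector -/
theorem iso_prod [NeZero (2 : E)] (hδ : δ ^ 2 = f.d) {x : Fin 6 → E}
    (h0 : x ⬝ᵥ (f.Q0 *ᵥ x) = 0) (h1 : x ⬝ᵥ (f.Q1 *ᵥ x) = 0) (i : Fin 3) :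
    pr f i * (f.c i * (zp f δ x i * zm f δ x i)) =
      pr f 0 * (f.c 0 * (zp f δ x 0 * zm f δ x 0)) := by
  rw [Q0_self f hδ, Fin.sum_univ_three] at h0
  rw [Q1_self f hδ, Fin.sum_univ_three] at h1
  fin_cases i
  · rfl
  · change (f.m 1 - f.m 2) * (f.m 1 - f.m 0) * (f.c 1 * (zp f δ x 1 * zm f δ x 1)) =
      (f.m 0 - f.m 1) * (f.m 0 - f.m 2) * (f.c 0 * (zp f δ x 0 * zm f δ x 0))
    linear_combination (f.m 0 - f.m 1) * (f.m 2 * h0 - h1)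
  · change (f.m 2 - f.m 0) * (f.m 2 - f.m 1) * (f.c 2 * (zp f δ x 2 * zm f δ x 2)) =
      (f.m 0 - f.m 1) * (f.m 0 - f.m 2) * (f.c 0 * (zp f δ x 0 * zm f δ x 0))
    linear_combination (f.m 0 - f.m 2) * (f.m 1 * h0 - h1)

/-- two different coordinates which are not zero -/
theorem exists_ik [NeZero (2 : E)] (hδ : δ ^ 2 = f.d) {x : Fin 6 → E}
    (h0 : x ⬝ᵥ (f.Q0 *ᵥ x) = 0) (h1 : x ⬝ᵥ (f.Q1 *ᵥ x) = 0) (hp : zp f δ x ≠ 0)
    (hm : zm f δ x ≠ 0) : ∃ i k, i ≠ k ∧ zm f δ x i ≠ 0 ∧ zp f δ x k ≠ 0 := by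
  obtain ⟨k, hk⟩ : ∃ k, zp f δ x k ≠ 0 := by
    by_contra h
    push Not at h
    exact hp (funext h)
  obtain ⟨i, hi⟩ : ∃ i, zm f δ x i ≠ 0 := by
    by_contra h
    push Not at h
    exact hm (funext h)
  by_cases hik : i = k
  · subst hik
    -- the product is not zero for all indices
    have h3 : ∀ j, zp f δ x j * zm f δ x j ≠ 0 := by
      intro j hj
      have h4 := iso_prod f hδ h0 h1 j
      have h5 := iso_prod f hδ h0 h1 i
      rw [hj, mul_zero, mul_zero] at h4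
      rw [← h4] at h5
      have h6 := (mul_eq_zero.1 ((mul_eq_zero.1 h5).resolve_left (pr_ne f i))).resolve_left
        (f.c_ne i)
      rcases mul_eq_zero.1 h6 with h7 | h7
      · exact hk h7
      · exact hi h7
    have h6 := h3 (i + 1)
    exact ⟨i + 1, i, by fin_cases i <;> decide, right_ne_zero_of_mul h6, hk⟩
  · exact ⟨i, k, hik, hi, hk⟩

/-- the coefficient -/
def Aik (δ : E) (x : Fin 6 → E) (i k : Fin 3) : E :=
  (f.m k - f.m i) * f.c i * (zm f δ x i * zp f δ x k) / pr f k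

/-- the polynomial -/
def px (δ : E) (x : Fin 6 → E) : E[X] :=
  C (Aik f δ x 0 2) + C (Aik f δ x 1 2) * X + C (Aik f δ x 0 1) * X ^ 2 +
    C (Aik f δ x 1 0) * X ^ 4 + C (Aik f δ x 2 1) * X ^ 5 + C (Aik f δ x 2 0) * X ^ 6

theorem px_ne [NeZero (2 : E)] (hδ : δ ^ 2 = f.d) {x : Fin 6 → E}
    (h0 : x ⬝ᵥ (f.Q0 *ᵥ x) = 0) (h1 : x ⬝ᵥ (f.Q1 *ᵥ x) = 0) (hp : zp f δ x ≠ 0)
    (hm : zm f δ x ≠ 0) : px f δ x ≠ 0 := by
  obtain ⟨i, k, hik, hi, hk⟩ := exists_ik f hδ h0 h1 hp hm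
  have hA : Aik f δ x i k ≠ 0 := by
    unfold Aik
    refine div_ne_zero (mul_ne_zero (mul_ne_zero (sub_ne_zero.2 fun h => hik (f.inj h).symm)
      (f.c_ne i)) (mul_ne_zero hi hk)) (pr_ne f k)
  intro h
  have hc : ∀ n, (px f δ x).coeff n = 0 := by
    intro n
    rw [h, coeff_zero]
  have c0 := hc 0
  have c1 := hc 1
  have c2 := hc 2
  have c4 := hc 4
  have c5 := hc 5
  have c6 := hc 6
  unfold px at c0 c1 c2 c4 c5 c6
  simp only [coeff_add, coeff_C_mul, coeff_X_pow, coeff_C, coeff_X] at c0 c1 c2 c4 c5 c6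
  norm_num at c0 c1 c2 c4 c5 c6
  apply hA
  fin_cases i <;> fin_cases k <;> first | exact absurd rfl hik | assumption

/-- the isotropic vector with the parameter `τ` -/
def wt (δ τ : E) : Fin 6 → E :=
  vc f (δ := δ) ![1, τ, τ ^ 3] fun i => (f.c i * pr f i * ![1, τ, τ ^ 3] i)⁻¹

theorem wt_iso [NeZero (2 : E)] (hδ : δ ^ 2 = f.d) {τ : E} (hτ : τ ≠ 0) :
    wt f δ τ ⬝ᵥ (f.Q0 *ᵥ wt f δ τ) = 0 ∧ wt f δ τ ⬝ᵥ (f.Q1 *ᵥ wt f δ τ) = 0 := by
  have hδ0 : δ ≠ 0 := by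
    intro h
    apply f.hd
    rw [← hδ, h]
    ring
  have ht : ∀ i : Fin 3, (![1, τ, τ ^ 3] : Fin 3 → E) i ≠ 0 := by
    intro i
    fin_cases i
    · exact one_ne_zero
    · exact hτ
    · exact pow_ne_zero 3 hτ
  have hpr : ∀ i, f.c i * (zp f δ (wt f δ τ) i * zm f δ (wt f δ τ) i) = (pr f i)⁻¹ := by
    intro i
    rw [wt, zp_vc f hδ0, zm_vc f hδ0]
    have h1 := f.c_ne i
    have h2 := pr_ne f i
    have h3 := ht i
    field_simp
  have d01 : f.m 0 - f.m 1 ≠ 0 := sub_ne_zero.2 fun h => absurd (f.inj h) (by decide)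
  have d02 : f.m 0 - f.m 2 ≠ 0 := sub_ne_zero.2 fun h => absurd (f.inj h) (by decide)
  have d12 : f.m 1 - f.m 2 ≠ 0 := sub_ne_zero.2 fun h => absurd (f.inj h) (by decide)
  have d10 : f.m 1 - f.m 0 ≠ 0 := sub_ne_zero.2 fun h => absurd (f.inj h) (by decide)
  have d20 : f.m 2 - f.m 0 ≠ 0 := sub_ne_zero.2 fun h => absurd (f.inj h) (by decide)
  have d21 : f.m 2 - f.m 1 ≠ 0 := sub_ne_zero.2 fun h => absurd (f.inj h) (by decide)
  have p0 : pr f 0 = (f.m 0 - f.m 1) * (f.m 0 - f.m 2) := rfl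
  have p1 : pr f 1 = (f.m 1 - f.m 2) * (f.m 1 - f.m 0) := rfl
  have p2 : pr f 2 = (f.m 2 - f.m 0) * (f.m 2 - f.m 1) := rfl
  constructor
  · rw [Q0_self f hδ, Finset.sum_congr rfl fun i _ => hpr i, Fin.sum_univ_three, p0, p1, p2]
    field_simp
    ring
  · have h1 : ∀ i, f.m i * f.c i * (zp f δ (wt f δ τ) i * zm f δ (wt f δ τ) i) =
        f.m i * (pr f i)⁻¹ := by
      intro i
      rw [← hpr, mul_assoc]
    rw [Q1_self f hδ, Finset.sum_congr rfl fun i _ => h1 i, Fin.sum_univ_three, p0, p1, p2]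
    field_simp
    ring

theorem DlF_wt [NeZero (2 : E)] (hδ : δ ^ 2 = f.d) {τ : E} (hτ : τ ≠ 0) (x : Fin 6 → E) :
    τ ^ 3 * DlF f x (wt f δ τ) = δ / 2 * (px f δ x).eval τ := by
  have hδ0 : δ ≠ 0 := by
    intro h
    apply f.hd
    rw [← hδ, h]
    ring
  rw [DlF_coord f hδ]
  unfold px Aik
  simp only [wt, zp_vc f hδ0, zm_vc f hδ0, Fin.sum_univ_three, eval_add, eval_mul, eval_C,
    eval_pow, eval_X, Matrix.cons_val_zero, Matrix.cons_val_one, Matrix.cons_val]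
  have h0 := f.c_ne 0
  have h1 := f.c_ne 1
  have h2 := f.c_ne 2
  have q0 := pr_ne f 0
  have q1 := pr_ne f 1
  have q2 := pr_ne f 2
  field_simp
  ring

/-- **An isotropic vector in general position to two given ones.** -/
theorem exists_iso [NeZero (2 : E)] [Infinite E] (hδ : δ ^ 2 = f.d) {x y : Fin 6 → E}
    (hx0 : x ⬝ᵥ (f.Q0 *ᵥ x) = 0) (hx1 : x ⬝ᵥ (f.Q1 *ᵥ x) = 0) (hxp : zp f δ x ≠ 0)
    (hxm : zm f δ x ≠ 0) (hy0 : y ⬝ᵥ (f.Q0 *ᵥ y) = 0) (hy1 : y ⬝ᵥ (f.Q1 *ᵥ y) = 0)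
    (hyp : zp f δ y ≠ 0) (hym : zm f δ y ≠ 0) :
    ∃ w : Fin 6 → E, w ⬝ᵥ (f.Q0 *ᵥ w) = 0 ∧ w ⬝ᵥ (f.Q1 *ᵥ w) = 0 ∧ DlF f x w ≠ 0 ∧
      DlF f y w ≠ 0 := by
  have h1 := px_ne f hδ hx0 hx1 hxp hxm
  have h2 := px_ne f hδ hy0 hy1 hyp hym
  have h3 : X * px f δ x * px f δ y ≠ 0 := mul_ne_zero (mul_ne_zero X_ne_zero h1) h2
  obtain ⟨τ, hτ⟩ : ∃ τ, eval τ (X * px f δ x * px f δ y) ≠ 0 := by
    by_contra hc
    push Not at hc
    exact h3 (Polynomial.funext fun τ => by rw [hc, eval_zero])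
  rw [eval_mul, eval_mul, eval_X] at hτ
  have hτ0 : τ ≠ 0 := left_ne_zero_of_mul (left_ne_zero_of_mul hτ)
  have hδ0 : δ ≠ 0 := by
    intro h
    apply f.hd
    rw [← hδ, h]
    ring
  have h4 : ∀ z, (px f δ z).eval τ ≠ 0 → DlF f z (wt f δ τ) ≠ 0 := by
    intro z hz h5
    have h6 := DlF_wt f hδ hτ0 z
    rw [h5, mul_zero] at h6
    exact mul_ne_zero (div_ne_zero hδ0 two_ne_zero) hz h6.symm
  obtain ⟨h5, h6⟩ := wt_iso f hδ hτ0
  exact ⟨wt f δ τ, h5, h6, h4 x (right_ne_zero_of_mul (left_ne_zero_of_mul hτ)),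
    h4 y (right_ne_zero_of_mul hτ)⟩

end Pool.Agent.GTE
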