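import Pool.Agent.GTE.AsmG

/-!
# GTE: the generic point of the cubic is a generic zero of its own pencil
-/

set_option autoImplicit false

noncomputable section

namespace Pool.Agent.GTE

open MvPolynomial Matrix GSH GSX GSQ GSF

/-- The point of the pencil over the generic point of the cubic. -/
theorem exists_genPt {X : Cub ℂ} (hn : X.NonDeg) (hirr : Irreducible X.F) {Ω : Type} [Field Ω]
    [Algebra ℂ Ω] [Algebra KK Ω] [IsScalarTower ℂ KK Ω] {x : Fin 6 → Ω} (hx : Gen X x) :
    ∃ u : Fin 6 → Ω, GenPt X.pen u := by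
  obtain ⟨w, hw, -, -, hU, hnd, ⟨θ, hθ, hθw⟩, htop⟩ := hx.partX hn.a0
  have hdX : NSq Ω X.pen.d := hx.nsq_dX hn hirr
  have hS : X.pen.S * X.pen.S = X.pen.d • 1 := (isHer_herm _).sq
  refine ⟨pU w, hU, fun j => hw.1 j, fun T hT => ?_⟩
  obtain ⟨v', α, β, hv', hvv⟩ := hT
  have hab : α ≠ 0 ∨ β ≠ 0 := by
    by_contra hcon
    push Not at hcon
    apply hU
    rw [hvv, hcon.1, hcon.2]
    unfold sm
    simp
  obtain ⟨c, hc, hcT⟩ := ratl (f := θ) hv' hvv hU hθw (by
    by_contra hcon
    push Not at hcon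
    apply hθ
    refine hnd θ hθw ?_
    rw [hvv]
    unfold sm
    rw [mulVec_add, mulVec_smul, mulVec_smul, mK_sq hS, dotProduct_add, dotProduct_smul,
      dotProduct_smul, dotProduct_smul, hcon.1, hcon.2]
    simp)
  exact htop T c hc hcT

end Pool.Agent.GTE
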