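import Pool.Agent.GTE.Vec
import Pool.Agent.GSN.Gen
import Pool.Agent.GSX.Sq

/-!
# GTE: type E data in general position

The conditions on a type E datum which are used in the proof, as the nonvanishing of some
polynomials in the coefficients at the parameters `c = 0`, `b = 0`, and the transfer to
algebraically independent parameters.
-/

set_option autoImplicit false

noncomputable section

namespace Pool.Agent.GTE

open Matrix

/-! ### Two binary cubics -/

section Bez

variable {R : Type} [CommRing R]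

/-- the value of the binary cubic with the coefficients `f` -/
def cval (f : Fin 4 → R) (y z : R) : R :=
  f 0 * y ^ 3 + f 1 * (y ^ 2 * z) + f 2 * (y * z ^ 2) + f 3 * z ^ 3

/-- the matrix of Bezout of two binary cubics -/
def bez (f g : Fin 4 → R) : Matrix (Fin 3) (Fin 3) R :=
  !![f 0 * g 1 - f 1 * g 0, f 0 * g 2 - f 2 * g 0, f 0 * g 3 - f 3 * g 0;
    f 0 * g 2 - f 2 * g 0, f 0 * g 3 - f 3 * g 0 + (f 1 * g 2 - f 2 * g 1),
      f 1 * g 3 - f 3 * g 1;
    f 0 * g 3 - f 3 * g 0, f 1 * g 3 - f 3 * g 1, f 2 * g 3 - f 3 * g 2]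

/-- the coefficients of the binary cubic `det (y h + z a)` -/
def cub1 (h a : Fin 5 → R) : Fin 4 → R :=
  ![(sym h).det,
    (h 1 * -(h 0 + h 1) - h 4 ^ 2) * a 0 + (h 0 * -(h 0 + h 1) - h 3 ^ 2) * a 1 +
      (h 0 * h 1 - h 2 ^ 2) * -(a 0 + a 1) + 2 * (h 3 * h 4 + h 2 * (h 0 + h 1)) * a 2 +
      2 * (h 2 * h 4 - h 3 * h 1) * a 3 + 2 * (h 2 * h 3 - h 0 * h 4) * a 4,
    (a 1 * -(a 0 + a 1) - a 4 ^ 2) * h 0 + (a 0 * -(a 0 + a 1) - a 3 ^ 2) * h 1 +
      (a 0 * a 1 - a 2 ^ 2) * -(h 0 + h 1) + 2 * (a 3 * a 4 + a 2 * (a 0 + a 1)) * h 2 +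
      2 * (a 2 * a 4 - a 3 * a 1) * h 3 + 2 * (a 2 * a 3 - a 0 * a 4) * h 4,
    (sym a).det]

theorem cub1_val (h a : Fin 5 → R) (y z : R) :
    cval (cub1 h a) y z = (sym fun k => y * h k + z * a k).det := by
  simp only [cval, cub1, sym, Matrix.det_fin_three, Matrix.of_apply, Matrix.cons_val',
    Matrix.cons_val_zero, Matrix.cons_val_one, Matrix.cons_val_fin_one, Matrix.cons_val]
  ring

/-- the coefficients of the binary cubic `(y h + z a) (y t + z s, y t + z s)` -/
def cub2 (h a : Fin 5 → R) (t s : Fin 3 → R) : Fin 4 → R :=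
  ![qf (sym h) t t, 2 * qf (sym h) t s + qf (sym a) t t, 2 * qf (sym a) t s + qf (sym h) s s,
    qf (sym a) s s]

theorem cub2_val (h a : Fin 5 → R) (t s : Fin 3 → R) (y z : R) :
    cval (cub2 h a t s) y z = qf (sym fun k => y * h k + z * a k)
      (fun j => y * t j + z * s j) (fun j => y * t j + z * s j) := by
  simp only [cval, cub2, qf, sym, Matrix.of_apply, Matrix.cons_val',
    Matrix.cons_val_zero, Matrix.cons_val_one, Matrix.cons_val_fin_one, Matrix.cons_val]
  ring

/-- the change of the resultant -/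
theorem bez_smul (f g : Fin 4 → R) (c : R) :
    (bez f fun i => c * g i).det = c ^ 3 * (bez f g).det := by
  simp only [bez, Matrix.det_fin_three, Matrix.of_apply, Matrix.cons_val',
    Matrix.cons_val_zero, Matrix.cons_val_one, Matrix.cons_val_fin_one, Matrix.cons_val]
  ring

theorem cub2_smul (h a : Fin 5 → R) (t s : Fin 3 → R) (c : R) :
    cub2 h a (fun j => c * t j) (fun j => c * s j) = fun i => c ^ 2 * cub2 h a t s i := by
  funext i
  fin_cases i <;> simp only [cub2, qf, Fin.zero_eta, Fin.mk_one, Fin.reduceFinMk,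
    Matrix.cons_val_zero, Matrix.cons_val_one, Matrix.cons_val] <;> ring

end Bez

/-- two binary cubics with a common zero have resultant zero -/
theorem bez_det {Ω : Type} [Field Ω] (f g : Fin 4 → Ω) {y z : Ω} (hyz : y ≠ 0 ∨ z ≠ 0)
    (hf : cval f y z = 0) (hg : cval g y z = 0) : (bez f g).det = 0 := by
  rw [← Matrix.exists_mulVec_eq_zero_iff]
  refine ⟨![y ^ 2, y * z, z ^ 2], ?_, ?_⟩
  · intro h0
    have h1 := congrFun h0 0
    have h2 := congrFun h0 2
    simp at h1 h2
    rcases hyz with h | h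
    · exact h h1
    · exact h h2
  · set R0 := (f 0 * g 1 - f 1 * g 0) * y ^ 2 + (f 0 * g 2 - f 2 * g 0) * (y * z) +
      (f 0 * g 3 - f 3 * g 0) * z ^ 2 with hR0
    set R1 := (f 0 * g 2 - f 2 * g 0) * y ^ 2 + (f 0 * g 3 - f 3 * g 0 +
      (f 1 * g 2 - f 2 * g 1)) * (y * z) + (f 1 * g 3 - f 3 * g 1) * z ^ 2 with hR1
    set R2 := (f 0 * g 3 - f 3 * g 0) * y ^ 2 + (f 1 * g 3 - f 3 * g 1) * (y * z) +
      (f 2 * g 3 - f 3 * g 2) * z ^ 2 with hR2
    have e0 : z * R0 = 0 := by
      rw [hR0]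
      simp only [cval] at hf hg
      linear_combination f 0 * hg - g 0 * hf
    have e1 : y * R2 = 0 := by
      rw [hR2]
      simp only [cval] at hf hg
      linear_combination g 3 * hf - f 3 * hg
    have e2 : y * R0 = z * R1 + (f 1 * 0) := by
      rw [hR0, hR1]
      simp only [cval] at hf hg
      linear_combination g 1 * hf - f 1 * hg
    have e3 : y * R1 = z * R2 := by
      rw [hR1, hR2]
      simp only [cval] at hf hg
      linear_combination g 2 * hf - f 2 * hg
    have h012 : R0 = 0 ∧ R1 = 0 ∧ R2 = 0 := by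
      by_cases hz : z = 0
      · have hy : y ≠ 0 := hyz.resolve_right fun h => h hz
        have h2 : R2 = 0 := (mul_eq_zero.1 e1).resolve_left hy
        have h1 : R1 = 0 := by
          rw [hz, zero_mul] at e3
          exact (mul_eq_zero.1 e3).resolve_left hy
        have h0 : R0 = 0 := by
          rw [hz, zero_mul, mul_zero, add_zero] at e2
          exact (mul_eq_zero.1 e2).resolve_left hy
        exact ⟨h0, h1, h2⟩
      · have h0 : R0 = 0 := (mul_eq_zero.1 e0).resolve_left hz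
        have h1 : R1 = 0 := by
          rw [h0, mul_zero, mul_zero, add_zero] at e2
          exact (mul_eq_zero.1 e2.symm).resolve_left hz
        have h2 : R2 = 0 := by
          rw [h1, mul_zero] at e3
          exact (mul_eq_zero.1 e3.symm).resolve_left hz
        exact ⟨h0, h1, h2⟩
    obtain ⟨h0, h1, h2⟩ := h012
    funext i
    fin_cases i
    · simp only [bez, Matrix.mulVec, dotProduct, Fin.sum_univ_three, Matrix.of_apply,
        Matrix.cons_val', Matrix.cons_val_zero, Matrix.cons_val_one, Matrix.cons_val_fin_one,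
        Matrix.cons_val, Fin.zero_eta, Pi.zero_apply]
      rw [← h0, hR0]
    · simp only [bez, Matrix.mulVec, dotProduct, Fin.sum_univ_three, Matrix.of_apply,
        Matrix.cons_val', Matrix.cons_val_zero, Matrix.cons_val_one, Matrix.cons_val_fin_one,
        Matrix.cons_val, Fin.mk_one, Pi.zero_apply]
      rw [← h1, hR1]
    · simp only [bez, Matrix.mulVec, dotProduct, Fin.sum_univ_three, Matrix.of_apply,
        Matrix.cons_val', Matrix.cons_val_zero, Matrix.cons_val_one, Matrix.cons_val_fin_one,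
        Matrix.cons_val, Fin.reduceFinMk, Pi.zero_apply]
      rw [← h2, hR2]

/-! ### The linear systems -/

section Sys

variable {R : Type} [CommRing R]

/-- the coefficients of the linear form `dot (sym m) (sym v)` in `m` -/
def row (v : Fin 5 → R) : Fin 5 → R := ![2 * v 0 + v 1, v 0 + 2 * v 1, 2 * v 2, 2 * v 3, 2 * v 4]

theorem dot_sym (m v : Fin 5 → R) : dot (sym m) (sym v) = row v ⬝ᵥ m := by
  simp only [dot, Matrix.trace_fin_three, Matrix.mul_apply, Fin.sum_univ_three, sym,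
    dotProduct, Fin.sum_univ_five, row, Matrix.of_apply, Matrix.cons_val', Matrix.cons_val_zero,
    Matrix.cons_val_one, Matrix.cons_val_fin_one, Matrix.cons_val]
  ring

theorem tri_smul (c : R) (m : Fin 5 → R) (x y : Matrix (Fin 3) (Fin 3) R) :
    tri (sym fun k => c * m k) x y = fun j => c * tri (sym m) x y j := by
  have h1 : sym (fun k => c * m k) = c • sym m := by
    ext i j
    fin_cases i <;> fin_cases j <;> simp [sym]
    ring
  rw [h1]
  funext j
  fin_cases j <;>
    simp only [tri, vec, Matrix.smul_mul, Matrix.mul_smul, Matrix.sub_apply, Matrix.add_apply,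
      Matrix.smul_apply, smul_eq_mul, Fin.zero_eta, Fin.mk_one, Fin.reduceFinMk,
      Matrix.cons_val_zero, Matrix.cons_val_one, Matrix.cons_val] <;> ring

namespace EDat

/-- the coordinates of `h` -/
def h5 (E : EDat R) : Fin 5 → R := ![E.h 0, E.h 1, 0, 0, 0]

/-- the coordinates of `a` -/
def a5 (E : EDat R) (c : Fin 2 → R) : Fin 5 → R := fun k => E.e 0 k + c 0 * E.e 1 k + c 1 * E.e 2 k

/-- the matrix of the two linear systems -/
def sysM (E : EDat R) (c : Fin 2 → R) : Matrix (Fin 5) (Fin 5) R :=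
  Matrix.of ![row E.h5, row (E.f 0), row (E.f 1), row (E.f 2), row (E.a5 c)]

/-- the right hand side for `m` -/
def rhm (E : EDat R) (c : Fin 2 → R) : Fin 5 → R := ![0, E.s 0, E.s 1, E.s 2, -E.ah c]

/-- the right hand side for `g` -/
def rhg (E : EDat R) (c : Fin 2 → R) : Fin 5 → R := ![E.ah c, E.af c 0, E.af c 1, E.af c 2, 0]

/-- the solution for `m`, multiplied by the determinant -/
def mt (E : EDat R) (c : Fin 2 → R) : Fin 5 → R := (E.sysM c).adjugate *ᵥ E.rhm c

/-- the solution for `g`, multiplied by the determinant -/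
def gt (E : EDat R) (c : Fin 2 → R) : Fin 5 → R := (E.sysM c).adjugate *ᵥ E.rhg c

theorem Sol.sysm {E : EDat R} {c : Fin 2 → R} {m g : Fin 5 → R} (h : E.Sol c m g) :
    E.sysM c *ᵥ m = E.rhm c := by
  funext i
  fin_cases i
  · exact (dot_sym m E.h5).symm.trans h.mh
  · exact (dot_sym m (E.f 0)).symm.trans (h.mf 0)
  · exact (dot_sym m (E.f 1)).symm.trans (h.mf 1)
  · exact (dot_sym m (E.f 2)).symm.trans (h.mf 2)
  · exact (dot_sym m (E.a5 c)).symm.trans h.ma

theorem Sol.sysg {E : EDat R} {c : Fin 2 → R} {m g : Fin 5 → R} (h : E.Sol c m g) :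
    E.sysM c *ᵥ g = E.rhg c := by
  funext i
  fin_cases i
  · exact (dot_sym g E.h5).symm.trans h.gh
  · exact (dot_sym g (E.f 0)).symm.trans (h.gf 0)
  · exact (dot_sym g (E.f 1)).symm.trans (h.gf 1)
  · exact (dot_sym g (E.f 2)).symm.trans (h.gf 2)
  · exact (dot_sym g (E.a5 c)).symm.trans h.ga

theorem Sol.mt_eq {E : EDat R} {c : Fin 2 → R} {m g : Fin 5 → R} (h : E.Sol c m g) :
    E.mt c = fun k => (E.sysM c).det * m k := by
  rw [mt, ← h.sysm, Matrix.mulVec_mulVec, Matrix.adjugate_mul, Matrix.smul_mulVec,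
    Matrix.one_mulVec]
  rfl

theorem Sol.gt_eq {E : EDat R} {c : Fin 2 → R} {m g : Fin 5 → R} (h : E.Sol c m g) :
    E.gt c = fun k => (E.sysM c).det * g k := by
  rw [gt, ← h.sysg, Matrix.mulVec_mulVec, Matrix.adjugate_mul, Matrix.smul_mulVec,
    Matrix.one_mulVec]
  rfl

/-- the solutions given by Cramer's rule -/
theorem sol_of_sys {E : EDat R} {c : Fin 2 → R} {m g : Fin 5 → R} (hm : E.sysM c *ᵥ m = E.rhm c)
    (hg : E.sysM c *ᵥ g = E.rhg c) : E.Sol c m g where
  mh := (dot_sym m E.h5).trans (congrFun hm 0)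
  mf := by
    intro j
    fin_cases j
    · exact (dot_sym m (E.f 0)).trans (congrFun hm 1)
    · exact (dot_sym m (E.f 1)).trans (congrFun hm 2)
    · exact (dot_sym m (E.f 2)).trans (congrFun hm 3)
  ma := (dot_sym m (E.a5 c)).trans (congrFun hm 4)
  gh := (dot_sym g E.h5).trans (congrFun hg 0)
  gf := by
    intro j
    fin_cases j
    · exact (dot_sym g (E.f 0)).trans (congrFun hg 1)
    · exact (dot_sym g (E.f 1)).trans (congrFun hg 2)
    · exact (dot_sym g (E.f 2)).trans (congrFun hg 3)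
  ga := (dot_sym g (E.a5 c)).trans (congrFun hg 4)

/-! ### The conditions -/

/-- the number `kf (h ∧ a, h ∧ a)` -/
def gk (E : EDat R) (c : Fin 2 → R) : R := kf E.hM (E.aM c) E.hM (E.aM c)

/-- the determinant of the vectors `alt (h, a, f j)` -/
def gn (E : EDat R) (c : Fin 2 → R) : R :=
  (Matrix.of fun j i => alt E.hM (E.aM c) (E.fM j) i : Matrix (Fin 3) (Fin 3) R).det

/-- the determinant of the linear systems -/
def gd (E : EDat R) (c : Fin 2 → R) : R := (E.sysM c).det

/-- the resultant of the two cubics -/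
def gr (E : EDat R) (c : Fin 2 → R) : R :=
  (bez (cub1 E.h5 (E.a5 c)) (cub2 E.h5 (E.a5 c) (tri (sym (E.mt c)) E.hM (E.aM c))
    (tri (sym (E.gt c)) E.hM (E.aM c)))).det

/-- the determinant of the Gram matrix -/
def gK (E : EDat R) (x : Fin 4 → R) : R :=
  (KM E.hM (E.aM ![x 0, x 1]) (E.bM ![x 2, x 3])).det

/-- the constant coefficient of `cls`, multiplied by the square of the determinant -/
def gc (E : EDat R) (c : Fin 2 → R) : R :=
  (E.sysM c).det ^ 2 * (E.d c * (E.aM c 0 0 * E.aM c 1 1 - E.aM c 0 1 ^ 2)) +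
    tri (sym (E.gt c)) E.hM (E.aM c) 2 ^ 2

/-- the leading coefficient of `cls`, multiplied by the square of the determinant -/
def gp (E : EDat R) (c : Fin 2 → R) : R :=
  (E.sysM c).det ^ 2 * (E.d c * (E.h 0 * E.h 1)) + tri (sym (E.mt c)) E.hM (E.aM c) 2 ^ 2

/-- the number `tr (m ^ 2 h) + 3 det h`, multiplied by the square of the determinant -/
def gq (E : EDat R) (c : Fin 2 → R) : R :=
  trace (sym (E.mt c) * sym (E.mt c) * E.hM) + (E.sysM c).det ^ 2 * (3 * E.hM.det)

/-- the discriminant of `d` as a quadratic polynomial in `c 0`, for `c 1 = 0` -/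
def gs (E : EDat R) : R :=
  (2 * kf E.hM (sym (E.e 0)) E.hM (sym (E.e 1)) + 2 * (E.r 0 * E.r 1)) ^ 2 -
    4 * (kf E.hM (sym (E.e 0)) E.hM (sym (E.e 0)) + E.r 0 ^ 2) *
      (kf E.hM (sym (E.e 1)) E.hM (sym (E.e 1)) + E.r 1 ^ 2)

end EDat

/-- the leading coefficient of `cls` is not zero -/
theorem EDat.gp_ne {Ω : Type} [Field Ω] {E : EDat Ω} {c : Fin 2 → Ω} {m g : Fin 5 → Ω}
    (hs : E.Sol c m g) (hp : E.gp c ≠ 0) :
    E.d c * (E.h 0 * E.h 1) + tri (sym m) E.hM (E.aM c) 2 ^ 2 ≠ 0 := by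
  intro h0
  apply hp
  unfold EDat.gp
  rw [hs.mt_eq, tri_smul]
  linear_combination (E.sysM c).det ^ 2 * h0

/-- the constant coefficient of `cls` is not zero -/
theorem EDat.gc_ne {Ω : Type} [Field Ω] {E : EDat Ω} {c : Fin 2 → Ω} {m g : Fin 5 → Ω}
    (hs : E.Sol c m g) (hp : E.gc c ≠ 0) :
    E.d c * (E.aM c 0 0 * E.aM c 1 1 - E.aM c 0 1 ^ 2) +
      tri (sym g) E.hM (E.aM c) 2 ^ 2 ≠ 0 := by
  intro h0
  apply hp
  unfold EDat.gc
  rw [hs.gt_eq, tri_smul]
  linear_combination (E.sysM c).det ^ 2 * h0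

/-- the leading coefficient of the cubic form is not zero -/
theorem EDat.gq_ne {Ω : Type} [Field Ω] {E : EDat Ω} {c : Fin 2 → Ω} {m g : Fin 5 → Ω}
    (hs : E.Sol c m g) (hp : E.gq c ≠ 0) :
    trace (sym m * sym m * E.hM) + 3 * E.hM.det ≠ 0 := by
  intro h0
  apply hp
  unfold EDat.gq
  have h1 : sym (fun k => (E.sysM c).det * m k) = (E.sysM c).det • sym m := by
    ext i j
    fin_cases i <;> fin_cases j <;> simp [sym]
    ring
  rw [hs.mt_eq, h1, Matrix.smul_mul, Matrix.smul_mul, Matrix.mul_smul, Matrix.smul_mul,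
    Matrix.trace_smul, Matrix.trace_smul, smul_eq_mul, smul_eq_mul]
  linear_combination (E.sysM c).det ^ 2 * h0

/-- the two cubics have no common zero -/
theorem no_zero {Ω : Type} [Field Ω] {E : EDat Ω} {c : Fin 2 → Ω} {m g : Fin 5 → Ω}
    (hs : E.Sol c m g) (hr : E.gr c ≠ 0) (y z : Ω) (hyz : y ≠ 0 ∨ z ≠ 0)
    (h1 : (sym fun k => y * E.h5 k + z * E.a5 c k).det = 0)
    (h2 : qf (sym fun k => y * E.h5 k + z * E.a5 c k)
      (fun j => y * tri (sym m) E.hM (E.aM c) j + z * tri (sym g) E.hM (E.aM c) j)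
      (fun j => y * tri (sym m) E.hM (E.aM c) j + z * tri (sym g) E.hM (E.aM c) j) = 0) :
    False := by
  apply hr
  unfold EDat.gr
  refine bez_det _ _ hyz ?_ ?_
  · rw [cub1_val]
    exact h1
  · rw [hs.mt_eq, hs.gt_eq, tri_smul, tri_smul, cub2_smul]
    have h3 := cub2_val E.h5 (E.a5 c) (tri (sym m) E.hM (E.aM c)) (tri (sym g) E.hM (E.aM c)) y z
    rw [h2] at h3
    simp only [cval] at h3 ⊢
    linear_combination (E.sysM c).det ^ 2 * h3

end Sys

end Pool.Agent.GTE
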