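import Pool.Agent.GTE.GoodM

/-!
# GTE: the number `d` of a datum in general position is not a square in `ℂ(s, t)`
-/

set_option autoImplicit false

noncomputable section

namespace Pool.Agent.GTE

open Matrix

/-- the discriminant of a polynomial of degree at most two which is a square -/
theorem sq_disc {R : Polynomial ℂ} {a b c : ℂ} (h : R ^ 2 = Polynomial.C a * Polynomial.X ^ 2 +
    Polynomial.C b * Polynomial.X + Polynomial.C c) : b ^ 2 - 4 * c * a = 0 := by
  have h1 : (R ^ 2).natDegree ≤ 2 := by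
    rw [h]
    exact Polynomial.natDegree_quadratic_le
  rw [Polynomial.natDegree_pow] at h1
  obtain ⟨u, v, rfl⟩ := Polynomial.exists_eq_X_add_C_of_natDegree_le_one
    (show R.natDegree ≤ 1 by omega)
  have e0 := congrArg (Polynomial.eval 0) h
  have e1 := congrArg (Polynomial.eval 1) h
  have e2 := congrArg (Polynomial.eval (-1)) h
  simp only [Polynomial.eval_pow, Polynomial.eval_add, Polynomial.eval_mul, Polynomial.eval_C,
    Polynomial.eval_X] at e0 e1 e2
  have hc : c = v ^ 2 := by linear_combination -e0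
  have hb : b = 2 * (u * v) := by linear_combination (-1 / 2) * e1 + (1 / 2) * e2
  have ha : a = u ^ 2 := by linear_combination (-1 / 2) * e1 - (1 / 2) * e2 + e0
  rw [hc, hb, ha]
  ring

/-- `d` along the line `c 1 = 0` -/
theorem EDat.d_line {R : Type} [CommRing R] (E : EDat R) (x : R) : E.d ![x, 0] =
    (kf E.hM (sym (E.e 1)) E.hM (sym (E.e 1)) + E.r 1 ^ 2) * x ^ 2 +
    (2 * kf E.hM (sym (E.e 0)) E.hM (sym (E.e 1)) + 2 * (E.r 0 * E.r 1)) * x +
    (kf E.hM (sym (E.e 0)) E.hM (sym (E.e 0)) + E.r 0 ^ 2) := by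
  simp only [EDat.d, EDat.hM, EDat.aM, EDat.ah, kf, dot, Matrix.trace_fin_three,
    Matrix.mul_apply, Matrix.sub_apply, Fin.sum_univ_three, sym, Matrix.of_apply,
    Matrix.cons_val', Matrix.cons_val_zero, Matrix.cons_val_one, Matrix.cons_val_fin_one,
    Matrix.cons_val]
  ring

/-- the polynomial part: `d` is not the square of a polynomial -/
theorem EDat.d_poly {E : EDat ℂ} (hs : E.gs ≠ 0) (P : MvPolynomial (Fin 2) ℂ)
    (hP : P ^ 2 = (E.map (MvPolynomial.C : ℂ →+* MvPolynomial (Fin 2) ℂ)).d MvPolynomial.X) :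
    False := by
  set ev : MvPolynomial (Fin 2) ℂ →+* Polynomial ℂ := MvPolynomial.eval₂Hom Polynomial.C
    ![Polynomial.X, 0] with hev
  have h1 := congrArg ev hP
  have h3 : (fun i => ev (MvPolynomial.X i)) = ![Polynomial.X, 0] := by
    funext i
    exact MvPolynomial.eval₂Hom_X' _ _ i
  have h4 : (E.map (MvPolynomial.C : ℂ →+* MvPolynomial (Fin 2) ℂ)).map ev =
      E.map (Polynomial.C : ℂ →+* Polynomial ℂ) := by
    simp only [EDat.map, hev, MvPolynomial.eval₂Hom_C]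
  have h2 := EDat.d_map ev (E.map (MvPolynomial.C : ℂ →+* MvPolynomial (Fin 2) ℂ))
    MvPolynomial.X
  rw [h3, h4] at h2
  rw [map_pow, ← h2, EDat.d_line] at h1
  have hM : ∀ i, sym ((E.map (Polynomial.C : ℂ →+* Polynomial ℂ)).e i) =
      (sym (E.e i)).map (Polynomial.C : ℂ →+* Polynomial ℂ) := fun i => sym_map _ (E.e i)
  rw [hM, hM, EDat.hM_map, kf_map, kf_map, kf_map] at h1
  apply hs
  unfold EDat.gs
  refine sq_disc (R := ev P) ?_
  rw [h1]
  simp only [EDat.map, Polynomial.C_add, Polynomial.C_mul, Polynomial.C_pow,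
    Polynomial.C_ofNat]

/-- the coordinates of `ℂ(s, t)` are algebraically independent -/
theorem ind_c {c : Fin 2 → GSX.Sq.Kf} (hc : IntermediateField.adjoin ℂ (Set.range c) = ⊤) :
    AlgebraicIndependent ℂ c := by
  have hX : AlgebraicIndependent ℂ (fun i : Fin 2 =>
      algebraMap GSX.Sq.S2 GSX.Sq.Kf (MvPolynomial.X i)) := by
    have h1 : (MvPolynomial.aeval fun i : Fin 2 =>
        algebraMap GSX.Sq.S2 GSX.Sq.Kf (MvPolynomial.X i) : GSX.Sq.S2 →ₐ[ℂ] GSX.Sq.Kf) =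
        IsScalarTower.toAlgHom ℂ GSX.Sq.S2 GSX.Sq.Kf := by
      ext i
      simp
    rw [AlgebraicIndependent, h1]
    exact IsFractionRing.injective GSX.Sq.S2 GSX.Sq.Kf
  exact GSN.ind_of_top hX hc

/-- **`d` is not a square.** -/
theorem EDat.d_nsq {E : EDat ℂ} (hs : E.gs ≠ 0) {c : Fin 2 → GSX.Sq.Kf}
    (hc : IntermediateField.adjoin ℂ (Set.range c) = ⊤) :
    ¬IsSquare ((E.map (algebraMap ℂ GSX.Sq.Kf)).d c) := by
  rintro ⟨f, hf⟩
  have hind : AlgebraicIndependent ℂ c := ind_c hc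
  set g : GSX.Sq.S2 →ₐ[ℂ] GSX.Sq.Kf := MvPolynomial.aeval c with hg
  have hginj : Function.Injective g := hind
  set σ : GSX.Sq.Kf →ₐ[ℂ] GSX.Sq.Kf := IsFractionRing.liftAlgHom hginj with hσ
  have hσg : ∀ p : GSX.Sq.S2, σ (algebraMap GSX.Sq.S2 GSX.Sq.Kf p) = g p := by
    intro p
    rw [hσ, IsFractionRing.liftAlgHom_apply]
    exact IsFractionRing.lift_algebraMap hginj p
  have hsurj : ∀ z, ∃ z', σ z' = z := by
    intro z
    have hz : z ∈ IntermediateField.adjoin ℂ (Set.range c) := by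
      rw [hc]
      trivial
    have h1 : IntermediateField.adjoin ℂ (Set.range c) ≤ σ.fieldRange := by
      rw [IntermediateField.adjoin_le_iff]
      rintro _ ⟨i, rfl⟩
      refine ⟨algebraMap GSX.Sq.S2 GSX.Sq.Kf (MvPolynomial.X i), ?_⟩
      change σ _ = _
      rw [hσg, hg, MvPolynomial.aeval_X]
    exact h1 hz
  obtain ⟨f₀, hf₀⟩ := hsurj f
  set Q : GSX.Sq.S2 := (E.map (MvPolynomial.C : ℂ →+* MvPolynomial (Fin 2) ℂ)).d
    MvPolynomial.X with hQ
  have hgQ : g Q = (E.map (algebraMap ℂ GSX.Sq.Kf)).d c := by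
    have h2 := EDat.d_map (g : GSX.Sq.S2 →+* GSX.Sq.Kf)
      (E.map (MvPolynomial.C : ℂ →+* MvPolynomial (Fin 2) ℂ)) MvPolynomial.X
    have h3 : (fun i => (g : GSX.Sq.S2 →+* GSX.Sq.Kf) (MvPolynomial.X i)) = c :=
      funext fun i => MvPolynomial.aeval_X c i
    have h4 : (E.map (MvPolynomial.C : ℂ →+* MvPolynomial (Fin 2) ℂ)).map
        (g : GSX.Sq.S2 →+* GSX.Sq.Kf) = E.map (algebraMap ℂ GSX.Sq.Kf) := by
      simp only [EDat.map, RingHom.coe_coe, hg, MvPolynomial.aeval_C]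
    rw [h3, h4] at h2
    exact h2.symm
  have h1 : f₀ ^ 2 = algebraMap GSX.Sq.S2 GSX.Sq.Kf Q := by
    apply σ.toRingHom.injective
    change σ (f₀ ^ 2) = σ _
    rw [map_pow, hf₀, hσg, hgQ, hf, pow_two]
  obtain ⟨P, hP⟩ := IsIntegrallyClosed.exists_algebraMap_eq_of_isIntegral_pow (R := GSX.Sq.S2)
    (x := f₀) two_pos (by rw [h1]; exact isIntegral_algebraMap)
  refine EDat.d_poly hs P ?_
  apply IsFractionRing.injective GSX.Sq.S2 GSX.Sq.Kf
  rw [map_pow, hP, h1]

end Pool.Agent.GTE
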