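import Pool.Agent.GTE.KDefs
import Pool.Agent.GSK.HermK

/-!
# GTE: the pencil of a type E datum as a pencil of hermitian matrices
-/

set_option autoImplicit false

noncomputable section

namespace Pool.Agent.GTE

open Matrix Pool.Agent.GSX Pool.Agent.GSH

variable {K : Type} [Field K]

/-- The pencil of the datum: `d` times the hermitian matrices `h + tri (m, h, a) / √d`,
`a + tri (g, h, a) / √d`. -/
def EDat.hermE (E : EDat K) (c : Fin 2 → K) (m g : Fin 5 → K) : Herm K where
  d := E.d c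
  p := fun j => ![E.d c * ![E.hM, E.aM c] j 0 0, E.d c * ![E.hM, E.aM c] j 0 1,
    E.d c * ![E.hM, E.aM c] j 0 2, E.d c * ![E.hM, E.aM c] j 1 1,
    E.d c * ![E.hM, E.aM c] j 1 2, E.d c * ![E.hM, E.aM c] j 2 2]
  q := fun j => ![tri (sym (![m, g] j)) E.hM (E.aM c) 2, -tri (sym (![m, g] j)) E.hM (E.aM c) 1,
    tri (sym (![m, g] j)) E.hM (E.aM c) 0]

end Pool.Agent.GTE
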