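import Pool.Agent.GTE.Vec

/-!
# GTE: the two identities for traceless symmetric matrices
-/

set_option autoImplicit false

noncomputable section

namespace Pool.Agent.GTE

open Matrix

variable {R : Type} [CommRing R]

theorem id_hh (h : Fin 2 → R) (a b : Fin 5 → R) :
    36 * aq (sym ![h 0, h 1, 0, 0, 0]) (alt (sym ![h 0, h 1, 0, 0, 0]) (sym a) (sym b)) =
      KM (sym ![h 0, h 1, 0, 0, 0]) (sym a) (sym b) 1 1 *
        KM (sym ![h 0, h 1, 0, 0, 0]) (sym a) (sym b) 2 2 -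
      KM (sym ![h 0, h 1, 0, 0, 0]) (sym a) (sym b) 1 2 ^ 2 := by
  simp only [aq, alt, vec, sym, dot, KM, kf, Fin.sum_univ_three, Matrix.mul_apply,
    Matrix.sub_apply, Matrix.add_apply, Matrix.of_apply, Matrix.trace, Matrix.diag_apply,
    Matrix.cons_val]
  ring

theorem id_aa (h : Fin 2 → R) (a b : Fin 5 → R) :
    36 * aq (sym a) (alt (sym ![h 0, h 1, 0, 0, 0]) (sym a) (sym b)) =
      KM (sym ![h 0, h 1, 0, 0, 0]) (sym a) (sym b) 0 0 *
        KM (sym ![h 0, h 1, 0, 0, 0]) (sym a) (sym b) 2 2 -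
      KM (sym ![h 0, h 1, 0, 0, 0]) (sym a) (sym b) 0 2 ^ 2 := by
  simp only [aq, alt, vec, sym, dot, KM, kf, Fin.sum_univ_three, Matrix.mul_apply,
    Matrix.sub_apply, Matrix.add_apply, Matrix.of_apply, Matrix.trace, Matrix.diag_apply,
    Matrix.cons_val]
  ring

theorem id_ha (h : Fin 2 → R) (a b : Fin 5 → R) :
    18 * ap (sym ![h 0, h 1, 0, 0, 0]) (sym a) (alt (sym ![h 0, h 1, 0, 0, 0]) (sym a) (sym b)) =
      KM (sym ![h 0, h 1, 0, 0, 0]) (sym a) (sym b) 0 2 *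
        KM (sym ![h 0, h 1, 0, 0, 0]) (sym a) (sym b) 1 2 -
      KM (sym ![h 0, h 1, 0, 0, 0]) (sym a) (sym b) 0 1 *
        KM (sym ![h 0, h 1, 0, 0, 0]) (sym a) (sym b) 2 2 := by
  simp only [ap, alt, vec, sym, dot, KM, kf, Fin.sum_univ_three, Matrix.mul_apply,
    Matrix.sub_apply, Matrix.add_apply, Matrix.of_apply, Matrix.trace, Matrix.diag_apply,
    Matrix.cons_val]
  ring

theorem id_tri (x : Fin 5 → R) (h : Fin 2 → R) (a b : Fin 5 → R) :
    6 * dv (tri (sym x) (sym ![h 0, h 1, 0, 0, 0]) (sym a))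
        (alt (sym ![h 0, h 1, 0, 0, 0]) (sym a) (sym b)) =
      KM (sym ![h 0, h 1, 0, 0, 0]) (sym a) (sym b) 0 2 * dot (sym x) (sym ![h 0, h 1, 0, 0, 0]) +
        KM (sym ![h 0, h 1, 0, 0, 0]) (sym a) (sym b) 1 2 * dot (sym x) (sym a) +
        KM (sym ![h 0, h 1, 0, 0, 0]) (sym a) (sym b) 2 2 * dot (sym x) (sym b) := by
  simp only [dv, alt, tri, vec, sym, dot, KM, kf, Fin.sum_univ_three, Matrix.mul_apply,
    Matrix.sub_apply, Matrix.add_apply, Matrix.of_apply, Matrix.trace, Matrix.diag_apply,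
    Matrix.cons_val]
  ring

end Pool.Agent.GTE
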