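import Pool.Agent.GTE.Defs

/-!
# GTE: the determinant of the hermitian matrix `x' + tri (z, h, x') / √d`

`id_cub`: if `z · x' = 0`, then `3 ((z · h) ^ 2 det x' + tᵀ x' t) = kf (h ∧ x', h ∧ x') tr (z ^ 2 x')`,
`t = tri (z, h, x')`.
-/

set_option autoImplicit false

noncomputable section

namespace Pool.Agent.GTE

open Matrix

variable {R : Type} [CommRing R]

theorem id_cub (h : Fin 2 → R) (x z : Fin 5 → R) (hq : dot (sym z) (sym x) = 0) :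
    3 * (dot (sym z) (sym ![h 0, h 1, 0, 0, 0]) ^ 2 * (sym x).det +
      tri (sym z) (sym ![h 0, h 1, 0, 0, 0]) (sym x) ⬝ᵥ
        (sym x *ᵥ tri (sym z) (sym ![h 0, h 1, 0, 0, 0]) (sym x))) =
      kf (sym ![h 0, h 1, 0, 0, 0]) (sym x) (sym ![h 0, h 1, 0, 0, 0]) (sym x) *
        trace (sym z * sym z * sym x) := by
  simp only [dot, trace, Matrix.mul_apply, Fin.sum_univ_three, diag_apply, sym, Matrix.of_apply,
    cons_val', cons_val_zero, cons_val_one, cons_val, cons_val_fin_one] at hq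
  simp only [dot, kf, tri, vec, trace, Matrix.mul_apply, Matrix.sub_apply, Matrix.add_apply,
    Fin.sum_univ_three, diag_apply, sym, Matrix.of_apply, cons_val', cons_val_zero, cons_val_one,
    cons_val, cons_val_fin_one, dotProduct, mulVec, Matrix.det_fin_three]
  linear_combination (-6*z 0*x 0*x 1*h 0^2 + -6*z 0*x 0*x 1*h 0*h 1 + -3*z 0*x 0*x 1*h 1^2 +
    -3*z 0*x 1^2*h 0^2 + 12*z 0*x 2^2*h 0*h 1 + 12*z 0*x 4^2*h 0*h 1 + 12*z 0*x 4^2*h 1^2 +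
    -3*z 1*x 0^2*h 1^2 + -3*z 1*x 0*x 1*h 0^2 + -6*z 1*x 0*x 1*h 0*h 1 + -6*z 1*x 0*x 1*h 1^2 +
    12*z 1*x 2^2*h 0*h 1 + 12*z 1*x 3^2*h 0^2 + 12*z 1*x 3^2*h 0*h 1 + 6*z 2*x 0*x 2*h 0*h 1 +
    6*z 2*x 1*x 2*h 0*h 1 + -12*z 2*x 3*x 4*h 0^2 + -24*z 2*x 3*x 4*h 0*h 1 +
    -12*z 2*x 3*x 4*h 1^2 + 6*z 3*x 1*x 3*h 0^2 + 6*z 3*x 1*x 3*h 0*h 1 +
    -12*z 3*x 2*x 4*h 1^2 + 6*z 4*x 0*x 4*h 0*h 1 + 6*z 4*x 0*x 4*h 1^2 +
    -12*z 4*x 2*x 3*h 0^2) * hq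

end Pool.Agent.GTE
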