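import Pool.Agent.GTE.Vec

/-!
# GTE: two hermitian forms on a line of the plane, the ring identities

`u = (p, q)`, `n = p × q`. The symmetric matrix `S0 = p pᵀ - d q qᵀ` kills `n`.
-/

set_option autoImplicit false

noncomputable section

namespace Pool.Agent.GTE

open Matrix

section Ring

variable {R : Type} [CommRing R]

theorem aq_cr (x : Fin 5 → R) (p q : Fin 3 → R) :
    aq (sym x) (cr p q) = qf (sym x) p p * qf (sym x) q q - qf (sym x) p q ^ 2 := by
  simp [aq, cr, qf, sym]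
  ring

theorem ap_cr (x y : Fin 5 → R) (p q : Fin 3 → R) :
    ap (sym x) (sym y) (cr p q) = qf (sym x) p p * qf (sym y) q q +
      qf (sym x) q q * qf (sym y) p p - 2 * (qf (sym x) p q * qf (sym y) p q) := by
  simp [ap, cr, qf, sym]
  ring

theorem herm_eq (d : R) (x : Fin 5 → R) (t : Fin 3 → R) (u : Fin 6 → R) :
    herm d (sym x) t u = qf (sym x) (lo u) (lo u) - d * qf (sym x) (hi u) (hi u) -
      2 * dv t (cr (lo u) (hi u)) := by
  simp [herm, qf, lo, hi, dv, cr, sym]
  ring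

/-- the symmetric matrix `p pᵀ - d q qᵀ` -/
def S0 (d : R) (p q : Fin 3 → R) : Matrix (Fin 3) (Fin 3) R := fun i j => p i * p j - d * (q i * q j)

theorem S0_cr (d : R) (p q : Fin 3 → R) : S0 d p q *ᵥ cr p q = 0 := by
  funext i
  simp only [mulVec, dotProduct, Fin.sum_univ_three, S0, cr, Matrix.cons_val_zero,
    Matrix.cons_val_one, Matrix.cons_val, Pi.zero_apply]
  ring

theorem tr_S0 (d : R) (x : Fin 5 → R) (p q : Fin 3 → R) :
    trace (sym x * S0 d p q) = qf (sym x) p p - d * qf (sym x) q q := by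
  simp [Matrix.trace_fin_three, Matrix.vecMul, dotProduct, Fin.sum_univ_three, S0, qf, sym]
  ring

/-- `jm` is twice the matrix of the form `j`, and `tr (j S) = io / 2` -/
theorem tr_jm_S0 (d : R) (h a : Fin 5 → R) (p q : Fin 3 → R) :
    trace (jm (sym h) (sym a) (cr p q) * S0 d p q) = io (sym h) (sym a) d p q := by
  simp [Matrix.trace_fin_three, Matrix.mul_apply, Fin.sum_univ_three, S0, qf, sym, jm, hn, io, cr]
  ring

theorem adj_S0 (d : R) (p q : Fin 3 → R) (i j : Fin 3) :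
    (S0 d p q).adjugate i j = -d * (cr p q i * cr p q j) := by
  rw [Matrix.adjugate_fin_three]
  fin_cases i <;> fin_cases j <;> simp [S0, cr] <;> ring

/-- the column `i` of `u uᴴ` is `conj(u i) u` -/
theorem col_S0 (d : R) (p q : Fin 3 → R) (i j : Fin 3) :
    S0 d p q j i = p i * p j - d * (q i * q j) ∧
      cr (cr p q) (Pi.single i 1) j = p i * q j - q i * p j := by
  constructor
  · simp only [S0]
    ring
  · fin_cases i <;> fin_cases j <;> simp [cr] <;> ring

end Ring

section Fld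

variable {R : Type} [Field R]

/-- the square of `io` -/
theorem io_sq (d : R) (h a : Fin 5 → R) (t₁ t₂ : Fin 3 → R) (u : Fin 6 → R)
    (h1 : herm d (sym h) t₁ u = 0) (h2 : herm d (sym a) t₂ u = 0) :
    io (sym h) (sym a) d (lo u) (hi u) ^ 2 =
      4 * Dl (sym h) (sym a) d (dv t₁ (cr (lo u) (hi u))) (dv t₂ (cr (lo u) (hi u)))
        (cr (lo u) (hi u)) := by
  rw [herm_eq] at h1 h2
  have e1 : 2 * dv t₁ (cr (lo u) (hi u)) =
      qf (sym h) (lo u) (lo u) - d * qf (sym h) (hi u) (hi u) := by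
    linear_combination -h1
  have e2 : 2 * dv t₂ (cr (lo u) (hi u)) =
      qf (sym a) (lo u) (lo u) - d * qf (sym a) (hi u) (hi u) := by
    linear_combination -h2
  set s₁ := dv t₁ (cr (lo u) (hi u)) with hs₁
  set s₂ := dv t₂ (cr (lo u) (hi u)) with hs₂
  have e3 : 4 * Dl (sym h) (sym a) d s₁ s₂ (cr (lo u) (hi u)) =
      4 * d * (ap (sym h) (sym a) (cr (lo u) (hi u)) ^ 2 -
        4 * (aq (sym h) (cr (lo u) (hi u)) * aq (sym a) (cr (lo u) (hi u)))) -
      4 * (aq (sym a) (cr (lo u) (hi u)) * (2 * s₁) ^ 2 -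
        ap (sym h) (sym a) (cr (lo u) (hi u)) * ((2 * s₁) * (2 * s₂)) +
        aq (sym h) (cr (lo u) (hi u)) * (2 * s₂) ^ 2) := by
    unfold Dl D0
    ring
  rw [e3, e1, e2, aq_cr, aq_cr, ap_cr]
  unfold io
  ring

/-- a column of a matrix of rank one is isotropic -/
theorem col_isot (d : R) (x : Fin 5 → R) (t n : Fin 3 → R) (S : Matrix (Fin 3) (Fin 3) R)
    (hS : Sᵀ = S) (hn : S *ᵥ n = 0) (hadj : ∀ i j, S.adjugate i j = -d * (n i * n j))
    (htr : trace (sym x * S) = 2 * dv t n) (i : Fin 3) :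
    herm d (sym x) t ![S 0 i, S 1 i, S 2 i, cr n (Pi.single i 1) 0, cr n (Pi.single i 1) 1,
      cr n (Pi.single i 1) 2] = 0 := by
  have s10 : S 1 0 = S 0 1 := congrFun (congrFun hS 0) 1
  have s20 : S 2 0 = S 0 2 := congrFun (congrFun hS 0) 2
  have s21 : S 2 1 = S 1 2 := congrFun (congrFun hS 1) 2
  have n0 := congrFun hn 0
  have n1 := congrFun hn 1
  have n2 := congrFun hn 2
  simp only [mulVec, dotProduct, Fin.sum_univ_three, Pi.zero_apply, s10, s20, s21] at n0 n1 n2
  have htr' : x 0 * S 0 0 + x 1 * S 1 1 - (x 0 + x 1) * S 2 2 + 2 * (x 2 * S 0 1) +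
      2 * (x 3 * S 0 2) + 2 * (x 4 * S 1 2) = 2 * dv t n := by
    rw [← htr]
    simp [Matrix.trace_fin_three, Matrix.vecMul, dotProduct, Fin.sum_univ_three, sym, s10, s20,
      s21]
    ring
  unfold dv at htr'
  rw [Matrix.adjugate_fin_three] at hadj
  have a00 := hadj 0 0
  have a01 := hadj 0 1
  have a02 := hadj 0 2
  have a11 := hadj 1 1
  have a12 := hadj 1 2
  have a22 := hadj 2 2
  simp at a00 a01 a02 a11 a12 a22
  rw [s21] at a00
  rw [s21] at a01
  rw [s20] at a11
  rw [s10] at a12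
  rw [s10] at a22
  fin_cases i
  · simp [herm, sym, cr, s10, s20]
    linear_combination (-x 1) * a22 + (x 0 + x 1) * a11 + 2 * x 4 * a12 + S 0 0 * htr' +
      2 * t 0 * n0
  · simp [herm, sym, cr, s21]
    linear_combination (-x 0) * a22 + (x 0 + x 1) * a00 + 2 * x 3 * a02 + S 1 1 * htr' +
      2 * t 1 * n1
  · simp [herm, sym, cr]
    linear_combination (-x 0) * a11 - x 1 * a00 + 2 * x 2 * a01 + S 2 2 * htr' +
      2 * t 2 * n2

end Fld

end Pool.Agent.GTE
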