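import Pool.Agent.GTE.Vec

/-!
# GTE: two hermitian forms on a line of the plane

`u = (p, q)`, `n = p × q`. The symmetric matrix `S = p pᵀ - d q qᵀ` kills `n`, and `S` is
determined by `tr (h S)`, `tr (a S)` and `io`.
-/

set_option autoImplicit false
set_option linter.unusedSimpArgs false

noncomputable section

namespace Pool.Agent.GTE

open Matrix

section Ring

variable {R : Type} [CommRing R]

theorem aq_cr (x : Fin 5 → R) (p q : Fin 3 → R) :
    aq (sym x) (cr p q) = qf (sym x) p p * qf (sym x) q q - qf (sym x) p q ^ 2 := by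
  simp only [aq, ap, qf, herm, io, dv, cr, lo, hi, sym, xn, jm, hn, D0, Fin.sum_univ_three,
    Matrix.mul_apply, Matrix.sub_apply, Matrix.add_apply, Matrix.neg_apply, Matrix.transpose_apply,
    Matrix.of_apply, Matrix.trace, Matrix.diag_apply, Matrix.cons_val]
  ring

theorem ap_cr (x y : Fin 5 → R) (p q : Fin 3 → R) :
    ap (sym x) (sym y) (cr p q) = qf (sym x) p p * qf (sym y) q q +
      qf (sym x) q q * qf (sym y) p p - 2 * (qf (sym x) p q * qf (sym y) p q) := by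
  simp only [aq, ap, qf, herm, io, dv, cr, lo, hi, sym, xn, jm, hn, D0, Fin.sum_univ_three,
    Matrix.mul_apply, Matrix.sub_apply, Matrix.add_apply, Matrix.neg_apply, Matrix.transpose_apply,
    Matrix.of_apply, Matrix.trace, Matrix.diag_apply, Matrix.cons_val]
  ring

theorem herm_eq (d : R) (x : Fin 5 → R) (t : Fin 3 → R) (u : Fin 6 → R) :
    herm d (sym x) t u = qf (sym x) (lo u) (lo u) - d * qf (sym x) (hi u) (hi u) -
      2 * dv t (cr (lo u) (hi u)) := by
  simp only [aq, ap, qf, herm, io, dv, cr, lo, hi, sym, xn, jm, hn, D0, Fin.sum_univ_three,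
    Matrix.mul_apply, Matrix.sub_apply, Matrix.add_apply, Matrix.neg_apply, Matrix.transpose_apply,
    Matrix.of_apply, Matrix.trace, Matrix.diag_apply, Matrix.cons_val]
  ring

/-- the symmetric matrix `p pᵀ - d q qᵀ` -/
def S0 (d : R) (p q : Fin 3 → R) : Matrix (Fin 3) (Fin 3) R := fun i j =>
  p i * p j - d * (q i * q j)

theorem S0_cr (d : R) (p q : Fin 3 → R) : S0 d p q *ᵥ cr p q = 0 := by
  funext i
  fin_cases i <;>
    simp [S0, cr, Matrix.mulVec, dotProduct, Fin.sum_univ_three] <;> ring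

theorem tr_S0 (d : R) (x : Fin 5 → R) (p q : Fin 3 → R) :
    trace (sym x * S0 d p q) = qf (sym x) p p - d * qf (sym x) q q := by
  simp only [aq, ap, qf, herm, io, dv, cr, lo, hi, sym, S0, xn, jm, hn, D0, Fin.sum_univ_three,
    Matrix.mul_apply, Matrix.sub_apply, Matrix.add_apply, Matrix.neg_apply, Matrix.transpose_apply,
    Matrix.of_apply, Matrix.trace, Matrix.diag_apply, Matrix.cons_val]
  ring

/-- `jm` is twice the matrix of the form `j`, and `tr (j S) = io / 2` -/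
theorem tr_jm_S0 (d : R) (h a : Fin 5 → R) (p q : Fin 3 → R) :
    trace (jm (sym h) (sym a) (cr p q) * S0 d p q) = io (sym h) (sym a) d p q := by
  simp only [aq, ap, qf, herm, io, dv, cr, lo, hi, sym, S0, xn, jm, hn, D0, Fin.sum_univ_three,
    Matrix.mul_apply, Matrix.sub_apply, Matrix.add_apply, Matrix.neg_apply, Matrix.transpose_apply,
    Matrix.of_apply, Matrix.trace, Matrix.diag_apply, Matrix.cons_val]
  ring

theorem adj_S0 (d : R) (p q : Fin 3 → R) (i j : Fin 3) :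
    (S0 d p q).adjugate i j = -d * (cr p q i * cr p q j) := by
  fin_cases i <;> fin_cases j <;>
    simp [S0, cr, Matrix.adjugate_fin_three] <;> ring

/-- the column `i` of `u uᴴ` is `conj(u i) u` -/
theorem col_S0 (d : R) (p q : Fin 3 → R) (i j : Fin 3) :
    S0 d p q j i = p i * p j - d * (q i * q j) ∧
      cr (cr p q) (Pi.single i 1) j = p i * q j - q i * p j := by
  constructor
  · simp only [S0]
    ring
  · fin_cases i <;> fin_cases j <;> simp [cr] <;> ring

/-! ### Symmetric matrices which kill `n` -/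

theorem tr_xn (x y : Fin 5 → R) (n : Fin 3 → R) :
    trace (sym y * xn (sym x) n) = ap (sym x) (sym y) n := by
  simp only [aq, ap, qf, herm, io, dv, cr, lo, hi, sym, S0, xn, jm, hn, D0, Fin.sum_univ_three,
    Matrix.mul_apply, Matrix.sub_apply, Matrix.add_apply, Matrix.neg_apply, Matrix.transpose_apply,
    Matrix.of_apply, Matrix.trace, Matrix.diag_apply, Matrix.cons_val]
  ring

theorem tr_xn_self (x : Fin 5 → R) (n : Fin 3 → R) :
    trace (sym x * xn (sym x) n) = 2 * aq (sym x) n := by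
  simp only [aq, ap, qf, herm, io, dv, cr, lo, hi, sym, S0, xn, jm, hn, D0, Fin.sum_univ_three,
    Matrix.mul_apply, Matrix.sub_apply, Matrix.add_apply, Matrix.neg_apply, Matrix.transpose_apply,
    Matrix.of_apply, Matrix.trace, Matrix.diag_apply, Matrix.cons_val]
  ring

theorem tr_xn_jm (h a : Fin 5 → R) (n : Fin 3 → R) :
    trace (sym h * xn (jm (sym h) (sym a) n) n) = 0 ∧
      trace (sym a * xn (jm (sym h) (sym a) n) n) = 0 := by
  constructor
  · simp only [aq, ap, qf, herm, io, dv, cr, lo, hi, sym, S0, xn, jm, hn, D0, Fin.sum_univ_three,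
      Matrix.mul_apply, Matrix.sub_apply, Matrix.add_apply, Matrix.neg_apply,
      Matrix.transpose_apply, Matrix.of_apply, Matrix.trace, Matrix.diag_apply, Matrix.cons_val]
    ring
  · simp only [aq, ap, qf, herm, io, dv, cr, lo, hi, sym, S0, xn, jm, hn, D0, Fin.sum_univ_three,
      Matrix.mul_apply, Matrix.sub_apply, Matrix.add_apply, Matrix.neg_apply,
      Matrix.transpose_apply, Matrix.of_apply, Matrix.trace, Matrix.diag_apply, Matrix.cons_val]
    ring

theorem tr_jm_xn (h a : Fin 5 → R) (n : Fin 3 → R) :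
    trace (jm (sym h) (sym a) n * xn (sym h) n) = 0 ∧
      trace (jm (sym h) (sym a) n * xn (sym a) n) = 0 ∧
      trace (jm (sym h) (sym a) n * xn (jm (sym h) (sym a) n) n) =
        -2 * D0 (sym h) (sym a) n := by
  refine ⟨?_, ?_, ?_⟩
  · simp only [aq, ap, qf, herm, io, dv, cr, lo, hi, sym, S0, xn, jm, hn, D0, Fin.sum_univ_three,
      Matrix.mul_apply, Matrix.sub_apply, Matrix.add_apply, Matrix.neg_apply,
      Matrix.transpose_apply, Matrix.of_apply, Matrix.trace, Matrix.diag_apply, Matrix.cons_val]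
    ring
  · simp only [aq, ap, qf, herm, io, dv, cr, lo, hi, sym, S0, xn, jm, hn, D0, Fin.sum_univ_three,
      Matrix.mul_apply, Matrix.sub_apply, Matrix.add_apply, Matrix.neg_apply,
      Matrix.transpose_apply, Matrix.of_apply, Matrix.trace, Matrix.diag_apply, Matrix.cons_val]
    ring
  · simp only [aq, ap, qf, herm, io, dv, cr, lo, hi, sym, S0, xn, jm, hn, D0, Fin.sum_univ_three,
      Matrix.mul_apply, Matrix.sub_apply, Matrix.add_apply, Matrix.neg_apply,
      Matrix.transpose_apply, Matrix.of_apply, Matrix.trace, Matrix.diag_apply, Matrix.cons_val]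
    ring

end Ring

section Fld

set_option linter.unusedSectionVars false

variable {R : Type} [Field R] [CharZero R]

/-- the square of `io` -/
theorem io_sq (d : R) (h a : Fin 5 → R) (t₁ t₂ : Fin 3 → R) (u : Fin 6 → R)
    (h1 : herm d (sym h) t₁ u = 0) (h2 : herm d (sym a) t₂ u = 0) :
    io (sym h) (sym a) d (lo u) (hi u) ^ 2 =
      4 * Dl (sym h) (sym a) d (dv t₁ (cr (lo u) (hi u))) (dv t₂ (cr (lo u) (hi u)))
        (cr (lo u) (hi u)) := by
  rw [herm_eq] at h1 h2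
  have e1 : dv t₁ (cr (lo u) (hi u)) =
      (qf (sym h) (lo u) (lo u) - d * qf (sym h) (hi u) (hi u)) / 2 := by
    linear_combination (-1 / 2) * h1
  have e2 : dv t₂ (cr (lo u) (hi u)) =
      (qf (sym a) (lo u) (lo u) - d * qf (sym a) (hi u) (hi u)) / 2 := by
    linear_combination (-1 / 2) * h2
  rw [e1, e2]
  simp only [Dl, D0, aq_cr, ap_cr, io]
  ring

/-- the matrix with given traces -/
def SS (h a : Matrix (Fin 3) (Fin 3) R) (n : Fin 3 → R) (x₁ x₂ x₃ : R) :
    Matrix (Fin 3) (Fin 3) R :=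
  -(D0 h a n)⁻¹ • ((2 * aq a n * x₁ - ap h a n * x₂) • xn h n +
    (2 * aq h n * x₂ - ap h a n * x₁) • xn a n + (x₃ / 2) • xn (jm h a n) n)

private theorem sym_tr (v : Fin 5 → R) : (sym v)ᵀ = sym v := by
  ext i j
  fin_cases i <;> fin_cases j <;> rfl

private theorem jm_tr (h a : Matrix (Fin 3) (Fin 3) R) (n : Fin 3 → R) :
    (jm h a n)ᵀ = jm h a n := by
  simp only [jm, transpose_add, transpose_transpose]
  exact add_comm _ _

private theorem ent {x : Matrix (Fin 3) (Fin 3) R} (hx : xᵀ = x) :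
    x 1 0 = x 0 1 ∧ x 2 0 = x 0 2 ∧ x 2 1 = x 1 2 :=
  ⟨congrFun (congrFun hx 0) 1, congrFun (congrFun hx 0) 2, congrFun (congrFun hx 1) 2⟩

/-- the entries of `xn` -/
private theorem xn_ent {x : Matrix (Fin 3) (Fin 3) R} (hx : xᵀ = x) (n : Fin 3 → R) :
    xn x n = !![x 1 1 * n 2 ^ 2 + x 2 2 * n 1 ^ 2 - 2 * x 1 2 * (n 1 * n 2),
      x 1 2 * (n 0 * n 2) + x 0 2 * (n 1 * n 2) - x 0 1 * n 2 ^ 2 - x 2 2 * (n 0 * n 1),
      x 1 2 * (n 0 * n 1) + x 0 1 * (n 1 * n 2) - x 0 2 * n 1 ^ 2 - x 1 1 * (n 0 * n 2);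
      x 1 2 * (n 0 * n 2) + x 0 2 * (n 1 * n 2) - x 0 1 * n 2 ^ 2 - x 2 2 * (n 0 * n 1),
      x 0 0 * n 2 ^ 2 + x 2 2 * n 0 ^ 2 - 2 * x 0 2 * (n 0 * n 2),
      x 0 1 * (n 0 * n 2) + x 0 2 * (n 0 * n 1) - x 0 0 * (n 1 * n 2) - x 1 2 * n 0 ^ 2;
      x 1 2 * (n 0 * n 1) + x 0 1 * (n 1 * n 2) - x 0 2 * n 1 ^ 2 - x 1 1 * (n 0 * n 2),
      x 0 1 * (n 0 * n 2) + x 0 2 * (n 0 * n 1) - x 0 0 * (n 1 * n 2) - x 1 2 * n 0 ^ 2,
      x 0 0 * n 1 ^ 2 + x 1 1 * n 0 ^ 2 - 2 * x 0 1 * (n 0 * n 1)] := by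
  obtain ⟨h1, h2, h3⟩ := ent hx
  ext i j
  fin_cases i <;> fin_cases j <;>
    simp only [xn, Fin.sum_univ_three, Matrix.mul_apply, Matrix.neg_apply, Matrix.of_apply,
      Matrix.cons_val, Fin.zero_eta, Fin.mk_one, Fin.reduceFinMk, h1, h2, h3] <;> ring

private theorem tr_xn_gen {x y : Matrix (Fin 3) (Fin 3) R} (hx : xᵀ = x) (hy : yᵀ = y)
    (n : Fin 3 → R) : trace (y * xn x n) = ap x y n := by
  obtain ⟨h1, h2, h3⟩ := ent hy
  rw [xn_ent hx]
  simp [Matrix.trace, Matrix.mul_apply, Fin.sum_univ_three, ap, h1, h2, h3]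
  ring

private theorem ap_comm (x y : Matrix (Fin 3) (Fin 3) R) (n : Fin 3 → R) :
    ap x y n = ap y x n := by
  simp only [ap]
  ring

private theorem ap_self (x : Matrix (Fin 3) (Fin 3) R) (n : Fin 3 → R) :
    ap x x n = 2 * aq x n := by
  simp only [ap, aq]
  ring

private theorem ap_jm (h a : Fin 5 → R) (n : Fin 3 → R) :
    ap (sym h) (jm (sym h) (sym a) n) n = 0 ∧ ap (sym a) (jm (sym h) (sym a) n) n = 0 ∧
      aq (jm (sym h) (sym a) n) n = -D0 (sym h) (sym a) n := by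
  obtain ⟨e1, e2, e3⟩ := tr_jm_xn h a n
  rw [tr_xn_gen (sym_tr _) (jm_tr _ _ _)] at e1 e2
  rw [tr_xn_gen (jm_tr _ _ _) (jm_tr _ _ _), ap_self] at e3
  refine ⟨e1, e2, ?_⟩
  linear_combination (1 / 2) * e3

private theorem xn_symm {x : Matrix (Fin 3) (Fin 3) R} (hx : xᵀ = x) (n : Fin 3 → R) :
    (xn x n)ᵀ = xn x n := by
  rw [xn_ent hx]
  ext i j
  fin_cases i <;> fin_cases j <;> rfl

private theorem xn_kill {x : Matrix (Fin 3) (Fin 3) R} (hx : xᵀ = x) (n : Fin 3 → R) :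
    xn x n *ᵥ n = 0 := by
  rw [xn_ent hx]
  ext i
  fin_cases i <;> simp [Matrix.mulVec, dotProduct, Fin.sum_univ_three] <;> ring

theorem SS_spec (h a : Fin 5 → R) (n : Fin 3 → R) (x₁ x₂ x₃ : R)
    (hD : D0 (sym h) (sym a) n ≠ 0) :
    (SS (sym h) (sym a) n x₁ x₂ x₃)ᵀ = SS (sym h) (sym a) n x₁ x₂ x₃ ∧
      SS (sym h) (sym a) n x₁ x₂ x₃ *ᵥ n = 0 ∧
      trace (sym h * SS (sym h) (sym a) n x₁ x₂ x₃) = x₁ ∧
      trace (sym a * SS (sym h) (sym a) n x₁ x₂ x₃) = x₂ ∧
      trace (jm (sym h) (sym a) n * SS (sym h) (sym a) n x₁ x₂ x₃) = x₃ := by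
  obtain ⟨e1, e2, e3⟩ := ap_jm h a n
  have hi := mul_inv_cancel₀ hD
  refine ⟨?_, ?_, ?_, ?_, ?_⟩
  · simp only [SS, transpose_smul, transpose_add, xn_symm (sym_tr _), xn_symm (jm_tr _ _ _)]
  · simp only [SS, smul_mulVec, add_mulVec, xn_kill (sym_tr _), xn_kill (jm_tr _ _ _),
      smul_zero, add_zero]
  · simp only [SS, Matrix.mul_smul, mul_add, trace_smul, trace_add, smul_eq_mul,
      tr_xn_gen (sym_tr _) (sym_tr _), tr_xn_gen (jm_tr _ _ _) (sym_tr _), ap_self,
      ap_comm (jm _ _ _), e1, ap_comm (sym a) (sym h)]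
    have e : (2 * aq (sym a) n * x₁ - ap (sym h) (sym a) n * x₂) * (2 * aq (sym h) n) +
        (2 * aq (sym h) n * x₂ - ap (sym h) (sym a) n * x₁) * ap (sym h) (sym a) n =
        -D0 (sym h) (sym a) n * x₁ := by
      simp only [D0]
      ring
    linear_combination (-(D0 (sym h) (sym a) n)⁻¹) * e + x₁ * hi
  · simp only [SS, Matrix.mul_smul, mul_add, trace_smul, trace_add, smul_eq_mul,
      tr_xn_gen (sym_tr _) (sym_tr _), tr_xn_gen (jm_tr _ _ _) (sym_tr _), ap_self,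
      ap_comm (jm _ _ _), e2, ap_comm (sym a) (sym h)]
    have e : (2 * aq (sym a) n * x₁ - ap (sym h) (sym a) n * x₂) * ap (sym h) (sym a) n +
        (2 * aq (sym h) n * x₂ - ap (sym h) (sym a) n * x₁) * (2 * aq (sym a) n) =
        -D0 (sym h) (sym a) n * x₂ := by
      simp only [D0]
      ring
    linear_combination (-(D0 (sym h) (sym a) n)⁻¹) * e + x₂ * hi
  · simp only [SS, Matrix.mul_smul, mul_add, trace_smul, trace_add, smul_eq_mul,
      tr_xn_gen (sym_tr _) (jm_tr _ _ _), tr_xn_gen (jm_tr _ _ _) (jm_tr _ _ _), ap_self,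
      e1, e2, e3]
    linear_combination x₃ * hi

/-- the adjugate of `xn` -/
private theorem adj_xn {x : Matrix (Fin 3) (Fin 3) R} (hx : xᵀ = x) (n : Fin 3 → R)
    (i j : Fin 3) : (xn x n).adjugate i j = aq x n * (n i * n j) := by
  rw [xn_ent hx, adjugate_fin_three]
  fin_cases i <;> fin_cases j <;> simp [aq] <;> ring

private theorem xn_lin (x y z : Matrix (Fin 3) (Fin 3) R) (n : Fin 3 → R) (α β γ : R) :
    α • xn x n + β • xn y n + γ • xn z n = xn (α • x + β • y + γ • z) n := by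
  simp only [xn, mul_add, add_mul, Matrix.mul_smul, Matrix.smul_mul, smul_neg, neg_add]

private theorem aq_lin (x y z : Matrix (Fin 3) (Fin 3) R) (n : Fin 3 → R) (α β γ : R) :
    aq (α • x + β • y + γ • z) n = α ^ 2 * aq x n + β ^ 2 * aq y n + γ ^ 2 * aq z n +
      α * β * ap x y n + α * γ * ap x z n + β * γ * ap y z n := by
  simp only [aq, ap, Matrix.add_apply, Matrix.smul_apply, smul_eq_mul]
  ring

/-- the adjugate: `D0 σ = -(4 a# x₁ ² - 4 ap x₁ x₂ + 4 h# x₂ ² + x₃ ²) / 4` -/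
theorem SS_adj (h a : Fin 5 → R) (n : Fin 3 → R) (x₁ x₂ x₃ : R)
    (hD : D0 (sym h) (sym a) n ≠ 0) (i j : Fin 3) :
    D0 (sym h) (sym a) n * (SS (sym h) (sym a) n x₁ x₂ x₃).adjugate i j =
      -(aq (sym a) n * x₁ ^ 2 - ap (sym h) (sym a) n * (x₁ * x₂) + aq (sym h) n * x₂ ^ 2 +
        x₃ ^ 2 / 4) * (n i * n j) := by
  obtain ⟨e1, e2, e3⟩ := ap_jm h a n
  have key : (2 * aq (sym a) n * x₁ - ap (sym h) (sym a) n * x₂) ^ 2 * aq (sym h) n +
      (2 * aq (sym h) n * x₂ - ap (sym h) (sym a) n * x₁) ^ 2 * aq (sym a) n +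
      (x₃ / 2) ^ 2 * -D0 (sym h) (sym a) n +
      (2 * aq (sym a) n * x₁ - ap (sym h) (sym a) n * x₂) *
        (2 * aq (sym h) n * x₂ - ap (sym h) (sym a) n * x₁) * ap (sym h) (sym a) n +
      (2 * aq (sym a) n * x₁ - ap (sym h) (sym a) n * x₂) * (x₃ / 2) * 0 +
      (2 * aq (sym h) n * x₂ - ap (sym h) (sym a) n * x₁) * (x₃ / 2) * 0 =
      -D0 (sym h) (sym a) n * (aq (sym a) n * x₁ ^ 2 - ap (sym h) (sym a) n * (x₁ * x₂) +
        aq (sym h) n * x₂ ^ 2 + x₃ ^ 2 / 4) := by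
    simp only [D0]
    ring
  rw [SS, xn_lin, adjugate_smul, Matrix.smul_apply, adj_xn, aq_lin, e1, e2, e3, key]
  · simp only [Fintype.card_fin, smul_eq_mul, Nat.add_one_sub_one]
    field_simp
  · simp only [transpose_add, transpose_smul, sym_tr, jm_tr]

private theorem rep {n : Fin 3 → R} (hn : n ≠ 0) {S : Matrix (Fin 3) (Fin 3) R} (hS : Sᵀ = S)
    (hk : S *ᵥ n = 0) : ∃ (p q : Fin 3 → R) (x y z : R), cr p q = n ∧
      ∀ i j, S i j = x * (p i * p j) + y * (p i * q j + q i * p j) + z * (q i * q j) := by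
  obtain ⟨s1, s2, s3⟩ := ent hS
  have k0 := congrFun hk 0
  have k1 := congrFun hk 1
  have k2 := congrFun hk 2
  simp only [Matrix.mulVec, dotProduct, Fin.sum_univ_three, Pi.zero_apply, s1, s2, s3] at k0 k1 k2
  by_cases h0 : n 0 = 0
  · by_cases h1 : n 1 = 0
    · have h2 : n 2 ≠ 0 := by
        intro h2
        apply hn
        funext i
        fin_cases i
        · exact h0
        · exact h1
        · exact h2
      refine ⟨![n 2, 0, -n 0], ![0, 1, -n 1 / n 2], S 0 0 / n 2 ^ 2, S 0 1 / n 2, S 1 1, ?_, ?_⟩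
      · funext i
        fin_cases i <;> simp [cr]
        field_simp
      · intro i j
        fin_cases i <;> fin_cases j <;> simp [s1, s2, s3] <;> field_simp
        · linear_combination k0
        · linear_combination k1
        · linear_combination k0
        · linear_combination k1
        · linear_combination n 2 * k2 - n 0 * k0 - n 1 * k1
    · refine ⟨![0, -n 2, n 1], ![1, -n 0 / n 1, 0], S 2 2 / n 1 ^ 2, S 0 2 / n 1, S 0 0, ?_,
        ?_⟩
      · funext i
        fin_cases i <;> simp [cr]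
        field_simp
      · intro i j
        fin_cases i <;> fin_cases j <;> simp [s1, s2, s3] <;> field_simp
        · linear_combination k0
        · linear_combination k0
        · linear_combination n 1 * k1 - n 0 * k0 - n 2 * k2
        · linear_combination k2
        · linear_combination k2
  · refine ⟨![-n 1, n 0, 0], ![-n 2 / n 0, 0, 1], S 1 1 / n 0 ^ 2, S 1 2 / n 0, S 2 2, ?_, ?_⟩
    · funext i
      fin_cases i <;> simp [cr]
      field_simp
    · intro i j
      fin_cases i <;> fin_cases j <;> simp [s1, s2, s3] <;> field_simp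
      · linear_combination n 0 * k0 - n 1 * k1 - n 2 * k2
      · linear_combination k1
      · linear_combination k2
      · linear_combination k1
      · linear_combination k2

private theorem xn_cr {x : Matrix (Fin 3) (Fin 3) R} (hx : xᵀ = x) (p q : Fin 3 → R)
    (i j : Fin 3) : xn x (cr p q) i j = qf x q q * (p i * p j) -
      qf x p q * (p i * q j + q i * p j) + qf x p p * (q i * q j) := by
  obtain ⟨h1, h2, h3⟩ := ent hx
  rw [xn_ent hx]
  fin_cases i <;> fin_cases j <;> simp [cr, qf, h1, h2, h3] <;> ring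

private theorem tr_rep {x : Matrix (Fin 3) (Fin 3) R} (hx : xᵀ = x) (p q : Fin 3 → R)
    (S : Matrix (Fin 3) (Fin 3) R) (α β γ : R)
    (hS : ∀ i j, S i j = α * (p i * p j) + β * (p i * q j + q i * p j) + γ * (q i * q j)) :
    trace (x * S) = α * qf x p p + 2 * β * qf x p q + γ * qf x q q := by
  obtain ⟨h1, h2, h3⟩ := ent hx
  simp only [Matrix.trace, Matrix.diag, Matrix.mul_apply, Fin.sum_univ_three, hS, qf, h1, h2, h3]
  ring

private theorem qf_jm (h a : Fin 5 → R) (p q : Fin 3 → R) :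
    qf (jm (sym h) (sym a) (cr p q)) p p =
      2 * (qf (sym h) p p * qf (sym a) p q - qf (sym h) p q * qf (sym a) p p) ∧
    qf (jm (sym h) (sym a) (cr p q)) p q =
      qf (sym h) p p * qf (sym a) q q - qf (sym h) q q * qf (sym a) p p ∧
    qf (jm (sym h) (sym a) (cr p q)) q q =
      2 * (qf (sym h) p q * qf (sym a) q q - qf (sym h) q q * qf (sym a) p q) := by
  refine ⟨?_, ?_, ?_⟩ <;>
    simp [qf, jm, hn, sym, cr, Matrix.mul_apply, Fin.sum_univ_three] <;> ring

/-- uniqueness -/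
theorem SS_unique (h a : Fin 5 → R) (n : Fin 3 → R) (hD : D0 (sym h) (sym a) n ≠ 0)
    (S : Matrix (Fin 3) (Fin 3) R) (hS : Sᵀ = S) (hn : S *ᵥ n = 0) :
    S = SS (sym h) (sym a) n (trace (sym h * S)) (trace (sym a * S))
      (trace (jm (sym h) (sym a) n * S)) := by
  have hn0 : n ≠ 0 := by
    rintro rfl
    apply hD
    simp [D0, ap, aq]
  obtain ⟨p, q, x, y, z, rfl, hr⟩ := rep hn0 hS hn
  rw [tr_rep (sym_tr h) p q S x y z hr, tr_rep (sym_tr a) p q S x y z hr,
    tr_rep (jm_tr _ _ _) p q S x y z hr]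
  obtain ⟨j1, j2, j3⟩ := qf_jm h a p q
  ext i j
  simp only [SS, Matrix.smul_apply, Matrix.add_apply, smul_eq_mul, xn_cr (sym_tr _),
    xn_cr (jm_tr _ _ _), j1, j2, j3, hr]
  have hD' := hD
  simp only [D0, aq_cr, ap_cr] at hD' ⊢
  rw [eq_comm, neg_mul, neg_eq_iff_eq_neg, inv_mul_eq_iff_eq_mul₀ hD']
  ring

/-- a column of a matrix of rank one is isotropic -/
theorem col_isot (d : R) (x : Fin 5 → R) (t n : Fin 3 → R) (S : Matrix (Fin 3) (Fin 3) R)
    (hS : Sᵀ = S) (hn : S *ᵥ n = 0) (hadj : ∀ i j, S.adjugate i j = -d * (n i * n j))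
    (htr : trace (sym x * S) = 2 * dv t n) (i : Fin 3) :
    herm d (sym x) t ![S 0 i, S 1 i, S 2 i, cr n (Pi.single i 1) 0, cr n (Pi.single i 1) 1,
      cr n (Pi.single i 1) 2] = 0 := by
  obtain ⟨s1, s2, s3⟩ := ent hS
  have k0 := congrFun hn 0
  have k1 := congrFun hn 1
  have k2 := congrFun hn 2
  simp only [Matrix.mulVec, dotProduct, Fin.sum_univ_three, Pi.zero_apply, s1, s2, s3] at k0 k1 k2
  have m00 := hadj 0 0
  have m01 := hadj 0 1
  have m02 := hadj 0 2
  have m11 := hadj 1 1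
  have m12 := hadj 1 2
  have m22 := hadj 2 2
  rw [adjugate_fin_three] at m00 m01 m02 m11 m12 m22
  simp [s1, s2, s3] at m00 m01 m02 m11 m12 m22
  have htr2 : x 0 * S 0 0 + x 1 * S 1 1 - (x 0 + x 1) * S 2 2 +
      2 * (x 2 * S 0 1 + x 3 * S 0 2 + x 4 * S 1 2) =
      2 * (t 0 * n 0 + t 1 * n 1 + t 2 * n 2) := by
    have e : trace (sym x * S) = x 0 * S 0 0 + x 1 * S 1 1 - (x 0 + x 1) * S 2 2 +
        2 * (x 2 * S 0 1 + x 3 * S 0 2 + x 4 * S 1 2) := by
      have y : sym x 0 0 = x 0 ∧ sym x 0 1 = x 2 ∧ sym x 0 2 = x 3 ∧ sym x 1 0 = x 2 ∧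
          sym x 1 1 = x 1 ∧ sym x 1 2 = x 4 ∧ sym x 2 0 = x 3 ∧ sym x 2 1 = x 4 ∧
          sym x 2 2 = -(x 0 + x 1) := ⟨rfl, rfl, rfl, rfl, rfl, rfl, rfl, rfl, rfl⟩
      obtain ⟨y1, y2, y3, y4, y5, y6, y7, y8, y9⟩ := y
      simp only [Matrix.trace, Matrix.diag, Matrix.mul_apply, Fin.sum_univ_three, y1, y2, y3, y4,
        y5, y6, y7, y8, y9, s1, s2, s3]
      ring
    rw [← e, htr, dv]
  fin_cases i
  · simp [herm, sym, cr, s1, s2, s3]
    linear_combination S 0 0 * htr2 - x 1 * m22 + (x 0 + x 1) * m11 + 2 * x 4 * m12 + 2 * t 0 * k0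
  · simp [herm, sym, cr, s1, s2, s3]
    linear_combination S 1 1 * htr2 - x 0 * m22 + (x 0 + x 1) * m00 + 2 * x 3 * m02 + 2 * t 1 * k1
  · simp [herm, sym, cr, s1, s2, s3]
    linear_combination S 2 2 * htr2 - x 0 * m11 - x 1 * m00 + 2 * x 2 * m01 + 2 * t 2 * k2

end Fld

end Pool.Agent.GTE
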