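import Pool.Agent.GTE.FrIso
import Pool.Agent.GSQ.Adj

/-!
# GTE: a pencil with an isotropic vector

`K ⊂ Ω` fields of characteristic zero, `H` a pencil of two hermitian forms over `K` for `L = K(√d)`
(`IsHer`) with a cubic extension `M` of `K` (`Eig`), `d` not a square in `Ω`. Suppose that the two
forms have a common isotropic vector `e ≠ 0` over `K`.

* `exists_pt`: for an isotropic vector `v ≠ 0` over `Ω` there is an isotropic vector `e` over `K` with
  `Dl e v ≠ 0`.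
-/

set_option autoImplicit false

noncomputable section

namespace Pool.Agent.GTE

open Matrix Pool.Agent.GSH Pool.Agent.GSQ

/-! ### Polynomial functions -/

section Poly

variable {E : Type} [Field E]

/-- polynomial functions -/
def Pl (F : (Fin 6 → E) → E) : Prop :=
  ∃ P : MvPolynomial (Fin 6) E, ∀ w, MvPolynomial.eval w P = F w

theorem Pl.const (c : E) : Pl fun _ : Fin 6 → E => c :=
  ⟨MvPolynomial.C c, fun _ => MvPolynomial.eval_C _⟩

theorem Pl.coord (i : Fin 6) : Pl fun w : Fin 6 → E => w i :=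
  ⟨MvPolynomial.X i, fun _ => MvPolynomial.eval_X _⟩

variable {F G : (Fin 6 → E) → E}

theorem Pl.add (hF : Pl F) (hG : Pl G) : Pl fun w => F w + G w := by
  obtain ⟨P, hP⟩ := hF
  obtain ⟨Q, hQ⟩ := hG
  exact ⟨P + Q, fun w => by rw [map_add, hP, hQ]⟩

theorem Pl.mul (hF : Pl F) (hG : Pl G) : Pl fun w => F w * G w := by
  obtain ⟨P, hP⟩ := hF
  obtain ⟨Q, hQ⟩ := hG
  exact ⟨P * Q, fun w => by rw [map_mul, hP, hQ]⟩

theorem Pl.neg (hF : Pl F) : Pl fun w => -F w := by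
  obtain ⟨P, hP⟩ := hF
  exact ⟨-P, fun w => by rw [map_neg, hP]⟩

theorem Pl.sub (hF : Pl F) (hG : Pl G) : Pl fun w => F w - G w := by
  obtain ⟨P, hP⟩ := hF
  obtain ⟨Q, hQ⟩ := hG
  exact ⟨P - Q, fun w => by rw [map_sub, hP, hQ]⟩

theorem Pl.sum {ι : Type} (s : Finset ι) {F : ι → (Fin 6 → E) → E} (h : ∀ i, Pl (F i)) :
    Pl fun w => ∑ i ∈ s, F i w := by
  choose P hP using h
  exact ⟨∑ i ∈ s, P i, fun w => by rw [map_sum]; exact Finset.sum_congr rfl fun i _ => hP i w⟩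

theorem Pl.dot {g h : (Fin 6 → E) → Fin 6 → E} (hg : ∀ i, Pl fun w => g w i)
    (hh : ∀ i, Pl fun w => h w i) : Pl fun w => g w ⬝ᵥ h w :=
  Pl.sum _ fun i => (hg i).mul (hh i)

theorem Pl.mulVec (M : Matrix (Fin 6) (Fin 6) E) {h : (Fin 6 → E) → Fin 6 → E}
    (hh : ∀ i, Pl fun w => h w i) (i : Fin 6) : Pl fun w => (M *ᵥ h w) i :=
  Pl.dot (fun j => Pl.const (M i j)) hh

theorem Pl.bl {K : Type} [Field K] [Algebra K E] (M : Matrix (Fin 6) (Fin 6) K)
    {g h : (Fin 6 → E) → Fin 6 → E} (hg : ∀ i, Pl fun w => g w i)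
    (hh : ∀ i, Pl fun w => h w i) : Pl fun w => GSH.bl M (g w) (h w) :=
  Pl.dot hg (Pl.mulVec _ hh)

/-- a polynomial function which is not zero is not zero at a vector over `K` -/
theorem Pl.exists_K {K : Type} [Field K] [Infinite K] [Algebra K E] (hF : Pl F)
    (h : ∃ w, F w ≠ 0) : ∃ w : Fin 6 → K, F (vK w) ≠ 0 := by
  obtain ⟨P, hP⟩ := hF
  obtain ⟨w, hw⟩ := h
  by_contra hc
  push Not at hc
  apply hw
  rw [← hP]
  refine poly_zero (m := (0 : Fin 2 → Fin 6 → K)) (fun z _ => by rw [hP]; exact hc z)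
    fun j => ?_
  have h1 : (vK ((0 : Fin 2 → Fin 6 → K) j) : Fin 6 → E) = 0 := by
    funext i
    simp [vK]
  rw [h1, dotProduct_zero]

end Poly

/-! ### Isotropic vectors -/

variable {K : Type} [Field K] {Ω : Type} [Field Ω] [Algebra K Ω] (H : Pen K)

/-- the determinant -/
def Dl (x y : Fin 6 → Ω) : Ω :=
  bl (pol H 0) x y * bl (pol H 1) (mK H.S *ᵥ x) y -
    bl (pol H 1) x y * bl (pol H 0) (mK H.S *ᵥ x) y

variable {H}

theorem bl_comm (j : Fin 2) (x y : Fin 6 → Ω) : bl (pol H j) x y = bl (pol H j) y x := by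
  have h2 : (mK (pol H j) : Matrix (Fin 6) (Fin 6) Ω)ᵀ = mK (pol H j) :=
    congrArg (fun A => mK (Ω := Ω) A) (pol_symm H j)
  unfold bl
  rw [dotProduct_mulVec, ← mulVec_transpose, h2, dotProduct_comm]

theorem bl_S (hH : IsHer H) (j : Fin 2) (x y : Fin 6 → Ω) :
    bl (pol H j) (mK H.S *ᵥ x) y = -bl (pol H j) x (mK H.S *ᵥ y) := by
  have h1 : bl (H.Sᵀ * pol H j + pol H j * H.S) x y = 0 := by
    rw [hH.her, bl_zero_mat]
  rw [bl_add_mat] at h1
  rw [bl_left, bl_right]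
  linear_combination h1

theorem bl_SS (hH : IsHer H) (j : Fin 2) (x y : Fin 6 → Ω) :
    bl (pol H j) (mK H.S *ᵥ x) (mK H.S *ᵥ y) = -(algebraMap K Ω H.d * bl (pol H j) x y) := by
  rw [bl_S hH, mK_sq hH.sq, bl_smul_right]

theorem bl_self [NeZero (2 : Ω)] (hH : IsHer H) (j : Fin 2) (x : Fin 6 → Ω) :
    bl (pol H j) (mK H.S *ᵥ x) x = 0 := by
  have h1 := bl_S hH j x x
  rw [bl_comm j x] at h1
  apply mul_left_cancel₀ (two_ne_zero (α := Ω))
  linear_combination h1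

/-- the form at a combination -/
theorem bl_comb [NeZero (2 : Ω)] (hH : IsHer H) {j : Fin 2} {e : Fin 6 → Ω}
    (he : bl (pol H j) e e = 0) (α β γ : Ω) (w : Fin 6 → Ω) :
    bl (pol H j) (α • w + (β • e + γ • (mK H.S *ᵥ e))) (α • w + (β • e + γ • (mK H.S *ᵥ e))) =
      α ^ 2 * bl (pol H j) w w + 2 * (α * β) * bl (pol H j) e w +
        2 * (α * γ) * bl (pol H j) (mK H.S *ᵥ e) w := by
  have h1 := bl_self hH j e
  have h2 := bl_SS hH j e e
  have h3 : bl (pol H j) w e = bl (pol H j) e w := bl_comm j w e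
  have h4 : bl (pol H j) w (mK H.S *ᵥ e) = bl (pol H j) (mK H.S *ᵥ e) w := bl_comm j _ _
  have h5 : bl (pol H j) e (mK H.S *ᵥ e) = bl (pol H j) (mK H.S *ᵥ e) e := bl_comm j _ _
  simp only [bl_add_left, bl_add_right, bl_smul_left, bl_smul_right, h3, h4, h5, h1, h2, he]
  ring

/-- the isotropic vector on the lines through `e` and `w` -/
def gv (H : Pen K) (e w : Fin 6 → Ω) : Fin 6 → Ω :=
  (2 * Dl H e w) • w +
    ((-(bl (pol H 0) w w * bl (pol H 1) (mK H.S *ᵥ e) w -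
        bl (pol H 1) w w * bl (pol H 0) (mK H.S *ᵥ e) w)) • e +
      (-(bl (pol H 0) e w * bl (pol H 1) w w - bl (pol H 1) e w * bl (pol H 0) w w)) •
        (mK H.S *ᵥ e))

theorem gv_iso [NeZero (2 : Ω)] (hH : IsHer H) {e : Fin 6 → Ω}
    (he : ∀ j, bl (pol H j) e e = 0) (w : Fin 6 → Ω) (j : Fin 2) :
    bl (pol H j) (gv H e w) (gv H e w) = 0 := by
  unfold gv
  rw [bl_comb hH (he j)]
  unfold Dl
  revert j
  rw [Fin.forall_fin_two]
  constructor <;> ring

theorem gv_of_iso {e w : Fin 6 → Ω} (hw : ∀ j, bl (pol H j) w w = 0) :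
    gv H e w = (2 * Dl H e w) • w := by
  unfold gv
  rw [hw 0, hw 1]
  simp

theorem Dl_smul_left (c : Ω) (x y : Fin 6 → Ω) : Dl H (c • x) y = c ^ 2 * Dl H x y := by
  unfold Dl
  simp only [mulVec_smul, bl_smul_left]
  ring

theorem Dl_comm (hH : IsHer H) (x y : Fin 6 → Ω) : Dl H x y = -Dl H y x := by
  unfold Dl
  rw [bl_comm 0 x y, bl_comm 1 x y, bl_S hH 1 x y, bl_S hH 0 x y, bl_comm 1 x, bl_comm 0 x]
  ring

theorem bl_vK (M : Matrix (Fin 6) (Fin 6) K) (x y : Fin 6 → K) :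
    (bl M (vK x) (vK y) : Ω) = algebraMap K Ω (bl M x y) :=
  map_bl (Algebra.ofId K Ω) M x y

theorem mulVec_vK (M : Matrix (Fin 6) (Fin 6) K) (x : Fin 6 → K) :
    (mK M *ᵥ vK x : Fin 6 → Ω) = vK (mK M *ᵥ x) := by
  funext i
  exact map_mulVec (Algebra.ofId K Ω) M x i

theorem gv_vK (e w : Fin 6 → K) : (gv H (vK e) (vK w) : Fin 6 → Ω) = vK (gv H e w) := by
  unfold gv Dl
  rw [mulVec_vK]
  simp only [bl_vK]
  funext i
  simp only [vK, Pi.add_apply, Pi.smul_apply, smul_eq_mul, map_add, map_sub, map_mul, map_neg,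
    map_ofNat]

section Exists

variable [CharZero K] {M : Type} [Field M] [Algebra K M]

/-- a vector over `Ω` is no eigenvector of `S` -/
theorem zpm_ne (hH : IsHer H) (hd : NSq Ω H.d) {E : Type} [Field E]
    [Algebra K E] [Algebra Ω E] [IsScalarTower K Ω E] [NeZero (2 : E)] (f : Frame E)
    (hS : f.S = mK H.S) {δ : E} (hδ : δ ^ 2 = f.d) (hfd : f.d = algebraMap K E H.d)
    {v : Fin 6 → Ω} (hv : v ≠ 0) {vE : Fin 6 → E} (hvE : vE = fun i => algebraMap Ω E (v i)) :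
    zp f δ vE ≠ 0 ∧ zm f δ vE ≠ 0 := by
  obtain ⟨l, hl⟩ : ∃ l, v l ≠ 0 := by
    by_contra h
    push Not at h
    exact hv (funext h)
  have hSv : ∀ l, (f.S *ᵥ vE) l = algebraMap Ω E ((mK H.S *ᵥ v) l) := by
    intro l
    rw [hS, hvE]
    exact map_mulVec (IsScalarTower.toAlgHom K Ω E) H.S v l
  -- an eigenvalue would be in `Ω`
  have key : ∀ ε : E, ε ^ 2 = f.d → f.S *ᵥ vE ≠ ε • vE := by
    intro ε hε h1
    have h2 := congrFun h1 l
    rw [hSv, Pi.smul_apply, smul_eq_mul, hvE] at h2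
    apply hd ((mK H.S *ᵥ v) l / v l)
    apply (algebraMap Ω E).injective
    have h3 : algebraMap Ω E (v l) ≠ 0 := (map_ne_zero _).2 hl
    rw [map_pow, map_div₀, h2, mul_div_assoc, div_self h3, mul_one, hε, hfd,
      IsScalarTower.algebraMap_apply K Ω E]
  have hco := f.coord vE
  have hSco : f.S *ᵥ vE = ∑ i, ((f.d * f.cb vE i) • f.v i + f.ca vE i • (f.S *ᵥ f.v i)) := by
    have h1 := f.coord (f.S *ᵥ vE)
    simp only [f.ca_S, f.cb_S] at h1
    exact h1
  constructor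
  · intro h
    apply key (-δ) (by rw [neg_sq, hδ])
    rw [hSco]
    conv_rhs => rw [hco]
    rw [Finset.smul_sum]
    refine Finset.sum_congr rfl fun i _ => ?_
    have h1 : f.ca vE i = -(f.cb vE i * δ) := by
      have h2 := congrFun h i
      rw [zp, Pi.zero_apply] at h2
      linear_combination h2
    rw [smul_add, smul_smul, smul_smul, h1, ← hδ]
    congr 2 <;> ring
  · intro h
    apply key δ hδ
    rw [hSco]
    conv_rhs => rw [hco]
    rw [Finset.smul_sum]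
    refine Finset.sum_congr rfl fun i _ => ?_
    have h1 : f.ca vE i = f.cb vE i * δ := by
      have h2 := congrFun h i
      rw [zm, Pi.zero_apply] at h2
      linear_combination h2
    rw [smul_add, smul_smul, smul_smul, h1, ← hδ]
    congr 2 <;> ring

/-- **An isotropic vector over `K` in general position to an isotropic vector over `Ω`.** -/
theorem exists_pt (hH : IsHer H) (hd : NSq Ω H.d) (hM : Module.finrank K M = 3) (Eg : Eig H M)
    {e : Fin 6 → K} (he0 : e ≠ 0) (he : ∀ j, bl (pol H j) e e = 0) {v : Fin 6 → Ω}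
    (hv0 : v ≠ 0) (hv : ∀ j, bl (pol H j) v v = 0) :
    ∃ e' : Fin 6 → K, (∀ j, bl (pol H j) e' e' = 0) ∧ Dl H (vK e') v ≠ 0 := by
  set E := AlgebraicClosure Ω with hE
  have h2K : NeZero (2 : K) := ⟨two_ne_zero⟩
  have h2E : NeZero (2 : E) := neZero_two K E
  have hinf : Infinite K := inferInstance
  have hinfE : Infinite E := Infinite.of_injective _ (algebraMap K E).injective
  have hd0 : H.d ≠ 0 := fun h => by
    apply hd 0
    rw [h, map_zero]
    ring
  obtain ⟨s, hs⟩ := exists_s (K := K) (M := M) (Ω := E) hM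
  set f := frame hH hd0 Eg hs with hf
  obtain ⟨δ, hδ⟩ := IsAlgClosed.exists_pow_nat_eq f.d zero_lt_two
  set vE : Fin 6 → E := fun i => algebraMap Ω E (v i) with hvE
  have hblE : ∀ (A : Matrix (Fin 6) (Fin 6) K) (x y : Fin 6 → Ω),
      bl A (fun i => algebraMap Ω E (x i)) (fun i => algebraMap Ω E (y i)) =
        algebraMap Ω E (bl A x y) := fun A x y => map_bl (IsScalarTower.toAlgHom K Ω E) A x y
  have heΩ : ∀ j, bl (pol H j) (vK e : Fin 6 → E) (vK e) = 0 := fun j => by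
    rw [bl_vK, he, map_zero]
  have hvE0 : ∀ j, bl (pol H j) vE vE = 0 := fun j => by
    rw [hvE, hblE, hv, map_zero]
  have he0Ω : (vK e : Fin 6 → Ω) ≠ 0 := by
    intro h
    apply he0
    funext i
    exact (map_eq_zero _).1 (congrFun h i)
  have heE : (vK e : Fin 6 → E) = fun i => algebraMap Ω E ((vK e : Fin 6 → Ω) i) := by
    funext i
    exact IsScalarTower.algebraMap_apply K Ω E _
  obtain ⟨h1, h2⟩ := zpm_ne hH hd f rfl hδ rfl he0Ω heE
  obtain ⟨h3, h4⟩ := zpm_ne hH hd f rfl hδ rfl hv0 hvE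
  obtain ⟨w, hw0, hw1, hw2, hw3⟩ := exists_iso f hδ (x := vK e) (y := vE) (heΩ 0) (heΩ 1) h1 h2
    (hvE0 0) (hvE0 1) h3 h4
  have hw : ∀ j, bl (pol H j) w w = 0 := Fin.forall_fin_two.2 ⟨hw0, hw1⟩
  have hew : Dl H (vK e) w ≠ 0 := hw2
  have hvw : Dl H vE w ≠ 0 := hw3
  -- the polynomial
  have hPl : Pl fun w : Fin 6 → E => Dl H (gv H (vK e) w) vE := by
    have hid : ∀ i, Pl fun w : Fin 6 → E => w i := Pl.coord
    have hc : ∀ (x : Fin 6 → E) i, Pl fun _ : Fin 6 → E => x i := fun x i => Pl.const _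
    have hD : Pl fun w : Fin 6 → E => Dl H (vK e) w :=
      ((Pl.bl _ (hc _) hid).mul (Pl.bl _ (hc _) hid)).sub
        ((Pl.bl _ (hc _) hid).mul (Pl.bl _ (hc _) hid))
    have hg : ∀ i, Pl fun w : Fin 6 → E => gv H (vK e) w i := by
      intro i
      have hq : ∀ j, Pl fun w : Fin 6 → E => bl (pol H j) w w := fun j => Pl.bl _ hid hid
      have h5 : ∀ j, Pl fun w : Fin 6 → E => bl (pol H j) (vK e) w :=
        fun j => Pl.bl _ (hc _) hid
      have h6 : ∀ j, Pl fun w : Fin 6 → E => bl (pol H j) (mK H.S *ᵥ vK e) w :=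
        fun j => Pl.bl _ (hc _) hid
      exact (((Pl.const 2).mul hD).mul (hid i)).add
        (((((hq 0).mul (h6 1)).sub ((hq 1).mul (h6 0))).neg.mul (Pl.const _)).add
          ((((h5 0).mul (hq 1)).sub ((h5 1).mul (hq 0))).neg.mul (Pl.const _)))
    have hSg : ∀ i, Pl fun w : Fin 6 → E => (mK H.S *ᵥ gv H (vK e) w) i := Pl.mulVec _ hg
    exact ((Pl.bl _ hg (hc _)).mul (Pl.bl _ hSg (hc _))).sub
      ((Pl.bl _ hg (hc _)).mul (Pl.bl _ hSg (hc _)))
  obtain ⟨w', hw'⟩ := hPl.exists_K (K := K) ⟨w, by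
    change Dl H (gv H (vK e) w) vE ≠ 0
    rw [gv_of_iso hw, Dl_smul_left]
    refine mul_ne_zero (pow_ne_zero 2 (mul_ne_zero two_ne_zero hew)) ?_
    rw [Dl_comm hH]
    exact neg_ne_zero.2 hvw⟩
  refine ⟨gv H e w', fun j => gv_iso hH he w' j, fun h => hw' ?_⟩
  change Dl H (gv H (vK e) (vK w')) vE = 0
  rw [gv_vK]
  have h7 : (vK (gv H e w') : Fin 6 → E) =
      fun i => algebraMap Ω E ((vK (gv H e w') : Fin 6 → Ω) i) := by
    funext i
    exact IsScalarTower.algebraMap_apply K Ω E _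
  have h8 : (mK H.S *ᵥ (vK (gv H e w') : Fin 6 → E)) =
      fun i => algebraMap Ω E ((mK H.S *ᵥ (vK (gv H e w') : Fin 6 → Ω)) i) := by
    funext i
    rw [h7]
    exact map_mulVec (IsScalarTower.toAlgHom K Ω E) H.S _ i
  have h9 : Dl H (vK (gv H e w') : Fin 6 → E) vE =
      algebraMap Ω E (Dl H (vK (gv H e w') : Fin 6 → Ω) v) := by
    unfold Dl
    rw [h8, h7, hvE]
    simp only [hblE, map_sub, map_mul]
  rw [h9, h, map_zero]

end Exists

end Pool.Agent.GTE
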