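import Pool.Agent.GTE.Alg
import Pool.Agent.GTE.Line2

/-!
# GTE: from the first pencil to the second one

`Ω` is a field over `ℂ`, `c : Fin 2 → Ω`, and `u` is an isotropic vector of the pencil of the datum
with the parameters `c`. The vector `n = p × q`, `u = (p, q)`, is a combination
`β 0 n 0 + β 1 n 1 + β 2 n 2` of the vectors `n j = alt (h, a, f j)`, and `b = (β 1 / β 0, β 2 / β 0)`,
`τ = 9 io / (β 0 ^ 2 K 2 2)` is a point of the fourfold.
Conversely a point `(c, b, τ)` gives an isotropic vector of the exchanged datum with the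
parameters `b`.
-/

set_option autoImplicit false
set_option linter.unusedSimpArgs false
set_option linter.unusedVariables false
set_option linter.unusedSectionVars false

noncomputable section

namespace Pool.Agent.GTE

open Matrix

variable {Ω : Type} [Field Ω] [CharZero Ω]

/-- multiplication of `p + √d q` by `α + β √d` -/
def mulL (d α β : Ω) (u : Fin 6 → Ω) : Fin 6 → Ω :=
  ![α * u 0 + β * (d * u 3), α * u 1 + β * (d * u 4), α * u 2 + β * (d * u 5),
    α * u 3 + β * u 0, α * u 4 + β * u 1, α * u 5 + β * u 2]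

/-- an isotropic vector of the datum with the parameters `c` -/
def EDat.IsoV (E : EDat Ω) (c : Fin 2 → Ω) (m g : Fin 5 → Ω) (u : Fin 6 → Ω) : Prop :=
  ∀ j, E.Q c m g j u = 0

omit [CharZero Ω] in
private theorem alt_lin (h a : Fin 5 → Ω) (f : Fin 3 → Fin 5 → Ω) (b : Fin 2 → Ω) (i : Fin 3) :
    alt (sym h) (sym a) (sym fun k => f 0 k + b 0 * f 1 k + b 1 * f 2 k) i =
      alt (sym h) (sym a) (sym (f 0)) i + b 0 * alt (sym h) (sym a) (sym (f 1)) i +
        b 1 * alt (sym h) (sym a) (sym (f 2)) i := by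
  fin_cases i <;>
    simp only [alt, vec, sym, Fin.zero_eta, Fin.mk_one, Fin.reduceFinMk, Fin.sum_univ_three,
      Matrix.mul_apply, Matrix.sub_apply, Matrix.add_apply, Matrix.of_apply,
      Matrix.cons_val', Matrix.cons_val_zero, Matrix.cons_val_one, Matrix.cons_val_fin_one,
      Matrix.cons_val] <;> ring

omit [CharZero Ω] in
private theorem aq_smul (x : Matrix (Fin 3) (Fin 3) Ω) (r : Ω) (n : Fin 3 → Ω) :
    aq x (fun i => r * n i) = r ^ 2 * aq x n := by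
  simp only [aq]
  ring

omit [CharZero Ω] in
private theorem ap_smul (x y : Matrix (Fin 3) (Fin 3) Ω) (r : Ω) (n : Fin 3 → Ω) :
    ap x y (fun i => r * n i) = r ^ 2 * ap x y n := by
  simp only [ap]
  ring

omit [CharZero Ω] in
private theorem dv_smul (t : Fin 3 → Ω) (r : Ω) (n : Fin 3 → Ω) :
    dv t (fun i => r * n i) = r * dv t n := by
  simp only [dv]
  ring

omit [CharZero Ω] in
private theorem Dl_smul (h a : Matrix (Fin 3) (Fin 3) Ω) (d r s₁ s₂ : Ω) (n : Fin 3 → Ω) :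
    Dl h a d (r * s₁) (r * s₂) (fun i => r * n i) = r ^ 4 * Dl h a d s₁ s₂ n := by
  simp only [Dl, D0, aq_smul, ap_smul]
  ring

omit [CharZero Ω] in
private theorem tr_jm_smul (h a S : Matrix (Fin 3) (Fin 3) Ω) (r : Ω) (n : Fin 3 → Ω) :
    trace (jm h a (fun i => r * n i) * S) = r * trace (jm h a n * S) := by
  simp only [jm, hn, Fin.sum_univ_three, Matrix.mul_apply, Matrix.add_apply,
    Matrix.transpose_apply, Matrix.of_apply, Matrix.trace, Matrix.diag_apply, Matrix.cons_val',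
    Matrix.cons_val_zero, Matrix.cons_val_one, Matrix.cons_val_fin_one, Matrix.cons_val]
  ring

omit [CharZero Ω] in
private theorem sym_symm (x : Fin 5 → Ω) : (sym x)ᵀ = sym x := by
  ext i j
  fin_cases i <;> fin_cases j <;> rfl

/-- `alt` is additive and homogeneous in the last variable: the vector of `b` -/
theorem alt_b (E : EDat Ω) (c b : Fin 2 → Ω) (i : Fin 3) :
    alt E.hM (E.aM c) (E.bM b) i = alt E.hM (E.aM c) (E.fM 0) i +
      b 0 * alt E.hM (E.aM c) (E.fM 1) i + b 1 * alt E.hM (E.aM c) (E.fM 2) i :=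
  alt_lin ![E.h 0, E.h 1, 0, 0, 0] (fun k => E.e 0 k + c 0 * E.e 1 k + c 1 * E.e 2 k) E.f b i

private theorem n_eq (E : EDat Ω) (c : Fin 2 → Ω) {u : Fin 6 → Ω} {β : Fin 3 → Ω}
    (hβ : ∀ i, cr (lo u) (hi u) i = ∑ j, β j * alt E.hM (E.aM c) (E.fM j) i) (hβ0 : β 0 ≠ 0) :
    cr (lo u) (hi u) =
      fun i => β 0 * alt E.hM (E.aM c) (E.bM ![β 1 / β 0, β 2 / β 0]) i := by
  funext i
  rw [hβ i, alt_b, Fin.sum_univ_three]
  simp only [Matrix.cons_val_zero, Matrix.cons_val_one]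
  field_simp

/-- the change of `p × q` and of `io` under multiplication by an element of `L` -/
theorem cr_mulL (d α β : Ω) (u : Fin 6 → Ω) (i : Fin 3) :
    cr (lo (mulL d α β u)) (hi (mulL d α β u)) i =
      (α ^ 2 - d * β ^ 2) * cr (lo u) (hi u) i := by
  fin_cases i <;>
    simp only [cr, lo, hi, mulL, Fin.zero_eta, Fin.mk_one, Fin.reduceFinMk,
      Matrix.cons_val_zero, Matrix.cons_val_one, Matrix.cons_val_fin_one, Matrix.cons_val] <;> ring

theorem io_mulL (h a : Matrix (Fin 3) (Fin 3) Ω) (hs : hᵀ = h) (as : aᵀ = a) (d α β : Ω)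
    (u : Fin 6 → Ω) : io h a d (lo (mulL d α β u)) (hi (mulL d α β u)) =
      (α ^ 2 - d * β ^ 2) ^ 2 * io h a d (lo u) (hi u) := by
  have h10 : h 1 0 = h 0 1 := congrFun (congrFun hs 0) 1
  have h20 : h 2 0 = h 0 2 := congrFun (congrFun hs 0) 2
  have h21 : h 2 1 = h 1 2 := congrFun (congrFun hs 1) 2
  have a10 : a 1 0 = a 0 1 := congrFun (congrFun as 0) 1
  have a20 : a 2 0 = a 0 2 := congrFun (congrFun as 0) 2
  have a21 : a 2 1 = a 1 2 := congrFun (congrFun as 1) 2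
  simp only [io, qf, lo, hi, mulL, h10, h20, h21, a10, a20, a21,
    Matrix.cons_val_zero, Matrix.cons_val_one, Matrix.cons_val_fin_one, Matrix.cons_val]
  ring

/-- **(P)** the point of the fourfold -/
theorem pt_of_iso (E : EDat Ω) {c : Fin 2 → Ω} {m g : Fin 5 → Ω} (hs : E.Sol c m g)
    {u : Fin 6 → Ω} (hu : E.IsoV c m g u) {β : Fin 3 → Ω}
    (hβ : ∀ i, cr (lo u) (hi u) i = ∑ j, β j * alt E.hM (E.aM c) (E.fM j) i) (hβ0 : β 0 ≠ 0)
    (hK : kf E.hM (E.aM c) E.hM (E.aM c) ≠ 0) :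
    E.IsT c ![β 1 / β 0, β 2 / β 0] (9 * io E.hM (E.aM c) (E.d c) (lo u) (hi u) /
      (β 0 ^ 2 * kf E.hM (E.aM c) E.hM (E.aM c))) := by
  have h0 := hu 0
  have h1 := hu 1
  have hsq : io E.hM (E.aM c) (E.d c) (lo u) (hi u) ^ 2 =
      4 * Dl E.hM (E.aM c) (E.d c) (dv (tri (sym m) E.hM (E.aM c)) (cr (lo u) (hi u)))
        (dv (tri (sym g) E.hM (E.aM c)) (cr (lo u) (hi u))) (cr (lo u) (hi u)) :=
    io_sq (E.d c) ![E.h 0, E.h 1, 0, 0, 0] (fun k => E.e 0 k + c 0 * E.e 1 k + c 1 * E.e 2 k)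
      (tri (sym m) E.hM (E.aM c)) (tri (sym g) E.hM (E.aM c)) u h0 h1
  rw [n_eq E c hβ hβ0, dv_smul, dv_smul, Dl_smul] at hsq
  have hDl := Dl_eq E c ![β 1 / β 0, β 2 / β 0] m g hs
  have hk : KM E.hM (E.aM c) (E.bM ![β 1 / β 0, β 2 / β 0]) 2 2 =
      kf E.hM (E.aM c) E.hM (E.aM c) := rfl
  rw [hk] at hDl
  unfold EDat.IsT
  generalize Dl E.hM (E.aM c) (E.d c) _ _ _ = D at hsq hDl
  generalize (E.DM c ![β 1 / β 0, β 2 / β 0]).det = T at hDl ⊢
  generalize kf E.hM (E.aM c) E.hM (E.aM c) = k at hDl hK ⊢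
  generalize io E.hM (E.aM c) (E.d c) (lo u) (hi u) = I at hsq ⊢
  rw [div_pow, div_eq_iff (pow_ne_zero 2 (mul_ne_zero (pow_ne_zero 2 hβ0) hK))]
  linear_combination 81 * hsq + β 0 ^ 4 * hDl

/-- the column `i` of the hermitian matrix of rank one which belongs to `(c, b, τ)` -/
def EDat.col (E : EDat Ω) (c b : Fin 2 → Ω) (m g : Fin 5 → Ω) (τ : Ω) (i : Fin 3) : Fin 6 → Ω :=
  let n := alt E.hM (E.aM c) (E.bM b)
  let S := SS E.hM (E.aM c) n (2 * dv (tri (sym m) E.hM (E.aM c)) n)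
    (2 * dv (tri (sym g) E.hM (E.aM c)) n) (τ * kf E.hM (E.aM c) E.hM (E.aM c) / 9)
  ![S 0 i, S 1 i, S 2 i, cr n (Pi.single i 1) 0, cr n (Pi.single i 1) 1, cr n (Pi.single i 1) 2]

private def SE (E : EDat Ω) (c b : Fin 2 → Ω) (m g : Fin 5 → Ω) (τ : Ω) :
    Matrix (Fin 3) (Fin 3) Ω :=
  SS E.hM (E.aM c) (alt E.hM (E.aM c) (E.bM b))
    (2 * dv (tri (sym m) E.hM (E.aM c)) (alt E.hM (E.aM c) (E.bM b)))
    (2 * dv (tri (sym g) E.hM (E.aM c)) (alt E.hM (E.aM c) (E.bM b)))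
    (τ * kf E.hM (E.aM c) E.hM (E.aM c) / 9)

private theorem spec (E : EDat Ω) {c : Fin 2 → Ω} (b : Fin 2 → Ω) (m g : Fin 5 → Ω) (τ : Ω)
    (hD : D0 E.hM (E.aM c) (alt E.hM (E.aM c) (E.bM b)) ≠ 0) :
    (SE E c b m g τ)ᵀ = SE E c b m g τ ∧
      SE E c b m g τ *ᵥ alt E.hM (E.aM c) (E.bM b) = 0 ∧
      trace (E.hM * SE E c b m g τ) =
        2 * dv (tri (sym m) E.hM (E.aM c)) (alt E.hM (E.aM c) (E.bM b)) ∧
      trace (E.aM c * SE E c b m g τ) =
        2 * dv (tri (sym g) E.hM (E.aM c)) (alt E.hM (E.aM c) (E.bM b)) ∧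
      trace (jm E.hM (E.aM c) (alt E.hM (E.aM c) (E.bM b)) * SE E c b m g τ) =
        τ * kf E.hM (E.aM c) E.hM (E.aM c) / 9 :=
  SS_spec ![E.h 0, E.h 1, 0, 0, 0] (fun k => E.e 0 k + c 0 * E.e 1 k + c 1 * E.e 2 k) _ _ _ _ hD

private theorem adj_eq (E : EDat Ω) {c b : Fin 2 → Ω} {m g : Fin 5 → Ω} (hs : E.Sol c m g)
    {τ : Ω} (hτ : E.IsT c b τ) (hD : D0 E.hM (E.aM c) (alt E.hM (E.aM c) (E.bM b)) ≠ 0)
    (i j : Fin 3) : (SE E c b m g τ).adjugate i j =
      -E.d c * (alt E.hM (E.aM c) (E.bM b) i * alt E.hM (E.aM c) (E.bM b) j) := by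
  have h1 : D0 E.hM (E.aM c) (alt E.hM (E.aM c) (E.bM b)) * (SE E c b m g τ).adjugate i j = _ :=
    SS_adj ![E.h 0, E.h 1, 0, 0, 0] (fun k => E.e 0 k + c 0 * E.e 1 k + c 1 * E.e 2 k) _ _ _ _ hD
      i j
  have hDl := Dl_eq E c b m g hs
  have hk : KM E.hM (E.aM c) (E.bM b) 2 2 = kf E.hM (E.aM c) E.hM (E.aM c) := rfl
  rw [hk] at hDl
  unfold EDat.IsT at hτ
  apply mul_left_cancel₀ hD
  rw [h1]
  have e1 : sym ![E.h 0, E.h 1, 0, 0, 0] = E.hM := rfl
  have e2 : (sym fun k => E.e 0 k + c 0 * E.e 1 k + c 1 * E.e 2 k) = E.aM c := rfl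
  rw [e1, e2]
  unfold Dl at hDl
  generalize aq E.hM (alt E.hM (E.aM c) (E.bM b)) = x at *
  generalize aq (E.aM c) (alt E.hM (E.aM c) (E.bM b)) = y at *
  generalize ap E.hM (E.aM c) (alt E.hM (E.aM c) (E.bM b)) = z at *
  generalize D0 E.hM (E.aM c) (alt E.hM (E.aM c) (E.bM b)) = D at *
  generalize dv (tri (sym m) E.hM (E.aM c)) (alt E.hM (E.aM c) (E.bM b)) = s at *
  generalize dv (tri (sym g) E.hM (E.aM c)) (alt E.hM (E.aM c) (E.bM b)) = t at *
  generalize kf E.hM (E.aM c) E.hM (E.aM c) = k at *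
  generalize (E.DM c b).det = T at *
  generalize alt E.hM (E.aM c) (E.bM b) = n at *
  linear_combination (n i * n j / 324) * hDl - (n i * n j * k ^ 2 / 324) * hτ

/-- **(Q)** the column is isotropic -/
theorem col_iso (E : EDat Ω) {c b : Fin 2 → Ω} {m g : Fin 5 → Ω} (hs : E.Sol c m g) {τ : Ω}
    (hτ : E.IsT c b τ) (hD : D0 E.hM (E.aM c) (alt E.hM (E.aM c) (E.bM b)) ≠ 0) (i : Fin 3) :
    E.IsoV c m g (E.col c b m g τ i) := by
  obtain ⟨h1, h2, h3, h4, h5⟩ := spec E b m g τ hD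
  have h6 := adj_eq E hs hτ hD
  intro j
  fin_cases j
  · exact col_isot (E.d c) ![E.h 0, E.h 1, 0, 0, 0] (tri (sym m) E.hM (E.aM c))
      (alt E.hM (E.aM c) (E.bM b)) _ h1 h2 h6 h3 i
  · exact col_isot (E.d c) (fun k => E.e 0 k + c 0 * E.e 1 k + c 1 * E.e 2 k)
      (tri (sym g) E.hM (E.aM c)) (alt E.hM (E.aM c) (E.bM b)) _ h1 h2 h6 h4 i

/-- an isotropic vector is proportional over `L` to the columns -/
theorem iso_eq_col (E : EDat Ω) {c : Fin 2 → Ω} {m g : Fin 5 → Ω} (hs : E.Sol c m g)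
    {u : Fin 6 → Ω} (hu : E.IsoV c m g u) {β : Fin 3 → Ω}
    (hβ : ∀ i, cr (lo u) (hi u) i = ∑ j, β j * alt E.hM (E.aM c) (E.fM j) i) (hβ0 : β 0 ≠ 0)
    (hK : kf E.hM (E.aM c) E.hM (E.aM c) ≠ 0)
    (hD : D0 E.hM (E.aM c) (alt E.hM (E.aM c) (E.bM ![β 1 / β 0, β 2 / β 0])) ≠ 0) (i : Fin 3) :
    β 0 • E.col c ![β 1 / β 0, β 2 / β 0] m g (9 * io E.hM (E.aM c) (E.d c) (lo u) (hi u) /
      (β 0 ^ 2 * kf E.hM (E.aM c) E.hM (E.aM c))) i = mulL (E.d c) (lo u i) (-hi u i) u := by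
  have hn := n_eq E c hβ hβ0
  have key : S0 (E.d c) (lo u) (hi u) = β 0 • SE E c ![β 1 / β 0, β 2 / β 0] m g
      (9 * io E.hM (E.aM c) (E.d c) (lo u) (hi u) /
        (β 0 ^ 2 * kf E.hM (E.aM c) E.hM (E.aM c))) := by
    have hS : ((β 0)⁻¹ • S0 (E.d c) (lo u) (hi u))ᵀ = (β 0)⁻¹ • S0 (E.d c) (lo u) (hi u) := by
      ext i j
      simp only [Matrix.transpose_apply, Matrix.smul_apply, S0, smul_eq_mul]
      ring
    have hz : ((β 0)⁻¹ • S0 (E.d c) (lo u) (hi u)) *ᵥ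
        alt E.hM (E.aM c) (E.bM ![β 1 / β 0, β 2 / β 0]) = 0 := by
      have h1 := S0_cr (E.d c) (lo u) (hi u)
      rw [hn] at h1
      have h2 : (fun i => β 0 * alt E.hM (E.aM c) (E.bM ![β 1 / β 0, β 2 / β 0]) i) =
          β 0 • alt E.hM (E.aM c) (E.bM ![β 1 / β 0, β 2 / β 0]) := rfl
      rw [h2, Matrix.mulVec_smul, smul_eq_zero] at h1
      rw [Matrix.smul_mulVec, (h1.resolve_left hβ0), smul_zero]
    have hU := SS_unique ![E.h 0, E.h 1, 0, 0, 0]
      (fun k => E.e 0 k + c 0 * E.e 1 k + c 1 * E.e 2 k) _ hD _ hS hz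
    have e1 : sym ![E.h 0, E.h 1, 0, 0, 0] = E.hM := rfl
    have e2 : (sym fun k => E.e 0 k + c 0 * E.e 1 k + c 1 * E.e 2 k) = E.aM c := rfl
    rw [e1, e2] at hU
    have t1 : trace (E.hM * (β 0)⁻¹ • S0 (E.d c) (lo u) (hi u)) = 2 *
        dv (tri (sym m) E.hM (E.aM c)) (alt E.hM (E.aM c) (E.bM ![β 1 / β 0, β 2 / β 0])) := by
      have h1 : trace (E.hM * S0 (E.d c) (lo u) (hi u)) = _ :=
        tr_S0 (E.d c) ![E.h 0, E.h 1, 0, 0, 0] (lo u) (hi u)
      have h2 : herm (E.d c) E.hM (tri (sym m) E.hM (E.aM c)) u = _ :=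
        herm_eq (E.d c) ![E.h 0, E.h 1, 0, 0, 0] (tri (sym m) E.hM (E.aM c)) u
      have h3 : herm (E.d c) E.hM (tri (sym m) E.hM (E.aM c)) u = 0 := hu 0
      rw [h3, hn, dv_smul] at h2
      rw [Matrix.mul_smul, Matrix.trace_smul, h1, smul_eq_mul, inv_mul_eq_iff_eq_mul₀ hβ0]
      linear_combination -h2
    have t2 : trace (E.aM c * (β 0)⁻¹ • S0 (E.d c) (lo u) (hi u)) = 2 *
        dv (tri (sym g) E.hM (E.aM c)) (alt E.hM (E.aM c) (E.bM ![β 1 / β 0, β 2 / β 0])) := by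
      have h1 : trace (E.aM c * S0 (E.d c) (lo u) (hi u)) = _ :=
        tr_S0 (E.d c) (fun k => E.e 0 k + c 0 * E.e 1 k + c 1 * E.e 2 k) (lo u) (hi u)
      have h2 : herm (E.d c) (E.aM c) (tri (sym g) E.hM (E.aM c)) u = _ :=
        herm_eq (E.d c) (fun k => E.e 0 k + c 0 * E.e 1 k + c 1 * E.e 2 k)
          (tri (sym g) E.hM (E.aM c)) u
      have h3 : herm (E.d c) (E.aM c) (tri (sym g) E.hM (E.aM c)) u = 0 := hu 1
      rw [h3, hn, dv_smul] at h2
      rw [Matrix.mul_smul, Matrix.trace_smul, h1, smul_eq_mul, inv_mul_eq_iff_eq_mul₀ hβ0]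
      linear_combination -h2
    have t3 : trace (jm E.hM (E.aM c) (alt E.hM (E.aM c) (E.bM ![β 1 / β 0, β 2 / β 0])) *
        (β 0)⁻¹ • S0 (E.d c) (lo u) (hi u)) =
        9 * io E.hM (E.aM c) (E.d c) (lo u) (hi u) /
          (β 0 ^ 2 * kf E.hM (E.aM c) E.hM (E.aM c)) * kf E.hM (E.aM c) E.hM (E.aM c) / 9 := by
      have h1 : trace (jm E.hM (E.aM c) (cr (lo u) (hi u)) * S0 (E.d c) (lo u) (hi u)) =
          io E.hM (E.aM c) (E.d c) (lo u) (hi u) :=
        tr_jm_S0 (E.d c) ![E.h 0, E.h 1, 0, 0, 0]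
          (fun k => E.e 0 k + c 0 * E.e 1 k + c 1 * E.e 2 k) (lo u) (hi u)
      rw [hn, tr_jm_smul] at h1
      rw [Matrix.mul_smul, Matrix.trace_smul, smul_eq_mul, ← h1]
      field_simp
    rw [t1, t2, t3] at hU
    have h4 : (β 0)⁻¹ • S0 (E.d c) (lo u) (hi u) = SE E c ![β 1 / β 0, β 2 / β 0] m g
      (9 * io E.hM (E.aM c) (E.d c) (lo u) (hi u) /
        (β 0 ^ 2 * kf E.hM (E.aM c) E.hM (E.aM c))) := hU
    rw [← h4, smul_smul, mul_inv_cancel₀ hβ0, one_smul]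
  have hc : ∀ j, β 0 * cr (alt E.hM (E.aM c) (E.bM ![β 1 / β 0, β 2 / β 0])) (Pi.single i 1) j =
      lo u i * hi u j - hi u i * lo u j := by
    intro j
    rw [← (col_S0 (E.d c) (lo u) (hi u) i j).2, hn]
    fin_cases j <;> simp only [cr, Fin.zero_eta, Fin.mk_one, Fin.reduceFinMk,
      Matrix.cons_val_zero, Matrix.cons_val_one, Matrix.cons_val_fin_one, Matrix.cons_val] <;> ring
  have hr : ∀ j, β 0 * SE E c ![β 1 / β 0, β 2 / β 0] m g
      (9 * io E.hM (E.aM c) (E.d c) (lo u) (hi u) /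
        (β 0 ^ 2 * kf E.hM (E.aM c) E.hM (E.aM c))) j i =
      lo u i * lo u j - E.d c * (hi u i * hi u j) := by
    intro j
    rw [← (col_S0 (E.d c) (lo u) (hi u) i j).1, key]
    rfl
  have l0 : lo u 0 = u 0 := rfl
  have l1 : lo u 1 = u 1 := rfl
  have l2 : lo u 2 = u 2 := rfl
  have r0 : hi u 0 = u 3 := rfl
  have r1 : hi u 1 = u 4 := rfl
  have r2 : hi u 2 = u 5 := rfl
  funext j
  fin_cases j
  · refine (hr 0).trans ?_
    rw [l0, r0]
    simp only [mulL, Fin.zero_eta, Matrix.cons_val_zero]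
    ring
  · refine (hr 1).trans ?_
    rw [l1, r1]
    simp only [mulL, Fin.mk_one, Matrix.cons_val_one, Matrix.cons_val_zero]
    ring
  · refine (hr 2).trans ?_
    rw [l2, r2]
    simp only [mulL, Fin.reduceFinMk, Matrix.cons_val]
    ring
  · refine (hc 0).trans ?_
    rw [l0, r0]
    simp only [mulL, Fin.reduceFinMk, Matrix.cons_val]
    ring
  · refine (hc 1).trans ?_
    rw [l1, r1]
    simp only [mulL, Fin.reduceFinMk, Matrix.cons_val]
    ring
  · refine (hc 2).trans ?_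
    rw [l2, r2]
    simp only [mulL, Fin.reduceFinMk, Matrix.cons_val]
    ring

omit [CharZero Ω] in
private theorem cr_col_aux (S : Matrix (Fin 3) (Fin 3) Ω) (n : Fin 3 → Ω) (hS : Sᵀ = S)
    (hn : S *ᵥ n = 0) (i : Fin 3) :
    cr ![S 0 i, S 1 i, S 2 i] ![cr n (Pi.single i 1) 0, cr n (Pi.single i 1) 1,
      cr n (Pi.single i 1) 2] = fun j => S i i * n j := by
  have h10 : S 1 0 = S 0 1 := congrFun (congrFun hS 0) 1
  have h20 : S 2 0 = S 0 2 := congrFun (congrFun hS 0) 2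
  have h21 : S 2 1 = S 1 2 := congrFun (congrFun hS 1) 2
  have e0 := congrFun hn 0
  have e1 := congrFun hn 1
  have e2 := congrFun hn 2
  simp only [Matrix.mulVec, dotProduct, Fin.sum_univ_three, Pi.zero_apply, h10, h20, h21]
    at e0 e1 e2
  funext j
  fin_cases i <;> fin_cases j <;>
    simp only [cr, Fin.zero_eta, Fin.mk_one, Fin.reduceFinMk, Matrix.cons_val_zero,
      Matrix.cons_val_one, Matrix.cons_val_fin_one, Matrix.cons_val, h10, h20, h21,
      Pi.single_eq_same, Pi.single_apply, Fin.isValue, Fin.reduceEq, if_true, if_false] <;>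
    first
      | ring1
      | linear_combination e0
      | linear_combination e1
      | linear_combination e2
      | linear_combination -e0
      | linear_combination -e1
      | linear_combination -e2

omit [CharZero Ω] in
private theorem S0_col_aux (d : Ω) (S : Matrix (Fin 3) (Fin 3) Ω) (n : Fin 3 → Ω) (hS : Sᵀ = S)
    (hadj : ∀ i j, S.adjugate i j = -d * (n i * n j)) (i : Fin 3) :
    S0 d ![S 0 i, S 1 i, S 2 i] ![cr n (Pi.single i 1) 0, cr n (Pi.single i 1) 1,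
      cr n (Pi.single i 1) 2] = S i i • S := by
  have h10 : S 1 0 = S 0 1 := congrFun (congrFun hS 0) 1
  have h20 : S 2 0 = S 0 2 := congrFun (congrFun hS 0) 2
  have h21 : S 2 1 = S 1 2 := congrFun (congrFun hS 1) 2
  have a00 := hadj 0 0
  have a01 := hadj 0 1
  have a02 := hadj 0 2
  have a11 := hadj 1 1
  have a12 := hadj 1 2
  have a22 := hadj 2 2
  rw [Matrix.adjugate_fin_three] at a00 a01 a02 a11 a12 a22
  simp only [Matrix.of_apply, Matrix.cons_val', Matrix.cons_val_zero, Matrix.cons_val_one,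
    Matrix.cons_val_fin_one, Matrix.cons_val, h10, h20, h21] at a00 a01 a02 a11 a12 a22
  ext j k
  fin_cases i <;> fin_cases j <;> fin_cases k <;>
    simp only [S0, cr, Fin.zero_eta, Fin.mk_one, Fin.reduceFinMk, Matrix.cons_val_zero,
      Matrix.cons_val_one, Matrix.cons_val_fin_one, Matrix.cons_val, h10, h20, h21,
      Matrix.smul_apply, smul_eq_mul,
      Pi.single_eq_same, Pi.single_apply, Fin.isValue, Fin.reduceEq, if_true, if_false] <;>
    first
      | ring1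
      | linear_combination a00
      | linear_combination a01
      | linear_combination a02
      | linear_combination a11
      | linear_combination a12
      | linear_combination a22
      | linear_combination -a00
      | linear_combination -a01
      | linear_combination -a02
      | linear_combination -a11
      | linear_combination -a12
      | linear_combination -a22

omit [CharZero Ω] in
private theorem col_ii (E : EDat Ω) (c b : Fin 2 → Ω) (m g : Fin 5 → Ω) (τ : Ω) (i : Fin 3) :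
    E.col c b m g τ i (Fin.castLE (by norm_num) i) = SE E c b m g τ i i := by
  fin_cases i <;> rfl

/-- `p × q` and `io` for a column -/
theorem cr_col (E : EDat Ω) {c b : Fin 2 → Ω} {m g : Fin 5 → Ω} (hs : E.Sol c m g) {τ : Ω}
    (hτ : E.IsT c b τ) (hD : D0 E.hM (E.aM c) (alt E.hM (E.aM c) (E.bM b)) ≠ 0) (i j : Fin 3) :
    cr (lo (E.col c b m g τ i)) (hi (E.col c b m g τ i)) j =
      E.col c b m g τ i (Fin.castLE (by norm_num) i) * alt E.hM (E.aM c) (E.bM b) j := by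
  obtain ⟨h1, h2, -, -, -⟩ := spec E b m g τ hD
  rw [col_ii]
  exact congrFun (cr_col_aux _ _ h1 h2 i) j

theorem io_col (E : EDat Ω) {c b : Fin 2 → Ω} {m g : Fin 5 → Ω} (hs : E.Sol c m g) {τ : Ω}
    (hτ : E.IsT c b τ) (hD : D0 E.hM (E.aM c) (alt E.hM (E.aM c) (E.bM b)) ≠ 0) (i : Fin 3) :
    9 * io E.hM (E.aM c) (E.d c) (lo (E.col c b m g τ i)) (hi (E.col c b m g τ i)) =
      E.col c b m g τ i (Fin.castLE (by norm_num) i) ^ 2 *
        (kf E.hM (E.aM c) E.hM (E.aM c) * τ) := by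
  obtain ⟨h1, h2, -, -, h5⟩ := spec E b m g τ hD
  have h6 := adj_eq E hs hτ hD
  have h7 : trace (jm E.hM (E.aM c) (cr (lo (E.col c b m g τ i)) (hi (E.col c b m g τ i))) *
      S0 (E.d c) (lo (E.col c b m g τ i)) (hi (E.col c b m g τ i))) =
      io E.hM (E.aM c) (E.d c) (lo (E.col c b m g τ i)) (hi (E.col c b m g τ i)) :=
    tr_jm_S0 (E.d c) ![E.h 0, E.h 1, 0, 0, 0]
      (fun k => E.e 0 k + c 0 * E.e 1 k + c 1 * E.e 2 k) _ _
  have h8 : S0 (E.d c) (lo (E.col c b m g τ i)) (hi (E.col c b m g τ i)) =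
      SE E c b m g τ i i • SE E c b m g τ := S0_col_aux (E.d c) _ _ h1 h6 i
  have h9 : cr (lo (E.col c b m g τ i)) (hi (E.col c b m g τ i)) =
      fun j => SE E c b m g τ i i * alt E.hM (E.aM c) (E.bM b) j := cr_col_aux _ _ h1 h2 i
  rw [h8, h9, tr_jm_smul, Matrix.mul_smul, Matrix.trace_smul, h5, smul_eq_mul] at h7
  rw [← h7, col_ii]
  ring

end Pool.Agent.GTE
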