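import Pool.Agent.GTE.Deg
import Pool.Agent.GTE.Line2

/-!
# GTE: an isotropic vector with a non-zero discriminant

`u = (p, q)` is a common zero of two hermitian forms `herm d h t`, `herm d a s` over a field `T`, and
`n = p × q`. If `D0 h a n` is not zero, then `u` is proportional over `L = T(√d)` to a vector over the
field generated over `T` by the ratios of the coordinates of `n` and by `io / n_i ^ 2`.
-/

set_option autoImplicit false

noncomputable section

namespace Pool.Agent.GTE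

open Matrix

section

variable {k Ω : Type} [Field k] [Field Ω] [Algebra k Ω]

/-- the entries are in `T` -/
def Mm (T : IntermediateField k Ω) (A : Matrix (Fin 3) (Fin 3) Ω) : Prop := ∀ i j, A i j ∈ T

variable {T : IntermediateField k Ω}

theorem Mm.mul {A B : Matrix (Fin 3) (Fin 3) Ω} (hA : Mm T A) (hB : Mm T B) : Mm T (A * B) :=
  fun i j => by
    rw [Matrix.mul_apply]
    exact sum_mem fun k _ => mul_mem (hA i k) (hB k j)

theorem Mm.add {A B : Matrix (Fin 3) (Fin 3) Ω} (hA : Mm T A) (hB : Mm T B) : Mm T (A + B) :=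
  fun i j => add_mem (hA i j) (hB i j)

theorem Mm.neg {A : Matrix (Fin 3) (Fin 3) Ω} (hA : Mm T A) : Mm T (-A) :=
  fun i j => neg_mem (hA i j)

theorem Mm.smul {A : Matrix (Fin 3) (Fin 3) Ω} {x : Ω} (hx : x ∈ T) (hA : Mm T A) :
    Mm T (x • A) := fun i j => mul_mem hx (hA i j)

theorem Mm.tr {A : Matrix (Fin 3) (Fin 3) Ω} (hA : Mm T A) : Mm T Aᵀ := fun i j => hA j i

theorem Mm.crm {n : Fin 3 → Ω} (hn : ∀ i, n i ∈ T) :
    Mm T !![0, n 2, -n 1; -n 2, 0, n 0; n 1, -n 0, 0] := by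
  intro i j
  fin_cases i <;> fin_cases j <;> first
    | exact zero_mem T
    | exact hn _
    | exact neg_mem (hn _)

theorem Mm.crm' {n : Fin 3 → Ω} (hn : ∀ i, n i ∈ T) :
    Mm T !![0, -n 2, n 1; n 2, 0, -n 0; -n 1, n 0, 0] := by
  intro i j
  fin_cases i <;> fin_cases j <;> first
    | exact zero_mem T
    | exact hn _
    | exact neg_mem (hn _)

theorem two_memT : (2 : Ω) ∈ T := by exact_mod_cast natCast_mem T 2

theorem four_memT : (4 : Ω) ∈ T := by exact_mod_cast natCast_mem T 4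

theorem aq_mm {x : Matrix (Fin 3) (Fin 3) Ω} {n : Fin 3 → Ω} (hx : Mm T x)
    (hn : ∀ i, n i ∈ T) : aq x n ∈ T := by
  unfold aq
  have h2 : (2 : Ω) ∈ T := two_memT
  have hp : ∀ {y : Ω} {m : ℕ}, y ∈ T → y ^ m ∈ T := fun h => pow_mem h _
  refine add_mem (add_mem (add_mem (add_mem (add_mem ?_ ?_) ?_) ?_) ?_) ?_
  · exact mul_mem (sub_mem (mul_mem (hx _ _) (hx _ _)) (hp (hx _ _))) (hp (hn _))
  · exact mul_mem (sub_mem (mul_mem (hx _ _) (hx _ _)) (hp (hx _ _))) (hp (hn _))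
  · exact mul_mem (sub_mem (mul_mem (hx _ _) (hx _ _)) (hp (hx _ _))) (hp (hn _))
  · exact mul_mem (mul_mem h2 (sub_mem (mul_mem (hx _ _) (hx _ _)) (mul_mem (hx _ _) (hx _ _))))
      (mul_mem (hn _) (hn _))
  · exact mul_mem (mul_mem h2 (sub_mem (mul_mem (hx _ _) (hx _ _)) (mul_mem (hx _ _) (hx _ _))))
      (mul_mem (hn _) (hn _))
  · exact mul_mem (mul_mem h2 (sub_mem (mul_mem (hx _ _) (hx _ _)) (mul_mem (hx _ _) (hx _ _))))
      (mul_mem (hn _) (hn _))

theorem ap_mm {x y : Matrix (Fin 3) (Fin 3) Ω} {n : Fin 3 → Ω} (hx : Mm T x) (hy : Mm T y)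
    (hn : ∀ i, n i ∈ T) : ap x y n ∈ T := by
  unfold ap
  have h2 : (2 : Ω) ∈ T := two_memT
  have hp : ∀ {y : Ω} {m : ℕ}, y ∈ T → y ^ m ∈ T := fun h => pow_mem h _
  have hxy : ∀ i j i' j', x i j * y i' j' ∈ T := fun i j i' j' => mul_mem (hx _ _) (hy _ _)
  have hyx : ∀ i j i' j', y i j * x i' j' ∈ T := fun i j i' j' => mul_mem (hy _ _) (hx _ _)
  refine add_mem (add_mem (add_mem (add_mem (add_mem ?_ ?_) ?_) ?_) ?_) ?_
  · exact mul_mem (sub_mem (add_mem (hxy _ _ _ _) (hyx _ _ _ _)) (mul_mem h2 (hxy _ _ _ _)))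
      (hp (hn _))
  · exact mul_mem (sub_mem (add_mem (hxy _ _ _ _) (hyx _ _ _ _)) (mul_mem h2 (hxy _ _ _ _)))
      (hp (hn _))
  · exact mul_mem (sub_mem (add_mem (hxy _ _ _ _) (hyx _ _ _ _)) (mul_mem h2 (hxy _ _ _ _)))
      (hp (hn _))
  · exact mul_mem (mul_mem h2 (sub_mem (sub_mem (add_mem (hxy _ _ _ _) (hyx _ _ _ _))
      (hxy _ _ _ _)) (hyx _ _ _ _))) (mul_mem (hn _) (hn _))
  · exact mul_mem (mul_mem h2 (sub_mem (sub_mem (add_mem (hxy _ _ _ _) (hyx _ _ _ _))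
      (hxy _ _ _ _)) (hyx _ _ _ _))) (mul_mem (hn _) (hn _))
  · exact mul_mem (mul_mem h2 (sub_mem (sub_mem (add_mem (hxy _ _ _ _) (hyx _ _ _ _))
      (hxy _ _ _ _)) (hyx _ _ _ _))) (mul_mem (hn _) (hn _))

theorem Mm.xn {x : Matrix (Fin 3) (Fin 3) Ω} {n : Fin 3 → Ω} (hx : Mm T x)
    (hn : ∀ i, n i ∈ T) : Mm T (xn x n) :=
  (((Mm.crm' hn).mul hx).mul (Mm.crm' hn)).neg

theorem Mm.jm {x y : Matrix (Fin 3) (Fin 3) Ω} {n : Fin 3 → Ω} (hx : Mm T x) (hy : Mm T y)
    (hn : ∀ i, n i ∈ T) : Mm T (jm x y n) :=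
  ((hx.tr.mul (Mm.crm hn)).mul hy).add ((hx.tr.mul (Mm.crm hn)).mul hy).tr

theorem Mm.SS {x y : Matrix (Fin 3) (Fin 3) Ω} {n : Fin 3 → Ω} (hx : Mm T x) (hy : Mm T y)
    (hn : ∀ i, n i ∈ T) {x₁ x₂ x₃ : Ω} (h1 : x₁ ∈ T) (h2 : x₂ ∈ T) (h3 : x₃ ∈ T) :
    Mm T (SS x y n x₁ x₂ x₃) := by
  have h2' : (2 : Ω) ∈ T := two_memT
  have h4' : (4 : Ω) ∈ T := four_memT
  have hp := ap_mm hx hy hn
  have hq1 := aq_mm hx hn
  have hq2 := aq_mm hy hn
  unfold GTE.SS D0
  refine Mm.smul (neg_mem (inv_mem (sub_mem (pow_mem hp 2) (mul_mem h4' (mul_mem hq1 hq2))))) ?_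
  refine ((Mm.smul ?_ (hx.xn hn)).add (Mm.smul ?_ (hy.xn hn))).add (Mm.smul ?_ ((hx.jm hy hn).xn hn))
  · exact sub_mem (mul_mem (mul_mem h2' hq2) h1) (mul_mem hp h2)
  · exact sub_mem (mul_mem (mul_mem h2' hq1) h2) (mul_mem hp h1)
  · exact div_mem h3 h2'

end

theorem jm_smul' {R : Type} [CommRing R] (h a : Matrix (Fin 3) (Fin 3) R) (x : R) (n : Fin 3 → R) :
    jm h a (fun i => x * n i) = x • jm h a n := by
  ext i j
  fin_cases i <;> fin_cases j <;>
    simp [jm, hn, Matrix.mul_apply, Fin.sum_univ_three] <;> ring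

variable {k Ω : Type} [Field k] [Field Ω] [CharZero Ω] [Algebra k Ω]

/-- **Non-zero discriminant.** -/
theorem rat_D0 (T : IntermediateField k Ω) {d : Ω} (hd : ∀ f : Ω, f ^ 2 ≠ d)
    {h a : Fin 5 → Ω} (hh : ∀ i, h i ∈ T) (ha : ∀ i, a i ∈ T) {t s : Fin 3 → Ω}
    (ht : ∀ i, t i ∈ T) (hs : ∀ i, s i ∈ T) {u : Fin 6 → Ω} (e1 : herm d (sym h) t u = 0)
    (e2 : herm d (sym a) s u = 0) {ν : Ω} (hν : ν ≠ 0) {n : Fin 3 → Ω} (hn : ∀ i, n i ∈ T)
    (hcr : ∀ i, cr (lo u) (hi u) i = ν * n i)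
    (hio : io (sym h) (sym a) d (lo u) (hi u) / ν ^ 2 ∈ T)
    (hD : D0 (sym h) (sym a) n ≠ 0) :
    ∃ (v : Fin 6 → Ω) (α β : Ω), (∀ i, v i ∈ T) ∧ u = ml d α β v := by
  have hu0 : ∃ i : Fin 3, lo u i ≠ 0 ∨ hi u i ≠ 0 := by
    by_contra hcon
    push Not at hcon
    apply hD
    have h1 : ∀ i, n i = 0 := by
      intro i
      have h2 := hcr i
      have h3 : lo u = 0 := funext fun i => (hcon i).1
      rw [h3] at h2
      have h4 : cr (0 : Fin 3 → Ω) (hi u) i = 0 := by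
        fin_cases i <;> simp [cr]
      rw [h4] at h2
      exact (mul_eq_zero.1 h2.symm).resolve_left hν
    simp [D0, ap, aq, h1]
  obtain ⟨i, hi0⟩ := hu0
  set p := lo u with hp
  set q := hi u with hq
  set N : Ω := p i ^ 2 - d * q i ^ 2 with hN
  have hN0 : N ≠ 0 := by
    intro h0
    by_cases h1 : q i = 0
    · rw [hN, h1] at h0
      have h2 : p i ^ 2 = 0 := by linear_combination h0
      rcases hi0 with h3 | h3
      · exact h3 (pow_eq_zero_iff (two_ne_zero) |>.1 h2)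
      · exact h3 h1
    · apply hd (p i / q i)
      field_simp
      linear_combination h0
  have hcr' : cr p q = fun i => ν * n i := funext hcr
  -- the matrix `S0 / ν`
  set S : Matrix (Fin 3) (Fin 3) Ω := ν⁻¹ • S0 d p q with hS
  have hSt : Sᵀ = S := by
    ext i j
    simp only [hS, S0, Matrix.transpose_apply, Matrix.smul_apply, smul_eq_mul]
    ring
  have hSn : S *ᵥ n = 0 := by
    have h1 := S0_cr d p q
    rw [hcr'] at h1
    have h2 : (fun i => ν * n i) = ν • n := rfl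
    rw [h2, mulVec_smul] at h1
    have h3 := (smul_eq_zero.1 h1).resolve_left hν
    rw [hS, smul_mulVec, h3, smul_zero]
  have hx1 : trace (sym h * S) = 2 * dv t n := by
    rw [hS, Matrix.mul_smul, trace_smul, tr_S0, smul_eq_mul]
    rw [herm_eq] at e1
    have h1 : dv t (cr (lo u) (hi u)) = ν * dv t n := by
      rw [hcr']
      simp only [dv]
      ring
    rw [h1] at e1
    field_simp
    linear_combination e1
  have hx2 : trace (sym a * S) = 2 * dv s n := by
    rw [hS, Matrix.mul_smul, trace_smul, tr_S0, smul_eq_mul]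
    rw [herm_eq] at e2
    have h1 : dv s (cr (lo u) (hi u)) = ν * dv s n := by
      rw [hcr']
      simp only [dv]
      ring
    rw [h1] at e2
    field_simp
    linear_combination e2
  have hx3 : trace (jm (sym h) (sym a) n * S) = io (sym h) (sym a) d p q / ν ^ 2 := by
    have h1 := tr_jm_S0 d h a p q
    rw [hcr', jm_smul', Matrix.smul_mul, trace_smul, smul_eq_mul] at h1
    rw [hS, Matrix.mul_smul, trace_smul, smul_eq_mul, ← h1]
    field_simp
  have hSS := SS_unique h a n hD S hSt hSn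
  rw [hx1, hx2, hx3] at hSS
  have hST : Mm T S := by
    rw [hSS]
    exact Mm.SS (fun i j => sym_mem hh i j) (fun i j => sym_mem ha i j) hn
      (mul_mem two_memT (dv_mem ht hn)) (mul_mem two_memT (dv_mem hs hn)) hio
  have hpq : ∀ j, cr n (Pi.single i 1) j * ν = p i * q j - q i * p j := by
    intro j
    have h1 := (col_S0 d p q i j).2
    rw [hcr'] at h1
    rw [← h1]
    fin_cases j <;> simp only [cr, Matrix.cons_val_zero, Matrix.cons_val_one, Matrix.cons_val,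
      Fin.zero_eta, Fin.mk_one, Fin.reduceFinMk] <;> ring
  have hcrT : ∀ j, cr n (Pi.single i 1) j ∈ T := fun j => cr_mem hn (fun l => by
    rw [Pi.single_apply]
    split_ifs
    · exact one_mem T
    · exact zero_mem T) j
  have hSc : ∀ j, S j i * ν = p i * p j - d * (q i * q j) := by
    intro j
    rw [hS, Matrix.smul_apply, smul_eq_mul, (col_S0 d p q i j).1]
    field_simp
  refine ⟨![S 0 i, S 1 i, S 2 i, cr n (Pi.single i 1) 0, cr n (Pi.single i 1) 1,
    cr n (Pi.single i 1) 2], ν * p i / N, ν * q i / N, ?_, ?_⟩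
  · intro j
    fin_cases j
    · exact hST 0 i
    · exact hST 1 i
    · exact hST 2 i
    · exact hcrT 0
    · exact hcrT 1
    · exact hcrT 2
  · have hu : u = ![p 0, p 1, p 2, q 0, q 1, q 2] := by
      funext j
      fin_cases j <;> rfl
    have a0 : ∀ j, p j = ν * p i / N * S j i + ν * q i / N * (d * cr n (Pi.single i 1) j) := by
      intro j
      field_simp
      linear_combination -(p i) * hSc j - d * q i * hpq j
    have b0 : ∀ j, q j = ν * p i / N * cr n (Pi.single i 1) j + ν * q i / N * S j i := by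
      intro j
      field_simp
      linear_combination -(p i) * hpq j - q i * hSc j
    conv_lhs => rw [hu]
    funext j
    fin_cases j
    · exact a0 0
    · exact a0 1
    · exact a0 2
    · exact b0 0
    · exact b0 1
    · exact b0 2

end Pool.Agent.GTE
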