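import Pool.Agent.GTE.IdK
import Pool.Agent.GTE.SplitN
import Pool.Agent.GTE.KDefs
import Pool.Agent.GTE.GoodS

/-!
# GTE: the K3 surface of a datum and its pencil

A point `(z, a - x h)` of the surface of a datum over `M`, `M` of degree 3 over `K`, is a root of the
determinant of the pencil `H = EDat.hp` (`gen_z`: `z = g - x m`, `gen_dH`), and the upper left minor
of the matrix `x B 0 - B 1` is `cls / d` (`gen_kap`).

`split_E`: if `cls` is a norm, the pencil is split. `eig_E`: the eigenvector of the pencil.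
-/

set_option autoImplicit false

noncomputable section

namespace Pool.Agent.GTE.SE

open Matrix Pool.Agent.GSH Pool.Agent.GSX Pool.Agent.GSQ Pool.Agent.GSE2
open scoped Quaternion

section Ring

variable {R : Type} [CommRing R]

theorem aM_sub (E : EDat R) (c : Fin 2 → R) (x : R) :
    E.aM c - x • E.hM = sym fun k => E.a5 c k - x * E.h5 k := by
  ext i j
  fin_cases i <;> fin_cases j <;> simp [EDat.aM, EDat.hM, EDat.a5, EDat.h5, sym]
  ring

/-- `tri (z, h, ·)` is alternating -/
theorem tri_sub (z h a : Matrix (Fin 3) (Fin 3) R) (x : R) :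
    tri z h (a - x • h) = tri z h a := by
  funext i
  fin_cases i <;>
    simp only [tri, vec, Matrix.mul_sub, Matrix.sub_mul, Matrix.mul_smul, Matrix.smul_mul,
      Matrix.sub_apply, Matrix.add_apply, Matrix.smul_apply, smul_eq_mul, Fin.zero_eta,
      Fin.mk_one, Fin.reduceFinMk, Matrix.cons_val_zero, Matrix.cons_val_one, Matrix.cons_val] <;>
    ring

theorem kf_sub (h a : Matrix (Fin 3) (Fin 3) R) (x : R) :
    kf h (a - x • h) h (a - x • h) = kf h a h a := by
  simp only [kf, dot, Matrix.trace_fin_three, Matrix.mul_apply, Matrix.sub_apply,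
    Fin.sum_univ_three, Matrix.smul_apply, smul_eq_mul]
  ring

/-- the vector `tri (z, h, a)` is linear in `z` -/
theorem tri_comb (g m : Fin 5 → R) (x : R) (h a : Matrix (Fin 3) (Fin 3) R) (i : Fin 3) :
    tri (sym fun k => g k - x * m k) h a i = tri (sym g) h a i - x * tri (sym m) h a i := by
  have h1 : sym (fun k => g k - x * m k) = sym g - x • sym m := by
    ext i j
    fin_cases i <;> fin_cases j <;> simp [sym]
    ring
  rw [h1]
  fin_cases i <;>
    simp only [tri, vec, Matrix.mul_sub, Matrix.sub_mul, Matrix.mul_smul, Matrix.smul_mul,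
      Matrix.sub_apply, Matrix.add_apply, Matrix.smul_apply, smul_eq_mul, Fin.zero_eta,
      Fin.mk_one, Fin.reduceFinMk, Matrix.cons_val_zero, Matrix.cons_val_one, Matrix.cons_val] <;>
    ring

end Ring

section Field

variable {M : Type} [Field M]

/-- `z = g - x m` -/
theorem surf_z {E : EDat M} {c : Fin 2 → M} {x : M} {z m g : Fin 5 → M} (hS : E.Surf c x z)
    (hs : E.Sol c m g) (hd : E.gd c ≠ 0) : z = fun k => g k - x * m k := by
  have hu : IsUnit (E.sysM c).det := isUnit_iff_ne_zero.2 hd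
  have hqa : dot (sym z) (E.aM c) = x * E.ah c := by
    have h1 := hS.quad
    have h2 := hS.h
    unfold dot at h1 h2 ⊢
    rw [Matrix.mul_sub, Matrix.mul_smul, trace_sub, trace_smul, smul_eq_mul, h2] at h1
    linear_combination h1
  have h1 : E.sysM c *ᵥ z = fun i => E.rhg c i - x * E.rhm c i := by
    funext i
    fin_cases i
    · refine ((dot_sym z E.h5).symm.trans hS.h).trans ?_
      simp [EDat.rhg, EDat.rhm]
    · exact (dot_sym z (E.f 0)).symm.trans (hS.f 0)
    · exact (dot_sym z (E.f 1)).symm.trans (hS.f 1)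
    · exact (dot_sym z (E.f 2)).symm.trans (hS.f 2)
    · refine ((dot_sym z (E.a5 c)).symm.trans hqa).trans ?_
      simp [EDat.rhg, EDat.rhm]
  have h2 : E.sysM c *ᵥ (fun k => g k - x * m k) = fun i => E.rhg c i - x * E.rhm c i := by
    have h3 : (fun k => g k - x * m k) = g - x • m := rfl
    rw [h3, Matrix.mulVec_sub, Matrix.mulVec_smul, hs.sysg, hs.sysm]
    rfl
  have h3 := congrArg (fun v => (E.sysM c)⁻¹ *ᵥ v) (h1.trans h2.symm)
  simpa only [Matrix.mulVec_mulVec, Matrix.nonsing_inv_mul _ hu, Matrix.one_mulVec] using h3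

/-- the determinant of the hermitian matrix of the point -/
theorem surf_det [CharZero M] {E : EDat M} {c : Fin 2 → M} {x : M} {z : Fin 5 → M}
    (hS : E.Surf c x z) :
    E.d c * (E.aM c - x • E.hM).det + tri (sym z) E.hM (E.aM c) ⬝ᵥ
      ((E.aM c - x • E.hM) *ᵥ tri (sym z) E.hM (E.aM c)) = 0 := by
  have hq := hS.quad
  have h1 := id_cub E.h (fun k => E.a5 c k - x * E.h5 k) z (by
    rw [← aM_sub]
    exact hq)
  rw [← aM_sub] at h1
  change 3 * (dot (sym z) E.hM ^ 2 * (E.aM c - x • E.hM).det +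
    tri (sym z) E.hM (E.aM c - x • E.hM) ⬝ᵥ ((E.aM c - x • E.hM) *ᵥ
      tri (sym z) E.hM (E.aM c - x • E.hM))) = kf E.hM (E.aM c - x • E.hM) E.hM
        (E.aM c - x • E.hM) * trace (sym z * sym z * (E.aM c - x • E.hM)) at h1
  rw [tri_sub, kf_sub, hS.h] at h1
  have h2 := hS.cubic
  have h3 : (3 : M) ≠ 0 := by norm_num
  refine (mul_right_inj' h3).1 ?_
  rw [mul_zero]
  unfold EDat.d
  linear_combination h1 + kf E.hM (E.aM c) E.hM (E.aM c) * h2

end Field

section Gen

variable {K : Type} [Field K] {M : Type} [Field M] [Algebra K M]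

/-- the entries of the hermitian matrix of the pencil -/
theorem pM_hp (E : EDat K) (c : Fin 2 → K) (m g : Fin 5 → K) (x : M) :
    GSK.pM (E.hp c m g) x = fun i => -(![((E.map (algebraMap K M)).aM (fun i => algebraMap K M (c i)) -
      x • (E.map (algebraMap K M)).hM) 0 0, ((E.map (algebraMap K M)).aM (fun i => algebraMap K M (c i)) -
      x • (E.map (algebraMap K M)).hM) 0 1, ((E.map (algebraMap K M)).aM (fun i => algebraMap K M (c i)) -
      x • (E.map (algebraMap K M)).hM) 0 2, ((E.map (algebraMap K M)).aM (fun i => algebraMap K M (c i)) -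
      x • (E.map (algebraMap K M)).hM) 1 1, ((E.map (algebraMap K M)).aM (fun i => algebraMap K M (c i)) -
      x • (E.map (algebraMap K M)).hM) 1 2, ((E.map (algebraMap K M)).aM (fun i => algebraMap K M (c i)) -
      x • (E.map (algebraMap K M)).hM) 2 2] i) := by
  rw [EDat.hM_map, EDat.aM_map]
  funext i
  fin_cases i <;>
    simp only [GSK.pM, EDat.hp, Matrix.sub_apply, Matrix.smul_apply, Matrix.map_apply, smul_eq_mul,
      Fin.zero_eta, Fin.mk_one, Fin.reduceFinMk, Matrix.cons_val_zero, Matrix.cons_val_one,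
      Matrix.cons_val] <;> ring

theorem qM_hp (E : EDat K) (c : Fin 2 → K) (m g : Fin 5 → K) (x : M) :
    GSK.qM (E.hp c m g) x = fun i => -(![tri (sym fun k => algebraMap K M (g k) -
      x * algebraMap K M (m k)) (E.map (algebraMap K M)).hM
      ((E.map (algebraMap K M)).aM (fun i => algebraMap K M (c i))) 2 / algebraMap K M (E.d c),
      -(tri (sym fun k => algebraMap K M (g k) -
      x * algebraMap K M (m k)) (E.map (algebraMap K M)).hM
      ((E.map (algebraMap K M)).aM (fun i => algebraMap K M (c i))) 1 / algebraMap K M (E.d c)),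
      tri (sym fun k => algebraMap K M (g k) -
      x * algebraMap K M (m k)) (E.map (algebraMap K M)).hM
      ((E.map (algebraMap K M)).aM (fun i => algebraMap K M (c i))) 0 / algebraMap K M (E.d c)] i) := by
  have ht : ∀ (v : Fin 5 → K) (i : Fin 3), tri (sym fun k => algebraMap K M (v k))
      (E.map (algebraMap K M)).hM ((E.map (algebraMap K M)).aM fun i => algebraMap K M (c i)) i =
        algebraMap K M (tri (sym v) E.hM (E.aM c) i) := fun v i => by
    rw [sym_map, EDat.hM_map, EDat.aM_map, tri_map]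
  simp only [tri_comb, ht]
  funext i
  fin_cases i <;>
    simp only [GSK.qM, EDat.hp, map_div₀, map_neg,
      Fin.zero_eta, Fin.mk_one, Fin.reduceFinMk, Matrix.cons_val_zero, Matrix.cons_val_one,
      Matrix.cons_val] <;> ring

/-- the determinant of a hermitian matrix -/
theorem dH_neg [CharZero M] {d : M} (hd : d ≠ 0) (X : Matrix (Fin 3) (Fin 3) M) (hX : Xᵀ = X)
    (t : Fin 3 → M) (h : d * X.det + t ⬝ᵥ (X *ᵥ t) = 0) :
    GSK.dH d (fun i => -(![X 0 0, X 0 1, X 0 2, X 1 1, X 1 2, X 2 2] i))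
      (fun i => -(![t 2 / d, -(t 1 / d), t 0 / d] i)) = 0 := by
  have h10 : X 1 0 = X 0 1 := congrFun (congrFun hX 0) 1
  have h20 : X 2 0 = X 0 2 := congrFun (congrFun hX 0) 2
  have h21 : X 2 1 = X 1 2 := congrFun (congrFun hX 1) 2
  simp only [Matrix.det_fin_three, dotProduct, mulVec, Fin.sum_univ_three, h10, h20, h21] at h
  simp only [GSK.dH, Matrix.cons_val_zero, Matrix.cons_val_one, Matrix.cons_val]
  field_simp
  linear_combination -h

theorem kap_neg {d : M} (hd : d ≠ 0) (X : Matrix (Fin 3) (Fin 3) M) (t : Fin 3 → M) :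
    GSK.kap d (fun i => -(![X 0 0, X 0 1, X 0 2, X 1 1, X 1 2, X 2 2] i))
      (fun i => -(![t 2 / d, -(t 1 / d), t 0 / d] i)) =
      (d * (X 0 0 * X 1 1 - X 0 1 ^ 2) + t 2 ^ 2) / d := by
  simp only [GSK.kap, Matrix.cons_val_zero, Matrix.cons_val_one, Matrix.cons_val]
  field_simp
  ring

end Gen

section Main

variable {M : Type} [Field M] [Algebra TK.K M]

variable {E : EDat ℂ} {c : Fin 2 → TK.K} {x : M} {z : Fin 5 → M} {m g : Fin 5 → TK.K}

theorem cc_map (E : EDat ℂ) :
    (E.map (algebraMap ℂ TK.K)).map (algebraMap TK.K M) = E.map (TK.cc M) := rfl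

/-- the determinant of the matrix of the point is zero -/
theorem gen_dH (hG : E.Gen c x z) (hs : (E.map (algebraMap ℂ TK.K)).Sol c m g)
    (hg : (E.map (algebraMap ℂ TK.K)).gd c ≠ 0) (hd : (E.map (algebraMap ℂ TK.K)).d c ≠ 0) :
    GSK.dH (algebraMap TK.K M ((E.map (algebraMap ℂ TK.K)).hp c m g).d)
      (GSK.pM ((E.map (algebraMap ℂ TK.K)).hp c m g) x)
      (GSK.qM ((E.map (algebraMap ℂ TK.K)).hp c m g) x) = 0 := by
  have : CharZero M := charZero_of_injective_algebraMap (algebraMap TK.K M).injective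
  have hd' : algebraMap TK.K M ((E.map (algebraMap ℂ TK.K)).d c) ≠ 0 := (map_ne_zero _).2 hd
  have hz := surf_z hG.surf (hs.map (algebraMap TK.K M)) (by
    rw [← cc_map, EDat.gd_map]
    exact (map_ne_zero _).2 hg)
  rw [pM_hp, qM_hp, cc_map, ← hz]
  refine dH_neg hd' _ ?_ _ ?_
  · rw [aM_sub]
    ext i j
    fin_cases i <;> fin_cases j <;> rfl
  · have h1 := surf_det hG.surf
    rw [← cc_map, EDat.d_map] at h1
    rw [← cc_map]
    exact h1

/-- the upper left minor of the matrix of the point -/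
theorem gen_kap (hG : E.Gen c x z) (hs : (E.map (algebraMap ℂ TK.K)).Sol c m g)
    (hg : (E.map (algebraMap ℂ TK.K)).gd c ≠ 0) (hd : (E.map (algebraMap ℂ TK.K)).d c ≠ 0) :
    GSK.kap (algebraMap TK.K M ((E.map (algebraMap ℂ TK.K)).hp c m g).d)
      (GSK.pM ((E.map (algebraMap ℂ TK.K)).hp c m g) x)
      (GSK.qM ((E.map (algebraMap ℂ TK.K)).hp c m g) x) =
      (E.map (TK.cc M)).cls (fun i => algebraMap TK.K M (c i)) x z /
        algebraMap TK.K M ((E.map (algebraMap ℂ TK.K)).d c) := by
  have hd' : algebraMap TK.K M ((E.map (algebraMap ℂ TK.K)).d c) ≠ 0 := (map_ne_zero _).2 hd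
  have hz := surf_z hG.surf (hs.map (algebraMap TK.K M)) (by
    rw [← cc_map, EDat.gd_map]
    exact (map_ne_zero _).2 hg)
  rw [pM_hp, qM_hp, cc_map, ← hz]
  have h1 := kap_neg hd' ((E.map (TK.cc M)).aM (fun i => algebraMap TK.K M (c i)) -
    x • (E.map (TK.cc M)).hM) (tri (sym z) (E.map (TK.cc M)).hM ((E.map (TK.cc M)).aM
      fun i => algebraMap TK.K M (c i)))
  refine h1.trans ?_
  unfold EDat.cls
  congr 3
  rw [← EDat.d_map, cc_map]

end Main

end Pool.Agent.GTE.SE
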