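import Pool.Agent.GTE.Defs

/-!
# GTE: vectors and quadratic forms (notation for the proofs)

`aq x n = nᵀ adj(x) n` for a symmetric matrix `x`, `ap` its polar form, `xn x n = -[n] x [n]`,
`jm h a n` the symmetric matrix of the form `n · (h u × a u)`, `D0 h a n = ap ^ 2 - 4 aq aq`.
-/

set_option autoImplicit false

noncomputable section

namespace Pool.Agent.GTE

open Matrix

variable {R : Type} [CommRing R]

/-- the scalar product of two vectors -/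
def dv (u v : Fin 3 → R) : R := u 0 * v 0 + u 1 * v 1 + u 2 * v 2

/-- the cross product -/
def cr (u v : Fin 3 → R) : Fin 3 → R :=
  ![u 1 * v 2 - u 2 * v 1, u 2 * v 0 - u 0 * v 2, u 0 * v 1 - u 1 * v 0]

/-- the value `uᵀ x v` -/
def qf (x : Matrix (Fin 3) (Fin 3) R) (u v : Fin 3 → R) : R :=
  u 0 * (x 0 0 * v 0 + x 0 1 * v 1 + x 0 2 * v 2) + u 1 * (x 1 0 * v 0 + x 1 1 * v 1 + x 1 2 * v 2) +
    u 2 * (x 2 0 * v 0 + x 2 1 * v 1 + x 2 2 * v 2)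

/-- the value `nᵀ adj(x) n` for a symmetric matrix `x` -/
def aq (x : Matrix (Fin 3) (Fin 3) R) (n : Fin 3 → R) : R :=
  (x 1 1 * x 2 2 - x 1 2 ^ 2) * n 0 ^ 2 + (x 0 0 * x 2 2 - x 0 2 ^ 2) * n 1 ^ 2 +
    (x 0 0 * x 1 1 - x 0 1 ^ 2) * n 2 ^ 2 + 2 * (x 0 2 * x 1 2 - x 0 1 * x 2 2) * (n 0 * n 1) +
    2 * (x 0 1 * x 1 2 - x 0 2 * x 1 1) * (n 0 * n 2) +
    2 * (x 0 1 * x 0 2 - x 0 0 * x 1 2) * (n 1 * n 2)

/-- the polar form of `aq` -/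
def ap (x y : Matrix (Fin 3) (Fin 3) R) (n : Fin 3 → R) : R :=
  (x 1 1 * y 2 2 + y 1 1 * x 2 2 - 2 * (x 1 2 * y 1 2)) * n 0 ^ 2 +
    (x 0 0 * y 2 2 + y 0 0 * x 2 2 - 2 * (x 0 2 * y 0 2)) * n 1 ^ 2 +
    (x 0 0 * y 1 1 + y 0 0 * x 1 1 - 2 * (x 0 1 * y 0 1)) * n 2 ^ 2 +
    2 * (x 0 2 * y 1 2 + y 0 2 * x 1 2 - x 0 1 * y 2 2 - y 0 1 * x 2 2) * (n 0 * n 1) +
    2 * (x 0 1 * y 1 2 + y 0 1 * x 1 2 - x 0 2 * y 1 1 - y 0 2 * x 1 1) * (n 0 * n 2) +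
    2 * (x 0 1 * y 0 2 + y 0 1 * x 0 2 - x 0 0 * y 1 2 - y 0 0 * x 1 2) * (n 1 * n 2)

/-- four times the discriminant of the pencil `h`, `a` on the line `n` -/
def D0 (h a : Matrix (Fin 3) (Fin 3) R) (n : Fin 3 → R) : R := ap h a n ^ 2 - 4 * (aq h n * aq a n)

/-- four times the discriminant `d (Q₀ ² - h# a#) - (a# s₁ ² - 2 Q₀ s₁ s₂ + h# s₂ ²)` -/
def Dl (h a : Matrix (Fin 3) (Fin 3) R) (d s₁ s₂ : R) (n : Fin 3 → R) : R :=
  d * D0 h a n - 4 * (aq a n * s₁ ^ 2 - ap h a n * (s₁ * s₂) + aq h n * s₂ ^ 2)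

/-- the number `2 (apq (hpp + d hqq) - hpq (app + d aqq))` -/
def io (h a : Matrix (Fin 3) (Fin 3) R) (d : R) (p q : Fin 3 → R) : R :=
  2 * (qf a p q * (qf h p p + d * qf h q q) - qf h p q * (qf a p p + d * qf a q q))

/-- the first half of a vector -/
def lo (u : Fin 6 → R) : Fin 3 → R := ![u 0, u 1, u 2]

/-- the second half of a vector -/
def hi (u : Fin 6 → R) : Fin 3 → R := ![u 3, u 4, u 5]

/-- the symmetric matrix `-[n] x [n]`, with `tr (y (-[n] x [n])) = ap x y n` -/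
def xn (x : Matrix (Fin 3) (Fin 3) R) (n : Fin 3 → R) : Matrix (Fin 3) (Fin 3) R :=
  -(!![0, -n 2, n 1; n 2, 0, -n 0; -n 1, n 0, 0] * x * !![0, -n 2, n 1; n 2, 0, -n 0; -n 1, n 0, 0])

/-- the matrix of the bilinear form `n · (h u × a v)` -/
def hn (h a : Matrix (Fin 3) (Fin 3) R) (n : Fin 3 → R) : Matrix (Fin 3) (Fin 3) R :=
  hᵀ * !![0, n 2, -n 1; -n 2, 0, n 0; n 1, -n 0, 0] * a

/-- twice the symmetric matrix of the quadratic form `n · (h u × a u)` -/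
def jm (h a : Matrix (Fin 3) (Fin 3) R) (n : Fin 3 → R) : Matrix (Fin 3) (Fin 3) R :=
  hn h a n + (hn h a n)ᵀ

/-- the Gram entries of `kf` on `a ∧ b`, `b ∧ h`, `h ∧ a` -/
def KM (h a b : Matrix (Fin 3) (Fin 3) R) : Matrix (Fin 3) (Fin 3) R := fun i j =>
  kf (![a, b, h] i) (![b, h, a] i) (![a, b, h] j) (![b, h, a] j)

end Pool.Agent.GTE
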